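import Pool.Agent.H78.Blow.Defs
import Pool.Agent.H67.Blow.Pins

set_option autoImplicit false

open Finset Fintype

namespace H78B

variable {n : ℕ} {W : Type} [Fintype W]

open Classical in
lemma UClose_one (H : SimpleGraph W) (G : SimpleGraph (Fin n)) (x : Fin n) (u : W) :
    #(univ.filter (fun f : W → Fin n => HomOff H G u f ∧ ∀ b, H.Adj u b → f b ∈ nb G x))
      = n * #(univ.filter (fun f : W → Fin n => Hom H G f ∧ f u = x)) := by
  have e : n * #(univ.filter (fun f : W → Fin n => Hom H G f ∧ f u = x)) =
      #((univ : Finset (Fin n)) ×ˢ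
        (univ.filter (fun f : W → Fin n => Hom H G f ∧ f u = x))) := by
    rw [card_product]; simp
  rw [e]
  symm
  apply Finset.card_bij' (fun (p : Fin n × (W → Fin n)) _ => Function.update p.2 u p.1)
    (fun f _ => (f u, Function.update f u x))
  · rintro ⟨y, f⟩ hf
    simp only [mem_product, mem_univ, true_and, mem_filter] at hf
    obtain ⟨h1, h2⟩ := hf
    simp only [mem_filter, mem_univ, true_and, mem_nb]
    refine ⟨?_, ?_⟩
    · intro a b ha hb hab
      rw [Function.update_of_ne ha, Function.update_of_ne hb]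
      exact h1 a b hab
    · intro b hb
      have hbu : b ≠ u := fun h => by subst h; exact H.loopless.irrefl _ hb
      rw [Function.update_of_ne hbu]
      have := h1 u b hb
      rwa [h2] at this
  · intro f hf
    simp only [mem_filter, mem_univ, true_and, mem_nb] at hf
    obtain ⟨h1, h2⟩ := hf
    simp only [mem_product, mem_univ, true_and, mem_filter, Function.update_self, and_true]
    intro a b hab
    by_cases ha : a = u
    · subst ha
      have hbu : b ≠ a := fun h => by subst h; exact H.loopless.irrefl _ hab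
      rw [Function.update_self, Function.update_of_ne hbu]
      exact h2 b hab
    · by_cases hb : b = u
      · subst hb
        rw [Function.update_self, Function.update_of_ne ha]
        exact (h2 a hab.symm).symm
      · rw [Function.update_of_ne ha, Function.update_of_ne hb]
        exact h1 a b ha hb hab
  · rintro ⟨y, f⟩ hf
    simp only [mem_product, mem_univ, true_and, mem_filter] at hf
    simp only [Function.update_self, Function.update_idem, Prod.mk.injEq, true_and]
    rw [← hf.2, Function.update_eq_self]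
  · intro f hf
    simp

open Classical in
theorem U_nb (H : SimpleGraph W) (G : SimpleGraph (Fin n)) (x : Fin n) :
    U H G (nb G x) =
      (n : ℝ) * ∑ u, (#(univ.filter (fun f : W → Fin n => Hom H G f ∧ f u = x)) : ℝ) := by
  unfold U
  rw [mul_sum]
  apply Finset.sum_congr rfl
  intro u _
  rw [UClose_one]
  push_cast
  rfl

lemma UClose_cliqueFree {V V' : Type*} (G : SimpleGraph V) (φ : V' → V) (m : ℕ)
    (hG : G.CliqueFree m) : (G.comap φ).CliqueFree m := by
  classical
  intro t ht
  obtain ⟨h1, h2⟩ := ht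
  have hinj : Set.InjOn φ (t : Set V') := by
    intro a ha b hb hab
    by_contra hne
    have := h1 ha hb hne
    rw [SimpleGraph.comap_adj, hab] at this
    exact G.loopless.irrefl _ this
  apply hG (t.image φ)
  refine ⟨?_, by rw [card_image_of_injOn hinj, h2]⟩
  intro a ha b hb hab
  simp only [coe_image, Set.mem_image, mem_coe] at ha hb
  obtain ⟨a', ha', rfl⟩ := ha
  obtain ⟨b', hb', rfl⟩ := hb
  have hne : a' ≠ b' := fun h => hab (by rw [h])
  exact h1 ha' hb' hne

lemma UClose_mem_injs {V : Type*} [Fintype V] {H : SimpleGraph W} {G : SimpleGraph V} {f : W → V} :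
    f ∈ H67Blow.injs H G ↔ Function.Injective f ∧ ∀ a b, H.Adj a b → G.Adj (f a) (f b) := by
  simp [H67Blow.injs]

open Classical in
/-- collapse `x` to `z` -/
noncomputable def UClose_cl (x z : Fin n) : Fin n → Fin n := fun a => if a = x then z else a

open Classical in
/-- copies hitting `x` -/
noncomputable def UClose_hit (H : SimpleGraph W) (G : SimpleGraph (Fin n)) (x : Fin n) :
    Finset (W → Fin n) :=
  (H67Blow.injs H G).filter (fun f => ∃ a, f a = x)

open Classical in
lemma UClose_clone (q : ℕ) (H : SimpleGraph W) (G : SimpleGraph (Fin n)) (hG : Ext q H G)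
    (x z : Fin n) :
    #((UClose_hit H G z).filter (fun f => ¬ ∃ a, f a = x)) ≤ #(UClose_hit H G x) := by
  have hext := hG.2 (G.comap (UClose_cl x z)) (UClose_cliqueFree _ _ _ hG.1)
  let A := (H67Blow.injs H G).filter (fun f => ¬ ∃ a, f a = x)
  let B := (UClose_hit H G z).filter (fun f => ¬ ∃ a, f a = x)
  let sw : (W → Fin n) → (W → Fin n) := fun f a => Equiv.swap z x (f a)
  have hsw : Function.Injective sw := by
    intro f g h
    funext a
    have := congrFun h a
    exact (Equiv.swap z x).injective this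
  have hsub : A ∪ B.image sw ⊆ H67Blow.injs H (G.comap (UClose_cl x z)) := by
    intro f hf
    rw [mem_union] at hf
    rcases hf with hf | hf
    · simp only [A, mem_filter, UClose_mem_injs, not_exists] at hf
      rw [UClose_mem_injs]
      refine ⟨hf.1.1, fun a b hab => ?_⟩
      have h1 := hf.2 a
      have h2 := hf.2 b
      rw [SimpleGraph.comap_adj]
      simp only [UClose_cl, if_neg h1, if_neg h2]
      exact hf.1.2 a b hab
    · rw [mem_image] at hf
      obtain ⟨g, hg, rfl⟩ := hf
      simp only [B, UClose_hit, mem_filter, UClose_mem_injs, not_exists] at hg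
      rw [UClose_mem_injs]
      refine ⟨fun a b h => hg.1.1.1 ((Equiv.swap z x).injective h), fun a b hab => ?_⟩
      have key : ∀ c, UClose_cl x z (sw g c) = g c := by
        intro c
        have h1 := hg.2 c
        by_cases h2 : g c = z
        · simp only [sw, h2, Equiv.swap_apply_left, UClose_cl, if_true]
        · simp only [sw, Equiv.swap_apply_of_ne_of_ne h2 h1, UClose_cl, if_neg h1]
      rw [SimpleGraph.comap_adj, key a, key b]
      exact hg.1.1.2 a b hab
  have hdisj : Disjoint A (B.image sw) := by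
    rw [Finset.disjoint_left]
    intro f hf hf'
    rw [mem_image] at hf'
    obtain ⟨g, hg, rfl⟩ := hf'
    simp only [A, B, UClose_hit, mem_filter, not_exists] at hf hg
    obtain ⟨⟨_, a, ha⟩, _⟩ := hg
    exact hf.2 a (by simp [sw, ha])
  have h1 : #A + #B ≤ H67Blow.num H G := by
    calc #A + #B = #(A ∪ B.image sw) := by
          rw [Finset.card_union_of_disjoint hdisj, Finset.card_image_of_injective _ hsw]
      _ ≤ #(H67Blow.injs H (G.comap (UClose_cl x z))) := Finset.card_le_card hsub
      _ ≤ H67Blow.num H G := hext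
  have h2 : #(UClose_hit H G x) + #A = H67Blow.num H G := by
    unfold H67Blow.num UClose_hit
    exact Finset.card_filter_add_card_filter_not _
  change #B ≤ _
  omega

open Classical in
lemma UClose_hit_le (q : ℕ) (H : SimpleGraph W) (G : SimpleGraph (Fin n)) (hG : Ext q H G)
    (x z : Fin n) :
    (#(UClose_hit H G z) : ℝ) ≤ #(UClose_hit H G x) +
      (card W : ℝ) ^ 2 * ((n : ℝ) ^ (card W) / (n : ℝ) ^ 2) := by
  have : Nonempty (Fin n) := ⟨x⟩
  by_cases hxz : x = z
  · subst hxz
    have : 0 ≤ (card W : ℝ) ^ 2 * ((n : ℝ) ^ (card W) / (n : ℝ) ^ 2) := by positivity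
    linarith
  have h1 := UClose_clone q H G hG x z
  have h2 : #((UClose_hit H G z).filter (fun f => ∃ a, f a = x)) +
      #((UClose_hit H G z).filter (fun f => ¬ ∃ a, f a = x)) = #(UClose_hit H G z) :=
    Finset.card_filter_add_card_filter_not _
  have h3 : (UClose_hit H G z).filter (fun f => ∃ a, f a = x) ⊆
      (univ.filter (fun p : W × W => p.1 ≠ p.2)).biUnion
        (fun p => univ.filter (fun f : W → Fin n => f p.1 = z ∧ f p.2 = x)) := by
    intro f hf
    simp only [UClose_hit, mem_filter] at hf
    obtain ⟨⟨_, a, ha⟩, b, hb⟩ := hf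
    simp only [mem_biUnion, mem_filter, mem_univ, true_and]
    refine ⟨(a, b), ?_, ha, hb⟩
    intro hab
    have hab' : a = b := hab
    rw [hab', hb] at ha
    exact hxz ha
  have h4 : (#((UClose_hit H G z).filter (fun f => ∃ a, f a = x)) : ℝ) ≤
      ∑ p ∈ univ.filter (fun p : W × W => p.1 ≠ p.2),
        (#(univ.filter (fun f : W → Fin n => f p.1 = z ∧ f p.2 = x)) : ℝ) := by
    exact_mod_cast (Finset.card_le_card h3).trans Finset.card_biUnion_le
  have h5 : (#((UClose_hit H G z).filter (fun f => ∃ a, f a = x)) : ℝ) ≤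
      (card W : ℝ) ^ 2 * ((n : ℝ) ^ (card W) / (n : ℝ) ^ 2) := by
    refine h4.trans ((Finset.sum_le_sum (fun p hp => H67Blow.pin2 p.1 p.2 (by simpa using hp)
      {z} {x} _ (fun f hf => by simpa using hf))).trans ?_)
    rw [Finset.sum_const, nsmul_eq_mul]
    simp only [card_singleton, Nat.cast_one, one_mul, Fintype.card_fin]
    apply mul_le_mul_of_nonneg_right _ (by positivity)
    have : #(univ.filter (fun p : W × W => p.1 ≠ p.2)) ≤ card W ^ 2 := by
      refine (Finset.card_filter_le _ _).trans ?_
      rw [Finset.card_univ, Fintype.card_prod]; nlinarith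
    exact_mod_cast this
  have h6 : (#(UClose_hit H G z) : ℝ) =
      #((UClose_hit H G z).filter (fun f => ∃ a, f a = x)) +
      #((UClose_hit H G z).filter (fun f => ¬ ∃ a, f a = x)) := by
    exact_mod_cast h2.symm
  have h7 : (#((UClose_hit H G z).filter (fun f => ¬ ∃ a, f a = x)) : ℝ) ≤
      #(UClose_hit H G x) := by exact_mod_cast h1
  linarith

open Classical in
/-- non-injective functions with a prescribed value. -/
lemma UClose_noninj (u : W) (z : Fin n) :
    (#(univ.filter (fun f : W → Fin n => ¬ Function.Injective f ∧ f u = z)) : ℝ) ≤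
      (card W : ℝ) ^ 2 * ((n : ℝ) ^ (card W) / (n : ℝ) ^ 2) := by
  have : Nonempty (Fin n) := ⟨z⟩
  have hn : (0 : ℝ) < n := by
    have : 0 < n := Fin.pos z
    exact_mod_cast this
  have h0 : ∀ a b : W, a ≠ u → a ≠ b →
      (#(univ.filter (fun f : W → Fin n => f a = f b ∧ f u = z)) : ℝ) ≤
        (n : ℝ) ^ (card W) / (n : ℝ) ^ 2 := by
    intro a b hau hab
    have h := H67Blow.pin_eq (V := Fin n) ({u} : Finset W) (fun _ => {z}) a b (by simpa using hau)
      hab
    have e1 : (univ.filter (fun f : W → Fin n => f a = f b ∧ f u = z)) =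
        (H67Blow.pin ({u} : Finset W) (fun _ => ({z} : Finset (Fin n)))).filter
          (fun f => f a = f b) := by
      ext f
      simp only [mem_filter, mem_univ, true_and, H67Blow.pin, mem_singleton, forall_eq]
      tauto
    have e2 := H67Blow.pin_card (V := Fin n) ({u} : Finset W) (fun _ => {z})
    simp only [prod_singleton, card_singleton, Nat.cast_one, Fintype.card_fin] at e2
    rw [e1]
    have h' : (n : ℝ) * (#((H67Blow.pin ({u} : Finset W)
        (fun _ => ({z} : Finset (Fin n)))).filter (fun f => f a = f b)) : ℝ) ≤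
        (#(H67Blow.pin ({u} : Finset W) (fun _ => ({z} : Finset (Fin n)))) : ℝ) := by
      rw [Fintype.card_fin] at h
      have h9 : ((n * #((H67Blow.pin ({u} : Finset W)
        (fun _ => ({z} : Finset (Fin n)))).filter (fun f => f a = f b)) : ℕ) : ℝ) ≤
        ((#(H67Blow.pin ({u} : Finset W) (fun _ => ({z} : Finset (Fin n)))) : ℕ) : ℝ) := by
        apply Nat.cast_le.mpr
        convert h
      rw [Nat.cast_mul] at h9
      exact h9
    rw [e2] at h'
    rw [le_div_iff₀ (by positivity)]
    have h'' := mul_le_mul_of_nonneg_left h' hn.le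
    have e3 : (n : ℝ) * (1 / (n : ℝ) * (n : ℝ) ^ card W) = (n : ℝ) ^ card W := by
      field_simp
    rw [e3] at h''
    linarith [h'']
  have h1 : univ.filter (fun f : W → Fin n => ¬ Function.Injective f ∧ f u = z) ⊆
      (univ.filter (fun p : W × W => p.1 ≠ u ∧ p.1 ≠ p.2)).biUnion
        (fun p => univ.filter (fun f : W → Fin n => f p.1 = f p.2 ∧ f u = z)) := by
    intro f hf
    simp only [mem_filter, mem_univ, true_and, Function.Injective, not_forall] at hf
    obtain ⟨⟨a, b, hab, hne⟩, hu⟩ := hf
    simp only [mem_biUnion, mem_filter, mem_univ, true_and]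
    by_cases ha : a = u
    · exact ⟨(b, a), ⟨fun h => hne (ha.trans h.symm), fun h => hne h.symm⟩, hab.symm, hu⟩
    · exact ⟨(a, b), ⟨ha, hne⟩, hab, hu⟩
  have h2 : (#(univ.filter (fun f : W → Fin n => ¬ Function.Injective f ∧ f u = z)) : ℝ) ≤
      ∑ p ∈ univ.filter (fun p : W × W => p.1 ≠ u ∧ p.1 ≠ p.2),
        (#(univ.filter (fun f : W → Fin n => f p.1 = f p.2 ∧ f u = z)) : ℝ) := by
    exact_mod_cast (Finset.card_le_card h1).trans Finset.card_biUnion_le
  refine h2.trans ((Finset.sum_le_sum (fun p hp => ?_)).trans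
    (b := ∑ _p ∈ univ.filter (fun p : W × W => p.1 ≠ u ∧ p.1 ≠ p.2),
      (n : ℝ) ^ (card W) / (n : ℝ) ^ 2) ?_)
  · simp only [mem_filter, mem_univ, true_and] at hp
    exact h0 p.1 p.2 hp.1 hp.2
  · rw [Finset.sum_const, nsmul_eq_mul]
    apply mul_le_mul_of_nonneg_right _ (by positivity)
    have : #(univ.filter (fun p : W × W => p.1 ≠ u ∧ p.1 ≠ p.2)) ≤ card W ^ 2 := by
      refine (Finset.card_filter_le _ _).trans ?_
      rw [Finset.card_univ, Fintype.card_prod]; nlinarith
    exact_mod_cast this

open Classical in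
lemma UClose_hit_eq (H : SimpleGraph W) (G : SimpleGraph (Fin n)) (z : Fin n) :
    #(UClose_hit H G z) = ∑ u : W, #((H67Blow.injs H G).filter (fun f => f u = z)) := by
  have h1 : UClose_hit H G z =
      (univ : Finset W).biUnion (fun u => (H67Blow.injs H G).filter (fun f => f u = z)) := by
    ext f
    simp only [UClose_hit, mem_filter, mem_biUnion, mem_univ, true_and]
    constructor
    · rintro ⟨h, a, ha⟩
      exact ⟨a, h, ha⟩
    · rintro ⟨a, h, ha⟩
      exact ⟨h, a, ha⟩
  rw [h1, card_biUnion]
  intro u _ v _ huv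
  simp only [disjoint_left, mem_filter, not_and]
  intro f hf _ hf'
  exact huv ((UClose_mem_injs.mp hf.1).1 (hf.2.trans hf'.symm))

/-! ## BL-2 : all neighbourhoods have almost the same usage -/
theorem U_close (q : ℕ) (H : SimpleGraph W) :
    ∃ C : ℝ, 0 < C ∧ ∀ (n : ℕ) (G : SimpleGraph (Fin n)), Ext q H G → ∀ x y : Fin n,
      U H G (nb G x) ≤ U H G (nb G y) + C / n * (n : ℝ) ^ card W := by
  classical
  refine ⟨(card W : ℝ) ^ 2 + (card W : ℝ) ^ 3 + 1, by positivity, ?_⟩
  intro n G hG x y
  have hn : (0 : ℝ) < n := by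
    have : 0 < n := Fin.pos x
    exact_mod_cast this
  rw [U_nb, U_nb]
  set X := (n : ℝ) ^ (card W) / (n : ℝ) ^ 2 with hX
  have hX0 : 0 ≤ X := by positivity
  have h1 : (∑ u, (#(univ.filter (fun f : W → Fin n => Hom H G f ∧ f u = x)) : ℝ)) ≤
      (#(UClose_hit H G x) : ℝ) + (card W : ℝ) * ((card W : ℝ) ^ 2 * X) := by
    rw [UClose_hit_eq]
    push_cast
    have e : (card W : ℝ) * ((card W : ℝ) ^ 2 * X) = ∑ _u : W, ((card W : ℝ) ^ 2 * X) := by
      rw [sum_const, card_univ, nsmul_eq_mul]
    rw [e, ← sum_add_distrib]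
    apply sum_le_sum
    intro u _
    have h2 : univ.filter (fun f : W → Fin n => Hom H G f ∧ f u = x) ⊆
        (H67Blow.injs H G).filter (fun f => f u = x) ∪
          univ.filter (fun f : W → Fin n => ¬ Function.Injective f ∧ f u = x) := by
      intro f hf
      simp only [mem_filter, mem_univ, true_and] at hf
      simp only [mem_union, mem_filter, mem_univ, true_and, UClose_mem_injs]
      by_cases hi : Function.Injective f
      · exact Or.inl ⟨⟨hi, hf.1⟩, hf.2⟩
      · exact Or.inr ⟨hi, hf.2⟩
    have h3 : (#(univ.filter (fun f : W → Fin n => Hom H G f ∧ f u = x)) : ℝ) ≤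
        #((H67Blow.injs H G).filter (fun f => f u = x)) +
          #(univ.filter (fun f : W → Fin n => ¬ Function.Injective f ∧ f u = x)) := by
      exact_mod_cast (Finset.card_le_card h2).trans (Finset.card_union_le _ _)
    have h4 := UClose_noninj (W := W) u x
    rw [← hX] at h4
    linarith
  have h5 : (#(UClose_hit H G y) : ℝ) ≤
      ∑ u, (#(univ.filter (fun f : W → Fin n => Hom H G f ∧ f u = y)) : ℝ) := by
    rw [UClose_hit_eq]
    push_cast
    apply sum_le_sum
    intro u _
    have : (H67Blow.injs H G).filter (fun f => f u = y) ⊆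
        univ.filter (fun f : W → Fin n => Hom H G f ∧ f u = y) := by
      intro f hf
      simp only [mem_filter, UClose_mem_injs] at hf
      simp only [mem_filter, mem_univ, true_and]
      exact ⟨hf.1.2, hf.2⟩
    exact_mod_cast card_le_card this
  have h6 := UClose_hit_le q H G hG y x
  rw [← hX] at h6
  have h7 : (∑ u, (#(univ.filter (fun f : W → Fin n => Hom H G f ∧ f u = x)) : ℝ)) ≤
      (∑ u, (#(univ.filter (fun f : W → Fin n => Hom H G f ∧ f u = y)) : ℝ)) +
        ((card W : ℝ) ^ 2 + (card W : ℝ) ^ 3 + 1) * X := by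
    nlinarith
  have h8 := mul_le_mul_of_nonneg_left h7 hn.le
  have e : (n : ℝ) * (((card W : ℝ) ^ 2 + (card W : ℝ) ^ 3 + 1) * X) =
      ((card W : ℝ) ^ 2 + (card W : ℝ) ^ 3 + 1) / n * (n : ℝ) ^ card W := by
    rw [hX]; field_simp
  rw [mul_add, e] at h8
  exact h8

end H78B
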