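import Pool.Agent.H78.Blow.Defs
import Pool.Agent.H78.Blow.UClose

set_option autoImplicit false

open Finset Fintype

namespace H78B

variable {n : ℕ} {W : Type} [Fintype W]

/-- the graph in which the vertices of `Z` are attached to `S` and the pairs of `D` are deleted. -/
def AddFree_gr (G : SimpleGraph (Fin n)) (S : Finset (Fin n)) (D : Finset (Fin n × Fin n))
    (Z : Finset (Fin n)) : SimpleGraph (Fin n) where
  Adj p q := (p ∉ Z ∧ q ∉ Z ∧ G.Adj p q ∧ (p, q) ∉ D ∧ (q, p) ∉ D) ∨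
    (p ∈ Z ∧ q ∉ Z ∧ q ∈ S) ∨ (q ∈ Z ∧ p ∉ Z ∧ p ∈ S)
  symm := ⟨by
    rintro p q (⟨h1, h2, h3, h4, h5⟩ | ⟨h1, h2, h3⟩ | ⟨h1, h2, h3⟩)
    · exact Or.inl ⟨h2, h1, h3.symm, h5, h4⟩
    · exact Or.inr (Or.inr ⟨h1, h2, h3⟩)
    · exact Or.inr (Or.inl ⟨h1, h2, h3⟩)⟩
  loopless := ⟨by
    rintro p (⟨_, _, h3, _, _⟩ | ⟨h1, h2, _⟩ | ⟨h1, h2, _⟩)
    · exact G.irrefl h3
    · exact h2 h1
    · exact h2 h1⟩

lemma AddFree_cliqueFree (q : ℕ) (G : SimpleGraph (Fin n)) (hG : G.CliqueFree (q + 2))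
    (S : Finset (Fin n)) (D : Finset (Fin n × Fin n)) (Z : Finset (Fin n))
    (hD : ∀ c ∈ ct (r := q + 1) G (fun _ => S), ∃ i j, i ≠ j ∧ (c i, c j) ∈ D) :
    (AddFree_gr G S D Z).CliqueFree (q + 2) := by
  classical
  intro t ht
  obtain ⟨h1, h2⟩ := ht
  by_cases hz : ∃ z ∈ t, z ∈ Z
  · obtain ⟨z, hzt, hzZ⟩ := hz
    have hcard : #(t.erase z) = q + 1 := by
      rw [card_erase_of_mem hzt, h2]; rfl
    have hadj : ∀ a ∈ t.erase z, a ∉ Z ∧ a ∈ S := by
      intro a ha
      rw [mem_erase] at ha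
      have := h1 (mem_coe.mpr hzt) (mem_coe.mpr ha.2) ha.1.symm
      simp only [AddFree_gr] at this
      tauto
    have hadj2 : ∀ a ∈ t.erase z, ∀ b ∈ t.erase z, a ≠ b → G.Adj a b ∧ (a, b) ∉ D := by
      intro a ha b hb hab
      have ha' := hadj a ha
      have hb' := hadj b hb
      rw [mem_erase] at ha hb
      have := h1 (mem_coe.mpr ha.2) (mem_coe.mpr hb.2) hab
      simp only [AddFree_gr] at this
      tauto
    let e : Fin (q + 1) ≃ {x // x ∈ t.erase z} := (Finset.equivFinOfCardEq hcard).symm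
    have hc : (fun i => (e i : Fin n)) ∈ ct (r := q + 1) G (fun _ => S) := by
      rw [mem_ct]
      refine ⟨fun i j hij => ?_, fun i => (hadj _ (e i).2).2⟩
      exact (hadj2 _ (e i).2 _ (e j).2 (fun h => hij (e.injective (Subtype.ext h)))).1
    obtain ⟨i, j, hij, hmem⟩ := hD _ hc
    exact (hadj2 _ (e i).2 _ (e j).2 (fun h => hij (e.injective (Subtype.ext h)))).2 hmem
  · push Not at hz
    apply hG t
    refine ⟨?_, h2⟩
    intro a ha b hb hab
    have := h1 ha hb hab
    have ha' := hz a (mem_coe.mp ha)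
    have hb' := hz b (mem_coe.mp hb)
    simp only [AddFree_gr] at this
    tauto

open Classical in
/-- surviving copies. -/
noncomputable def AddFree_surv (H : SimpleGraph W) (G : SimpleGraph (Fin n))
    (D : Finset (Fin n × Fin n)) (Z : Finset (Fin n)) : Finset (W → Fin n) :=
  (H67Blow.injs H G).filter (fun f => (∀ a, f a ∉ Z) ∧ (∀ a b, H.Adj a b → (f a, f b) ∉ D))

open Classical in
/-- new copies with `u ↦ z`. -/
noncomputable def AddFree_new (H : SimpleGraph W) (G : SimpleGraph (Fin n))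
    (S : Finset (Fin n)) (D : Finset (Fin n × Fin n)) (Z : Finset (Fin n)) (u : W) (z : Fin n) :
    Finset (W → Fin n) :=
  univ.filter (fun f => Function.Injective f ∧ f u = z ∧ (∀ a, a ≠ u → f a ∉ Z) ∧
    HomOff H G u f ∧ (∀ b, H.Adj u b → f b ∈ S) ∧
    ∀ a b, a ≠ u → b ≠ u → H.Adj a b → (f a, f b) ∉ D)

lemma AddFree_pinrel [Nonempty (Fin n)] (R : Finset (Fin n × Fin n)) (a b : W) (hab : a ≠ b) :
    open Classical in
    (#(univ.filter (fun f : W → Fin n => (f a, f b) ∈ R)) : ℝ) ≤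
      #R * ((n : ℝ) ^ (card W) / (n : ℝ) ^ 2) := by
  classical
  have h1 : univ.filter (fun f : W → Fin n => (f a, f b) ∈ R) ⊆
      R.biUnion (fun p => univ.filter (fun f : W → Fin n => f a = p.1 ∧ f b = p.2)) := by
    intro f hf
    simp only [mem_filter, mem_univ, true_and] at hf
    simp only [mem_biUnion, mem_filter, mem_univ, true_and]
    exact ⟨_, hf, rfl, rfl⟩
  have h2 : (#(univ.filter (fun f : W → Fin n => (f a, f b) ∈ R)) : ℝ) ≤
      ∑ p ∈ R, (#(univ.filter (fun f : W → Fin n => f a = p.1 ∧ f b = p.2)) : ℝ) := by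
    exact_mod_cast (Finset.card_le_card h1).trans Finset.card_biUnion_le
  refine h2.trans ((Finset.sum_le_sum (g := fun _ => (n : ℝ) ^ (card W) / (n : ℝ) ^ 2) ?_).trans ?_)
  · intro p _
    have := H67Blow.pin2 (V := Fin n) a b hab {p.1} {p.2}
      (univ.filter (fun f : W → Fin n => f a = p.1 ∧ f b = p.2)) (by intro f hf; simpa using hf)
    simpa using this
  · rw [Finset.sum_const, nsmul_eq_mul]

lemma AddFree_pinrel3 [Nonempty (Fin n)] (R : Finset (Fin n × Fin n)) (u a b : W) (hab : a ≠ b)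
    (hua : u ≠ a) (hub : u ≠ b) (z : Fin n) :
    open Classical in
    (#(univ.filter (fun f : W → Fin n => f u = z ∧ (f a, f b) ∈ R)) : ℝ) ≤
      #R * ((n : ℝ) ^ (card W) / (n : ℝ) ^ 3) := by
  classical
  have h1 : univ.filter (fun f : W → Fin n => f u = z ∧ (f a, f b) ∈ R) ⊆
      R.biUnion (fun p => univ.filter (fun f : W → Fin n => f u = z ∧ f a = p.1 ∧ f b = p.2)) := by
    intro f hf
    simp only [mem_filter, mem_univ, true_and] at hf
    simp only [mem_biUnion, mem_filter, mem_univ, true_and]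
    exact ⟨_, hf.2, hf.1, rfl, rfl⟩
  have h2 : (#(univ.filter (fun f : W → Fin n => f u = z ∧ (f a, f b) ∈ R)) : ℝ) ≤
      ∑ p ∈ R, (#(univ.filter (fun f : W → Fin n => f u = z ∧ f a = p.1 ∧ f b = p.2)) : ℝ) := by
    exact_mod_cast (Finset.card_le_card h1).trans Finset.card_biUnion_le
  refine h2.trans ((Finset.sum_le_sum (g := fun _ => (n : ℝ) ^ (card W) / (n : ℝ) ^ 3) ?_).trans ?_)
  · intro p _
    have := H67Blow.pin3 (V := Fin n) u a b hua hub hab {z} {p.1} {p.2}
      (univ.filter (fun f : W → Fin n => f u = z ∧ f a = p.1 ∧ f b = p.2))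
      (by intro f hf; simpa using hf)
    simpa using this
  · rw [Finset.sum_const, nsmul_eq_mul]

open Classical in
/-- lower bound for the new copies. -/
lemma AddFree_new_count (H : SimpleGraph W) (G : SimpleGraph (Fin n))
    (S : Finset (Fin n)) (D : Finset (Fin n × Fin n)) (Z : Finset (Fin n)) (u : W) (z : Fin n) :
    (#(univ.filter (fun f : W → Fin n => HomOff H G u f ∧ ∀ b, H.Adj u b → f b ∈ S)) : ℝ) / n ≤
      #(AddFree_new H G S D Z u z) +
      (card W : ℝ) ^ 2 * ((n : ℝ) ^ (card W) / (n : ℝ) ^ 2) +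
      (card W : ℝ) * (#Z * ((n : ℝ) ^ (card W) / (n : ℝ) ^ 2)) +
      (card W : ℝ) ^ 2 * (#D * ((n : ℝ) ^ (card W) / (n : ℝ) ^ 3)) := by
  have : Nonempty (Fin n) := ⟨z⟩
  have hn : (0 : ℝ) < n := by
    have : 0 < n := Fin.pos z
    exact_mod_cast this
  set X2 : ℝ := (n : ℝ) ^ (card W) / (n : ℝ) ^ 2 with hX2
  set X3 : ℝ := (n : ℝ) ^ (card W) / (n : ℝ) ^ 3 with hX3
  have hX2' : 0 ≤ X2 := by positivity
  have hX3' : 0 ≤ X3 := by positivity
  let A : Finset (W → Fin n) :=
    univ.filter (fun f : W → Fin n => HomOff H G u f ∧ ∀ b, H.Adj u b → f b ∈ S)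
  let B : Finset (W → Fin n) := A.filter (fun f => f u = z)
  -- `#A = n * #B`
  have hAB : #A ≤ n * #B := by
    have e : n * #B = #((univ : Finset (Fin n)) ×ˢ B) := by rw [card_product]; simp
    rw [e]
    apply Finset.card_le_card_of_injOn (fun f => (f u, Function.update f u z))
    · intro f hf
      have hf' : HomOff H G u f ∧ ∀ b, H.Adj u b → f b ∈ S := by simpa [A] using hf
      simp only [coe_product, coe_univ, Set.mem_prod, Set.mem_univ, true_and, B, A, coe_filter,
        mem_filter, mem_univ, Set.mem_ofPred_eq, Function.update_self, and_true]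
      refine ⟨?_, ?_⟩
      · intro a b ha hb hab
        rw [Function.update_of_ne ha, Function.update_of_ne hb]
        exact hf'.1 a b ha hb hab
      · intro b hb
        have hbu : b ≠ u := fun h => by subst h; exact H.loopless.irrefl _ hb
        rw [Function.update_of_ne hbu]
        exact hf'.2 b hb
    · intro f _ g _ hfg
      simp only [Prod.mk.injEq] at hfg
      funext a
      by_cases ha : a = u
      · rw [ha]; exact hfg.1
      · have := congrFun hfg.2 a
        rwa [Function.update_of_ne ha, Function.update_of_ne ha] at this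
  have hAB' : (#A : ℝ) / n ≤ #B := by
    rw [div_le_iff₀ hn]
    have : (#A : ℝ) ≤ (n : ℝ) * #B := by exact_mod_cast hAB
    linarith
  let E0 : Finset (W → Fin n) := univ.filter (fun f => ¬ Function.Injective f ∧ f u = z)
  let P1 : Finset W := univ.filter (fun a => a ≠ u)
  let P2 : Finset (W × W) := univ.filter (fun p => p.1 ≠ p.2 ∧ p.1 ≠ u ∧ p.2 ≠ u)
  let E1 : Finset (W → Fin n) := P1.biUnion (fun a => univ.filter (fun f => f u = z ∧ f a ∈ Z))
  let E2 : Finset (W → Fin n) := P2.biUnion (fun p => univ.filter (fun f =>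
    f u = z ∧ (f p.1, f p.2) ∈ D))
  have hcover : B ⊆ ((AddFree_new H G S D Z u z ∪ E0) ∪ E1) ∪ E2 := by
    intro f hf
    have hf' : (HomOff H G u f ∧ ∀ b, H.Adj u b → f b ∈ S) ∧ f u = z := by simpa [A, B] using hf
    obtain ⟨⟨k1, k2⟩, k3⟩ := hf'
    by_cases h0 : Function.Injective f
    · by_cases h1 : ∀ a, a ≠ u → f a ∉ Z
      · by_cases h2 : ∀ a b, a ≠ u → b ≠ u → H.Adj a b → (f a, f b) ∉ D
        · rw [mem_union, mem_union, mem_union]
          left; left; left
          simp only [AddFree_new, mem_filter, mem_univ, true_and]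
          exact ⟨h0, k3, h1, k1, k2, h2⟩
        · rw [mem_union]
          right
          push Not at h2
          obtain ⟨a, b, ha, hb, hab, hmem⟩ := h2
          simp only [E2, P2, mem_biUnion, mem_filter, mem_univ, true_and]
          exact ⟨(a, b), ⟨hab.ne, ha, hb⟩, k3, hmem⟩
      · rw [mem_union, mem_union]
        left; right
        push Not at h1
        obtain ⟨a, ha, hmem⟩ := h1
        simp only [E1, P1, mem_biUnion, mem_filter, mem_univ, true_and]
        exact ⟨a, ha, k3, hmem⟩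
    · rw [mem_union, mem_union, mem_union]
      left; left; right
      simp only [E0, mem_filter, mem_univ, true_and]
      exact ⟨h0, k3⟩
  have b0 : (#E0 : ℝ) ≤ (card W : ℝ) ^ 2 * X2 := UClose_noninj u z
  have b1 : (#E1 : ℝ) ≤ (card W : ℝ) * (#Z * X2) := by
    have h1 : (#E1 : ℝ) ≤ ∑ a ∈ P1, (#(univ.filter (fun f : W → Fin n => f u = z ∧ f a ∈ Z)) : ℝ) := by
      exact_mod_cast Finset.card_biUnion_le
    refine h1.trans ((Finset.sum_le_sum (g := fun _ => (#Z : ℝ) * X2) ?_).trans ?_)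
    · intro a ha
      have hau : u ≠ a := by
        have : a ≠ u := by simpa [P1] using ha
        exact this.symm
      have := H67Blow.pin2 (V := Fin n) u a hau {z} Z
        (univ.filter (fun f : W → Fin n => f u = z ∧ f a ∈ Z)) (by intro f hf; simpa using hf)
      simpa using this
    · rw [Finset.sum_const, nsmul_eq_mul]
      apply mul_le_mul_of_nonneg_right _ (by positivity)
      have : #P1 ≤ card W := (Finset.card_filter_le _ _).trans (by rw [Finset.card_univ])
      exact_mod_cast this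
  have b2 : (#E2 : ℝ) ≤ (card W : ℝ) ^ 2 * (#D * X3) := by
    have h1 : (#E2 : ℝ) ≤ ∑ p ∈ P2, (#(univ.filter (fun f : W → Fin n =>
        f u = z ∧ (f p.1, f p.2) ∈ D)) : ℝ) := by
      exact_mod_cast Finset.card_biUnion_le
    refine h1.trans ((Finset.sum_le_sum (g := fun _ => (#D : ℝ) * X3) ?_).trans ?_)
    · intro p hp
      have hp' : p.1 ≠ p.2 ∧ p.1 ≠ u ∧ p.2 ≠ u := by simpa [P2] using hp
      exact AddFree_pinrel3 D u p.1 p.2 hp'.1 hp'.2.1.symm hp'.2.2.symm z
    · rw [Finset.sum_const, nsmul_eq_mul]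
      apply mul_le_mul_of_nonneg_right _ (by positivity)
      have : #P2 ≤ card W ^ 2 := by
        refine (Finset.card_filter_le _ _).trans ?_
        rw [Finset.card_univ, Fintype.card_prod]; nlinarith
      exact_mod_cast this
  have htot : (#B : ℝ) ≤ #(AddFree_new H G S D Z u z) + #E0 + #E1 + #E2 := by
    have h1 := Finset.card_le_card hcover
    have h2 := Finset.card_union_le ((AddFree_new H G S D Z u z ∪ E0) ∪ E1) E2
    have h3 := Finset.card_union_le (AddFree_new H G S D Z u z ∪ E0) E1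
    have h4 := Finset.card_union_le (AddFree_new H G S D Z u z) E0
    have : #B ≤ #(AddFree_new H G S D Z u z) + #E0 + #E1 + #E2 := by omega
    exact_mod_cast this
  change (#A : ℝ) / n ≤ _
  linarith

open Classical in
lemma AddFree_surv_count [Nonempty (Fin n)] (H : SimpleGraph W) (G : SimpleGraph (Fin n))
    (D : Finset (Fin n × Fin n)) (Z : Finset (Fin n)) :
    (H67Blow.num H G : ℝ) ≤ #(AddFree_surv H G D Z) + ∑ z ∈ Z, (#(UClose_hit H G z) : ℝ) +
      (card W : ℝ) ^ 2 * (#D * ((n : ℝ) ^ (card W) / (n : ℝ) ^ 2)) := by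
  set X2 : ℝ := (n : ℝ) ^ (card W) / (n : ℝ) ^ 2 with hX2
  have hX2' : 0 ≤ X2 := by positivity
  let P2 : Finset (W × W) := univ.filter (fun p => p.1 ≠ p.2)
  let E1 : Finset (W → Fin n) := Z.biUnion (fun z => UClose_hit H G z)
  let E2 : Finset (W → Fin n) := P2.biUnion (fun p => univ.filter (fun f : W → Fin n =>
    (f p.1, f p.2) ∈ D))
  have hcover : H67Blow.injs H G ⊆ (AddFree_surv H G D Z ∪ E1) ∪ E2 := by
    intro f hf
    by_cases h1 : ∀ a, f a ∉ Z
    · by_cases h2 : ∀ a b, H.Adj a b → (f a, f b) ∉ D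
      · rw [mem_union, mem_union]
        left; left
        simp only [AddFree_surv, mem_filter]
        exact ⟨hf, h1, h2⟩
      · rw [mem_union]
        right
        push Not at h2
        obtain ⟨a, b, hab, hmem⟩ := h2
        simp only [E2, P2, mem_biUnion, mem_filter, mem_univ, true_and]
        exact ⟨(a, b), hab.ne, hmem⟩
    · rw [mem_union, mem_union]
      left; right
      push Not at h1
      obtain ⟨a, ha⟩ := h1
      simp only [E1, mem_biUnion, UClose_hit, mem_filter]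
      exact ⟨f a, ha, hf, a, rfl⟩
  have b1 : (#E1 : ℝ) ≤ ∑ z ∈ Z, (#(UClose_hit H G z) : ℝ) := by
    exact_mod_cast Finset.card_biUnion_le
  have b2 : (#E2 : ℝ) ≤ (card W : ℝ) ^ 2 * (#D * X2) := by
    have h1 : (#E2 : ℝ) ≤ ∑ p ∈ P2, (#(univ.filter (fun f : W → Fin n =>
        (f p.1, f p.2) ∈ D)) : ℝ) := by
      exact_mod_cast Finset.card_biUnion_le
    refine h1.trans ((Finset.sum_le_sum (g := fun _ => (#D : ℝ) * X2) ?_).trans ?_)
    · intro p hp
      exact AddFree_pinrel D p.1 p.2 (by simpa [P2] using hp)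
    · rw [Finset.sum_const, nsmul_eq_mul]
      apply mul_le_mul_of_nonneg_right _ (by positivity)
      have : #P2 ≤ card W ^ 2 := by
        refine (Finset.card_filter_le _ _).trans ?_
        rw [Finset.card_univ, Fintype.card_prod]; nlinarith
      exact_mod_cast this
  have htot : (H67Blow.num H G : ℝ) ≤ #(AddFree_surv H G D Z) + #E1 + #E2 := by
    have h1 := Finset.card_le_card hcover
    have h2 := Finset.card_union_le (AddFree_surv H G D Z ∪ E1) E2
    have h3 := Finset.card_union_le (AddFree_surv H G D Z) E1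
    have : H67Blow.num H G ≤ #(AddFree_surv H G D Z) + #E1 + #E2 := by
      unfold H67Blow.num; omega
    exact_mod_cast this
  linarith

open Classical in
lemma AddFree_total (q : ℕ) (H : SimpleGraph W) (G : SimpleGraph (Fin n)) (hG : Ext q H G)
    (S : Finset (Fin n)) (D : Finset (Fin n × Fin n)) (Z : Finset (Fin n))
    (hD : ∀ c ∈ ct (r := q + 1) G (fun _ => S), ∃ i j, i ≠ j ∧ (c i, c j) ∈ D) :
    #(AddFree_surv H G D Z) + ∑ z ∈ Z, ∑ u : W, #(AddFree_new H G S D Z u z) ≤
      H67Blow.num H G := by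
  refine le_trans ?_ (hG.2 (AddFree_gr G S D Z) (AddFree_cliqueFree q G hG.1 S D Z hD))
  let T : Finset (W → Fin n) := Z.biUnion (fun z => univ.biUnion (fun u => AddFree_new H G S D Z u z))
  have h1 : #T = ∑ z ∈ Z, ∑ u : W, #(AddFree_new H G S D Z u z) := by
    rw [card_biUnion]
    · apply Finset.sum_congr rfl
      intro z hz
      rw [card_biUnion]
      intro u _ v _ huv
      change Disjoint _ _
      rw [Finset.disjoint_left]
      intro f hf hf'
      simp only [AddFree_new, mem_filter, mem_univ, true_and] at hf hf'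
      exact huv (hf.1 (hf.2.1.trans hf'.2.1.symm))
    · intro z hz z' hz' hne
      change Disjoint _ _
      rw [Finset.disjoint_left]
      intro f hf hf'
      simp only [mem_biUnion, mem_univ, true_and, AddFree_new, mem_filter] at hf hf'
      obtain ⟨u, hf⟩ := hf
      obtain ⟨v, hf'⟩ := hf'
      by_cases huv : v = u
      · subst huv
        exact hne (hf.2.1.symm.trans hf'.2.1)
      · apply hf.2.2.1 v huv
        rw [hf'.2.1]; exact hz'
  rw [← h1]
  have h2 : Disjoint (AddFree_surv H G D Z) T := by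
    rw [Finset.disjoint_left]
    intro f hf hf'
    simp only [T, mem_biUnion, mem_univ, true_and, AddFree_new, mem_filter] at hf'
    simp only [AddFree_surv, mem_filter] at hf
    obtain ⟨z, hz, u, hf'⟩ := hf'
    apply hf.2.1 u
    rw [hf'.2.1]; exact hz
  rw [← Finset.card_union_of_disjoint h2]
  unfold H67Blow.num
  apply Finset.card_le_card
  intro f hf
  rw [mem_union] at hf
  rw [UClose_mem_injs]
  rcases hf with hf | hf
  · simp only [AddFree_surv, mem_filter, UClose_mem_injs] at hf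
    refine ⟨hf.1.1, fun a b hab => ?_⟩
    exact Or.inl ⟨hf.2.1 a, hf.2.1 b, hf.1.2 a b hab, hf.2.2 a b hab, hf.2.2 b a hab.symm⟩
  · simp only [T, mem_biUnion, mem_univ, true_and, AddFree_new, mem_filter] at hf
    obtain ⟨z, hz, u, k0, k1, k2, k3, k4, k5⟩ := hf
    refine ⟨k0, fun a b hab => ?_⟩
    by_cases ha : a = u
    · subst ha
      refine Or.inr (Or.inl ⟨by rw [k1]; exact hz, k2 b hab.ne', k4 b hab⟩)
    · by_cases hb : b = u
      · subst hb
        refine Or.inr (Or.inr ⟨by rw [k1]; exact hz, k2 a ha, k4 a hab.symm⟩)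
      · exact Or.inl ⟨k2 a ha, k2 b hb, k3 a b ha hb hab, k5 a b ha hb hab,
          k5 b a hb ha hab.symm⟩

/-! ## BL-4 : attaching vertices to a set which is `K_(q+1)`-free up to `ε n²` pairs -/
theorem add_free (q : ℕ) (H : SimpleGraph W) :
    ∃ C : ℝ, 0 < C ∧ ∀ (n : ℕ) (G : SimpleGraph (Fin n)), Ext q H G →
      ∀ (x : Fin n) (S : Finset (Fin n)) (D : Finset (Fin n × Fin n)) (ε : ℝ),
        0 ≤ ε → ε ≤ 1 → (#D : ℝ) ≤ ε * (n : ℝ) ^ 2 →
        (∀ c ∈ ct (r := q + 1) G (fun _ => S), ∃ i j, i ≠ j ∧ (c i, c j) ∈ D) →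
        U H G S ≤ U H G (nb G x) + C * (Real.sqrt ε + 1 / n) * (n : ℝ) ^ card W := by
  classical
  refine ⟨3 * ((card W : ℝ) ^ 2 + (card W : ℝ) ^ 3) + 1, by positivity, ?_⟩
  intro n G hG x S D ε hε0 hε1 hDε hD
  have hnN : 0 < n := Fin.pos x
  have : Nonempty (Fin n) := ⟨x⟩
  have hn : (0 : ℝ) < n := by exact_mod_cast hnN
  set h : ℝ := (card W : ℝ) with hh
  have hh0 : 0 ≤ h := by positivity
  set s : ℝ := Real.sqrt ε with hs
  have hs0 : 0 ≤ s := Real.sqrt_nonneg _
  have hs1 : s ≤ 1 := by rw [hs]; exact Real.sqrt_le_one.mpr hε1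
  have hss : s * s = ε := Real.mul_self_sqrt hε0
  -- the number `m`
  set m : ℕ := max 1 ⌈s * n⌉₊ with hm
  have hm1 : 1 ≤ m := le_max_left _ _
  have hm1' : (1 : ℝ) ≤ m := by exact_mod_cast hm1
  have hm2 : s * n ≤ m := (Nat.le_ceil _).trans (by exact_mod_cast le_max_right _ _)
  have hm3 : (m : ℝ) ≤ s * n + 1 := by
    rcases le_total 1 ⌈s * n⌉₊ with h1 | h1
    · rw [hm, max_eq_right h1]
      exact (Nat.ceil_lt_add_one (by positivity)).le
    · rw [hm, max_eq_left h1]
      push_cast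
      nlinarith [mul_nonneg hs0 hn.le]
  have hm4 : m ≤ n := by
    rw [hm]
    apply max_le hnN
    apply Nat.ceil_le.mpr
    nlinarith
  obtain ⟨Z, _, hZ⟩ := Finset.exists_subset_card_eq (s := (univ : Finset (Fin n))) (n := m)
    (by rw [Finset.card_univ, Fintype.card_fin]; exact hm4)
  set X2 : ℝ := (n : ℝ) ^ (card W) / (n : ℝ) ^ 2 with hX2
  set X3 : ℝ := (n : ℝ) ^ (card W) / (n : ℝ) ^ 3 with hX3
  have hX2' : 0 ≤ X2 := by positivity
  have hX3' : 0 ≤ X3 := by positivity
  have eX23 : X2 = n * X3 := by rw [hX2, hX3]; field_simp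
  have eN : (n : ℝ) ^ card W = n * n * X2 := by rw [hX2]; field_simp
  -- usage of the old vertices
  have k1 : ∀ z, (#(UClose_hit H G z) : ℝ) ≤ U H G (nb G x) / n + h ^ 2 * X2 := by
    intro z
    have h1 := UClose_hit_le q H G hG x z
    have h2 : (#(UClose_hit H G x) : ℝ) ≤ U H G (nb G x) / n := by
      rw [U_nb, mul_div_cancel_left₀ _ hn.ne', UClose_hit_eq]
      push_cast
      apply sum_le_sum
      intro u _
      have : (H67Blow.injs H G).filter (fun f => f u = x) ⊆
          univ.filter (fun f : W → Fin n => Hom H G f ∧ f u = x) := by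
        intro f hf
        simp only [mem_filter, UClose_mem_injs] at hf
        simp only [mem_filter, mem_univ, true_and]
        exact ⟨hf.1.2, hf.2⟩
      exact_mod_cast card_le_card this
    linarith
  have k2 : ∑ z ∈ Z, (#(UClose_hit H G z) : ℝ) ≤ m * (U H G (nb G x) / n + h ^ 2 * X2) := by
    calc ∑ z ∈ Z, (#(UClose_hit H G z) : ℝ) ≤ ∑ _z ∈ Z, (U H G (nb G x) / n + h ^ 2 * X2) :=
          Finset.sum_le_sum (fun z _ => k1 z)
      _ = _ := by rw [Finset.sum_const, hZ, nsmul_eq_mul]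
  -- new copies
  have k3 : (m : ℝ) * (U H G S / n) ≤ (∑ z ∈ Z, ∑ u : W, (#(AddFree_new H G S D Z u z) : ℝ)) +
      m * (h * (h ^ 2 * X2 + h * (m * X2) + h ^ 2 * (#D * X3))) := by
    have e1 : (m : ℝ) * (U H G S / n) = ∑ _z ∈ Z, U H G S / n := by
      rw [Finset.sum_const, hZ, nsmul_eq_mul]
    have e2 : (m : ℝ) * (h * (h ^ 2 * X2 + h * (m * X2) + h ^ 2 * (#D * X3))) =
        ∑ _z ∈ Z, ∑ _u : W, (h ^ 2 * X2 + h * (m * X2) + h ^ 2 * (#D * X3)) := by
      rw [Finset.sum_const, hZ, nsmul_eq_mul, Finset.sum_const, Finset.card_univ, nsmul_eq_mul]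
    rw [e1, e2, ← Finset.sum_add_distrib]
    apply Finset.sum_le_sum
    intro z _
    rw [← Finset.sum_add_distrib]
    unfold U
    rw [Finset.sum_div]
    apply Finset.sum_le_sum
    intro u _
    have := AddFree_new_count H G S D Z u z
    rw [hZ] at this
    linarith
  have k4 := AddFree_surv_count H G D Z
  have k5 : (#(AddFree_surv H G D Z) : ℝ) + ∑ z ∈ Z, ∑ u : W, (#(AddFree_new H G S D Z u z) : ℝ) ≤
      H67Blow.num H G := by exact_mod_cast AddFree_total q H G hG S D Z hD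
  have k6 : (m : ℝ) * (U H G S / n) ≤ m * (U H G (nb G x) / n) + m * (h ^ 2 * X2) +
      h ^ 2 * (#D * X2) + m * (h * (h ^ 2 * X2 + h * (m * X2) + h ^ 2 * (#D * X3))) := by
    linarith
  -- estimates
  have d0 : (0 : ℝ) ≤ (#D : ℝ) := Nat.cast_nonneg _
  have d1 : (#D : ℝ) * X2 ≤ m * (s * n * X2) := by
    calc (#D : ℝ) * X2 ≤ (ε * (n : ℝ) ^ 2) * X2 := mul_le_mul_of_nonneg_right hDε hX2'
      _ = (s * n) * (s * n * X2) := by rw [← hss]; ring
      _ ≤ m * (s * n * X2) := mul_le_mul_of_nonneg_right hm2 (by positivity)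
  have d2 : (#D : ℝ) * X3 ≤ s * n * X2 := by
    calc (#D : ℝ) * X3 ≤ (ε * (n : ℝ) ^ 2) * X3 := mul_le_mul_of_nonneg_right hDε hX3'
      _ = s * (s * n * X2) := by rw [← hss, eX23]; ring
      _ ≤ 1 * (s * n * X2) := mul_le_mul_of_nonneg_right hs1 (by positivity)
      _ = _ := one_mul _
  have d3 : (m : ℝ) * X2 ≤ (s * n + 1) * X2 := mul_le_mul_of_nonneg_right hm3 hX2'
  have hm0 : (0 : ℝ) < m := by linarith
  have k7 : U H G S / n ≤ U H G (nb G x) / n + h ^ 2 * X2 + h ^ 2 * (s * n * X2) +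
      (h ^ 3 * X2 + h ^ 2 * ((s * n + 1) * X2) + h ^ 3 * (s * n * X2)) := by
    apply le_of_mul_le_mul_left _ hm0
    refine k6.trans ?_
    have f1 : h ^ 2 * (#D * X2) ≤ h ^ 2 * (m * (s * n * X2)) :=
      mul_le_mul_of_nonneg_left d1 (by positivity)
    have f2 : (m : ℝ) * (h * (h ^ 2 * X2 + h * (m * X2) + h ^ 2 * (#D * X3))) ≤
        m * (h * (h ^ 2 * X2 + h * ((s * n + 1) * X2) + h ^ 2 * (s * n * X2))) := by
      apply mul_le_mul_of_nonneg_left _ hm0.le
      apply mul_le_mul_of_nonneg_left _ hh0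
      have g1 := mul_le_mul_of_nonneg_left d3 hh0
      have g2 := mul_le_mul_of_nonneg_left d2 (by positivity : (0:ℝ) ≤ h ^ 2)
      linarith
    nlinarith
  have k8 := mul_le_mul_of_nonneg_left k7 hn.le
  have e3 : (n : ℝ) * (U H G S / n) = U H G S := by field_simp
  have e4 : (n : ℝ) * (U H G (nb G x) / n + h ^ 2 * X2 + h ^ 2 * (s * n * X2) +
      (h ^ 3 * X2 + h ^ 2 * ((s * n + 1) * X2) + h ^ 3 * (s * n * X2))) =
      U H G (nb G x) + (2 * h ^ 2 + h ^ 3) * (n * X2) + (2 * h ^ 2 + h ^ 3) * (s * (n * n * X2)) := by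
    field_simp
    ring
  rw [e3, e4] at k8
  refine k8.trans ?_
  have e5 : (3 * (h ^ 2 + h ^ 3) + 1) * (s + 1 / n) * (n : ℝ) ^ card W =
      (3 * (h ^ 2 + h ^ 3) + 1) * (n * X2) + (3 * (h ^ 2 + h ^ 3) + 1) * (s * (n * n * X2)) := by
    rw [eN]; field_simp; ring
  rw [e5]
  have g1 : (2 * h ^ 2 + h ^ 3) ≤ 3 * (h ^ 2 + h ^ 3) + 1 := by nlinarith [pow_nonneg hh0 2, pow_nonneg hh0 3]
  have g2 : (2 * h ^ 2 + h ^ 3) * (n * X2) ≤ (3 * (h ^ 2 + h ^ 3) + 1) * (n * X2) :=
    mul_le_mul_of_nonneg_right g1 (by positivity)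
  have g3 : (2 * h ^ 2 + h ^ 3) * (s * (n * n * X2)) ≤ (3 * (h ^ 2 + h ^ 3) + 1) * (s * (n * n * X2)) :=
    mul_le_mul_of_nonneg_right g1 (by positivity)
  linarith

end H78B
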