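import Pool.Agent.H78.Blow.Defs

set_option autoImplicit false

open Finset Fintype

namespace H78B

variable {n : ℕ} {W : Type} [Fintype W]

open Classical in
lemma removal_bad {n : ℕ} (G : SimpleGraph (Fin n)) (ε d : ℝ) (A B B' X : Finset (Fin n))
    (hunif : G.IsUniform ε A B) (hd : d ≤ (G.edgeDensity A B : ℝ)) (hB' : B' ⊆ B)
    (hcB : (#B : ℝ) * ε ≤ #B') (hX : X ⊆ A) (hB0 : 0 < #B')
    (hbad : ∀ v ∈ X, (#(B'.filter (G.Adj v)) : ℝ) < (d - ε) * #B') (hA0 : 0 < #A) :
    (#X : ℝ) < #A * ε := by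
  by_contra hge
  push Not at hge
  have hε : 0 < ε := hunif.pos
  have hXpos : (0 : ℝ) < #X := lt_of_lt_of_le (by positivity) hge
  have h1 := hunif hX hB' hge hcB
  rw [abs_lt] at h1
  have h2 : (G.edgeDensity X B' : ℝ) > d - ε := by linarith
  have h3 : (G.edgeDensity X B' : ℝ) = (#(G.interedges X B') : ℝ) / (#X * #B') := by
    rw [SimpleGraph.edgeDensity_def]
    push_cast
    rfl
  have h4 : (#(G.interedges X B') : ℝ) = ∑ v ∈ X, (#(B'.filter (G.Adj v)) : ℝ) := by
    have : #(G.interedges X B') = ∑ v ∈ X, #(B'.filter (G.Adj v)) := by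
      rw [SimpleGraph.interedges_def]
      rw [Finset.card_filter]
      rw [Finset.sum_product]
      apply Finset.sum_congr rfl
      intro v _
      rw [Finset.card_filter]
    exact_mod_cast this
  have h5 : ∑ v ∈ X, (#(B'.filter (G.Adj v)) : ℝ) < ∑ v ∈ X, (d - ε) * (#B' : ℝ) := by
    apply Finset.sum_lt_sum_of_nonempty
    · rw [← Finset.card_pos]; exact_mod_cast hXpos
    · exact hbad
  rw [sum_const, nsmul_eq_mul] at h5
  have hB0' : (0 : ℝ) < #B' := by exact_mod_cast hB0
  rw [h3, h4, gt_iff_lt, lt_div_iff₀ (by positivity)] at h2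
  nlinarith

open Classical in
lemma removal_count (m : ℕ) : ∀ (α d : ℝ), 0 < α → 0 < d → ∃ ε κ : ℝ, 0 < ε ∧ 0 < κ ∧
    ∀ (n : ℕ) (G : SimpleGraph (Fin n)) (A A' : Fin m → Finset (Fin n)),
      (∀ i j, i ≠ j → G.IsUniform ε (A i) (A j) ∧ d ≤ (G.edgeDensity (A i) (A j) : ℝ)) →
      (∀ i, A' i ⊆ A i) → (∀ i, α * (#(A i) : ℝ) ≤ #(A' i)) →
      κ * ∏ i, (#(A i) : ℝ) ≤ #(ct G A') := by
  induction m with
  | zero =>
    intro α d _ _
    refine ⟨1, 1, one_pos, one_pos, ?_⟩
    intro n G A A' _ _ _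
    have : ct G A' = univ := by
      ext c
      simp only [mem_ct, mem_univ, iff_true]
      exact ⟨fun i => i.elim0, fun i => i.elim0⟩
    rw [this]
    simp
  | succ m ih =>
    intro α d hα hd
    obtain ⟨ε₁, κ₁, hε₁, hκ₁, hind⟩ := ih (d * α / 2) d (by positivity) hd
    set ε : ℝ := min (min ε₁ (d / 2)) (α / (2 * (m + 1))) with hε
    have hεpos : 0 < ε := by
      rw [hε]
      refine lt_min (lt_min hε₁ (by positivity)) (by positivity)
    have hεa : ε ≤ ε₁ := le_trans (min_le_left _ _) (min_le_left _ _)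
    have hεb : ε ≤ d / 2 := le_trans (min_le_left _ _) (min_le_right _ _)
    have hεc : ε ≤ α / (2 * (m + 1)) := min_le_right _ _
    refine ⟨ε, α / 2 * κ₁, hεpos, by positivity, ?_⟩
    intro n G A A' hunif hsub hcard
    have hεm : (m : ℝ) * ε ≤ α / 2 := by
      have h1 : (m : ℝ) * ε ≤ m * (α / (2 * (m + 1))) := mul_le_mul_of_nonneg_left hεc (by positivity)
      have h2 : (m : ℝ) * (α / (2 * (m + 1))) ≤ α / 2 := by
        rw [mul_div_assoc', div_le_div_iff₀ (by positivity) (by positivity)]
        nlinarith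
      linarith
    have hεα : ε ≤ α := by
      have h3 : α / (2 * (m + 1)) ≤ α := by
        rw [div_le_iff₀ (by positivity)]
        have : (0 : ℝ) ≤ m := by positivity
        nlinarith
      linarith
    -- trivial case: some part is empty
    by_cases hzero : ∃ i, #(A i) = 0
    · obtain ⟨i, hi⟩ := hzero
      have : ∏ i, (#(A i) : ℝ) = 0 := Finset.prod_eq_zero (mem_univ i) (by rw [hi]; simp)
      rw [this, mul_zero]
      positivity
    push Not at hzero
    have hpos : ∀ i, 0 < #(A i) := fun i => Nat.pos_of_ne_zero (hzero i)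
    have hpos' : ∀ i, 0 < #(A' i) := by
      intro i
      have h1 : (0 : ℝ) < #(A i) := by exact_mod_cast hpos i
      have h2 := hcard i
      have h3 : (0 : ℝ) < #(A' i) := lt_of_lt_of_le (by positivity) h2
      exact_mod_cast h3
    set bad : Fin m → Finset (Fin n) := fun i =>
      (A' 0).filter (fun v => (#((A' i.succ).filter (G.Adj v)) : ℝ) < (d - ε) * #(A' i.succ))
      with hbad
    have hbadle : ∀ i, (#(bad i) : ℝ) ≤ #(A 0) * ε := by
      intro i
      have h0 : (0 : Fin (m + 1)) ≠ i.succ := (Fin.succ_ne_zero i).symm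
      refine (removal_bad G ε d (A 0) (A i.succ) (A' i.succ) (bad i) (hunif 0 i.succ h0).1
        (hunif 0 i.succ h0).2 (hsub _) ?_ ?_ (hpos' _) ?_ (hpos 0)).le
      · refine le_trans ?_ (hcard i.succ)
        rw [mul_comm]
        exact mul_le_mul_of_nonneg_right hεα (by positivity)
      · exact (filter_subset _ _).trans (hsub 0)
      · intro v hv
        rw [hbad] at hv
        exact (mem_filter.mp hv).2
    set good : Finset (Fin n) := A' 0 \ (univ : Finset (Fin m)).biUnion bad with hgood
    have hgoodcard : α / 2 * (#(A 0) : ℝ) ≤ good.card := by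
      have h1 : #(A' 0) ≤ good.card + #((univ : Finset (Fin m)).biUnion bad) := by
        rw [hgood]
        exact card_le_card_sdiff_add_card
      have h2 : (#((univ : Finset (Fin m)).biUnion bad) : ℝ) ≤ m * (#(A 0) * ε) := by
        have h3 : #((univ : Finset (Fin m)).biUnion bad) ≤ ∑ i, #(bad i) := card_biUnion_le
        have h4 : (#((univ : Finset (Fin m)).biUnion bad) : ℝ) ≤ ∑ i, (#(bad i) : ℝ) := by
          exact_mod_cast h3
        refine le_trans h4 (le_trans (sum_le_sum (fun i _ => hbadle i)) ?_)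
        simp
      have h5 : (#(A' 0) : ℝ) ≤ good.card + #((univ : Finset (Fin m)).biUnion bad) := by
        exact_mod_cast h1
      have h6 := hcard 0
      have h7 : (0 : ℝ) ≤ #(A 0) := by positivity
      have h8 : (m : ℝ) * (#(A 0) * ε) ≤ α / 2 * #(A 0) := by
        calc (m : ℝ) * (#(A 0) * ε) = (m * ε) * #(A 0) := by ring
          _ ≤ α / 2 * #(A 0) := mul_le_mul_of_nonneg_right hεm h7
      linarith
    -- for a good vertex the induction hypothesis applies
    have hstep : ∀ v ∈ good, κ₁ * ∏ i : Fin m, (#(A i.succ) : ℝ) ≤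
        #(ct G (fun i : Fin m => (A' i.succ).filter (G.Adj v))) := by
      intro v hv
      apply hind n G (fun i => A i.succ)
      · intro i j hij
        have hne : i.succ ≠ j.succ := fun h => hij (Fin.succ_injective _ h)
        exact ⟨(hunif _ _ hne).1.mono hεa, (hunif _ _ hne).2⟩
      · intro i
        exact (filter_subset _ _).trans (hsub _)
      · intro i
        rw [hgood, mem_sdiff, mem_biUnion] at hv
        have h1 : v ∉ bad i := fun h => hv.2 ⟨i, mem_univ _, h⟩
        rw [hbad] at h1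
        simp only [mem_filter, not_and, not_lt] at h1
        have h2 := h1 hv.1
        have h3 := hcard i.succ
        have h4 : d / 2 ≤ d - ε := by linarith
        calc d * α / 2 * (#(A i.succ) : ℝ) = d / 2 * (α * #(A i.succ)) := by ring
          _ ≤ (d - ε) * #(A' i.succ) := by
            apply mul_le_mul h4 h3 (by positivity)
            linarith
          _ ≤ _ := h2
    -- count
    have hinj : ∑ v ∈ good, #(ct G (fun i : Fin m => (A' i.succ).filter (G.Adj v))) ≤
        #(ct G A') := by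
      rw [← card_sigma]
      apply card_le_card_of_injOn
        (fun p : Σ _ : Fin n, Fin m → Fin n => (Fin.cons p.1 p.2 : Fin (m + 1) → Fin n))
      · rintro ⟨v, c⟩ hp
        rw [mem_coe, mem_sigma, mem_ct] at hp
        obtain ⟨hv, hadj, hmem⟩ := hp
        dsimp only at hv hadj hmem
        have hmem' : ∀ i : Fin m, c i ∈ A' i.succ ∧ G.Adj v (c i) := fun i =>
          mem_filter.mp (hmem i)
        rw [mem_coe, mem_ct]
        constructor
        · intro i j
          refine Fin.cases ?_ (fun i => ?_) i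
          · refine Fin.cases ?_ (fun j => ?_) j
            · intro h; exact absurd rfl h
            · intro _
              simpa using (hmem' j).2
          · refine Fin.cases ?_ (fun j => ?_) j
            · intro _
              simpa using (hmem' i).2.symm
            · intro h
              have h' : i ≠ j := fun e => h (by rw [e])
              simpa using hadj i j h'
        · intro i
          refine Fin.cases ?_ (fun i => ?_) i
          · simp only [Fin.cons_zero]
            rw [hgood, mem_sdiff] at hv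
            exact hv.1
          · simpa using (hmem' i).1
      · rintro ⟨v, c⟩ _ ⟨v', c'⟩ _ h
        dsimp only at h
        have h1 := Fin.cons_injective2 h
        obtain ⟨rfl, rfl⟩ := h1
        rfl
    have hinj' : ∑ v ∈ good, (#(ct G (fun i : Fin m => (A' i.succ).filter (G.Adj v))) : ℝ) ≤
        #(ct G A') := by exact_mod_cast hinj
    have hprod : ∏ i, (#(A i) : ℝ) = #(A 0) * ∏ i : Fin m, (#(A i.succ) : ℝ) :=
      Fin.prod_univ_succ _
    rw [hprod]
    have hPnn : 0 ≤ κ₁ * ∏ i : Fin m, (#(A i.succ) : ℝ) :=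
      mul_nonneg hκ₁.le (prod_nonneg (fun i _ => Nat.cast_nonneg _))
    have key : ∀ a k p c : ℝ, a / 2 * k * (c * p) = (a / 2 * c) * (k * p) := by
      intro a k p c
      ring
    rw [key]
    refine le_trans (mul_le_mul_of_nonneg_right hgoodcard hPnn) (le_trans ?_ hinj')
    refine le_trans (le_of_eq ?_) (sum_le_sum hstep)
    rw [sum_const, nsmul_eq_mul]

lemma removal_aux {n k : ℕ} (hk : 0 < k) (hn : k ≤ n) : n < 2 * k * (n / k) := by
  rw [mul_assoc, two_mul, ← add_lt_add_iff_right (n % k), add_right_comm, add_assoc,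
    Nat.mod_add_div n k, add_comm, add_lt_add_iff_right]
  apply (Nat.mod_lt n hk).trans_le
  simpa using Nat.mul_le_mul_left k ((Nat.one_le_div_iff hk).2 hn)

/-! ## BL-5 : clique removal lemma -/
theorem removal (r : ℕ) (_hr : 2 ≤ r) (ε : ℝ) (hε : 0 < ε) :
    ∃ δ : ℝ, 0 < δ ∧ ∀ (n : ℕ) (G : SimpleGraph (Fin n)),
      (#(ct (r := r) G (fun _ => univ)) : ℝ) ≤ δ * (n : ℝ) ^ r →
      ∃ D : Finset (Fin n × Fin n), (#D : ℝ) ≤ ε * (n : ℝ) ^ 2 ∧
        ∀ c ∈ ct (r := r) G (fun _ => univ), ∃ i j, i ≠ j ∧ (c i, c j) ∈ D := by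
  classical
  set d : ℝ := ε / 16 with hd
  have hdpos : 0 < d := by rw [hd]; positivity
  obtain ⟨ε₁, κ, hε₁, hκ, hcount⟩ := removal_count r 1 d one_pos hdpos
  set ε' : ℝ := min ε₁ (ε / 16) with hε'
  have hε'pos : 0 < ε' := lt_min hε₁ (by positivity)
  have hε'a : ε' ≤ ε₁ := min_le_left _ _
  have hε'b : ε' ≤ ε / 16 := min_le_right _ _
  set l : ℕ := ⌈4 / (ε / 2)⌉₊ with hl
  have hlpos : 0 < l := Nat.ceil_pos.mpr (by positivity)
  set M : ℕ := SzemerediRegularity.bound ε' l with hM
  have hMpos : 0 < M := by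
    rw [hM]
    exact SzemerediRegularity.bound_pos _ _
  set δ : ℝ := min (κ / 2 * (1 / (2 * M : ℝ)) ^ r) (1 / (2 * (l : ℝ) ^ r)) with hδ
  have hMr : (0 : ℝ) < M := by exact_mod_cast hMpos
  have hlr : (0 : ℝ) < l := by exact_mod_cast hlpos
  have hδpos : 0 < δ := lt_min (by positivity) (by positivity)
  refine ⟨δ, hδpos, ?_⟩
  intro n G hsmall
  rcases lt_or_ge n l with hnl | hnl
  · -- no cliques
    refine ⟨∅, by simp; positivity, ?_⟩
    intro c hc
    exfalso
    have h1 : (1 : ℝ) ≤ #(ct (r := r) G (fun _ => (univ : Finset (Fin n)))) := by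
      have : 0 < #(ct (r := r) G (fun _ => (univ : Finset (Fin n)))) := card_pos.mpr ⟨c, hc⟩
      exact_mod_cast this
    have h2 : δ * (n : ℝ) ^ r ≤ 1 / 2 := by
      have h3 : δ ≤ 1 / (2 * (l : ℝ) ^ r) := min_le_right _ _
      have h4 : (n : ℝ) ^ r ≤ (l : ℝ) ^ r := by
        apply pow_le_pow_left₀ (by positivity)
        exact_mod_cast hnl.le
      calc δ * (n : ℝ) ^ r ≤ 1 / (2 * (l : ℝ) ^ r) * (l : ℝ) ^ r :=
            mul_le_mul h3 h4 (by positivity) (by positivity)
        _ = 1 / 2 := by field_simp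
    linarith
  · have hnpos : 0 < n := lt_of_lt_of_le hlpos hnl
    have hnr : (0 : ℝ) < n := by exact_mod_cast hnpos
    have : Nonempty (Fin n) := ⟨⟨0, hnpos⟩⟩
    obtain ⟨P, hP₁, hP₂, hP₃, hP₄⟩ := szemeredi_regularity G hε'pos (l := l) (by simpa using hnl)
    have hparts : 4 / (ε / 2) ≤ (#P.parts : ℝ) := by
      refine le_trans (Nat.le_ceil _) ?_
      exact_mod_cast hP₂
    have hA := hP₁.sum_nonUniforms_lt (G := G) (ε := ε') univ_nonempty hε'pos hP₄
    have hB := hP₁.card_biUnion_offDiag_le (𝕜 := ℝ) (ε := ε / 2) (by positivity) hparts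
    have hC := hP₁.card_interedges_sparsePairs_le (G := G) (𝕜 := ℝ) (ε := d) hdpos.le
    set DA := (P.nonUniforms G ε').biUnion fun (U, V) ↦ U ×ˢ V with hDA
    set DB := P.parts.biUnion offDiag with hDB
    set DC := (P.sparsePairs G d).biUnion fun (U, V) ↦ G.interedges U V with hDC
    refine ⟨DA ∪ DB ∪ DC, ?_, ?_⟩
    · have h1 : #(DA ∪ DB ∪ DC) ≤ #DA + #DB + #DC :=
        le_trans (card_union_le _ _) (Nat.add_le_add_right (card_union_le _ _) _)
      have h2 : (#(DA ∪ DB ∪ DC) : ℝ) ≤ #DA + #DB + #DC := by exact_mod_cast h1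
      have h3 : (#(univ : Finset (Fin n)) : ℝ) = n := by simp
      rw [h3] at hA hB hC
      have h4 : (0 : ℝ) < (n : ℝ) ^ 2 := by positivity
      have h5 : ε' * (n : ℝ) ^ 2 ≤ ε / 16 * (n : ℝ) ^ 2 := mul_le_mul_of_nonneg_right hε'b h4.le
      have h6 : d * (n : ℝ) ^ 2 = ε / 16 * (n : ℝ) ^ 2 := by rw [hd]
      have h7 : (0 : ℝ) < ε * (n : ℝ) ^ 2 := by positivity
      nlinarith
    · intro c hc
      by_contra hcon
      push Not at hcon
      rw [mem_ct] at hc
      have hadj := hc.1
      choose Pt hPt hcPt using fun i : Fin r => P.exists_mem (mem_univ (c i))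
      have hkey : ∀ i j, i ≠ j → Pt i ≠ Pt j ∧ G.IsUniform ε' (Pt i) (Pt j) ∧
          d ≤ (G.edgeDensity (Pt i) (Pt j) : ℝ) := by
        intro i j hij
        have hnot := hcon i j hij
        rw [mem_union, mem_union, not_or, not_or] at hnot
        obtain ⟨⟨hnA, hnB⟩, hnC⟩ := hnot
        have hne : Pt i ≠ Pt j := by
          intro he
          apply hnB
          rw [hDB, mem_biUnion]
          refine ⟨Pt i, hPt i, ?_⟩
          rw [mem_offDiag]
          exact ⟨hcPt i, by rw [he]; exact hcPt j, G.ne_of_adj (hadj i j hij)⟩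
        have hun : G.IsUniform ε' (Pt i) (Pt j) := by
          by_contra hnu
          apply hnA
          rw [hDA, mem_biUnion]
          refine ⟨(Pt i, Pt j), ?_, ?_⟩
          · rw [Finpartition.mk_mem_nonUniforms]
            exact ⟨hPt i, hPt j, hne, hnu⟩
          · exact mem_product.mpr ⟨hcPt i, hcPt j⟩
        refine ⟨hne, hun, ?_⟩
        by_contra hlt
        push Not at hlt
        apply hnC
        rw [hDC, mem_biUnion]
        refine ⟨(Pt i, Pt j), ?_, ?_⟩
        · rw [Finpartition.mk_mem_sparsePairs]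
          exact ⟨hPt i, hPt j, hne, hlt⟩
        · change (c i, c j) ∈ G.interedges (Pt i) (Pt j)
          rw [SimpleGraph.mk_mem_interedges_iff]
          exact ⟨hcPt i, hcPt j, hadj i j hij⟩
      have h1 := hcount n G Pt Pt (fun i j hij => ⟨(hkey i j hij).2.1.mono hε'a, (hkey i j hij).2.2⟩)
        (fun i => Subset.refl _) (fun i => by rw [one_mul])
      have h2 : ∀ i, (n : ℝ) / (2 * M) ≤ #(Pt i) := by
        intro i
        have hpp : 0 < #P.parts := card_pos.mpr ⟨_, hPt i⟩
        have hppr : (0 : ℝ) < #P.parts := by exact_mod_cast hpp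
        have h3 : (#P.parts : ℝ) ≤ M := by exact_mod_cast hP₃
        have h4 : #P.parts ≤ n := by
          have := P.card_parts_le_card
          simpa using this
        have h5 := removal_aux hpp h4
        have h6 : n / #P.parts ≤ #(Pt i) := by
          have := hP₁.average_le_card_part (hPt i)
          simpa using this
        have h7 : n ≤ 2 * #P.parts * #(Pt i) := by
          refine le_trans h5.le ?_
          exact Nat.mul_le_mul_left _ h6
        have h8 : (n : ℝ) ≤ 2 * #P.parts * #(Pt i) := by exact_mod_cast h7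
        rw [div_le_iff₀ (by positivity)]
        have h9 : (0 : ℝ) ≤ #(Pt i) := by positivity
        nlinarith
      have h3 : ((n : ℝ) / (2 * M)) ^ r ≤ ∏ i, (#(Pt i) : ℝ) := by
        calc ((n : ℝ) / (2 * M)) ^ r = ∏ _i : Fin r, ((n : ℝ) / (2 * M)) := by
              rw [prod_const, card_univ, Fintype.card_fin]
          _ ≤ _ := prod_le_prod (fun i _ => by positivity) (fun i _ => h2 i)
      have h4 : (#(ct G Pt) : ℝ) ≤ #(ct (r := r) G (fun _ => (univ : Finset (Fin n)))) := by
        have : #(ct G Pt) ≤ #(ct (r := r) G (fun _ => (univ : Finset (Fin n)))) := by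
          apply card_le_card
          intro c hc
          rw [mem_ct] at hc ⊢
          exact ⟨hc.1, fun i => mem_univ _⟩
        exact_mod_cast this
      have h5 : κ * ((n : ℝ) / (2 * M)) ^ r ≤ δ * (n : ℝ) ^ r := by
        calc κ * ((n : ℝ) / (2 * M)) ^ r ≤ κ * ∏ i, (#(Pt i) : ℝ) :=
              mul_le_mul_of_nonneg_left h3 hκ.le
          _ ≤ _ := h1
          _ ≤ _ := h4
          _ ≤ _ := hsmall
      have h6 : δ * (n : ℝ) ^ r ≤ κ / 2 * (1 / (2 * M : ℝ)) ^ r * (n : ℝ) ^ r :=
        mul_le_mul_of_nonneg_right (min_le_left _ _) (by positivity)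
      have h7 : κ * ((n : ℝ) / (2 * M)) ^ r = κ * (1 / (2 * M : ℝ)) ^ r * (n : ℝ) ^ r := by
        rw [mul_assoc, ← mul_pow]
        congr 2
        field_simp
      have h8 : (0 : ℝ) < κ * (1 / (2 * M : ℝ)) ^ r * (n : ℝ) ^ r := by positivity
      rw [h7] at h5
      have h9 : κ / 2 * (1 / (2 * M : ℝ)) ^ r * (n : ℝ) ^ r =
          (κ * (1 / (2 * M : ℝ)) ^ r * (n : ℝ) ^ r) / 2 := by ring
      linarith

end H78B
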