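import Pool.Agent.H78.Blow.Defs
import Pool.Agent.H78.Blow.AddFree
import Pool.Agent.H78.Blow.Removal

set_option autoImplicit false

open Finset Fintype

namespace H78B

variable {n : ℕ} {W : Type} [Fintype W]

/-- `G` restricted to edges inside `S` -/
def addPrimeRes (G : SimpleGraph (Fin n)) (S : Finset (Fin n)) : SimpleGraph (Fin n) where
  Adj x y := G.Adj x y ∧ x ∈ S ∧ y ∈ S
  symm := ⟨by rintro x y ⟨h1, h2, h3⟩; exact ⟨h1.symm, h3, h2⟩⟩
  loopless := ⟨by rintro x ⟨h1, _⟩; exact G.irrefl h1⟩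

lemma addPrime_ct (q : ℕ) (hq : 1 ≤ q) (G : SimpleGraph (Fin n)) (S : Finset (Fin n)) :
    ct (r := q + 1) (addPrimeRes G S) (fun _ => univ) = ct (r := q + 1) G (fun _ => S) := by
  ext c
  rw [mem_ct, mem_ct]
  constructor
  · rintro ⟨h1, _⟩
    refine ⟨fun i j hij => (h1 i j hij).1, fun i => ?_⟩
    by_cases hi : i = 0
    · have hne : i ≠ Fin.last q := by
        rw [hi]
        intro h
        have := congrArg Fin.val h
        simp at this
        omega
      exact (h1 i _ hne).2.1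
    · exact (h1 i 0 hi).2.1
  · rintro ⟨h1, h2⟩
    exact ⟨fun i j hij => ⟨h1 i j hij, h2 i, h2 j⟩, fun i => mem_univ _⟩

/-! ## BL-8 : add' = add_free + removal -/
theorem add' (q : ℕ) (hq : 1 ≤ q) (H : SimpleGraph W) (η : ℝ) (hη : 0 < η) :
    ∃ δ : ℝ, 0 < δ ∧ ∃ n₀ : ℕ, ∀ n ≥ n₀, ∀ G : SimpleGraph (Fin n), Ext q H G →
      ∀ (x : Fin n) (S : Finset (Fin n)), KK q G S ≤ δ * (n : ℝ) ^ (q + 1) →
        U H G S ≤ U H G (nb G x) + η * (n : ℝ) ^ card W := by
  obtain ⟨C, hC, hadd⟩ := add_free q H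
  set e : ℝ := min 1 (η / (2 * C)) with he
  have he0 : 0 < e := lt_min one_pos (by positivity)
  have he1 : e ≤ 1 := min_le_left _ _
  have he2 : e ≤ η / (2 * C) := min_le_right _ _
  set ε : ℝ := e ^ 2 with hε
  have hε0 : 0 < ε := by positivity
  have hε1 : ε ≤ 1 := by rw [hε]; nlinarith
  have hsq : Real.sqrt ε = e := by rw [hε, Real.sqrt_sq he0.le]
  obtain ⟨δ, hδ, hrem⟩ := removal (q + 1) (by omega) ε hε0
  obtain ⟨n₁, hn₁⟩ := exists_nat_gt (2 * C / η)
  refine ⟨δ, hδ, max n₁ 1, ?_⟩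
  intro n hn G hG x S hK
  have hn₁' : n₁ ≤ n := le_trans (le_max_left _ _) hn
  have hn1 : 1 ≤ n := le_trans (le_max_right _ _) hn
  have hnpos : (0 : ℝ) < n := by exact_mod_cast hn1
  have hpos : (0 : ℝ) < (n : ℝ) ^ card W := by positivity
  obtain ⟨D, hD, hDc⟩ := hrem n (addPrimeRes G S) (by
    rw [addPrime_ct q hq]
    exact hK)
  rw [addPrime_ct q hq] at hDc
  have h1 := hadd n G hG x S D ε hε0.le hε1 hD hDc
  rw [hsq] at h1
  have h2 : C * e ≤ η / 2 := by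
    calc C * e ≤ C * (η / (2 * C)) := mul_le_mul_of_nonneg_left he2 hC.le
      _ = η / 2 := by field_simp
  have h3 : C * (1 / n) ≤ η / 2 := by
    have h4 : 2 * C / η < n := lt_of_lt_of_le hn₁ (by exact_mod_cast hn₁')
    rw [div_lt_iff₀ hη] at h4
    rw [mul_one_div, div_le_iff₀ hnpos]
    nlinarith
  have h5 : C * (e + 1 / n) ≤ η := by
    rw [mul_add]; linarith
  have h6 : C * (e + 1 / n) * (n : ℝ) ^ card W ≤ η * (n : ℝ) ^ card W :=
    mul_le_mul_of_nonneg_right h5 hpos.le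
  linarith

end H78B
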