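import Pool.Agent.H78.Blow.Defs
import Pool.Agent.H67.Blow.Pins

set_option autoImplicit false

open Finset Fintype

namespace H78B

variable {n : ℕ} {W : Type} [Fintype W]

/-! ## BL-13 : basic facts about `BB`, `B0`, `rho` (helper41) -/
open Classical in
theorem BB_eq (H : SimpleGraph W) (G : SimpleGraph (Fin n)) (x y : Fin n) :
    BB H G x y = B0 H G x y + if G.Adj x y then rho H G x y else 0 := by
  have h1 : (univ : Finset (W × W)).filter (fun p => p.1 ≠ p.2) =
      (univ : Finset (W × W)).filter (fun p => p.1 ≠ p.2 ∧ ¬ H.Adj p.1 p.2) ∪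
        (univ : Finset (W × W)).filter (fun p => H.Adj p.1 p.2) := by
    ext p
    simp only [mem_filter, mem_univ, true_and, mem_union]
    constructor
    · intro h
      by_cases h' : H.Adj p.1 p.2
      · exact Or.inr h'
      · exact Or.inl ⟨h, h'⟩
    · rintro (h | h)
      · exact h.1
      · exact h.ne
  have h2 : Disjoint ((univ : Finset (W × W)).filter (fun p => p.1 ≠ p.2 ∧ ¬ H.Adj p.1 p.2))
      ((univ : Finset (W × W)).filter (fun p => H.Adj p.1 p.2)) := by
    rw [Finset.disjoint_left]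
    intro p hp hp'
    rw [mem_filter] at hp hp'
    exact hp.2.2 hp'.2
  unfold BB B0
  rw [h1, sum_union h2]
  congr 1
  split_ifs with hxy
  · unfold rho
    refine sum_congr rfl fun p hp => ?_
    have hp := (mem_filter.1 hp).2
    congr 2
    ext f
    simp only [mem_filter, mem_univ, true_and]
    constructor
    · rintro ⟨g1, g2, g3⟩
      exact ⟨fun a b hab _ => g1 a b hab, g2, g3⟩
    · rintro ⟨g1, g2, g3⟩
      refine ⟨fun a b hab => ?_, g2, g3⟩
      by_cases hs : s(a, b) = s(p.1, p.2)
      · rw [Sym2.eq_iff] at hs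
        rcases hs with ⟨e1, e2⟩ | ⟨e1, e2⟩
        · rw [e1, e2, g2, g3]; exact hxy
        · rw [e1, e2, g2, g3]; exact hxy.symm
      · exact g1 a b hab hs
  · refine sum_eq_zero fun p hp => ?_
    have hp := (mem_filter.1 hp).2
    rw [Nat.cast_eq_zero, card_eq_zero, filter_eq_empty_iff]
    rintro f - ⟨g1, g2, g3⟩
    apply hxy
    have := g1 p.1 p.2 hp
    rwa [g2, g3] at this

theorem BB_comm (H : SimpleGraph W) (G : SimpleGraph (Fin n)) (x y : Fin n) :
    BB H G x y = BB H G y x := by
  classical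
  unfold BB
  refine sum_equiv (Equiv.prodComm W W) (fun p => ?_) (fun p _ => ?_)
  · simp only [mem_filter, mem_univ, true_and, Equiv.prodComm_apply, Prod.fst_swap, Prod.snd_swap]
    exact ne_comm
  · simp only [Equiv.prodComm_apply, Prod.fst_swap, Prod.snd_swap]
    congr 2
    ext f
    simp only [mem_filter, mem_univ, true_and]
    tauto

theorem B0_comm (H : SimpleGraph W) (G : SimpleGraph (Fin n)) (x y : Fin n) :
    B0 H G x y = B0 H G y x := by
  classical
  unfold B0
  refine sum_equiv (Equiv.prodComm W W) (fun p => ?_) (fun p _ => ?_)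
  · simp only [mem_filter, mem_univ, true_and, Equiv.prodComm_apply, Prod.fst_swap, Prod.snd_swap]
    rw [ne_comm, H.adj_comm]
  · simp only [Equiv.prodComm_apply, Prod.fst_swap, Prod.snd_swap]
    congr 2
    ext f
    simp only [mem_filter, mem_univ, true_and]
    tauto

theorem rho_comm (H : SimpleGraph W) (G : SimpleGraph (Fin n)) (x y : Fin n) :
    rho H G x y = rho H G y x := by
  classical
  unfold rho
  refine sum_equiv (Equiv.prodComm W W) (fun p => ?_) (fun p _ => ?_)
  · simp only [mem_filter, mem_univ, true_and, Equiv.prodComm_apply, Prod.fst_swap, Prod.snd_swap]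
    rw [H.adj_comm]
  · simp only [Equiv.prodComm_apply, Prod.fst_swap, Prod.snd_swap]
    congr 2
    ext f
    simp only [mem_filter, mem_univ, true_and, Sym2.eq_swap (a := p.2) (b := p.1)]
    tauto

theorem BB_nonneg (H : SimpleGraph W) (G : SimpleGraph (Fin n)) (x y : Fin n) :
    0 ≤ BB H G x y := by
  unfold BB
  exact sum_nonneg fun p _ => Nat.cast_nonneg _

lemma Basics_card_pairs (S : Finset (W × W)) : (#S : ℝ) ≤ (card W : ℝ) ^ 2 := by
  have h := card_le_univ S
  rw [Fintype.card_prod] at h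
  have h' : (#S : ℝ) ≤ ((card W * card W : ℕ) : ℝ) := by exact_mod_cast h
  rw [sq]
  push_cast at h'
  exact h'

theorem BB_le (H : SimpleGraph W) (G : SimpleGraph (Fin n)) (x y : Fin n) :
    BB H G x y * (n : ℝ) ^ 2 ≤ (card W : ℝ) ^ 2 * (n : ℝ) ^ card W := by
  classical
  have : Nonempty (Fin n) := ⟨x⟩
  have hn : (0 : ℝ) < n := by
    have : 0 < n := Fin.pos x
    exact_mod_cast this
  have h1 : BB H G x y ≤ (card W : ℝ) ^ 2 * ((n : ℝ) ^ card W / (n : ℝ) ^ 2) := by
    unfold BB
    calc _ ≤ ∑ p ∈ (univ : Finset (W × W)).filter (fun p => p.1 ≠ p.2),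
          ((n : ℝ) ^ card W / (n : ℝ) ^ 2) := by
          refine sum_le_sum fun p hp => ?_
          have hp := (mem_filter.1 hp).2
          have := H67Blow.pin2 (V := Fin n) p.1 p.2 hp {x} {y}
            (univ.filter (fun f : W → Fin n => Hom H G f ∧ f p.1 = x ∧ f p.2 = y))
            (fun f hf => by
              have := (mem_filter.1 hf).2
              exact ⟨mem_singleton.2 this.2.1, mem_singleton.2 this.2.2⟩)
          rw [Fintype.card_fin] at this
          simpa using this
      _ ≤ _ := by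
          rw [sum_const, nsmul_eq_mul]
          exact mul_le_mul_of_nonneg_right (Basics_card_pairs _) (by positivity)
  calc BB H G x y * (n : ℝ) ^ 2 ≤ (card W : ℝ) ^ 2 * ((n : ℝ) ^ card W / (n : ℝ) ^ 2) * (n : ℝ) ^ 2 :=
        mul_le_mul_of_nonneg_right h1 (by positivity)
    _ = _ := by field_simp

open Classical in
/-- Changing the value at `u` from `x` to `x'`. -/
lemma Basics_one (G : SimpleGraph (Fin n)) (E : W → W → Prop) (hE : ∀ a b, E a b → E b a)
    (hE' : ∀ a, ¬ E a a) (u v : W) (huv : u ≠ v) (hEuv : ¬ E u v) (x x' y : Fin n) :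
    (#(univ.filter (fun f : W → Fin n =>
      (∀ a b, E a b → G.Adj (f a) (f b)) ∧ f u = x ∧ f v = y)) : ℝ) ≤
    (#(univ.filter (fun f : W → Fin n =>
      (∀ a b, E a b → G.Adj (f a) (f b)) ∧ f u = x' ∧ f v = y)) : ℝ) +
      (card W : ℝ) * ((#(symmDiff (nb G x) (nb G x')) : ℝ) *
        ((n : ℝ) ^ card W / (n : ℝ) ^ 3)) := by
  have : Nonempty (Fin n) := ⟨x⟩
  set Fx := univ.filter (fun f : W → Fin n =>
      (∀ a b, E a b → G.Adj (f a) (f b)) ∧ f u = x ∧ f v = y) with hFx
  set Fx' := univ.filter (fun f : W → Fin n =>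
      (∀ a b, E a b → G.Adj (f a) (f b)) ∧ f u = x' ∧ f v = y) with hFx'
  set Δ := symmDiff (nb G x) (nb G x') with hΔ
  set S : W → Finset (W → Fin n) := fun b => univ.filter (fun f : W → Fin n =>
    f u = x ∧ f v = y ∧ f b ∈ Δ) with hS
  have hsub : Fx ⊆ Fx.filter (fun f => ∀ b, E u b → G.Adj x' (f b)) ∪
      (univ.filter (fun b => u ≠ b ∧ v ≠ b)).biUnion S := by
    intro f hf
    rw [mem_union]
    by_cases hg : ∀ b, E u b → G.Adj x' (f b)
    · exact Or.inl (mem_filter.2 ⟨hf, hg⟩)
    · right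
      push Not at hg
      obtain ⟨b, hb, hb'⟩ := hg
      have hf' := (mem_filter.1 hf).2
      refine mem_biUnion.2 ⟨b, mem_filter.2 ⟨mem_univ _, ?_, ?_⟩, mem_filter.2 ⟨mem_univ _,
        hf'.2.1, hf'.2.2, ?_⟩⟩
      · rintro rfl; exact hE' _ hb
      · rintro rfl; exact hEuv hb
      · rw [hΔ, mem_symmDiff]
        left
        refine ⟨?_, ?_⟩
        · rw [mem_nb]
          have := hf'.1 u b hb
          rwa [hf'.2.1] at this
        · rw [mem_nb]; exact hb'
  have hgood : #(Fx.filter (fun f => ∀ b, E u b → G.Adj x' (f b))) ≤ #Fx' := by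
    refine card_le_card_of_injOn (fun f => Function.update f u x') ?_ ?_
    · intro f hf
      have hf1 := (mem_filter.1 hf).2
      have hf2 := (mem_filter.1 (mem_filter.1 hf).1).2
      rw [mem_coe, hFx', mem_filter]
      refine ⟨mem_univ _, ?_, ?_, ?_⟩
      · intro a b hab
        show G.Adj (Function.update f u x' a) (Function.update f u x' b)
        have hne : a ≠ b := by rintro rfl; exact hE' _ hab
        by_cases ha : a = u
        · subst ha
          rw [Function.update_self, Function.update_of_ne hne.symm]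
          exact hf1 b hab
        · by_cases hb : b = u
          · subst hb
            rw [Function.update_self, Function.update_of_ne ha]
            exact (hf1 a (hE _ _ hab)).symm
          · rw [Function.update_of_ne ha, Function.update_of_ne hb]
            exact hf2.1 a b hab
      · show Function.update f u x' u = x'
        rw [Function.update_self]
      · show Function.update f u x' v = y
        rw [Function.update_of_ne huv.symm]
        exact hf2.2.2
    · intro f hf g hg hfg
      have hf2 := (mem_filter.1 (mem_filter.1 hf).1).2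
      have hg2 := (mem_filter.1 (mem_filter.1 hg).1).2
      funext a
      by_cases ha : a = u
      · rw [ha, hf2.2.1, hg2.2.1]
      · have := congrFun hfg a
        simp only [Function.update_of_ne ha] at this
        exact this
  have hbad : (#((univ.filter (fun b => u ≠ b ∧ v ≠ b)).biUnion S) : ℝ) ≤
      (card W : ℝ) * ((#Δ : ℝ) * ((n : ℝ) ^ card W / (n : ℝ) ^ 3)) := by
    have h1 : (#((univ.filter (fun b => u ≠ b ∧ v ≠ b)).biUnion S) : ℝ) ≤
        ∑ b ∈ univ.filter (fun b => u ≠ b ∧ v ≠ b), (#(S b) : ℝ) := by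
      exact_mod_cast card_biUnion_le
    refine h1.trans ?_
    have h2 : ∀ b ∈ univ.filter (fun b => u ≠ b ∧ v ≠ b), (#(S b) : ℝ) ≤
        (#Δ : ℝ) * ((n : ℝ) ^ card W / (n : ℝ) ^ 3) := by
      intro b hb
      have hb := (mem_filter.1 hb).2
      have := H67Blow.pin3 (V := Fin n) u v b huv hb.1 hb.2 {x} {y} Δ (S b)
        (fun f hf => by
          have := (mem_filter.1 hf).2
          exact ⟨mem_singleton.2 this.1, mem_singleton.2 this.2.1, this.2.2⟩)
      rw [Fintype.card_fin] at this
      simpa using this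
    refine (sum_le_sum h2).trans ?_
    rw [sum_const, nsmul_eq_mul]
    refine mul_le_mul_of_nonneg_right ?_ (by positivity)
    exact_mod_cast card_le_univ _
  have h3 : (#Fx : ℝ) ≤ (#(Fx.filter (fun f => ∀ b, E u b → G.Adj x' (f b))) : ℝ) +
      (#((univ.filter (fun b => u ≠ b ∧ v ≠ b)).biUnion S) : ℝ) := by
    exact_mod_cast (card_le_card hsub).trans (card_union_le _ _)
  have h4 : (#(Fx.filter (fun f => ∀ b, E u b → G.Adj x' (f b))) : ℝ) ≤ (#Fx' : ℝ) := by
    exact_mod_cast hgood
  linarith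

/-- summation over the pairs -/
lemma Basics_sum (N T : ℝ) (hN : 0 < N) (hT : 0 ≤ T) (P : Finset (W × W)) (F F' : W × W → ℝ)
    (hF : ∀ p ∈ P, |F p - F' p| ≤ (card W : ℝ) * (T * (N ^ card W / N ^ 3))) :
    |∑ p ∈ P, F p - ∑ p ∈ P, F' p| * N ^ 3 ≤ (card W : ℝ) ^ 3 * T * N ^ card W := by
  have h1 : |∑ p ∈ P, F p - ∑ p ∈ P, F' p| ≤
      (card W : ℝ) ^ 2 * ((card W : ℝ) * (T * (N ^ card W / N ^ 3))) := by
    rw [← sum_sub_distrib]
    refine (abs_sum_le_sum_abs _ _).trans ((sum_le_sum hF).trans ?_)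
    rw [sum_const, nsmul_eq_mul]
    exact mul_le_mul_of_nonneg_right (Basics_card_pairs _) (by positivity)
  calc _ ≤ (card W : ℝ) ^ 2 * ((card W : ℝ) * (T * (N ^ card W / N ^ 3))) * N ^ 3 :=
        mul_le_mul_of_nonneg_right h1 (by positivity)
    _ = _ := by field_simp

theorem B0_lip (H : SimpleGraph W) (G : SimpleGraph (Fin n)) (x x' y : Fin n) :
    |B0 H G x y - B0 H G x' y| * (n : ℝ) ^ 3 ≤
      (card W : ℝ) ^ 3 * (#(symmDiff (nb G x) (nb G x')) : ℝ) * (n : ℝ) ^ card W := by
  classical
  have hn : (0 : ℝ) < n := by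
    have : 0 < n := Fin.pos x
    exact_mod_cast this
  unfold B0
  refine Basics_sum (n : ℝ) _ hn (Nat.cast_nonneg _) _ _ _ fun p hp => ?_
  have hp := (mem_filter.1 hp).2
  have e : ∀ z, (univ.filter (fun f : W → Fin n => Hom H G f ∧ f p.1 = z ∧ f p.2 = y)) =
      univ.filter (fun f : W → Fin n => (∀ a b, H.Adj a b → G.Adj (f a) (f b)) ∧
        f p.1 = z ∧ f p.2 = y) := by
    intro z
    ext f
    simp only [mem_filter, mem_univ, true_and]
    rfl
  have key : ∀ z z' : Fin n, _ := fun z z' => Basics_one G H.Adj (fun a b h => h.symm)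
    (fun a h => h.ne rfl) p.1 p.2 hp.1 hp.2 z z' y
  rw [abs_sub_le_iff]
  constructor
  · rw [sub_le_iff_le_add', e, e]
    exact key x x'
  · have := key x' x
    rw [symmDiff_comm] at this
    rw [sub_le_iff_le_add', e, e]
    exact this

theorem rho_lip (H : SimpleGraph W) (G : SimpleGraph (Fin n)) (x x' y : Fin n) :
    |rho H G x y - rho H G x' y| * (n : ℝ) ^ 3 ≤
      (card W : ℝ) ^ 3 * (#(symmDiff (nb G x) (nb G x')) : ℝ) * (n : ℝ) ^ card W := by
  classical
  have hn : (0 : ℝ) < n := by
    have : 0 < n := Fin.pos x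
    exact_mod_cast this
  unfold rho
  refine Basics_sum (n : ℝ) _ hn (Nat.cast_nonneg _) _ _ _ fun p hp => ?_
  have hp := (mem_filter.1 hp).2
  have key : ∀ z z' : Fin n, _ := fun z z' => Basics_one G
    (fun a b => H.Adj a b ∧ s(a, b) ≠ s(p.1, p.2))
    (fun a b h => ⟨h.1.symm, by rw [Sym2.eq_swap]; exact h.2⟩) (fun a h => h.1.ne rfl) p.1 p.2
    hp.ne (fun h => h.2 rfl) z z' y
  simp only [and_imp] at key
  rw [abs_sub_le_iff]
  constructor
  · rw [sub_le_iff_le_add']
    exact key x x'
  · have := key x' x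
    rw [symmDiff_comm] at this
    rw [sub_le_iff_le_add']
    exact this

end H78B
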