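import Mathlib
import Pool.Agent.H67.Blow.CopyCount

set_option autoImplicit false

/-!
# Definitions for the blow-up theorem (all `k = q + 2`)

`G` is a graph on `Fin n`, `H` a fixed graph on `W`, `h = |W|`. Everything is normalised in such a
way that the natural scale of `U`, `homs` is `n ^ h` and of `BB`, `B0`, `rho` is `n ^ (h - 2)`.
-/

open Finset Fintype

namespace H78B

variable {n : ℕ} {W : Type} [Fintype W]

open Classical in
/-- the neighbourhood of `x`. -/
noncomputable def nb (G : SimpleGraph (Fin n)) (x : Fin n) : Finset (Fin n) :=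
  univ.filter (fun y => G.Adj x y)

@[simp] lemma mem_nb (G : SimpleGraph (Fin n)) (x y : Fin n) : y ∈ nb G x ↔ G.Adj x y := by
  simp [nb]

/-- `f` preserves all edges of `H`. -/
def Hom (H : SimpleGraph W) (G : SimpleGraph (Fin n)) (f : W → Fin n) : Prop :=
  ∀ a b, H.Adj a b → G.Adj (f a) (f b)

/-- `f` preserves all edges of `H` which do not contain `u`. -/
def HomOff (H : SimpleGraph W) (G : SimpleGraph (Fin n)) (u : W) (f : W → Fin n) : Prop :=
  ∀ a b, a ≠ u → b ≠ u → H.Adj a b → G.Adj (f a) (f b)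

open Classical in
/-- number of homomorphisms. -/
noncomputable def homs (H : SimpleGraph W) (G : SimpleGraph (Fin n)) : ℝ :=
  (#(univ.filter (fun f : W → Fin n => Hom H G f)) : ℝ)

open Classical in
/-- usage of a (potential) neighbourhood `S`; the coordinate `u` is free. -/
noncomputable def U (H : SimpleGraph W) (G : SimpleGraph (Fin n)) (S : Finset (Fin n)) : ℝ :=
  ∑ u : W, (#(univ.filter (fun f : W → Fin n => HomOff H G u f ∧ ∀ b, H.Adj u b → f b ∈ S)) : ℝ)

open Classical in
/-- ordered `r`-cliques `c` with `c i ∈ A i`. -/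
noncomputable def ct {r : ℕ} (G : SimpleGraph (Fin n)) (A : Fin r → Finset (Fin n)) :
    Finset (Fin r → Fin n) :=
  univ.filter (fun c => (∀ i j, i ≠ j → G.Adj (c i) (c j)) ∧ ∀ i, c i ∈ A i)

lemma mem_ct {r : ℕ} (G : SimpleGraph (Fin n)) (A : Fin r → Finset (Fin n)) (c : Fin r → Fin n) :
    c ∈ ct G A ↔ (∀ i j, i ≠ j → G.Adj (c i) (c j)) ∧ ∀ i, c i ∈ A i := by
  simp [ct]

/-- number of ordered `(q+1)`-cliques in `S`. -/
noncomputable def KK (q : ℕ) (G : SimpleGraph (Fin n)) (S : Finset (Fin n)) : ℝ :=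
  (#(ct (r := q + 1) G (fun _ => S)) : ℝ)

/-- number of ordered `(q+1)`-cliques whose vertices, except possibly the first one, are in `S`. -/
noncomputable def EE (q : ℕ) (G : SimpleGraph (Fin n)) (S : Finset (Fin n)) : ℝ :=
  (#(ct (r := q + 1) G (fun i => if i = 0 then univ else S)) : ℝ)

open Classical in
/-- number of homomorphisms with two different vertices `u`, `v` of `H` mapped to `x`, `y`
(summed over the ordered pairs `(u, v)`; `x = y` is allowed). -/
noncomputable def BB (H : SimpleGraph W) (G : SimpleGraph (Fin n)) (x y : Fin n) : ℝ :=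
  ∑ p ∈ (univ : Finset (W × W)).filter (fun p => p.1 ≠ p.2),
    (#(univ.filter (fun f : W → Fin n => Hom H G f ∧ f p.1 = x ∧ f p.2 = y)) : ℝ)

open Classical in
/-- the part of `BB` coming from nonadjacent pairs `(u, v)`. -/
noncomputable def B0 (H : SimpleGraph W) (G : SimpleGraph (Fin n)) (x y : Fin n) : ℝ :=
  ∑ p ∈ (univ : Finset (W × W)).filter (fun p => p.1 ≠ p.2 ∧ ¬ H.Adj p.1 p.2),
    (#(univ.filter (fun f : W → Fin n => Hom H G f ∧ f p.1 = x ∧ f p.2 = y)) : ℝ)

open Classical in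
/-- number of maps with an edge `uv` of `H` mapped to `x`, `y` which preserve all edges except
possibly `uv`. -/
noncomputable def rho (H : SimpleGraph W) (G : SimpleGraph (Fin n)) (x y : Fin n) : ℝ :=
  ∑ p ∈ (univ : Finset (W × W)).filter (fun p => H.Adj p.1 p.2),
    (#(univ.filter (fun f : W → Fin n =>
      (∀ a b, H.Adj a b → s(a, b) ≠ s(p.1, p.2) → G.Adj (f a) (f b)) ∧
        f p.1 = x ∧ f p.2 = y)) : ℝ)

/-- `G` is `K_(q+2)`-free and maximises the number of labelled copies of `H`. -/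
def Ext (q : ℕ) (H : SimpleGraph W) (G : SimpleGraph (Fin n)) : Prop :=
  G.CliqueFree (q + 2) ∧
    ∀ G' : SimpleGraph (Fin n), G'.CliqueFree (q + 2) → H67Blow.num H G' ≤ H67Blow.num H G

/-- second order condition: `(∑_{P×P} + ∑_{P'×P'} - 2 ∑_{P×P'}) BB ≤ C_r n^(h-3)`. -/
def SO (H : SimpleGraph W) (G : SimpleGraph (Fin n)) (C : ℕ → ℝ) : Prop :=
  ∀ (r : ℕ) (p p' : Fin r → Fin n), Function.Injective p → Function.Injective p' →
    (∀ i j, p i ≠ p' j) →
    (∑ i, ∑ j, BB H G (p i) (p j) + ∑ i, ∑ j, BB H G (p' i) (p' j)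
      - 2 * ∑ i, ∑ j, BB H G (p i) (p' j)) * (n : ℝ) ^ 3 ≤ C r * (n : ℝ) ^ card W

/-- every edge of `G` has usage at least `c n^(h-2)`. -/
def HighUse (H : SimpleGraph W) (G : SimpleGraph (Fin n)) (c : ℝ) : Prop :=
  ∀ x y, G.Adj x y → c * (n : ℝ) ^ card W ≤ rho H G x y * (n : ℝ) ^ 2

/-- `H` is `(q+1)`-colourable and for every nonconstant 2-colouring `τ` of the `q+1` colours there
are an edge `ab` and a partition of `W \ {a, b}` in three parts `P⁻¹(0)`, `P⁻¹(1)`, `P⁻¹(2)` with no
edges between different parts, no edges from `a` to part 2, no edges from `b` to part 1, and a proper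
colouring of part 0 such that the neighbours of `a` in part 0 have colours of `τ`-type `true` and the
neighbours of `b` in part 0 have colours of `τ`-type `false`. -/
def Sep (q : ℕ) (H : SimpleGraph W) : Prop :=
  H.Colorable (q + 1) ∧ ∀ τ : Fin (q + 1) → Bool, (∃ i, τ i = true) → (∃ i, τ i = false) →
    ∃ (a b : W) (P : W → Fin 3) (col : W → Fin (q + 1)), H.Adj a b ∧
      (∀ v w, H.Adj v w → v ≠ a → v ≠ b → w ≠ a → w ≠ b → P v = P w) ∧
      (∀ v, H.Adj a v → v ≠ b → P v ≠ 2) ∧
      (∀ v, H.Adj b v → v ≠ a → P v ≠ 1) ∧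
      (∀ v w, H.Adj v w → v ≠ a → v ≠ b → w ≠ a → w ≠ b → P v = 0 → col v ≠ col w) ∧
      (∀ v, H.Adj a v → v ≠ b → P v = 0 → τ (col v) = true) ∧
      (∀ v, H.Adj b v → v ≠ a → P v = 0 → τ (col v) = false)

end H78B
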