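import Pool.Agent.H78.Blow.Defs
import Pool.Agent.H78.Blow.Dup

set_option autoImplicit false

/-!
Duplication for an arbitrary pattern graph.
-/

open Finset Fintype

namespace H78B

variable {n : ℕ}

open Classical in
/-- the maps on a set `X` which is mapped to the vertex set `Y` of a pattern `R`. -/
noncomputable def DupH_Gd {Y : Type} (G : SimpleGraph (Fin n)) (R : Y → Y → Prop)
    (A : Y → Finset (Fin n)) (X : Type) [Fintype X] (col : X → Y) : Finset (X → Fin n) :=
  univ.filter (fun f : X → Fin n => (∀ a, f a ∈ A (col a)) ∧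
        ∀ a b, R (col a) (col b) → G.Adj (f a) (f b))

theorem DupH_mem {Y : Type} (G : SimpleGraph (Fin n)) (R : Y → Y → Prop)
    (A : Y → Finset (Fin n)) (X : Type) [Fintype X] (col : X → Y) (f : X → Fin n) :
    f ∈ DupH_Gd G R A X col ↔ (∀ a, f a ∈ A (col a)) ∧
        ∀ a b, R (col a) (col b) → G.Adj (f a) (f b) := by
  simp [DupH_Gd]

theorem DupH_comp {Y : Type} (G : SimpleGraph (Fin n)) (R : Y → Y → Prop)
    (A : Y → Finset (Fin n)) {X Z : Type} [Fintype X] [Fintype Z] (c : X → Y) (c' : Z → Y)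
    (φ : X → Z) (hφ : Function.Surjective φ) (hc : ∀ x, c' (φ x) = c x) :
    #(DupH_Gd G R A Z c') ≤ #(DupH_Gd G R A X c) := by
  refine Finset.card_le_card_of_injOn (fun f => f ∘ φ) ?_ ?_
  · intro f hf
    rw [Finset.mem_coe, DupH_mem] at hf ⊢
    refine ⟨fun a => ?_, fun a b hab => ?_⟩
    · rw [← hc a]; exact hf.1 _
    · exact hf.2 _ _ (by rw [hc, hc]; exact hab)
  · exact (hφ.injective_comp_right).injOn

theorem DupH_step {Y : Type} (G : SimpleGraph (Fin n)) (R : Y → Y → Prop) (hR : ∀ y, ¬ R y y)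
    (A : Y → Finset (Fin n)) {Z : Type} [Fintype Z] (c : Z → Y) (y₀ : Z) :
    #(DupH_Gd G R A Z c) ^ 2 ≤ n ^ (card Z - 1) *
      #(DupH_Gd G R A (Option Z) (fun o => o.elim (c y₀) c)) := by
  classical
  have h1 := Dup_pair_count (DupH_Gd G R A Z c)
    (fun (f : Z → Fin n) (y : {y // y ≠ y₀}) => f y)
  have h2 : card ({y // y ≠ y₀} → Fin n) = n ^ (card Z - 1) := by
    rw [Fintype.card_fun, Fintype.card_fin]
    congr 1
    exact Set.card_ne_eq y₀
  rw [h2] at h1
  refine h1.trans (Nat.mul_le_mul_left _ ?_)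
  refine Finset.card_le_card_of_injOn (fun p o => o.elim (p.2 y₀) p.1) ?_ ?_
  · rintro ⟨f, f'⟩ hp
    rw [Finset.mem_coe, mem_filter, mem_product, DupH_mem, DupH_mem] at hp
    obtain ⟨⟨⟨hf1, hf2⟩, ⟨hf1', hf2'⟩⟩, hff⟩ := hp
    have hag : ∀ y, y ≠ y₀ → f y = f' y := fun y hy => congrFun hff ⟨y, hy⟩
    rw [Finset.mem_coe, DupH_mem]
    refine ⟨fun o => ?_, fun o o' => ?_⟩
    · cases o with
      | none => exact hf1' y₀
      | some y => exact hf1 y
    · cases o with
      | none =>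
        cases o' with
        | none => intro h; exact absurd h (hR _)
        | some y =>
          intro h
          have hy : y ≠ y₀ := by rintro rfl; exact hR _ h
          show G.Adj (f' y₀) (f y)
          rw [hag y hy]
          exact hf2' _ _ h
      | some y =>
        cases o' with
        | none =>
          intro h
          have hy : y ≠ y₀ := by rintro rfl; exact hR _ h
          show G.Adj (f y) (f' y₀)
          rw [hag y hy]
          exact hf2' _ _ h
        | some y' =>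
          intro h
          exact hf2 _ _ h
  · rintro ⟨f, f'⟩ hp ⟨g, g'⟩ hq heq
    rw [Finset.mem_coe, mem_filter] at hp hq
    have hag : ∀ y, y ≠ y₀ → f y = f' y := fun y hy => congrFun hp.2 ⟨y, hy⟩
    have hag' : ∀ y, y ≠ y₀ → g y = g' y := fun y hy => congrFun hq.2 ⟨y, hy⟩
    have h3 : f = g := by
      funext y
      exact congrFun heq (some y)
    have h4 : f' y₀ = g' y₀ := congrFun heq none
    have h5 : f' = g' := by
      funext y
      by_cases hy : y = y₀
      · rw [hy]; exact h4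
      · rw [← hag y hy, ← hag' y hy, h3]
    rw [h3, h5]

theorem DupH_main {Y : Type} [Fintype Y] (G : SimpleGraph (Fin n)) (R : Y → Y → Prop)
    (hR : ∀ y, ¬ R y y) (A : Y → Finset (Fin n))
    (δ : ℝ) (hδ0 : 0 ≤ δ) (h : δ * (n : ℝ) ^ card Y ≤ (#(DupH_Gd G R A Y id) : ℝ)) (m : ℕ) :
    ∀ (X : Type) [Fintype X] (col : X → Y), card X = m →
    δ ^ (2 ^ m) * (n : ℝ) ^ (card Y + m) ≤
      (#(DupH_Gd G R A (Y ⊕ X) (Sum.elim id col)) : ℝ) := by
  classical
  induction m with
  | zero =>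
    intro X _ col hX
    have : IsEmpty X := Fintype.card_eq_zero_iff.1 hX
    have h1 := DupH_comp G R A (X := Y ⊕ X) (Z := Y) (Sum.elim id col) id
      (Sum.elim id (fun x => isEmptyElim x)) (fun i => ⟨Sum.inl i, rfl⟩) (by
        rintro (i | x)
        · rfl
        · exact isEmptyElim x)
    rw [pow_zero, pow_one, add_zero]
    refine h.trans ?_
    exact_mod_cast h1
  | succ m ih =>
    intro X _ col hX
    obtain ⟨x₀⟩ : Nonempty X := Fintype.card_pos_iff.1 (by omega)
    have hZ : card {x // x ≠ x₀} = m := by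
      have h3 : card {x // x ≠ x₀} = card X - 1 := Set.card_ne_eq x₀
      omega
    have h1 := ih {x // x ≠ x₀} (fun x => col x) hZ
    have h2 := DupH_step G R hR A (Z := Y ⊕ {x // x ≠ x₀}) (Sum.elim id (fun x => col x))
      (Sum.inl (col x₀))
    have hcard : card (Y ⊕ {x // x ≠ x₀}) = card Y + m := by
      rw [Fintype.card_sum, hZ]
    rw [hcard] at h2
    have h3 := DupH_comp G R A (X := Y ⊕ X) (Z := Option (Y ⊕ {x // x ≠ x₀}))
      (Sum.elim id col)
      (fun o => o.elim (Sum.elim id (fun x : {x // x ≠ x₀} => col x) (Sum.inl (col x₀)))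
        (Sum.elim id (fun x : {x // x ≠ x₀} => col x)))
      (Sum.elim (fun i => some (Sum.inl i))
        (fun x => if hx : x = x₀ then none else some (Sum.inr ⟨x, hx⟩))) (by
        rintro (_ | (i | ⟨x, hx⟩))
        · exact ⟨Sum.inr x₀, by simp⟩
        · exact ⟨Sum.inl i, rfl⟩
        · exact ⟨Sum.inr x, by simp [hx]⟩) (by
        rintro (i | x)
        · rfl
        · by_cases hx : x = x₀
          · subst hx; simp
          · simp [hx])
    rcases Nat.eq_zero_or_pos n with hn | hn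
    · subst hn
      rw [Nat.cast_zero, zero_pow (by omega), mul_zero]
      exact Nat.cast_nonneg _
    · have hr : 0 < card Y := Fintype.card_pos_iff.2 ⟨col x₀⟩
      have hnr : (0 : ℝ) < n := by exact_mod_cast hn
      have h4 : ((#(DupH_Gd G R A (Y ⊕ {x // x ≠ x₀}) (Sum.elim id (fun x => col x))) : ℝ)) ^ 2 ≤
          (n : ℝ) ^ (card Y + m - 1) *
            (#(DupH_Gd G R A (Y ⊕ X) (Sum.elim id col)) : ℝ) := by
        have h5 : #(DupH_Gd G R A (Y ⊕ {x // x ≠ x₀}) (Sum.elim id (fun x => col x))) ^ 2 ≤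
          n ^ (card Y + m - 1) * #(DupH_Gd G R A (Y ⊕ X) (Sum.elim id col)) :=
          h2.trans (Nat.mul_le_mul_left _ h3)
        exact_mod_cast h5
      have h6 : (δ ^ (2 ^ m) * (n : ℝ) ^ (card Y + m)) ^ 2 ≤
          ((#(DupH_Gd G R A (Y ⊕ {x // x ≠ x₀}) (Sum.elim id (fun x => col x))) : ℝ)) ^ 2 :=
        pow_le_pow_left₀ (by positivity) h1 2
      have h7 : (n : ℝ) ^ (card Y + m - 1) * (δ ^ (2 ^ (m + 1)) * (n : ℝ) ^ (card Y + (m + 1))) =
          (δ ^ (2 ^ m) * (n : ℝ) ^ (card Y + m)) ^ 2 := by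
        have e1 : (δ ^ (2 ^ m) * (n : ℝ) ^ (card Y + m)) ^ 2 =
            δ ^ (2 ^ (m + 1)) * (n : ℝ) ^ ((card Y + m) * 2) := by
          rw [mul_pow, ← pow_mul, ← pow_mul, pow_succ 2 m]
        rw [e1, mul_left_comm, ← pow_add]
        congr 2
        omega
      have h8 : (n : ℝ) ^ (card Y + m - 1) * (δ ^ (2 ^ (m + 1)) * (n : ℝ) ^ (card Y + (m + 1))) ≤
          (n : ℝ) ^ (card Y + m - 1) *
            (#(DupH_Gd G R A (Y ⊕ X) (Sum.elim id col)) : ℝ) := by
        rw [h7]
        exact h6.trans h4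
      exact le_of_mul_le_mul_left h8 (by positivity)

/-- duplication for the pattern `R` on `Y`. -/
theorem dupH {Y : Type} [Fintype Y] (G : SimpleGraph (Fin n)) (R : Y → Y → Prop)
    (hR : ∀ y, ¬ R y y) (A : Y → Finset (Fin n)) (X : Type) [Fintype X]
    (col : X → Y) (δ : ℝ) (hδ0 : 0 ≤ δ) (hδ1 : δ ≤ 1)
    (h : δ * (n : ℝ) ^ card Y ≤ (#(DupH_Gd G R A Y id) : ℝ)) :
    δ ^ (2 ^ card X) * (n : ℝ) ^ card X ≤ (#(DupH_Gd G R A X col) : ℝ) := by
  classical
  have h1 := DupH_main G R hR A δ hδ0 h (card X) X col rfl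
  have h2 : #(DupH_Gd G R A (Y ⊕ X) (Sum.elim id col)) ≤ n ^ card Y * #(DupH_Gd G R A X col) := by
    have h3 : #((univ : Finset (Y → Fin n)) ×ˢ DupH_Gd G R A X col) =
        n ^ card Y * #(DupH_Gd G R A X col) := by
      rw [Finset.card_product, Finset.card_univ, Fintype.card_fun, Fintype.card_fin]
    rw [← h3]
    refine Finset.card_le_card_of_injOn (fun f => (f ∘ Sum.inl, f ∘ Sum.inr)) ?_ ?_
    · intro f hf
      rw [Finset.mem_coe, DupH_mem] at hf
      rw [Finset.mem_coe, mem_product, DupH_mem]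
      exact ⟨mem_univ _, fun a => hf.1 (Sum.inr a), fun a b hab => hf.2 (Sum.inr a) (Sum.inr b) hab⟩
    · intro f _ g _ hfg
      have e1 := congrArg Prod.fst hfg
      have e2 := congrArg Prod.snd hfg
      funext y
      cases y with
      | inl i => exact congrFun e1 i
      | inr x => exact congrFun e2 x
  rcases Nat.eq_zero_or_pos n with hn | hn
  · subst hn
    rcases Nat.eq_zero_or_pos (card X) with hX | hX
    · have : IsEmpty X := Fintype.card_eq_zero_iff.1 hX
      rw [hX, pow_zero, pow_zero, pow_one, mul_one]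
      refine hδ1.trans ?_
      have h4 : 0 < #(DupH_Gd G R A X col) := by
        refine Finset.card_pos.2 ⟨fun x => isEmptyElim x, ?_⟩
        rw [DupH_mem]
        exact ⟨fun a => isEmptyElim a, fun a => isEmptyElim a⟩
      exact_mod_cast h4
    · rw [Nat.cast_zero, zero_pow hX.ne', mul_zero]
      exact Nat.cast_nonneg _
  · have hnr : (0 : ℝ) < n := by exact_mod_cast hn
    have h5 : (#(DupH_Gd G R A (Y ⊕ X) (Sum.elim id col)) : ℝ) ≤
        (n : ℝ) ^ card Y * (#(DupH_Gd G R A X col) : ℝ) := by exact_mod_cast h2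
    have h6 : (n : ℝ) ^ card Y * (δ ^ (2 ^ card X) * (n : ℝ) ^ card X) ≤
        (n : ℝ) ^ card Y * (#(DupH_Gd G R A X col) : ℝ) := by
      refine le_trans (le_of_eq ?_) (h1.trans h5)
      rw [pow_add]
      ring
    exact le_of_mul_le_mul_left h6 (by positivity)

end H78B
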