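import Pool.Agent.H78.Blow.Defs

set_option autoImplicit false

open Finset Fintype

namespace H78B

variable {n : ℕ} {W : Type} [Fintype W]

/-! ## BL-16 : epsilon-net from Sauer-Shelah (helper29) -/

theorem epsNet_count {α : Type*} [DecidableEq α] (Z : Finset α) (d k : ℕ) (hk : #Z ≤ k) :
    #(Z.powerset.filter (fun s => #s < d)) ≤ d * (k + 1) ^ d := by
  have h : Z.powerset.filter (fun s => #s < d) ⊆ (Finset.range d).biUnion
      (fun i => powersetCard i Z) := by
    intro s hs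
    rw [mem_filter, mem_powerset] at hs
    rw [mem_biUnion]
    exact ⟨#s, mem_range.2 hs.2, mem_powersetCard.2 ⟨hs.1, rfl⟩⟩
  refine (card_le_card h).trans (card_biUnion_le.trans ?_)
  calc ∑ i ∈ Finset.range d, #(powersetCard i Z) ≤ ∑ i ∈ Finset.range d, (k + 1) ^ d := by
        apply sum_le_sum
        intro i hi
        rw [card_powersetCard]
        calc (#Z).choose i ≤ (#Z) ^ i := Nat.choose_le_pow _ _
          _ ≤ (k + 1) ^ i := Nat.pow_le_pow_left (by omega) _
          _ ≤ (k + 1) ^ d := Nat.pow_le_pow_right (by omega) (mem_range.1 hi).le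
    _ = d * (k + 1) ^ d := by rw [sum_const, card_range, smul_eq_mul]

/-- Sauer-Shelah: few traces on `Z`. -/
theorem epsNet_traces {n : ℕ} (d : ℕ) (F : Fin n → Finset (Fin n))
    (hF : ∀ Z : Finset (Fin n), d ≤ #Z → ∃ T ⊆ Z, ∀ x, Z ∩ F x ≠ T) (X Z : Finset (Fin n)) (k : ℕ)
    (hk : #Z ≤ k) : #(X.image (fun x => Z ∩ F x)) ≤ d * (k + 1) ^ d := by
  refine (card_le_card_shatterer _).trans (le_trans (card_le_card ?_) (epsNet_count Z d k hk))
  intro s hs
  rw [mem_shatterer] at hs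
  rw [mem_filter, mem_powerset]
  constructor
  · obtain ⟨t, ht, hst⟩ := hs.exists_superset
    obtain ⟨x, _, rfl⟩ := mem_image.1 ht
    exact hst.trans inter_subset_left
  · by_contra hcon
    obtain ⟨T, hT, hT2⟩ := hF s (not_lt.1 hcon)
    obtain ⟨u, hu, hu2⟩ := hs hT
    obtain ⟨x, _, rfl⟩ := mem_image.1 hu
    have hsZ : s ⊆ Z := by
      obtain ⟨t, ht, hst⟩ := hs.exists_superset
      obtain ⟨x, _, rfl⟩ := mem_image.1 ht
      exact hst.trans inter_subset_left
    apply hT2 x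
    rw [← hu2, ← inter_assoc, inter_eq_left.2 hsZ]

theorem epsNet_choose_k (d : ℕ) (r : ℝ) (hr0 : 0 ≤ r) (hr1 : r < 1) :
    ∃ k : ℕ, ((d * (k + 1) ^ d + 1 : ℕ) : ℝ) ^ 2 * r ^ k < 1 := by
  have h1 := tendsto_pow_const_mul_const_pow_of_abs_lt_one (2 * d)
    (show |r| < 1 by rw [abs_of_nonneg hr0]; exact hr1)
  have h2 := h1.const_mul (((d * 2 ^ d + 1 : ℕ) : ℝ) ^ 2)
  rw [mul_zero] at h2
  obtain ⟨k, hk1, hk2⟩ := ((h2.eventually (gt_mem_nhds one_pos)).and
    (Filter.eventually_ge_atTop 1)).exists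
  refine ⟨k, lt_of_le_of_lt ?_ hk1⟩
  have h3 : d * (k + 1) ^ d + 1 ≤ (d * 2 ^ d + 1) * k ^ d := by
    have e1 : (k + 1) ^ d ≤ (2 * k) ^ d := Nat.pow_le_pow_left (by omega) d
    have e2 : 1 ≤ k ^ d := Nat.one_le_pow _ _ (by omega)
    calc d * (k + 1) ^ d + 1 ≤ d * (2 * k) ^ d + k ^ d := by gcongr
      _ = (d * 2 ^ d + 1) * k ^ d := by rw [mul_pow]; ring
  have h4 : ((d * (k + 1) ^ d + 1 : ℕ) : ℝ) ≤ ((d * 2 ^ d + 1 : ℕ) : ℝ) * (k : ℝ) ^ d := by
    exact_mod_cast h3
  calc ((d * (k + 1) ^ d + 1 : ℕ) : ℝ) ^ 2 * r ^ k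
      ≤ (((d * 2 ^ d + 1 : ℕ) : ℝ) * (k : ℝ) ^ d) ^ 2 * r ^ k := by gcongr
    _ = ((d * 2 ^ d + 1 : ℕ) : ℝ) ^ 2 * ((k : ℝ) ^ (2 * d) * r ^ k) := by
        rw [mul_pow, ← pow_mul, mul_comm d 2]; ring

theorem epsNet_avoid {n : ℕ} (k : ℕ) (D : Finset (Fin n)) (ε : ℝ)
    (hD : ε * n < (#D : ℝ)) :
    (#((univ : Finset (Fin k → Fin n)).filter (fun z => ∀ i, z i ∉ D)) : ℝ) ≤
      ((1 - ε) * n) ^ k := by
  have h1 : (univ : Finset (Fin k → Fin n)).filter (fun z => ∀ i, z i ∉ D) =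
      Fintype.piFinset (fun _ => univ \ D) := by
    ext z
    simp [Fintype.mem_piFinset]
  have hDn : #D ≤ n := by
    have := card_le_univ D
    rwa [Fintype.card_fin] at this
  rw [h1, Fintype.card_piFinset, prod_const, card_univ, Fintype.card_fin,
    card_sdiff_of_subset (subset_univ D), card_univ, Fintype.card_fin]
  push_cast [Nat.cast_sub hDn]
  apply pow_le_pow_left₀
  · have : (#D : ℝ) ≤ n := by exact_mod_cast hDn
    linarith
  · linarith

theorem eps_net (d : ℕ) (ε : ℝ) (hε : 0 < ε) :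
    ∃ M : ℕ, ∀ (n : ℕ) (F : Fin n → Finset (Fin n)),
      (∀ Z : Finset (Fin n), d ≤ #Z → ∃ T ⊆ Z, ∀ x, Z ∩ F x ≠ T) →
      ∀ X : Finset (Fin n),
        (∀ x ∈ X, ∀ y ∈ X, x ≠ y → ε * n < (#(symmDiff (F x) (F y)) : ℝ)) → #X ≤ M := by
  by_cases hε1 : 1 ≤ ε
  · refine ⟨1, fun n F _ X hX => ?_⟩
    rw [card_le_one]
    intro x hx y hy
    by_contra hxy
    have h1 := hX x hx y hy hxy
    have h2 : (#(symmDiff (F x) (F y)) : ℝ) ≤ n := by
      have := card_le_univ (symmDiff (F x) (F y))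
      rw [Fintype.card_fin] at this
      exact_mod_cast this
    have h3 : (n : ℝ) ≤ ε * n := by
      have : (0 : ℝ) ≤ n := Nat.cast_nonneg n
      nlinarith
    linarith
  · push Not at hε1
    obtain ⟨k, hk⟩ := epsNet_choose_k d (1 - ε) (by linarith) (by linarith)
    refine ⟨d * (k + 1) ^ d, fun n F hF X hX => ?_⟩
    by_contra hcon
    push Not at hcon
    obtain ⟨X', hX'X, hX'card⟩ := exists_subset_card_eq
      (show d * (k + 1) ^ d + 1 ≤ #X by omega)
    have hn : 0 < n := by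
      have : X.Nonempty := card_pos.1 (by omega)
      obtain ⟨x, _⟩ := this
      exact x.pos
    -- a good sample
    have hgood : ∃ z : Fin k → Fin n, ∀ x ∈ X', ∀ y ∈ X', x ≠ y →
        ∃ i, z i ∈ symmDiff (F x) (F y) := by
      by_contra hno
      push Not at hno
      have hcover : (univ : Finset (Fin k → Fin n)) ⊆ (X' ×ˢ X').biUnion (fun p =>
          if p.1 ≠ p.2 then (univ : Finset (Fin k → Fin n)).filter
            (fun z => ∀ i, z i ∉ symmDiff (F p.1) (F p.2)) else ∅) := by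
        intro z _
        obtain ⟨x, hx, y, hy, hxy, h⟩ := hno z
        rw [mem_biUnion]
        refine ⟨(x, y), mem_product.2 ⟨hx, hy⟩, ?_⟩
        rw [if_pos hxy, mem_filter]
        exact ⟨mem_univ _, h⟩
      have h1 := (card_le_card hcover).trans card_biUnion_le
      rw [card_univ, Fintype.card_fun, Fintype.card_fin, Fintype.card_fin] at h1
      have h2 : ((∑ p ∈ X' ×ˢ X', #(if p.1 ≠ p.2 then (univ : Finset (Fin k → Fin n)).filter
            (fun z => ∀ i, z i ∉ symmDiff (F p.1) (F p.2)) else ∅) : ℕ) : ℝ) ≤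
          ((d * (k + 1) ^ d + 1 : ℕ) : ℝ) ^ 2 * ((1 - ε) * n) ^ k := by
        push_cast
        have : ∀ p ∈ X' ×ˢ X', (#(if p.1 ≠ p.2 then (univ : Finset (Fin k → Fin n)).filter
            (fun z => ∀ i, z i ∉ symmDiff (F p.1) (F p.2)) else ∅) : ℝ) ≤
            ((1 - ε) * n) ^ k := by
          intro p hp
          rw [mem_product] at hp
          by_cases hpp : p.1 ≠ p.2
          · rw [if_pos hpp]
            exact epsNet_avoid k _ ε (hX _ (hX'X hp.1) _ (hX'X hp.2) hpp)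
          · rw [if_neg hpp, Finset.card_empty, Nat.cast_zero]
            have : (0 : ℝ) ≤ (1 - ε) * n := mul_nonneg (by linarith) (Nat.cast_nonneg n)
            positivity
        refine (sum_le_card_nsmul _ _ _ this).trans (le_of_eq ?_)
        rw [card_product, hX'card, nsmul_eq_mul]
        push_cast
        ring
      have h3 : ((n ^ k : ℕ) : ℝ) ≤ ((d * (k + 1) ^ d + 1 : ℕ) : ℝ) ^ 2 * ((1 - ε) * n) ^ k :=
        le_trans (by exact_mod_cast h1) h2
      rw [mul_pow, ← mul_assoc] at h3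
      push_cast at h3 hk
      have h4 : (0 : ℝ) < (n : ℝ) ^ k := by positivity
      nlinarith
    obtain ⟨z, hz⟩ := hgood
    have hZ : #(univ.image z) ≤ k := by
      refine card_image_le.trans ?_
      rw [card_univ, Fintype.card_fin]
    have h1 := epsNet_traces d F hF X' (univ.image z) k hZ
    have h2 : #(X'.image (fun x => univ.image z ∩ F x)) = #X' := by
      apply card_image_of_injOn
      intro x hx y hy hxy
      by_contra hne
      obtain ⟨i, hi⟩ := hz x hx y hy hne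
      simp only at hxy
      have h3 : z i ∈ univ.image z := mem_image_of_mem _ (mem_univ i)
      have h4 : z i ∈ F x ↔ z i ∈ F y := by
        constructor
        · intro h
          have : z i ∈ univ.image z ∩ F y := by rw [← hxy]; exact mem_inter.2 ⟨h3, h⟩
          exact (mem_inter.1 this).2
        · intro h
          have : z i ∈ univ.image z ∩ F x := by rw [hxy]; exact mem_inter.2 ⟨h3, h⟩
          exact (mem_inter.1 this).2
      rw [mem_symmDiff] at hi
      tauto
    rw [h2, hX'card] at h1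
    omega

end H78B
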