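import Pool.Agent.H78.Blow.Defs
import Pool.Agent.H78.Blow.Basics
import Pool.Agent.H78.Blow.EpsNet

set_option autoImplicit false

open Finset Fintype

namespace H78B

variable {n : ℕ} {W : Type} [Fintype W]

/-! ## BL-17 : near twins and few neighbourhoods (uses BL-13, eps_net) -/

/-- pairwise adjacent tuples of length `m` contradict `CliqueFree m`. -/
lemma few_clique {m : ℕ} {G : SimpleGraph (Fin n)} (h : G.CliqueFree m) (f : Fin m → Fin n)
    (hf : ∀ i j, i ≠ j → G.Adj (f i) (f j)) : False := by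
  classical
  have hinj : Function.Injective f := by
    intro i j hij
    by_contra hne
    exact (hf i j hne).ne hij
  apply h (univ.image f)
  rw [SimpleGraph.isNClique_iff]
  refine ⟨?_, ?_⟩
  · intro a ha b hb hab
    rw [mem_coe, mem_image] at ha hb
    obtain ⟨i, -, rfl⟩ := ha
    obtain ⟨j, -, rfl⟩ := hb
    exact hf i j fun e => hab (by rw [e])
  · rw [card_image_of_injective _ hinj, card_univ, Fintype.card_fin]

open Classical in
lemma few_count (q : ℕ) (i : Fin (q + 1)) (S : Finset (Fin n)) :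
    #(univ.filter (fun c : Fin (q + 1) → Fin n => c i ∈ S)) = #S * n ^ q := by
  have e : univ.filter (fun c : Fin (q + 1) → Fin n => c i ∈ S) =
      Fintype.piFinset (fun j => if j = i then S else univ) := by
    ext c
    simp only [mem_filter, mem_univ, true_and, Fintype.mem_piFinset]
    constructor
    · intro h j
      by_cases hj : j = i
      · subst hj; simpa using h
      · simp [hj]
    · intro h
      simpa using h i
  rw [e, Fintype.card_piFinset, ← Finset.mul_prod_erase univ _ (mem_univ i), if_pos rfl]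
  congr 1
  have e2 : ∀ j ∈ (univ : Finset (Fin (q + 1))).erase i,
      #(if j = i then S else (univ : Finset (Fin n))) = n := by
    intro j hj
    rw [if_neg (ne_of_mem_erase hj), card_univ, Fintype.card_fin]
  rw [Finset.prod_congr rfl e2, Finset.prod_const, card_erase_of_mem (mem_univ i), card_univ,
    Fintype.card_fin]
  rfl

/-- near twins are not adjacent. -/
lemma few_nonadj {q : ℕ} {G : SimpleGraph (Fin n)} (hG : G.CliqueFree (q + 2)) {x x' : Fin n}
    {δ η : ℝ} (hE : δ * (n : ℝ) ^ (q + 1) ≤ EE q G (nb G x)) (hη : ((q : ℝ) + 1) * η < δ)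
    (hx : (#(symmDiff (nb G x) (nb G x')) : ℝ) ≤ η * n) (hn : 0 < n) : ¬ G.Adj x x' := by
  classical
  intro hadj
  have hsub : ct (r := q + 1) G (fun i => if i = 0 then univ else nb G x) ⊆
      univ.biUnion (fun i : Fin (q + 1) => univ.filter
        (fun c : Fin (q + 1) → Fin n => c i ∈ symmDiff (nb G x) (nb G x'))) := by
    intro c hc
    rw [mem_ct] at hc
    by_contra hcon
    rw [mem_biUnion] at hcon
    push Not at hcon
    have h1 : ∀ i : Fin q, G.Adj x (c i.succ) := by
      intro i
      have := hc.2 i.succ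
      rw [if_neg (Fin.succ_ne_zero i)] at this
      exact (mem_nb _ _ _).1 this
    have h2 : ∀ i : Fin q, G.Adj x' (c i.succ) := by
      intro i
      by_contra h3
      apply hcon i.succ (mem_univ _)
      rw [mem_filter, Finset.mem_symmDiff]
      refine ⟨mem_univ _, Or.inl ⟨(mem_nb _ _ _).2 (h1 i), ?_⟩⟩
      rw [mem_nb]
      exact h3
    apply few_clique hG (Fin.cons x (Fin.cons x' (fun i : Fin q => c i.succ)))
    intro i j
    induction i using Fin.cases with
    | zero =>
      induction j using Fin.cases with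
      | zero => intro h; exact absurd rfl h
      | succ j =>
        induction j using Fin.cases with
        | zero => intro _; exact hadj
        | succ j => intro _; exact h1 j
    | succ i =>
      induction i using Fin.cases with
      | zero =>
        induction j using Fin.cases with
        | zero => intro _; exact hadj.symm
        | succ j =>
          induction j using Fin.cases with
          | zero => intro h; exact absurd rfl h
          | succ j => intro _; exact h2 j
      | succ i =>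
        induction j using Fin.cases with
        | zero => intro _; exact (h1 i).symm
        | succ j =>
          induction j using Fin.cases with
          | zero => intro _; exact (h2 i).symm
          | succ j => intro h; exact hc.1 _ _ (fun e => h (by rw [e]))
  have h3 := (card_le_card hsub).trans card_biUnion_le
  simp only [few_count, sum_const, card_univ, Fintype.card_fin, smul_eq_mul] at h3
  have h4 : EE q G (nb G x) ≤ ((q : ℝ) + 1) * (#(symmDiff (nb G x) (nb G x')) * (n : ℝ) ^ q) := by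
    unfold EE
    have : ((#(ct (r := q + 1) G (fun i => if i = 0 then univ else nb G x)) : ℕ) : ℝ) ≤
        (((q + 1) * (#(symmDiff (nb G x) (nb G x')) * n ^ q) : ℕ) : ℝ) := by exact_mod_cast h3
    refine this.trans (le_of_eq ?_)
    push_cast
    rfl
  have hnp : (0 : ℝ) < (n : ℝ) ^ q := by positivity
  have hnr : (0 : ℝ) < n := by exact_mod_cast hn
  have h5 : ((q : ℝ) + 1) * (#(symmDiff (nb G x) (nb G x')) * (n : ℝ) ^ q) ≤
      ((q : ℝ) + 1) * η * (n : ℝ) ^ (q + 1) := by
    have := mul_le_mul_of_nonneg_right hx hnp.le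
    have h6 := mul_le_mul_of_nonneg_left this (by positivity : (0 : ℝ) ≤ (q : ℝ) + 1)
    refine h6.trans (le_of_eq ?_)
    ring
  have h7 : ((q : ℝ) + 1) * η * (n : ℝ) ^ (q + 1) < δ * (n : ℝ) ^ (q + 1) :=
    mul_lt_mul_of_pos_right hη (by positivity)
  linarith

/-- the quadruple inequality. -/
lemma few_quad (H : SimpleGraph W) (G : SimpleGraph (Fin n)) (C : ℕ → ℝ) {c η : ℝ} (hc : 0 < c)
    (hη : 0 ≤ η) (hη2 : 10 * (card W : ℝ) ^ 3 * η ≤ c) (hn : 0 < n) (hn2 : C 2 < c * n)
    (hSO : SO H G C) (hHU : HighUse H G c) {x x' w w' : Fin n} (hxx : ¬ G.Adj x x')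
    (hww : ¬ G.Adj w w') (a1 : G.Adj x w) (a2 : G.Adj x' w') (a3 : ¬ G.Adj x' w)
    (hx : (#(symmDiff (nb G x) (nb G x')) : ℝ) ≤ η * n)
    (hw : (#(symmDiff (nb G w) (nb G w')) : ℝ) ≤ η * n) : False := by
  classical
  have hnr : (0 : ℝ) < n := by exact_mod_cast hn
  set L : ℝ := (n : ℝ) ^ card W with hL
  have hLp : 0 < L := by positivity
  set e : ℝ := (card W : ℝ) ^ 3 * (η * n) * L with he
  have he0 : 0 ≤ e := by positivity
  -- Lipschitz bounds
  have lx : ∀ y, |B0 H G x y - B0 H G x' y| * (n : ℝ) ^ 3 ≤ e := fun y =>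
    (B0_lip H G x x' y).trans
      (mul_le_mul_of_nonneg_right (mul_le_mul_of_nonneg_left hx (by positivity)) hLp.le)
  have lw : ∀ y, |B0 H G w y - B0 H G w' y| * (n : ℝ) ^ 3 ≤ e := fun y =>
    (B0_lip H G w w' y).trans
      (mul_le_mul_of_nonneg_right (mul_le_mul_of_nonneg_left hw (by positivity)) hLp.le)
  have rx : ∀ y, |rho H G x y - rho H G x' y| * (n : ℝ) ^ 3 ≤ e := fun y =>
    (rho_lip H G x x' y).trans
      (mul_le_mul_of_nonneg_right (mul_le_mul_of_nonneg_left hx (by positivity)) hLp.le)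
  have hN3 : (0 : ℝ) < (n : ℝ) ^ 3 := by positivity
  have abs1 : ∀ {a b : ℝ}, |a - b| * (n : ℝ) ^ 3 ≤ e → (b - a) * (n : ℝ) ^ 3 ≤ e ∧
      (a - b) * (n : ℝ) ^ 3 ≤ e := by
    intro a b h
    constructor
    · refine le_trans (mul_le_mul_of_nonneg_right ?_ hN3.le) h
      rw [abs_sub_comm]
      exact le_abs_self _
    · exact le_trans (mul_le_mul_of_nonneg_right (le_abs_self _) hN3.le) h
  -- second order condition
  have hxw : x ≠ w := a1.ne
  have hxw' : x' ≠ w' := a2.ne
  have h1 : x ≠ x' := by rintro rfl; exact a3 a1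
  have h2 : w ≠ w' := by rintro rfl; exact a3 a2
  have h3 : x ≠ w' := by rintro rfl; exact hxx a2.symm
  have h4 : w ≠ x' := by rintro rfl; exact hxx a1
  have hso := hSO 2 ![x, w] ![x', w'] (by
      intro i j hij
      fin_cases i <;> fin_cases j <;> simp_all) (by
      intro i j hij
      fin_cases i <;> fin_cases j <;> simp_all) (by
      intro i j
      fin_cases i <;> fin_cases j <;> simp_all)
  simp only [Fin.sum_univ_two, Matrix.cons_val_zero, Matrix.cons_val_one] at hso
  rw [BB_comm H G w x, BB_comm H G w' x', BB_comm H G w x', BB_eq H G x x, BB_eq H G w w,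
    BB_eq H G x' x', BB_eq H G w' w', BB_eq H G x x', BB_eq H G w w', BB_eq H G x w,
    BB_eq H G x' w', BB_eq H G x w', BB_eq H G x' w, if_neg (G.irrefl), if_neg (G.irrefl),
    if_neg (G.irrefl), if_neg (G.irrefl), if_neg hxx, if_neg hww, if_pos a1, if_pos a2,
    if_neg a3] at hso
  have b1 := (abs1 (lx x)).1
  have b2 := (abs1 (lx x')).2
  have b3 := (abs1 (lw w)).1
  have b4 := (abs1 (lw w')).2
  have b5 := (abs1 (lx w)).1
  have b6 := (abs1 (lx w')).2
  have c1 := B0_comm H G x x'
  have c2 := B0_comm H G w w'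
  have r1 := (abs1 (rx w')).2
  have u1 : c * n * L ≤ rho H G x w * (n : ℝ) ^ 3 := by
    have := mul_le_mul_of_nonneg_right (hHU x w a1) hnr.le
    refine le_trans (le_of_eq ?_) (this.trans (le_of_eq ?_)) <;> ring
  have u2 : c * n * L ≤ rho H G x' w' * (n : ℝ) ^ 3 := by
    have := mul_le_mul_of_nonneg_right (hHU x' w' a2) hnr.le
    refine le_trans (le_of_eq ?_) (this.trans (le_of_eq ?_)) <;> ring
  have hcn : 0 < c * n * L := by positivity
  have hfin : C 2 * L < c * n * L := mul_lt_mul_of_pos_right hn2 hLp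
  have h10 : 10 * e ≤ c * n * L := by
    have : 10 * e = (10 * (card W : ℝ) ^ 3 * η) * (n * L) := by rw [he]; ring
    rw [this, mul_assoc c]
    exact mul_le_mul_of_nonneg_right hη2 (by positivity)
  rw [c1, c2] at hso
  by_cases a4 : G.Adj x w'
  · rw [if_pos a4] at hso
    nlinarith
  · rw [if_neg a4] at hso
    nlinarith

theorem few_nb (q : ℕ) (hq : 1 ≤ q) (H : SimpleGraph W) (C : ℕ → ℝ) (c δ : ℝ) (hc : 0 < c)
    (hδ : 0 < δ) (d : ℕ) :
    ∃ M n₀ : ℕ, ∀ n ≥ n₀, ∀ G : SimpleGraph (Fin n), G.CliqueFree (q + 2) → SO H G C →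
      HighUse H G c → (∀ x, δ * (n : ℝ) ^ (q + 1) ≤ EE q G (nb G x)) →
      (∀ Z : Finset (Fin n), d ≤ #Z → ∃ T ⊆ Z, ∀ x, Z ∩ nb G x ≠ T) →
      #(univ.image (nb G)) ≤ M := by
  classical
  obtain ⟨η, hη0, hη1, hη2⟩ : ∃ η : ℝ, 0 < η ∧ ((q : ℝ) + 1) * η < δ ∧
      10 * (card W : ℝ) ^ 3 * η ≤ c := by
    refine ⟨min (δ / (2 * ((q : ℝ) + 1))) (c / (10 * ((card W : ℝ) ^ 3 + 1))), ?_, ?_, ?_⟩
    · exact lt_min (by positivity) (by positivity)
    · have h1 := mul_le_mul_of_nonneg_left (min_le_left (δ / (2 * ((q : ℝ) + 1)))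
        (c / (10 * ((card W : ℝ) ^ 3 + 1)))) (by positivity : (0 : ℝ) ≤ (q : ℝ) + 1)
      refine lt_of_le_of_lt h1 ?_
      have : ((q : ℝ) + 1) * (δ / (2 * ((q : ℝ) + 1))) = δ / 2 := by
        field_simp
      rw [this]
      linarith
    · have h1 := mul_le_mul_of_nonneg_left (min_le_right (δ / (2 * ((q : ℝ) + 1)))
        (c / (10 * ((card W : ℝ) ^ 3 + 1)))) (by positivity : (0 : ℝ) ≤ 10 * (card W : ℝ) ^ 3)
      refine h1.trans ?_
      rw [mul_div_assoc', div_le_iff₀ (by positivity)]
      nlinarith [pow_nonneg (Nat.cast_nonneg (α := ℝ) (card W)) 3]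
  obtain ⟨M0, hM0⟩ := eps_net d (η / 2) (by positivity)
  obtain ⟨n₁, hn₁⟩ := exists_nat_gt (C 2 / c)
  refine ⟨M0 * 2 ^ M0, max 1 n₁, ?_⟩
  intro n hn G hG hSO hHU hEE hZ
  have hn0 : 0 < n := lt_of_lt_of_le one_pos ((le_max_left _ _).trans hn)
  have hn2 : C 2 < c * n := by
    have h1 : (n₁ : ℝ) ≤ n := by exact_mod_cast (le_max_right 1 n₁).trans hn
    have h2 : C 2 / c < n := lt_of_lt_of_le hn₁ h1
    rw [div_lt_iff₀ hc] at h2
    linarith
  -- a maximal separated family
  obtain ⟨X, hXmem, hXmax⟩ := Finset.exists_max_image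
    ((univ : Finset (Finset (Fin n))).filter fun X => ∀ x ∈ X, ∀ y ∈ X, x ≠ y →
      η / 2 * n < (#(symmDiff (nb G x) (nb G y)) : ℝ)) Finset.card
    ⟨∅, by simp⟩
  rw [mem_filter] at hXmem
  have hXcard : #X ≤ M0 := hM0 n (nb G) hZ X hXmem.2
  have hcenter : ∀ y, ∃ x ∈ X, (#(symmDiff (nb G y) (nb G x)) : ℝ) ≤ η / 2 * n := by
    intro y
    by_contra hcon
    push Not at hcon
    have hy : y ∉ X := by
      intro hy
      have := hcon y hy
      rw [symmDiff_self] at this
      simp only [Finset.bot_eq_empty, Finset.card_empty, Nat.cast_zero] at this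
      have h2 : 0 ≤ η / 2 * n := by positivity
      linarith
    have h1 := hXmax (insert y X) (by
      rw [mem_filter]
      refine ⟨mem_univ _, ?_⟩
      intro a ha b hb hab
      rw [mem_insert] at ha hb
      rcases ha with rfl | ha
      · rcases hb with rfl | hb
        · exact absurd rfl hab
        · exact hcon b hb
      · rcases hb with rfl | hb
        · rw [symmDiff_comm]
          exact hcon a ha
        · exact hXmem.2 a ha b hb hab)
    rw [card_insert_of_notMem hy] at h1
    omega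
  choose k hkX hk using hcenter
  have hΔ : ∀ x x', k x = k x' → (#(symmDiff (nb G x) (nb G x')) : ℝ) ≤ η * n := by
    intro x x' hxx
    have h1 : symmDiff (nb G x) (nb G x') ⊆
        symmDiff (nb G x) (nb G (k x)) ∪ symmDiff (nb G (k x)) (nb G x') :=
      symmDiff_triangle _ _ _
    have h2 := (card_le_card h1).trans (card_union_le _ _)
    have h3 : (#(symmDiff (nb G x) (nb G x')) : ℝ) ≤ #(symmDiff (nb G x) (nb G (k x))) +
        #(symmDiff (nb G (k x)) (nb G x')) := by exact_mod_cast h2
    have h4 := hk x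
    have h5 := hk x'
    rw [symmDiff_comm, ← hxx] at h5
    linarith
  have hna : ∀ x x', k x = k x' → ¬ G.Adj x x' := fun x x' hxx =>
    few_nonadj hG (hEE x) hη1 (hΔ x x' hxx) hn0
  set code : Fin n → Fin n × Finset (Fin n) :=
    fun x => (k x, X.filter fun j => ∃ y, k y = j ∧ G.Adj x y) with hcode
  have key : ∀ x x', code x = code x' → ∀ y, G.Adj x y → G.Adj x' y := by
    intro x x' hxx y hxy
    by_contra hx'y
    have hk1 : k x = k x' := congrArg Prod.fst hxx
    have h1 : k y ∈ (code x).2 := by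
      simp only [hcode, mem_filter]
      exact ⟨hkX y, y, rfl, hxy⟩
    rw [hxx] at h1
    simp only [hcode, mem_filter] at h1
    obtain ⟨-, y', hy', hx'y'⟩ := h1
    exact few_quad H G C hc hη0.le hη2 hn0 hn2 hSO hHU (hna x x' hk1) (hna y y' hy'.symm) hxy
      hx'y' hx'y (hΔ x x' hk1) (hΔ y y' hy'.symm)
  have hnb : ∀ x x', code x = code x' → nb G x = nb G x' := by
    intro x x' hxx
    ext y
    rw [mem_nb, mem_nb]
    exact ⟨key x x' hxx y, key x' x hxx.symm y⟩
  -- counting
  have hle : #(univ.image (nb G)) ≤ #(X ×ˢ X.powerset) := by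
    apply Finset.card_le_card_of_injOn
      (fun s => if h : ∃ x, nb G x = s then code h.choose else (⟨0, hn0⟩, ∅))
    · intro s hs
      rw [mem_coe, mem_image] at hs
      obtain ⟨x, -, hx⟩ := hs
      have h : ∃ x, nb G x = s := ⟨x, hx⟩
      simp only [dif_pos h]
      rw [mem_coe, mem_product, mem_powerset]
      exact ⟨hkX _, filter_subset _ _⟩
    · intro s hs t ht hst
      rw [mem_coe, mem_image] at hs ht
      obtain ⟨x, -, hx⟩ := hs
      obtain ⟨y, -, hy⟩ := ht
      have h : ∃ x, nb G x = s := ⟨x, hx⟩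
      have h' : ∃ x, nb G x = t := ⟨y, hy⟩
      simp only [dif_pos h, dif_pos h'] at hst
      have := hnb _ _ hst
      rw [h.choose_spec, h'.choose_spec] at this
      exact this
  refine hle.trans ?_
  rw [card_product, card_powerset]
  exact Nat.mul_le_mul hXcard (Nat.pow_le_pow_right (by norm_num) hXcard)

end H78B
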