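import Pool.Agent.H78.Blow.Defs
import Pool.Agent.H78.Blow.Dup

set_option autoImplicit false

open Finset Fintype

namespace H78B

variable {n : ℕ} {W : Type} [Fintype W]

open Classical in
/-- one index `i₀` outside `S₀` for many cliques -/
lemma gain_index (q : ℕ) (G : SimpleGraph (Fin n)) (S₀ S : Finset (Fin n)) (hS : S₀ ⊆ S) (δ : ℝ)
    (hd : δ * (n : ℝ) ^ (q + 1) ≤ EE q G S - EE q G S₀) :
    (δ * (n : ℝ) ^ (q + 1) ≤ 0) ∨ ∃ i₀ : Fin (q + 1), i₀ ≠ 0 ∧ δ / (q + 1) * (n : ℝ) ^ (q + 1) ≤
      (#(ct (r := q + 1) G (fun i => if i = 0 then univ else if i = i₀ then S \ S₀ else S)) : ℝ) := by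
  by_contra hcon
  push Not at hcon
  obtain ⟨h0, h1⟩ := hcon
  set B : Fin (q + 1) → Finset (Fin (q + 1) → Fin n) := fun i₀ =>
    ct (r := q + 1) G (fun i => if i = 0 then univ else if i = i₀ then S \ S₀ else S) with hB
  set I : Finset (Fin (q + 1)) := univ.filter (fun i => i ≠ 0) with hI
  have hsub : ct (r := q + 1) G (fun i => if i = 0 then univ else S) ⊆
      ct (r := q + 1) G (fun i => if i = 0 then univ else S₀) ∪ I.biUnion B := by
    intro c hc
    rw [mem_ct] at hc
    by_cases hall : ∀ i, i ≠ 0 → c i ∈ S₀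
    · apply mem_union_left
      rw [mem_ct]
      refine ⟨hc.1, fun i => ?_⟩
      by_cases hi : i = 0
      · simp [hi]
      · simp only [hi, if_false]
        exact hall i hi
    · push Not at hall
      obtain ⟨i₀, hi0, hci⟩ := hall
      apply mem_union_right
      rw [mem_biUnion]
      refine ⟨i₀, by rw [hI, mem_filter]; exact ⟨mem_univ _, hi0⟩, ?_⟩
      simp only [hB]
      rw [mem_ct]
      refine ⟨hc.1, fun i => ?_⟩
      by_cases hi : i = 0
      · simp [hi]
      · have hci' := hc.2 i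
        simp only [hi, if_false] at hci' ⊢
        by_cases hii : i = i₀
        · rw [if_pos hii, hii, mem_sdiff]
          rw [hii] at hci'
          exact ⟨hci', hci⟩
        · rw [if_neg hii]
          exact hci'
  have hcard := (card_le_card hsub).trans (card_union_le _ _)
  have hcard2 : #(I.biUnion B) ≤ ∑ i ∈ I, #(B i) := card_biUnion_le
  have hcard3 : (#(ct (r := q + 1) G (fun i => if i = 0 then univ else S)) : ℝ) ≤
      (#(ct (r := q + 1) G (fun i => if i = 0 then univ else S₀)) : ℝ) + ∑ i ∈ I, (#(B i) : ℝ) := by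
    have := hcard.trans (Nat.add_le_add_left hcard2 _)
    exact_mod_cast this
  have hsum : ∑ i ∈ I, (#(B i) : ℝ) ≤ ∑ i ∈ I, δ / (q + 1) * (n : ℝ) ^ (q + 1) := by
    apply sum_le_sum
    intro i hi
    exact (h1 i (mem_filter.mp hi).2).le
  have hIc : (#I : ℝ) ≤ q := by
    have : #I = q := by
      rw [hI, filter_ne']
      simp
    rw [this]
  rw [sum_const, nsmul_eq_mul] at hsum
  have hq : (0 : ℝ) < (q : ℝ) + 1 := by positivity
  have h2 : (#I : ℝ) * (δ / (q + 1) * (n : ℝ) ^ (q + 1)) ≤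
      (q : ℝ) * (δ / (q + 1) * (n : ℝ) ^ (q + 1)) := by
    apply mul_le_mul_of_nonneg_right hIc
    have : δ / (q + 1) * (n : ℝ) ^ (q + 1) = δ * (n : ℝ) ^ (q + 1) / (q + 1) := by ring
    rw [this]
    positivity
  have h3 : (q : ℝ) * (δ / (q + 1) * (n : ℝ) ^ (q + 1)) < δ * (n : ℝ) ^ (q + 1) := by
    have : (q : ℝ) * (δ / (q + 1) * (n : ℝ) ^ (q + 1)) =
      (q / (q + 1)) * (δ * (n : ℝ) ^ (q + 1)) := by ring
    rw [this]
    have h4 : (q : ℝ) / (q + 1) < 1 := by
      rw [div_lt_one hq]; linarith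
    nlinarith
  unfold EE at hd
  linarith

/-! ## BL-7 : gain (uses dup) -/
theorem gain (q : ℕ) (H : SimpleGraph W) (hcol : H.Colorable (q + 1)) (hedge : ∃ a b, H.Adj a b)
    (δ : ℝ) (hδ : 0 < δ) :
    ∃ γ : ℝ, 0 < γ ∧ ∀ (n : ℕ) (G : SimpleGraph (Fin n)) (S₀ S : Finset (Fin n)), S₀ ⊆ S →
      δ * (n : ℝ) ^ (q + 1) ≤ EE q G S - EE q G S₀ →
      γ * (n : ℝ) ^ card W ≤ U H G S - U H G S₀ := by
  classical
  obtain ⟨a, b, hab⟩ := hedge
  have hq : (0 : ℝ) < (q : ℝ) + 1 := by positivity
  set δ' : ℝ := min (δ / (q + 1)) 1 with hδ'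
  have hδ'0 : 0 < δ' := lt_min (by positivity) one_pos
  have hδ'1 : δ' ≤ 1 := min_le_right _ _
  refine ⟨δ' ^ (2 ^ card W), by positivity, ?_⟩
  intro n G S₀ S hS hd
  -- monotonicity of each term of `U`
  set T : W → Finset (Fin n) → Finset (W → Fin n) := fun u S =>
    univ.filter (fun f : W → Fin n => HomOff H G u f ∧ ∀ b, H.Adj u b → f b ∈ S) with hT
  have hTmono : ∀ u, T u S₀ ⊆ T u S := by
    intro u f hf
    simp only [hT, mem_filter, mem_univ, true_and] at hf ⊢
    exact ⟨hf.1, fun b hb => hS (hf.2 b hb)⟩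
  have hU : U H G S - U H G S₀ = ∑ u : W, ((#(T u S) : ℝ) - (#(T u S₀) : ℝ)) := by
    unfold U
    rw [sum_sub_distrib]
  have hterm : ∀ u, (0 : ℝ) ≤ (#(T u S) : ℝ) - (#(T u S₀) : ℝ) := by
    intro u
    have : (#(T u S₀) : ℝ) ≤ (#(T u S) : ℝ) := by exact_mod_cast card_le_card (hTmono u)
    linarith
  have hge : (#(T a S) : ℝ) - (#(T a S₀) : ℝ) ≤ U H G S - U H G S₀ := by
    rw [hU]
    exact single_le_sum (f := fun u => (#(T u S) : ℝ) - (#(T u S₀) : ℝ)) (fun u _ => hterm u)
      (mem_univ a)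
  refine le_trans ?_ hge
  rcases gain_index q G S₀ S hS δ hd with h0 | ⟨i₀, hi0, h1⟩
  · -- then `n = 0`
    have hn : n = 0 := by
      by_contra hn
      have hnpos : (0 : ℝ) < n := by exact_mod_cast Nat.pos_of_ne_zero hn
      have : 0 < δ * (n : ℝ) ^ (q + 1) := by positivity
      linarith
    subst hn
    haveI : Nonempty W := ⟨a⟩
    have hc : card W ≠ 0 := Fintype.card_ne_zero
    rw [Nat.cast_zero, zero_pow hc, mul_zero]
    exact hterm a
  · -- the colouring
    obtain ⟨κ⟩ := hcol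
    have hκ : κ a ≠ κ b := κ.valid hab
    -- a permutation with `κ a ↦ 0`, `κ b ↦ i₀`
    obtain ⟨σ, hσa, hσb⟩ : ∃ σ : Equiv.Perm (Fin (q + 1)), σ (κ a) = 0 ∧ σ (κ b) = i₀ := by
      set s1 := Equiv.swap (κ a) 0 with hs1
      have h1 : s1 (κ a) = 0 := Equiv.swap_apply_left _ _
      set s2 := Equiv.swap (s1 (κ b)) i₀ with hs2
      refine ⟨s1.trans s2, ?_, ?_⟩
      · rw [Equiv.trans_apply, h1, hs2]
        apply Equiv.swap_apply_of_ne_of_ne
        · intro h
          apply hκ
          apply s1.injective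
          rw [h1, h]
        · exact hi0.symm
      · rw [Equiv.trans_apply, hs2]
        exact Equiv.swap_apply_left _ _
    set col : W → Fin (q + 1) := fun w => σ (κ w) with hcolr
    have hadj : ∀ v w, H.Adj v w → col v ≠ col w := by
      intro v w hvw h
      exact κ.valid hvw (σ.injective h)
    set A : Fin (q + 1) → Finset (Fin n) :=
      fun i => if i = 0 then univ else if i = i₀ then S \ S₀ else S with hA
    have h2 : δ' * (n : ℝ) ^ (q + 1) ≤ (#(ct G A) : ℝ) := by
      refine le_trans ?_ h1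
      exact mul_le_mul_of_nonneg_right (min_le_left _ _) (by positivity)
    have h3 := dup G A W col δ' hδ'0.le hδ'1 h2
    refine h3.trans ?_
    -- inclusion in the difference
    have h4 : univ.filter (fun f : W → Fin n => (∀ a, f a ∈ A (col a)) ∧
        ∀ a b, col a ≠ col b → G.Adj (f a) (f b)) ⊆ T a S \ T a S₀ := by
      intro f hf
      simp only [mem_filter, mem_univ, true_and] at hf
      simp only [hT, mem_sdiff, mem_filter, mem_univ, true_and]
      have hAS : ∀ v, col v ≠ 0 → f v ∈ S := by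
        intro v hv
        have := hf.1 v
        simp only [hA, hv, if_false] at this
        split_ifs at this with h
        · exact (mem_sdiff.mp this).1
        · exact this
      refine ⟨⟨?_, ?_⟩, ?_⟩
      · intro v w _ _ hvw
        exact hf.2 v w (hadj v w hvw)
      · intro v hv
        apply hAS
        have := hadj a v hv
        rw [show col a = 0 from hσa] at this
        exact this.symm
      · intro hcon
        have h5 := hcon.2 b hab
        have h6 := hf.1 b
        rw [show col b = i₀ from hσb] at h6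
        simp only [hA, hi0, if_false, if_true] at h6
        exact (mem_sdiff.mp h6).2 h5
    have h5 := card_le_card h4
    rw [card_sdiff_of_subset (hTmono a)] at h5
    have h6 : (#(univ.filter (fun f : W → Fin n => (∀ a, f a ∈ A (col a)) ∧
        ∀ a b, col a ≠ col b → G.Adj (f a) (f b))) : ℝ) ≤ ((#(T a S) - #(T a S₀) : ℕ) : ℝ) := by
      exact_mod_cast h5
    rw [Nat.cast_sub (card_le_card (hTmono a))] at h6
    exact h6

end H78B
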