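import Pool.Agent.H78.Blow.Defs

set_option autoImplicit false

open Finset Fintype

namespace H78B

variable {n : ℕ} {W : Type} [Fintype W]

/-- the balanced complete `(q+1)`-partite graph with parts given by residues. -/
def homLowerT (q n : ℕ) : SimpleGraph (Fin n) :=
  (⊤ : SimpleGraph (Fin (q + 1))).comap
    (fun x : Fin n => (⟨(x : ℕ) % (q + 1), Nat.mod_lt _ (Nat.succ_pos q)⟩ : Fin (q + 1)))

lemma homLowerT_cliqueFree (q n : ℕ) : (homLowerT q n).CliqueFree (q + 2) := by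
  have h : (homLowerT q n).Colorable (q + 1) :=
    ⟨SimpleGraph.Coloring.mk
      (fun x : Fin n => (⟨(x : ℕ) % (q + 1), Nat.mod_lt _ (Nat.succ_pos q)⟩ : Fin (q + 1)))
      (fun {v w} hvw => by
        simp only [homLowerT, SimpleGraph.comap_adj, SimpleGraph.top_adj] at hvw
        exact hvw)⟩
  exact h.cliqueFree (Nat.lt_succ_self _)

lemma homLower_lt (q n : ℕ) (g : Fin (n / (q + 1))) (c : Fin (q + 1)) :
    (q + 1) * (g : ℕ) + (c : ℕ) < n := by
  have h1 := g.2
  have h2 := c.2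
  have h3 : (q + 1) * (n / (q + 1)) ≤ n := Nat.mul_div_le n (q + 1)
  have h4 : (q + 1) * ((g : ℕ) + 1) ≤ (q + 1) * (n / (q + 1)) := Nat.mul_le_mul_left _ h1
  rw [Nat.mul_add, Nat.mul_one] at h4
  omega

lemma homLower_num (q n : ℕ) (H : SimpleGraph W) (chi : H.Coloring (Fin (q + 1))) :
    (n / (q + 1)).descFactorial (card W) ≤ H67Blow.num H (homLowerT q n) := by
  classical
  have h1 : card (W ↪ Fin (n / (q + 1))) = (n / (q + 1)).descFactorial (card W) := by
    rw [Fintype.card_embedding_eq, Fintype.card_fin]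
  rw [← h1, ← Finset.card_univ]
  unfold H67Blow.num
  refine Finset.card_le_card_of_injOn
    (fun (g : W ↪ Fin (n / (q + 1))) (a : W) =>
      (⟨(q + 1) * (g a : ℕ) + (chi a : ℕ), homLower_lt q n (g a) (chi a)⟩ : Fin n)) ?_ ?_
  · intro g _
    simp only [H67Blow.injs, coe_filter, mem_univ, true_and, Set.mem_ofPred_eq]
    have hmod : ∀ a : W, ((q + 1) * (g a : ℕ) + (chi a : ℕ)) % (q + 1) = (chi a : ℕ) := by
      intro a
      rw [Nat.mul_add_mod]
      exact Nat.mod_eq_of_lt (chi a).2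
    have hdiv : ∀ a : W, ((q + 1) * (g a : ℕ) + (chi a : ℕ)) / (q + 1) = (g a : ℕ) := by
      intro a
      rw [Nat.mul_add_div (Nat.succ_pos q), Nat.div_eq_of_lt (chi a).2, Nat.add_zero]
    refine ⟨?_, ?_⟩
    · intro a b hab
      rw [Fin.mk.injEq] at hab
      have h2 := hdiv a
      rw [hab, hdiv b] at h2
      exact g.injective (Fin.ext h2.symm)
    · intro a b hab
      simp only [homLowerT, SimpleGraph.comap_adj, SimpleGraph.top_adj, ne_eq, Fin.mk.injEq]
      rw [hmod a, hmod b]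
      intro h2
      exact chi.valid hab (Fin.ext h2)
  · intro g _ g' _ hgg
    ext a
    have h2 := congrFun hgg a
    rw [Fin.mk.injEq] at h2
    have h3 := Nat.add_right_cancel h2
    exact Nat.eq_of_mul_eq_mul_left (Nat.succ_pos q) h3

lemma homLower_homs (H : SimpleGraph W) (G : SimpleGraph (Fin n)) :
    (H67Blow.num H G : ℝ) ≤ homs H G := by
  classical
  unfold homs H67Blow.num
  apply Nat.cast_le.mpr
  apply Finset.card_le_card
  intro f hf
  simp only [H67Blow.injs, mem_filter, mem_univ, true_and] at hf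
  simp only [mem_filter, mem_univ, true_and]
  exact hf.2

/-! ## BL-1 : lower bound for the number of homomorphisms -/
theorem hom_lower (q : ℕ) (H : SimpleGraph W) (hcol : H.Colorable (q + 1)) :
    ∃ c : ℝ, 0 < c ∧ ∃ n₀ : ℕ, ∀ n ≥ n₀, ∀ G : SimpleGraph (Fin n), Ext q H G →
      c * (n : ℝ) ^ card W ≤ homs H G := by
  obtain ⟨chi⟩ := hcol
  refine ⟨(1 / (2 * ((q : ℝ) + 1))) ^ card W, by positivity, 2 * (q + 1) * card W, ?_⟩
  intro n hn G hG
  have h1 : H67Blow.num H (homLowerT q n) ≤ H67Blow.num H G :=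
    hG.2 _ (homLowerT_cliqueFree q n)
  have h2 := homLower_num q n H chi
  have h3 := Nat.pow_sub_le_descFactorial (n / (q + 1)) (card W)
  have h4 : (((n / (q + 1) + 1 - card W) ^ card W : ℕ) : ℝ) ≤ homs H G :=
    le_trans (Nat.cast_le.mpr (h3.trans (h2.trans h1))) (homLower_homs H G)
  refine le_trans ?_ h4
  rw [← mul_pow, Nat.cast_pow]
  apply pow_le_pow_left₀ (by positivity)
  have h5 : n < (q + 1) * (n / (q + 1) + 1) := by
    have := Nat.lt_mul_div_succ n (Nat.succ_pos q)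
    exact this
  have h6 : (n : ℝ) < ((q : ℝ) + 1) * (((n / (q + 1) : ℕ) : ℝ) + 1) := by exact_mod_cast h5
  have h7 : (2 : ℝ) * ((q : ℝ) + 1) * (card W : ℝ) ≤ (n : ℝ) := by exact_mod_cast hn
  have hq : (0 : ℝ) < (q : ℝ) + 1 := by positivity
  have h8 : ((n / (q + 1) : ℕ) : ℝ) + 1 - (card W : ℝ) ≤ ((n / (q + 1) + 1 - card W : ℕ) : ℝ) := by
    have : ((n / (q + 1) + 1 : ℕ) : ℝ) ≤ ((n / (q + 1) + 1 - card W : ℕ) : ℝ) + (card W : ℝ) := by
      exact_mod_cast (by omega : n / (q + 1) + 1 ≤ n / (q + 1) + 1 - card W + card W)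
    push_cast at this ⊢
    linarith
  refine le_trans ?_ h8
  have h9 : (n : ℝ) / ((q : ℝ) + 1) < ((n / (q + 1) : ℕ) : ℝ) + 1 := by
    rw [div_lt_iff₀ hq]
    linarith
  have h10 : (card W : ℝ) ≤ (n : ℝ) / (2 * ((q : ℝ) + 1)) := by
    rw [le_div_iff₀ (by positivity)]
    linarith
  have h11 : 1 / (2 * ((q : ℝ) + 1)) * (n : ℝ) = (n : ℝ) / ((q : ℝ) + 1) - (n : ℝ) / (2 * ((q : ℝ) + 1)) := by
    field_simp
    ring
  rw [h11]
  linarith

end H78B
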