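import Pool.Agent.H78.Blow.Defs

set_option autoImplicit false

open Finset Fintype

namespace H78B

variable {n : ℕ} {W : Type} [Fintype W]

/-- sign of a boolean -/
noncomputable def sgn (b : Bool) : ℝ := if b then (1 : ℝ) else -1

lemma sgn_mul_self (b : Bool) : sgn b * sgn b = 1 := by
  unfold sgn; cases b <;> norm_num

lemma sgn_not (b : Bool) : sgn (!b) = - sgn b := by
  unfold sgn; cases b <;> norm_num

/-- flipping one coordinate -/
def flipAt {t : ℕ} (i : Fin t) : (Fin t → Bool) ≃ (Fin t → Bool) where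
  toFun σ := Function.update σ i (!(σ i))
  invFun σ := Function.update σ i (!(σ i))
  left_inv σ := by
    funext k
    by_cases h : k = i
    · subst h; simp
    · simp [Function.update_of_ne h]
  right_inv σ := by
    funext k
    by_cases h : k = i
    · subst h; simp
    · simp [Function.update_of_ne h]

lemma sum_sgn_mul {t : ℕ} (i j : Fin t) (hij : i ≠ j) :
    ∑ σ : Fin t → Bool, sgn (σ i) * sgn (σ j) = 0 := by
  have h := Equiv.sum_comp (flipAt i) (fun σ : Fin t → Bool => sgn (σ i) * sgn (σ j))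
  have h2 : ∀ σ : Fin t → Bool, sgn ((flipAt i σ) i) * sgn ((flipAt i σ) j)
      = - (sgn (σ i) * sgn (σ j)) := by
    intro σ
    have e1 : (flipAt i σ) i = !(σ i) := by simp [flipAt]
    have e2 : (flipAt i σ) j = σ j := by
      simp [flipAt, Function.update_of_ne (Ne.symm hij)]
    rw [e1, e2, sgn_not]; ring
  simp only [h2, Finset.sum_neg_distrib] at h
  linarith

lemma sum_sgn_sq {t : ℕ} (i : Fin t) :
    ∑ σ : Fin t → Bool, sgn (σ i) * sgn (σ i) = 2 ^ t := by
  simp [sgn_mul_self]

lemma sum_sgn_pair {t : ℕ} (i j : Fin t) :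
    ∑ σ : Fin t → Bool, sgn (σ i) * sgn (σ j) = if i = j then (2 : ℝ) ^ t else 0 := by
  by_cases h : i = j
  · subst h; rw [sum_sgn_sq]; simp
  · rw [sum_sgn_mul i j h]; simp [h]

/-- Khintchine (easy direction) -/
lemma sum_abs_sgn_le {t : ℕ} (d : Fin t → ℝ) (hd : ∀ i, |d i| ≤ 1) :
    ∑ σ : Fin t → Bool, |∑ i, sgn (σ i) * d i| ≤ 2 ^ t * Real.sqrt t := by
  have h1 : ∑ σ : Fin t → Bool, (∑ i, sgn (σ i) * d i) ^ 2 = 2 ^ t * ∑ i, d i ^ 2 := by
    have e1 : ∀ σ : Fin t → Bool, (∑ i, sgn (σ i) * d i) ^ 2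
        = ∑ i, ∑ j, (d i * d j) * (sgn (σ i) * sgn (σ j)) := by
      intro σ
      rw [sq, Finset.sum_mul_sum]
      apply Finset.sum_congr rfl; intro i _
      apply Finset.sum_congr rfl; intro j _
      ring
    simp only [e1]
    rw [Finset.sum_comm]
    have e2 : ∀ i : Fin t, ∑ σ : Fin t → Bool, ∑ j, (d i * d j) * (sgn (σ i) * sgn (σ j))
        = 2 ^ t * d i ^ 2 := by
      intro i
      rw [Finset.sum_comm]
      simp only [← Finset.mul_sum, sum_sgn_pair]
      simp
      ring
    simp only [e2, ← Finset.mul_sum]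
  have h2 : ∑ i, d i ^ 2 ≤ (t : ℝ) := by
    calc ∑ i, d i ^ 2 ≤ ∑ i : Fin t, (1 : ℝ) := by
          apply Finset.sum_le_sum
          intro i _
          rw [← sq_abs]
          have := hd i
          have h0 := abs_nonneg (d i)
          nlinarith
      _ = t := by simp
  have h3 : (∑ σ : Fin t → Bool, |∑ i, sgn (σ i) * d i|) ^ 2 ≤
      2 ^ t * ∑ σ : Fin t → Bool, (∑ i, sgn (σ i) * d i) ^ 2 := by
    have := sq_sum_le_card_mul_sum_sq (s := (univ : Finset (Fin t → Bool)))
      (f := fun σ => |∑ i, sgn (σ i) * d i|)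
    simpa using this
  rw [h1] at h3
  have h4 : (∑ σ : Fin t → Bool, |∑ i, sgn (σ i) * d i|) ^ 2 ≤ (2 ^ t * Real.sqrt t) ^ 2 := by
    rw [mul_pow, Real.sq_sqrt (by positivity)]
    calc _ ≤ (2 : ℝ) ^ t * (2 ^ t * ∑ i, d i ^ 2) := h3
      _ ≤ 2 ^ t * (2 ^ t * t) := by gcongr
      _ = _ := by ring
  exact abs_le_of_sq_le_sq' h4 (by positivity) |>.2

open Classical in
/-- free coordinates -/
lemma signs_pin_free (u v : W) (huv : u ≠ v) (P : (W → Fin n) → Prop)
    (hP : ∀ f a b, P (Function.update (Function.update f u a) v b) ↔ P f) (x y : Fin n) :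
    (#(univ.filter (fun f : W → Fin n => P f ∧ f u = x ∧ f v = y)) : ℝ) * (n : ℝ) ^ 2
      = #(univ.filter (fun f : W → Fin n => P f)) := by
  have h : #((univ.filter (fun f : W → Fin n => P f ∧ f u = x ∧ f v = y)) ×ˢ
      (univ : Finset (Fin n × Fin n))) = #(univ.filter (fun f : W → Fin n => P f)) := by
    apply Finset.card_nbij' (fun p => Function.update (Function.update p.1 u p.2.1) v p.2.2)
      (fun g => (Function.update (Function.update g u x) v y, (g u, g v)))
    · rintro ⟨f, a, b⟩ h
      simp only [coe_product, coe_filter, mem_univ, true_and, coe_univ, Set.mem_prod,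
        Set.mem_ofPred_eq, Set.mem_univ, and_true] at h ⊢
      rw [hP]; exact h.1
    · intro g h
      simp only [coe_product, coe_filter, mem_univ, true_and, coe_univ, Set.mem_prod,
        Set.mem_ofPred_eq, Set.mem_univ, and_true] at h ⊢
      rw [hP]
      refine ⟨h, ?_, ?_⟩
      · rw [Function.update_of_ne huv]; simp
      · simp
    · rintro ⟨f, a, b⟩ h
      simp only [coe_product, coe_filter, mem_univ, true_and, coe_univ, Set.mem_prod,
        Set.mem_ofPred_eq, Set.mem_univ, and_true] at h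
      obtain ⟨_, rfl, rfl⟩ := h
      refine Prod.ext ?_ (Prod.ext ?_ ?_)
      · funext k
        by_cases hk : k = v
        · subst hk; simp
        · by_cases hk' : k = u
          · subst hk'; simp [Function.update_of_ne hk]
          · simp [Function.update_of_ne hk, Function.update_of_ne hk']
      · simp [Function.update_of_ne huv]
      · simp
    · intro g h
      funext k
      by_cases hk : k = v
      · subst hk; simp
      · by_cases hk' : k = u
        · subst hk'; simp [Function.update_of_ne hk]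
        · simp [Function.update_of_ne hk, Function.update_of_ne hk']
  rw [Finset.card_product] at h
  have h2 : #(univ : Finset (Fin n × Fin n)) = n * n := by simp
  rw [h2] at h
  rw [← h]; push_cast; ring

/-- `f` preserves all edges of `H` avoiding `u` and `v`. -/
def HomOff2 (H : SimpleGraph W) (G : SimpleGraph (Fin n)) (u v : W) (f : W → Fin n) : Prop :=
  ∀ a b, a ≠ u → a ≠ v → b ≠ u → b ≠ v → H.Adj a b → G.Adj (f a) (f b)

/-- the neighbours of `u` are mapped to neighbours of `x`. -/
def NbIn (H : SimpleGraph W) (G : SimpleGraph (Fin n)) (u : W) (x : Fin n) (f : W → Fin n) : Prop :=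
  ∀ b, H.Adj u b → G.Adj x (f b)

omit [Fintype W] in
lemma hom_split (H : SimpleGraph W) (G : SimpleGraph (Fin n)) (u v : W) (huv : u ≠ v)
    (hadj : ¬ H.Adj u v) (x y : Fin n) (f : W → Fin n) :
    (Hom H G f ∧ f u = x ∧ f v = y) ↔
      ((HomOff2 H G u v f ∧ NbIn H G u x f ∧ NbIn H G v y f) ∧ f u = x ∧ f v = y) := by
  constructor
  · rintro ⟨h, rfl, rfl⟩
    exact ⟨⟨fun a b _ _ _ _ hab => h a b hab, fun b hb => h u b hb, fun b hb => h v b hb⟩, rfl, rfl⟩
  · rintro ⟨⟨h1, h2, h3⟩, rfl, rfl⟩
    refine ⟨?_, rfl, rfl⟩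
    intro a b hab
    by_cases ha : a = u
    · subst ha; exact h2 b hab
    · by_cases ha' : a = v
      · subst ha'; exact h3 b hab
      · by_cases hb : b = u
        · subst hb; exact (h2 a hab.symm).symm
        · by_cases hb' : b = v
          · subst hb'; exact (h3 a hab.symm).symm
          · exact h1 a b ha ha' hb hb' hab

open Classical in
/-- indicator -/
noncomputable def ind (P : Prop) : ℝ := if P then 1 else 0

lemma ind_nonneg (P : Prop) : 0 ≤ ind P := by
  unfold ind; split_ifs <;> norm_num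

lemma ind_le_one (P : Prop) : ind P ≤ 1 := by
  unfold ind; split_ifs <;> norm_num

lemma ind_and (P Q : Prop) : ind (P ∧ Q) = ind P * ind Q := by
  unfold ind
  by_cases hP : P <;> by_cases hQ : Q <;> simp [hP, hQ]

lemma abs_ind_sub_le (P Q : Prop) : |ind P - ind Q| ≤ 1 := by
  rw [abs_le]
  have := ind_nonneg P
  have := ind_nonneg Q
  have := ind_le_one P
  have := ind_le_one Q
  constructor <;> linarith

open Classical in
lemma B0_mul (H : SimpleGraph W) (G : SimpleGraph (Fin n)) (x y : Fin n) :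
    B0 H G x y * (n : ℝ) ^ 2 =
      ∑ p ∈ (univ : Finset (W × W)).filter (fun p => p.1 ≠ p.2 ∧ ¬ H.Adj p.1 p.2),
        ∑ g : W → Fin n, ind (HomOff2 H G p.1 p.2 g) * ind (NbIn H G p.1 x g) *
          ind (NbIn H G p.2 y g) := by
  unfold B0
  rw [Finset.sum_mul]
  apply Finset.sum_congr rfl
  rintro ⟨u, v⟩ hp
  simp only [mem_filter, mem_univ, true_and] at hp
  obtain ⟨huv, hadj⟩ := hp
  have e1 : (univ.filter (fun f : W → Fin n => Hom H G f ∧ f u = x ∧ f v = y))
      = univ.filter (fun f : W → Fin n =>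
        (HomOff2 H G u v f ∧ NbIn H G u x f ∧ NbIn H G v y f) ∧ f u = x ∧ f v = y) := by
    apply Finset.filter_congr
    intro f _
    exact hom_split H G u v huv hadj x y f
  have e2 := signs_pin_free u v huv
    (fun f => HomOff2 H G u v f ∧ NbIn H G u x f ∧ NbIn H G v y f) ?_ x y
  · have e3 : (#(univ.filter (fun f : W → Fin n => Hom H G f ∧ f u = x ∧ f v = y)) : ℝ)
        * (n : ℝ) ^ 2 = #(univ.filter (fun f : W → Fin n =>
          HomOff2 H G u v f ∧ NbIn H G u x f ∧ NbIn H G v y f)) := by
      rw [e1]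
      convert e2 using 6
    simp only
    rw [e3, Finset.card_filter]
    push_cast
    apply Finset.sum_congr rfl
    intro g _
    rw [mul_assoc, ← ind_and, ← ind_and]
    unfold ind
    congr
  · intro f a b
    have key : ∀ c, c ≠ u → c ≠ v → Function.update (Function.update f u a) v b c = f c := by
      intro c h1 h2
      rw [Function.update_of_ne h2, Function.update_of_ne h1]
    have k1 : HomOff2 H G u v (Function.update (Function.update f u a) v b)
        ↔ HomOff2 H G u v f := by
      unfold HomOff2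
      constructor
      · intro h c d h1 h2 h3 h4 hcd
        have := h c d h1 h2 h3 h4 hcd
        rwa [key c h1 h2, key d h3 h4] at this
      · intro h c d h1 h2 h3 h4 hcd
        rw [key c h1 h2, key d h3 h4]
        exact h c d h1 h2 h3 h4 hcd
    have k2 : NbIn H G u x (Function.update (Function.update f u a) v b) ↔ NbIn H G u x f := by
      unfold NbIn
      apply forall_congr'
      intro c
      apply imp_congr_right
      intro hc
      have h1 : c ≠ u := fun h => by subst h; exact H.loopless.irrefl _ hc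
      have h2 : c ≠ v := fun h => by subst h; exact hadj hc
      rw [key c h1 h2]
    have k3 : NbIn H G v y (Function.update (Function.update f u a) v b) ↔ NbIn H G v y f := by
      unfold NbIn
      apply forall_congr'
      intro c
      apply imp_congr_right
      intro hc
      have h1 : c ≠ v := fun h => by subst h; exact H.loopless.irrefl _ hc
      have h2 : c ≠ u := fun h => by subst h; exact hadj hc.symm
      rw [key c h2 h1]
    rw [k1, k2, k3]

/-! ## BL-14 : random signs: bound for the `B0` cross term -/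
theorem B0_signs (H : SimpleGraph W) (G : SimpleGraph (Fin n)) (t s : ℕ)
    (w w' : Fin t → Fin n) (X Y : (Fin t → Bool) → Fin s → Fin n) :
    ∑ σ : Fin t → Bool,
      |∑ j, ∑ i, (if σ i then (1 : ℝ) else -1) *
        ((B0 H G (X σ j) (w i) - B0 H G (X σ j) (w' i))
          - (B0 H G (Y σ j) (w i) - B0 H G (Y σ j) (w' i)))| * (n : ℝ) ^ 2 ≤
      2 ^ t * ((card W : ℝ) ^ 2 * (2 * s) * Real.sqrt t) * (n : ℝ) ^ card W := by
  classical
  set PP := (univ : Finset (W × W)).filter (fun p => p.1 ≠ p.2 ∧ ¬ H.Adj p.1 p.2) with hPP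
  have hterm : ∀ σ : Fin t → Bool,
      |∑ j, ∑ i, (if σ i then (1 : ℝ) else -1) *
        ((B0 H G (X σ j) (w i) - B0 H G (X σ j) (w' i))
          - (B0 H G (Y σ j) (w i) - B0 H G (Y σ j) (w' i)))| * (n : ℝ) ^ 2 ≤
      ∑ p ∈ PP, ∑ g : W → Fin n, (s : ℝ) *
        |∑ i, sgn (σ i) * (ind (NbIn H G p.2 (w i) g) - ind (NbIn H G p.2 (w' i) g))| := by
    intro σ
    have e0 : |∑ j, ∑ i, (if σ i then (1 : ℝ) else -1) *
        ((B0 H G (X σ j) (w i) - B0 H G (X σ j) (w' i))
          - (B0 H G (Y σ j) (w i) - B0 H G (Y σ j) (w' i)))| * (n : ℝ) ^ 2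
        = |(∑ j, ∑ i, sgn (σ i) *
        ((B0 H G (X σ j) (w i) - B0 H G (X σ j) (w' i))
          - (B0 H G (Y σ j) (w i) - B0 H G (Y σ j) (w' i)))) * (n : ℝ) ^ 2| := by
      rw [abs_mul, abs_of_nonneg (by positivity : (0 : ℝ) ≤ (n : ℝ) ^ 2)]
      rfl
    have e1 : (∑ j, ∑ i, sgn (σ i) *
        ((B0 H G (X σ j) (w i) - B0 H G (X σ j) (w' i))
          - (B0 H G (Y σ j) (w i) - B0 H G (Y σ j) (w' i)))) * (n : ℝ) ^ 2
        = ∑ p ∈ PP, ∑ g : W → Fin n, ind (HomOff2 H G p.1 p.2 g) *
          (∑ j, (ind (NbIn H G p.1 (X σ j) g) - ind (NbIn H G p.1 (Y σ j) g))) *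
          (∑ i, sgn (σ i) * (ind (NbIn H G p.2 (w i) g) - ind (NbIn H G p.2 (w' i) g))) := by
      calc _ = ∑ j, ∑ i, sgn (σ i) *
          ((B0 H G (X σ j) (w i) * (n : ℝ) ^ 2 - B0 H G (X σ j) (w' i) * (n : ℝ) ^ 2)
          - (B0 H G (Y σ j) (w i) * (n : ℝ) ^ 2 - B0 H G (Y σ j) (w' i) * (n : ℝ) ^ 2)) := by
            rw [Finset.sum_mul]
            apply Finset.sum_congr rfl; intro j _
            rw [Finset.sum_mul]
            apply Finset.sum_congr rfl; intro i _
            ring
        _ = ∑ j, ∑ i, ∑ p ∈ PP, ∑ g : W → Fin n, sgn (σ i) * (ind (HomOff2 H G p.1 p.2 g) *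
          (ind (NbIn H G p.1 (X σ j) g) - ind (NbIn H G p.1 (Y σ j) g)) *
          (ind (NbIn H G p.2 (w i) g) - ind (NbIn H G p.2 (w' i) g))) := by
            apply Finset.sum_congr rfl; intro j _
            apply Finset.sum_congr rfl; intro i _
            rw [B0_mul, B0_mul, B0_mul, B0_mul]
            rw [← Finset.sum_sub_distrib, ← Finset.sum_sub_distrib, ← Finset.sum_sub_distrib,
              Finset.mul_sum]
            apply Finset.sum_congr rfl; intro p _
            rw [← Finset.sum_sub_distrib, ← Finset.sum_sub_distrib, ← Finset.sum_sub_distrib,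
              Finset.mul_sum]
            apply Finset.sum_congr rfl; intro g _
            ring
        _ = ∑ p ∈ PP, ∑ g : W → Fin n, ∑ j, ∑ i, sgn (σ i) * (ind (HomOff2 H G p.1 p.2 g) *
          (ind (NbIn H G p.1 (X σ j) g) - ind (NbIn H G p.1 (Y σ j) g)) *
          (ind (NbIn H G p.2 (w i) g) - ind (NbIn H G p.2 (w' i) g))) := by
            simp_rw [Finset.sum_comm (s := (univ : Finset (Fin t))) (t := PP)]
            rw [Finset.sum_comm]
            apply Finset.sum_congr rfl; intro p _
            simp_rw [Finset.sum_comm (s := (univ : Finset (Fin t)))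
              (t := (univ : Finset (W → Fin n)))]
            rw [Finset.sum_comm]
        _ = _ := by
            apply Finset.sum_congr rfl; intro p _
            apply Finset.sum_congr rfl; intro g _
            rw [mul_assoc, Finset.sum_mul_sum, Finset.mul_sum]
            apply Finset.sum_congr rfl; intro j _
            rw [Finset.mul_sum]
            apply Finset.sum_congr rfl; intro i _
            ring
    rw [e0, e1]
    refine (Finset.abs_sum_le_sum_abs _ _).trans ?_
    apply Finset.sum_le_sum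
    intro p _
    refine (Finset.abs_sum_le_sum_abs _ _).trans ?_
    apply Finset.sum_le_sum
    intro g _
    rw [abs_mul, abs_mul, abs_of_nonneg (ind_nonneg _)]
    have h1 : |∑ j, (ind (NbIn H G p.1 (X σ j) g) - ind (NbIn H G p.1 (Y σ j) g))| ≤ (s : ℝ) := by
      refine (Finset.abs_sum_le_sum_abs _ _).trans ?_
      calc _ ≤ ∑ j : Fin s, (1 : ℝ) := Finset.sum_le_sum (fun j _ => abs_ind_sub_le _ _)
        _ = s := by simp
    apply mul_le_mul_of_nonneg_right _ (abs_nonneg _)
    calc _ ≤ 1 * |∑ j, (ind (NbIn H G p.1 (X σ j) g) - ind (NbIn H G p.1 (Y σ j) g))| :=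
          mul_le_mul_of_nonneg_right (ind_le_one _) (abs_nonneg _)
      _ ≤ s := by rw [one_mul]; exact h1
  calc _ ≤ ∑ σ : Fin t → Bool, ∑ p ∈ PP, ∑ g : W → Fin n, (s : ℝ) *
        |∑ i, sgn (σ i) * (ind (NbIn H G p.2 (w i) g) - ind (NbIn H G p.2 (w' i) g))| :=
        Finset.sum_le_sum (fun σ _ => hterm σ)
    _ = ∑ p ∈ PP, ∑ g : W → Fin n, (s : ℝ) * ∑ σ : Fin t → Bool,
        |∑ i, sgn (σ i) * (ind (NbIn H G p.2 (w i) g) - ind (NbIn H G p.2 (w' i) g))| := by
        rw [Finset.sum_comm]
        apply Finset.sum_congr rfl; intro p _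
        rw [Finset.sum_comm]
        apply Finset.sum_congr rfl; intro g _
        rw [Finset.mul_sum]
    _ ≤ ∑ p ∈ PP, ∑ g : W → Fin n, (s : ℝ) * (2 ^ t * Real.sqrt t) := by
        apply Finset.sum_le_sum; intro p _
        apply Finset.sum_le_sum; intro g _
        apply mul_le_mul_of_nonneg_left _ (by positivity)
        exact sum_abs_sgn_le _ (fun i => abs_ind_sub_le _ _)
    _ = (#PP : ℝ) * ((n : ℝ) ^ card W * ((s : ℝ) * (2 ^ t * Real.sqrt t))) := by
        rw [Finset.sum_const, Finset.sum_const, nsmul_eq_mul, nsmul_eq_mul]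
        simp
    _ ≤ (card W : ℝ) ^ 2 * ((n : ℝ) ^ card W * ((s : ℝ) * (2 ^ t * Real.sqrt t))) := by
        apply mul_le_mul_of_nonneg_right _ (by positivity)
        have h1 : #PP ≤ card W ^ 2 := by
          refine (Finset.card_filter_le _ _).trans ?_
          rw [Finset.card_univ, Fintype.card_prod]; nlinarith
        exact_mod_cast h1
    _ ≤ _ := by
        have : 0 ≤ (card W : ℝ) ^ 2 * ((n : ℝ) ^ card W * ((s : ℝ) * (2 ^ t * Real.sqrt t))) := by
          positivity
        nlinarith

end H78B
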