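import Pool.Agent.H78.Blow.Defs
import Pool.Agent.H78.Blow.Basics
import Pool.Agent.H78.Blow.Signs

set_option autoImplicit false

open Finset Fintype

namespace H78B

variable {n : ℕ} {W : Type} [Fintype W]

/-- the configuration extracted from a shattered set -/
lemma noShatter_config (G : SimpleGraph (Fin n)) (t s a : ℕ) (ha : s + 2 * t ≤ 2 ^ a)
    (Z : Finset (Fin n)) (hZ : 2 * t + a ≤ #Z) (hsh : ∀ T ⊆ Z, ∃ x, Z ∩ nb G x = T) :
    ∃ (w w' : Fin t → Fin n) (X : (Fin t → Bool) → Fin s → Fin n),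
      Function.Injective w ∧ Function.Injective w' ∧ (∀ i k, w i ≠ w' k) ∧
      (∀ σ, Function.Injective (X σ)) ∧ (∀ σ j i, X σ j ≠ w i) ∧ (∀ σ j i, X σ j ≠ w' i) ∧
      (∀ σ j i, G.Adj (X σ j) (w i) ↔ σ i = true) ∧
      (∀ σ j i, G.Adj (X σ j) (w' i) ↔ σ i = false) := by
  classical
  have h1 : Fintype.card ((Fin t ⊕ Fin t) ⊕ Fin a) ≤ Fintype.card Z := by
    simp only [Fintype.card_sum, Fintype.card_fin, Fintype.card_coe]
    omega
  obtain ⟨e⟩ := Function.Embedding.nonempty_of_card_le h1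
  have hx : ∀ P : ((Fin t ⊕ Fin t) ⊕ Fin a) → Bool, ∃ x : Fin n,
      ∀ i, G.Adj x (e i : Fin n) ↔ P i = true := by
    intro P
    obtain ⟨x, hx⟩ := hsh (Z.filter (fun z => ∃ i, (e i : Fin n) = z ∧ P i = true))
      (Finset.filter_subset _ _)
    refine ⟨x, fun i => ?_⟩
    have h2 : (e i : Fin n) ∈ Z ∩ nb G x ↔ (e i : Fin n) ∈ Z.filter
        (fun z => ∃ i, (e i : Fin n) = z ∧ P i = true) := by rw [hx]
    rw [mem_inter, mem_nb, mem_filter] at h2
    have h3 : (e i : Fin n) ∈ Z := (e i).2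
    simp only [h3, true_and] at h2
    rw [h2]
    constructor
    · rintro ⟨k, hk, hPk⟩
      have : k = i := e.injective (Subtype.ext hk)
      rwa [this] at hPk
    · intro h
      exact ⟨i, rfl, h⟩
  choose x hx using hx
  let P : (Fin t → Bool) → (Fin a → Bool) → ((Fin t ⊕ Fin t) ⊕ Fin a) → Bool := fun σ E =>
    Sum.elim (Sum.elim (fun i => σ i) (fun i => !(σ i))) E
  have hinj : ∀ σ, Function.Injective (fun E => x (P σ E)) := by
    intro σ E E' h
    funext k
    have h2 := hx (P σ E) (Sum.inr k)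
    have h3 := hx (P σ E') (Sum.inr k)
    simp only at h
    rw [h] at h2
    have h4 : P σ E (Sum.inr k) = true ↔ P σ E' (Sum.inr k) = true := h2.symm.trans h3
    simp only [P, Sum.elim_inr] at h4
    cases hE : E k <;> cases hE' : E' k <;> simp_all
  have hS : ∀ σ, s ≤ #((univ.image (fun E : Fin a → Bool => x (P σ E))) \
      (univ.image (fun i : Fin t ⊕ Fin t => (e (Sum.inl i) : Fin n)))) := by
    intro σ
    have h2 := Finset.le_card_sdiff (univ.image (fun i : Fin t ⊕ Fin t => (e (Sum.inl i) : Fin n)))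
      (univ.image (fun E : Fin a → Bool => x (P σ E)))
    have h3 : #(univ.image (fun E : Fin a → Bool => x (P σ E))) = 2 ^ a := by
      rw [Finset.card_image_of_injective _ (hinj σ)]
      simp
    have h4 : #(univ.image (fun i : Fin t ⊕ Fin t => (e (Sum.inl i) : Fin n))) ≤ 2 * t := by
      refine Finset.card_image_le.trans ?_
      simp; omega
    omega
  have hX : ∀ σ, Nonempty (Fin s ↪ ((univ.image (fun E : Fin a → Bool => x (P σ E))) \
      (univ.image (fun i : Fin t ⊕ Fin t => (e (Sum.inl i) : Fin n))) : Finset (Fin n))) := by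
    intro σ
    apply Function.Embedding.nonempty_of_card_le
    simp only [Fintype.card_fin, Fintype.card_coe]
    exact hS σ
  choose X hX' using fun σ => (⟨(hX σ).some, trivial⟩ : ∃ f : (Fin s ↪
    ((univ.image (fun E : Fin a → Bool => x (P σ E))) \
      (univ.image (fun i : Fin t ⊕ Fin t => (e (Sum.inl i) : Fin n))) : Finset (Fin n))), True)
  have hmem : ∀ σ j, ∃ E, x (P σ E) = (X σ j : Fin n) := by
    intro σ j
    have := (X σ j).2
    rw [mem_sdiff, mem_image] at this
    obtain ⟨⟨E, _, hE⟩, _⟩ := this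
    exact ⟨E, hE⟩
  have hnot : ∀ σ j (i : Fin t ⊕ Fin t), (X σ j : Fin n) ≠ (e (Sum.inl i) : Fin n) := by
    intro σ j i h
    have := (X σ j).2
    rw [mem_sdiff, mem_image] at this
    apply this.2
    rw [h]
    exact mem_image_of_mem _ (mem_univ i)
  refine ⟨fun i => e (Sum.inl (Sum.inl i)), fun i => e (Sum.inl (Sum.inr i)), fun σ j => X σ j,
    ?_, ?_, ?_, ?_, ?_, ?_, ?_, ?_⟩
  · intro i k h
    have := e.injective (Subtype.ext h)
    simpa using this
  · intro i k h
    have := e.injective (Subtype.ext h)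
    simpa using this
  · intro i k h
    have := e.injective (Subtype.ext h)
    simp at this
  · intro σ j k h
    exact (X σ).injective (Subtype.ext h)
  · intro σ j i; exact hnot σ j _
  · intro σ j i; exact hnot σ j _
  · intro σ j i
    obtain ⟨E, hE⟩ := hmem σ j
    simp only
    rw [← hE, hx]
    simp [P]
  · intro σ j i
    obtain ⟨E, hE⟩ := hmem σ j
    simp only
    rw [← hE, hx]
    simp [P]

/-- the quadratic form for one sign vector -/
lemma noShatter_SO (H : SimpleGraph W) (G : SimpleGraph (Fin n)) (C : ℕ → ℝ) (hSO : SO H G C)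
    (t s : ℕ) (a b : Fin s → Fin n) (u v : Fin t → Fin n)
    (ha : Function.Injective a) (hb : Function.Injective b)
    (hu : Function.Injective u) (hv : Function.Injective v)
    (hab : ∀ i j, a i ≠ b j) (hau : ∀ i j, a i ≠ u j) (hav : ∀ i j, a i ≠ v j)
    (hbu : ∀ i j, b i ≠ u j) (hbv : ∀ i j, b i ≠ v j) (huv : ∀ i j, u i ≠ v j) :
    ((∑ i, ∑ j, BB H G (a i) (a j) + ∑ i, ∑ j, BB H G (b i) (b j)
        - 2 * ∑ i, ∑ j, BB H G (a i) (b j))
      + 2 * ∑ j, ∑ i, ((BB H G (a j) (u i) - BB H G (a j) (v i))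
          - (BB H G (b j) (u i) - BB H G (b j) (v i)))
      + ∑ i, ∑ k, (BB H G (u i) (u k) + BB H G (v i) (v k) - BB H G (u i) (v k)
          - BB H G (v i) (u k))) * (n : ℝ) ^ 3 ≤ C (s + t) * (n : ℝ) ^ card W := by
  have happ : ∀ (f : Fin s → Fin n) (g : Fin t → Fin n), Function.Injective f →
      Function.Injective g → (∀ i j, f i ≠ g j) → Function.Injective (Fin.append f g) := by
    intro f g hf hg hfg i j
    refine Fin.addCases (fun i => ?_) (fun i => ?_) i <;>
    refine Fin.addCases (fun j => ?_) (fun j => ?_) j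
    · rw [Fin.append_left, Fin.append_left]; intro h; rw [hf h]
    · rw [Fin.append_left, Fin.append_right]; intro h; exact absurd h (hfg i j)
    · rw [Fin.append_left, Fin.append_right]; intro h; exact absurd h.symm (hfg j i)
    · rw [Fin.append_right, Fin.append_right]; intro h; rw [hg h]
  have h := hSO (s + t) (Fin.append a u) (Fin.append b v) (happ a u ha hu hau)
    (happ b v hb hv hbv) (by
      intro i j
      refine Fin.addCases (fun i => ?_) (fun i => ?_) i <;>
      refine Fin.addCases (fun j => ?_) (fun j => ?_) j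
      · rw [Fin.append_left, Fin.append_left]; exact hab i j
      · rw [Fin.append_left, Fin.append_right]; exact hav i j
      · rw [Fin.append_left, Fin.append_right]; exact (hbu j i).symm
      · rw [Fin.append_right, Fin.append_right]; exact huv i j)
  refine le_trans (le_of_eq ?_) h
  congr 1
  simp only [Fin.sum_univ_add, Fin.append_left, Fin.append_right, Finset.sum_add_distrib,
    Finset.sum_sub_distrib]
  have e1 : ∑ i, ∑ j, BB H G (u i) (a j) = ∑ j, ∑ i, BB H G (a j) (u i) := by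
    rw [Finset.sum_comm]
    apply Finset.sum_congr rfl; intro j _
    apply Finset.sum_congr rfl; intro i _
    exact BB_comm H G _ _
  have e2 : ∑ i, ∑ j, BB H G (v i) (b j) = ∑ j, ∑ i, BB H G (b j) (v i) := by
    rw [Finset.sum_comm]
    apply Finset.sum_congr rfl; intro j _
    apply Finset.sum_congr rfl; intro i _
    exact BB_comm H G _ _
  have e3 : ∑ i, ∑ j, BB H G (u i) (b j) = ∑ j, ∑ i, BB H G (b j) (u i) := by
    rw [Finset.sum_comm]
    apply Finset.sum_congr rfl; intro j _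
    apply Finset.sum_congr rfl; intro i _
    exact BB_comm H G _ _
  have e4 : ∑ i, ∑ j, BB H G (v i) (u j) = ∑ i, ∑ j, BB H G (u i) (v j) := by
    rw [Finset.sum_comm]
    apply Finset.sum_congr rfl; intro j _
    apply Finset.sum_congr rfl; intro i _
    exact BB_comm H G _ _
  rw [e1, e2, e3, e4]
  ring

/-- lower bound for one sign vector -/
lemma noShatter_lower (H : SimpleGraph W) (G : SimpleGraph (Fin n)) (c : ℝ)
    (hc : HighUse H G c) (t s : ℕ) (a b : Fin s → Fin n) (u v : Fin t → Fin n)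
    (hau : ∀ j i, G.Adj (a j) (u i)) (hav : ∀ j i, ¬ G.Adj (a j) (v i))
    (hbu : ∀ j i, ¬ G.Adj (b j) (u i)) (hbv : ∀ j i, G.Adj (b j) (v i)) :
    (∑ j, ∑ i, ((B0 H G (a j) (u i) - B0 H G (a j) (v i))
          - (B0 H G (b j) (u i) - B0 H G (b j) (v i)))) * (n : ℝ) ^ 2
      + 2 * s * t * (c * (n : ℝ) ^ card W) ≤
    (∑ j, ∑ i, ((BB H G (a j) (u i) - BB H G (a j) (v i))
          - (BB H G (b j) (u i) - BB H G (b j) (v i)))) * (n : ℝ) ^ 2 := by
  have h1 : ∀ j i, ((B0 H G (a j) (u i) - B0 H G (a j) (v i))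
          - (B0 H G (b j) (u i) - B0 H G (b j) (v i))) * (n : ℝ) ^ 2
          + 2 * (c * (n : ℝ) ^ card W) ≤
      ((BB H G (a j) (u i) - BB H G (a j) (v i))
          - (BB H G (b j) (u i) - BB H G (b j) (v i))) * (n : ℝ) ^ 2 := by
    intro j i
    rw [BB_eq H G (a j) (u i), BB_eq H G (a j) (v i), BB_eq H G (b j) (u i),
      BB_eq H G (b j) (v i), if_pos (hau j i), if_neg (hav j i), if_neg (hbu j i),
      if_pos (hbv j i)]
    have h2 := hc _ _ (hau j i)
    have h3 := hc _ _ (hbv j i)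
    nlinarith
  calc _ = ∑ j : Fin s, ∑ i : Fin t, (((B0 H G (a j) (u i) - B0 H G (a j) (v i))
          - (B0 H G (b j) (u i) - B0 H G (b j) (v i))) * (n : ℝ) ^ 2
          + 2 * (c * (n : ℝ) ^ card W)) := by
        simp only [Finset.sum_add_distrib, ← Finset.sum_mul, Finset.sum_const, Finset.card_univ,
          Fintype.card_fin, nsmul_eq_mul]
        ring
    _ ≤ ∑ j : Fin s, ∑ i : Fin t, ((BB H G (a j) (u i) - BB H G (a j) (v i))
          - (BB H G (b j) (u i) - BB H G (b j) (v i))) * (n : ℝ) ^ 2 := by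
        apply Finset.sum_le_sum; intro j _
        apply Finset.sum_le_sum; intro i _
        exact h1 j i
    _ = _ := by simp only [← Finset.sum_mul]

/-! ## BL-15 : bounded VC dimension (uses BL-13, BL-14) -/
theorem no_shatter (H : SimpleGraph W) (C : ℕ → ℝ) (c : ℝ) (hc : 0 < c) :
    ∃ d n₀ : ℕ, ∀ n ≥ n₀, ∀ G : SimpleGraph (Fin n), SO H G C → HighUse H G c →
      ∀ Z : Finset (Fin n), d ≤ #Z → ∃ T ⊆ Z, ∀ x, Z ∩ nb G x ≠ T := by
  classical
  obtain ⟨s₀, hs₀⟩ := exists_nat_ge ((8 * (card W : ℝ) ^ 2 + 1) / (4 * c))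
  set s : ℕ := s₀ + 1 with hs
  have hs1 : 8 * (card W : ℝ) ^ 2 + 1 ≤ 4 * c * s := by
    rw [div_le_iff₀ (by positivity)] at hs₀
    rw [hs]; push_cast
    nlinarith
  have hspos : (1 : ℝ) ≤ s := by rw [hs]; push_cast; linarith [Nat.cast_nonneg (α := ℝ) s₀]
  set t : ℕ := s ^ 2 with ht
  set a : ℕ := s + 2 * t with haa
  have ha : s + 2 * t ≤ 2 ^ a := Nat.lt_two_pow_self.le
  obtain ⟨n₀, hn₀⟩ := exists_nat_gt (C (s + t))
  refine ⟨2 * t + a, n₀ + 1, ?_⟩
  intro n hn G hSO hHU Z hZ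
  by_contra hcon
  push Not at hcon
  obtain ⟨w, w', X, hw, hw', hww', hXinj, hXw, hXw', hAw, hAw'⟩ :=
    noShatter_config G t s a ha Z hZ hcon
  have hnpos : (0 : ℝ) < n := by
    have : 0 < n := by omega
    exact_mod_cast this
  have hnC : C (s + t) < n := by
    have : (n₀ : ℝ) ≤ n := by
      have : n₀ ≤ n := by omega
      exact_mod_cast this
    linarith
  -- definitions
  let neg : (Fin t → Bool) → (Fin t → Bool) := fun σ i => !(σ i)
  let u : (Fin t → Bool) → Fin t → Fin n := fun σ i => if σ i then w i else w' i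
  let v : (Fin t → Bool) → Fin t → Fin n := fun σ i => if σ i then w' i else w i
  have htpos : 0 < t := by rw [ht]; positivity
  have hau : ∀ σ j i, G.Adj (X σ j) (u σ i) := by
    intro σ j i
    by_cases h : σ i = true
    · simp only [u, h, if_true]; exact (hAw σ j i).mpr h
    · simp only [u, h]; exact (hAw' σ j i).mpr (by simpa using h)
  have hav : ∀ σ j i, ¬ G.Adj (X σ j) (v σ i) := by
    intro σ j i
    by_cases h : σ i = true
    · simp only [v, h, if_true]; rw [hAw' σ j i]; simp [h]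
    · simp only [v, h]; intro h2; exact h ((hAw σ j i).mp (by simpa using h2))
  have hbu : ∀ σ j i, ¬ G.Adj (X (neg σ) j) (u σ i) := by
    intro σ j i
    by_cases h : σ i = true
    · simp only [u, h, if_true]; rw [hAw]; simp [neg, h]
    · simp only [u, h]; intro h2
      have := (hAw' (neg σ) j i).mp (by simpa using h2)
      simp [neg] at this; exact h this
  have hbv : ∀ σ j i, G.Adj (X (neg σ) j) (v σ i) := by
    intro σ j i
    by_cases h : σ i = true
    · simp only [v, h, if_true]; rw [hAw']; simp [neg, h]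
    · simp only [v, h]
      have : G.Adj (X (neg σ) j) (w i) := (hAw (neg σ) j i).mpr (by simpa [neg] using h)
      simpa using this
  have huinj : ∀ σ, Function.Injective (u σ) := by
    intro σ i k h
    simp only [u] at h
    split_ifs at h
    · exact hw h
    · exact absurd h (hww' _ _)
    · exact absurd h.symm (hww' _ _)
    · exact hw' h
  have hvinj : ∀ σ, Function.Injective (v σ) := by
    intro σ i k h
    simp only [v] at h
    split_ifs at h
    · exact hw' h
    · exact absurd h.symm (hww' _ _)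
    · exact absurd h (hww' _ _)
    · exact hw h
  have huv : ∀ σ i k, u σ i ≠ v σ k := by
    intro σ i k h
    simp only [u, v] at h
    split_ifs at h with h1 h2 h2
    · exact absurd h (hww' _ _)
    · have := hw h; subst this; exact h2 h1
    · have := hw' h; subst this; exact h1 h2
    · exact absurd h.symm (hww' _ _)
  have hXab : ∀ σ i j, X σ i ≠ X (neg σ) j := by
    intro σ i j h
    have h1 := hau σ i ⟨0, htpos⟩
    have h2 := hbu σ j ⟨0, htpos⟩
    rw [h] at h1
    exact h2 h1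
  have hXu : ∀ σ σ' j i, X σ j ≠ u σ' i := by
    intro σ σ' j i
    simp only [u]
    split_ifs
    · exact hXw σ j i
    · exact hXw' σ j i
  have hXv : ∀ σ σ' j i, X σ j ≠ v σ' i := by
    intro σ σ' j i
    simp only [v]
    split_ifs
    · exact hXw' σ j i
    · exact hXw σ j i
  set N : ℝ := (n : ℝ) with hN
  set h : ℕ := card W with hh
  -- one sign vector
  have hone : ∀ σ : Fin t → Bool,
      ((- (2 * (s : ℝ) ^ 2 * ((h : ℝ) ^ 2 * N ^ h))
        + 2 * ((- (|∑ j, ∑ i, (if σ i then (1 : ℝ) else -1) *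
        ((B0 H G (X σ j) (w i) - B0 H G (X σ j) (w' i))
          - (B0 H G (X (neg σ) j) (w i) - B0 H G (X (neg σ) j) (w' i)))| * N ^ 2))
          + 2 * s * t * (c * N ^ h)))
        + (∑ i, ∑ k, sgn (σ i) * sgn (σ k) * (BB H G (w i) (w k) + BB H G (w' i) (w' k)
          - BB H G (w i) (w' k) - BB H G (w' i) (w k))) * N ^ 2) * N
      ≤ C (s + t) * N ^ h := by
    intro σ
    have hso := noShatter_SO H G C hSO t s (X σ) (X (neg σ)) (u σ) (v σ) (hXinj σ) (hXinj _)
      (huinj σ) (hvinj σ) (hXab σ) (hXu σ σ) (hXv σ σ) (hXu _ σ) (hXv _ σ) (huv σ)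
    refine le_trans ?_ hso
    rw [show (N : ℝ) ^ 3 = N ^ 2 * N by ring]
    refine le_trans ?_ (le_of_eq (mul_assoc _ (N ^ 2) N))
    apply mul_le_mul_of_nonneg_right _ hnpos.le
    rw [add_mul, add_mul]
    have p1 : - (2 * (s : ℝ) ^ 2 * ((h : ℝ) ^ 2 * N ^ h)) ≤
        (∑ i, ∑ j, BB H G (X σ i) (X σ j) + ∑ i, ∑ j, BB H G (X (neg σ) i) (X (neg σ) j)
        - 2 * ∑ i, ∑ j, BB H G (X σ i) (X (neg σ) j)) * N ^ 2 := by
      have q1 : 0 ≤ ∑ i, ∑ j, BB H G (X σ i) (X σ j) :=
        Finset.sum_nonneg (fun i _ => Finset.sum_nonneg (fun j _ => BB_nonneg H G _ _))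
      have q2 : 0 ≤ ∑ i, ∑ j, BB H G (X (neg σ) i) (X (neg σ) j) :=
        Finset.sum_nonneg (fun i _ => Finset.sum_nonneg (fun j _ => BB_nonneg H G _ _))
      have q3 : (∑ i, ∑ j, BB H G (X σ i) (X (neg σ) j)) * N ^ 2 ≤
          (s : ℝ) ^ 2 * ((h : ℝ) ^ 2 * N ^ h) := by
        calc _ = ∑ i : Fin s, ∑ j : Fin s, BB H G (X σ i) (X (neg σ) j) * N ^ 2 := by
              simp only [← Finset.sum_mul]
          _ ≤ ∑ i : Fin s, ∑ j : Fin s, (h : ℝ) ^ 2 * N ^ h := by
              apply Finset.sum_le_sum; intro i _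
              apply Finset.sum_le_sum; intro j _
              exact BB_le H G _ _
          _ = _ := by
              simp only [Finset.sum_const, Finset.card_univ, Fintype.card_fin, nsmul_eq_mul]
              ring
      have q4 : 0 ≤ (∑ i, ∑ j, BB H G (X σ i) (X σ j)) * N ^ 2 := by positivity
      have q5 : 0 ≤ (∑ i, ∑ j, BB H G (X (neg σ) i) (X (neg σ) j)) * N ^ 2 := by positivity
      nlinarith
    have p2 : (- (|∑ j, ∑ i, (if σ i then (1 : ℝ) else -1) *
        ((B0 H G (X σ j) (w i) - B0 H G (X σ j) (w' i))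
          - (B0 H G (X (neg σ) j) (w i) - B0 H G (X (neg σ) j) (w' i)))| * N ^ 2))
          + 2 * s * t * (c * N ^ h) ≤
        (∑ j, ∑ i, ((BB H G (X σ j) (u σ i) - BB H G (X σ j) (v σ i))
          - (BB H G (X (neg σ) j) (u σ i) - BB H G (X (neg σ) j) (v σ i)))) * N ^ 2 := by
      refine le_trans ?_ (noShatter_lower H G c hHU t s (X σ) (X (neg σ)) (u σ) (v σ) (hau σ)
        (hav σ) (hbu σ) (hbv σ))
      apply add_le_add_left
      have q1 : (∑ j, ∑ i, ((B0 H G (X σ j) (u σ i) - B0 H G (X σ j) (v σ i))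
          - (B0 H G (X (neg σ) j) (u σ i) - B0 H G (X (neg σ) j) (v σ i))))
          = ∑ j, ∑ i, (if σ i then (1 : ℝ) else -1) *
        ((B0 H G (X σ j) (w i) - B0 H G (X σ j) (w' i))
          - (B0 H G (X (neg σ) j) (w i) - B0 H G (X (neg σ) j) (w' i))) := by
        apply Finset.sum_congr rfl; intro j _
        apply Finset.sum_congr rfl; intro i _
        simp only [u, v]
        split_ifs <;> ring
      rw [q1, ← neg_mul]
      apply mul_le_mul_of_nonneg_right _ (by positivity)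
      exact neg_abs_le _
    have p3 : ∑ i, ∑ k, sgn (σ i) * sgn (σ k) * (BB H G (w i) (w k) + BB H G (w' i) (w' k)
          - BB H G (w i) (w' k) - BB H G (w' i) (w k)) =
        ∑ i, ∑ k, (BB H G (u σ i) (u σ k) + BB H G (v σ i) (v σ k) - BB H G (u σ i) (v σ k)
          - BB H G (v σ i) (u σ k)) := by
      apply Finset.sum_congr rfl; intro i _
      apply Finset.sum_congr rfl; intro k _
      simp only [u, v, sgn]
      split_ifs <;> ring
    rw [p3]
    have : 2 * ((- (|∑ j, ∑ i, (if σ i then (1 : ℝ) else -1) *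
        ((B0 H G (X σ j) (w i) - B0 H G (X σ j) (w' i))
          - (B0 H G (X (neg σ) j) (w i) - B0 H G (X (neg σ) j) (w' i)))| * N ^ 2))
          + 2 * s * t * (c * N ^ h)) ≤
        2 * (∑ j, ∑ i, ((BB H G (X σ j) (u σ i) - BB H G (X σ j) (v σ i))
          - (BB H G (X (neg σ) j) (u σ i) - BB H G (X (neg σ) j) (v σ i)))) * N ^ 2 := by
      rw [mul_assoc]; linarith
    linarith
  -- sum over the sign vectors
  have hsum := Finset.sum_le_sum (fun σ (_ : σ ∈ (univ : Finset (Fin t → Bool))) => hone σ)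
  rw [← Finset.sum_mul] at hsum
  simp only [Finset.sum_add_distrib, ← Finset.mul_sum, ← Finset.sum_mul, Finset.sum_const,
    Finset.card_univ, nsmul_eq_mul, Finset.sum_neg_distrib] at hsum
  have hcard : (Fintype.card (Fin t → Bool) : ℝ) = 2 ^ t := by simp
  rw [hcard] at hsum
  have hB0 := B0_signs H G t s w w' X (fun σ => X (neg σ))
  rw [← Finset.sum_mul] at hB0
  have hW : ∑ σ : Fin t → Bool, ∑ i, ∑ k, sgn (σ i) * sgn (σ k) * (BB H G (w i) (w k)
      + BB H G (w' i) (w' k) - BB H G (w i) (w' k) - BB H G (w' i) (w k))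
      = 2 ^ t * ∑ i, (BB H G (w i) (w i) + BB H G (w' i) (w' i) - 2 * BB H G (w i) (w' i)) := by
    rw [Finset.sum_comm, Finset.mul_sum]
    apply Finset.sum_congr rfl; intro i _
    rw [Finset.sum_comm]
    simp only [← Finset.sum_mul, sum_sgn_pair]
    simp only [ite_mul, zero_mul, Finset.sum_ite_eq, Finset.mem_univ, if_true]
    rw [BB_comm H G (w' i) (w i)]
    ring
  have hW2 : - (2 ^ t * (2 * (t : ℝ) * ((h : ℝ) ^ 2 * N ^ h))) ≤
      (∑ σ : Fin t → Bool, ∑ i, ∑ k, sgn (σ i) * sgn (σ k) * (BB H G (w i) (w k)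
      + BB H G (w' i) (w' k) - BB H G (w i) (w' k) - BB H G (w' i) (w k))) * N ^ 2 := by
    rw [hW, mul_assoc ((2 : ℝ) ^ t), ← mul_neg]
    apply mul_le_mul_of_nonneg_left _ (by positivity)
    rw [Finset.sum_mul]
    calc - (2 * (t : ℝ) * ((h : ℝ) ^ 2 * N ^ h)) = ∑ i : Fin t, - (2 * ((h : ℝ) ^ 2 * N ^ h)) := by
          simp only [Finset.sum_const, Finset.card_univ, Fintype.card_fin, nsmul_eq_mul]
          ring
      _ ≤ _ := by
          apply Finset.sum_le_sum; intro i _
          have q1 := BB_nonneg H G (w i) (w i)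
          have q2 := BB_nonneg H G (w' i) (w' i)
          have q3 := BB_le H G (w i) (w' i)
          have q4 : 0 ≤ N ^ 2 := by positivity
          have q5 := mul_nonneg q1 q4
          have q6 := mul_nonneg q2 q4
          nlinarith
  have hsq : Real.sqrt t = s := by
    rw [ht]; push_cast
    rw [Real.sqrt_sq (by positivity)]
  rw [hsq] at hB0
  have htr : (t : ℝ) = (s : ℝ) ^ 2 := by rw [ht]; push_cast; ring
  have h2t : (0 : ℝ) < 2 ^ t := by positivity
  have hNh : 0 < N ^ h := by positivity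
  set S1 := ∑ σ : Fin t → Bool, |∑ j, ∑ i, (if σ i then (1 : ℝ) else -1) *
        ((B0 H G (X σ j) (w i) - B0 H G (X σ j) (w' i))
          - (B0 H G (X (neg σ) j) (w i) - B0 H G (X (neg σ) j) (w' i)))| with hS1
  set S2 := ∑ σ : Fin t → Bool, ∑ i, ∑ k, sgn (σ i) * sgn (σ k) * (BB H G (w i) (w k)
      + BB H G (w' i) (w' k) - BB H G (w i) (w' k) - BB H G (w' i) (w k)) with hS2
  have key : 2 ^ t * N ^ h ≤ 2 ^ t * (-(2 * (s : ℝ) ^ 2 * ((h : ℝ) ^ 2 * N ^ h))) +
      2 * (-(S1 * N ^ 2) + 2 ^ t * (2 * (s : ℝ) * (t : ℝ) * (c * N ^ h))) + S2 * N ^ 2 := by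
    have r1 : -(2 ^ t * ((h : ℝ) ^ 2 * (2 * s) * s) * N ^ h) ≤ -(S1 * N ^ 2) := by linarith
    have r2 : 2 ^ t * N ^ h ≤ 2 ^ t * (-(2 * (s : ℝ) ^ 2 * ((h : ℝ) ^ 2 * N ^ h))) +
      2 * (-(2 ^ t * ((h : ℝ) ^ 2 * (2 * s) * s) * N ^ h)
        + 2 ^ t * (2 * (s : ℝ) * (t : ℝ) * (c * N ^ h)))
      + - (2 ^ t * (2 * (t : ℝ) * ((h : ℝ) ^ 2 * N ^ h))) := by
      rw [htr]
      have r3 : 2 ^ t * (-(2 * (s : ℝ) ^ 2 * ((h : ℝ) ^ 2 * N ^ h))) +
        2 * (-(2 ^ t * ((h : ℝ) ^ 2 * (2 * s) * s) * N ^ h)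
          + 2 ^ t * (2 * (s : ℝ) * (s : ℝ) ^ 2 * (c * N ^ h)))
        + - (2 ^ t * (2 * (s : ℝ) ^ 2 * ((h : ℝ) ^ 2 * N ^ h))) =
        2 ^ t * N ^ h * ((s : ℝ) ^ 2 * (4 * c * s - 8 * (h : ℝ) ^ 2)) := by ring
      rw [r3]
      have r4 : (1 : ℝ) ≤ (s : ℝ) ^ 2 * (4 * c * s - 8 * (h : ℝ) ^ 2) := by
        have r5 : (1 : ℝ) ≤ 4 * c * s - 8 * (h : ℝ) ^ 2 := by linarith
        have r6 : (1 : ℝ) ≤ (s : ℝ) ^ 2 := by nlinarith
        nlinarith
      have r7 : 0 < 2 ^ t * N ^ h := by positivity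
      nlinarith
    linarith
  have fin1 : 2 ^ t * N ^ h * N ≤ 2 ^ t * (C (s + t) * N ^ h) := by
    refine le_trans (mul_le_mul_of_nonneg_right key hnpos.le) ?_
    refine le_trans (le_of_eq ?_) (hsum.trans (le_of_eq ?_))
    · ring
    · ring
  have fin2 : N ≤ C (s + t) := by
    have r7 : 0 < 2 ^ t * N ^ h := by positivity
    have : 2 ^ t * N ^ h * N ≤ 2 ^ t * N ^ h * C (s + t) := by linarith
    exact le_of_mul_le_mul_left this r7
  linarith

end H78B
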