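import Pool.Agent.H78.Blow.Defs
import Pool.Agent.H78.Blow.Dup

set_option autoImplicit false

open Finset Fintype

namespace H78B

variable {n : ℕ} {W : Type} [Fintype W]

/-! ## BL-12 : every edge has large usage (uses dup) (helper29) -/

/-- a clique in the neighbourhood of `x` -/
lemma rhoLower_clique (q : ℕ) (G : SimpleGraph (Fin n)) (hG : G.CliqueFree (q + 2)) (x : Fin n)
    (c : Fin (q + 1) → Fin n) (hc : ∀ i j, i ≠ j → G.Adj (c i) (c j)) (hx : ∀ i, c i ∈ nb G x) :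
    False := by
  classical
  have hinj : Function.Injective c := by
    intro i j hij
    by_contra hne
    have := hc i j hne
    rw [hij] at this
    exact G.irrefl this
  have hxc : x ∉ univ.image c := by
    intro h
    obtain ⟨i, _, hi⟩ := mem_image.1 h
    have := hx i
    rw [mem_nb, hi] at this
    exact G.irrefl this
  apply hG (insert x (univ.image c))
  rw [SimpleGraph.isNClique_iff]
  constructor
  · rw [SimpleGraph.isClique_iff, coe_insert, Set.pairwise_insert]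
    constructor
    · intro u hu v hv huv
      rw [mem_coe, mem_image] at hu hv
      obtain ⟨i, _, rfl⟩ := hu
      obtain ⟨j, _, rfl⟩ := hv
      exact hc i j (fun h => huv (by rw [h]))
    · intro v hv _
      rw [mem_coe, mem_image] at hv
      obtain ⟨i, _, rfl⟩ := hv
      have := (mem_nb G x _).1 (hx i)
      exact ⟨this, this.symm⟩
  · rw [card_insert_of_notMem hxc, card_image_of_injective _ hinj, Finset.card_univ,
      Fintype.card_fin]

/-- pigeonhole over the types -/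
lemma rhoLower_type (q : ℕ) (G : SimpleGraph (Fin n)) (hG : G.CliqueFree (q + 2)) (x y : Fin n)
    (δ : ℝ) (hδ : 0 < δ) (h : δ * (n : ℝ) ^ (q + 1) ≤ KK q G (nb G x ∪ nb G y)) :
    ∃ τ : Fin (q + 1) → Bool, (∃ i, τ i = true) ∧ (∃ i, τ i = false) ∧
      δ / 2 ^ (q + 1) * (n : ℝ) ^ (q + 1) ≤
        (#(ct (r := q + 1) G (fun i => if τ i then nb G x else nb G y)) : ℝ) := by
  classical
  have hn : 0 < n := x.pos
  set T := ct (r := q + 1) G (fun _ => nb G x ∪ nb G y) with hT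
  let ty : (Fin (q + 1) → Fin n) → (Fin (q + 1) → Bool) := fun c i => decide (c i ∈ nb G x)
  have hsum : #T = ∑ τ : Fin (q + 1) → Bool, #(T.filter (fun c => ty c = τ)) :=
    card_eq_sum_card_fiberwise (fun c _ => mem_coe.2 (mem_univ _))
  obtain ⟨τ, hτ⟩ : ∃ τ : Fin (q + 1) → Bool, δ / 2 ^ (q + 1) * (n : ℝ) ^ (q + 1) ≤
      (#(T.filter (fun c => ty c = τ)) : ℝ) := by
    by_contra hcon
    push Not at hcon
    have h1 : (#T : ℝ) < δ * (n : ℝ) ^ (q + 1) := by
      rw [hsum]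
      push_cast
      calc ∑ τ : Fin (q + 1) → Bool, (#(T.filter (fun c => ty c = τ)) : ℝ)
          < ∑ _τ : Fin (q + 1) → Bool, δ / 2 ^ (q + 1) * (n : ℝ) ^ (q + 1) :=
            sum_lt_sum_of_nonempty univ_nonempty (fun τ _ => hcon τ)
        _ = δ * (n : ℝ) ^ (q + 1) := by
            rw [sum_const, Finset.card_univ, Fintype.card_fun, Fintype.card_bool, Fintype.card_fin,
              nsmul_eq_mul]
            push_cast
            field_simp
    have h2 : δ * (n : ℝ) ^ (q + 1) ≤ (#T : ℝ) := h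
    linarith
  have hne : (T.filter (fun c => ty c = τ)).Nonempty := by
    rw [← Finset.card_pos]
    have : (0 : ℝ) < (#(T.filter (fun c => ty c = τ)) : ℝ) := by
      refine lt_of_lt_of_le ?_ hτ
      positivity
    exact_mod_cast this
  obtain ⟨c, hc⟩ := hne
  rw [mem_filter] at hc
  obtain ⟨hcT, hcτ⟩ := hc
  rw [hT, mem_ct] at hcT
  have hmem : ∀ i, c i ∈ nb G x ↔ τ i = true := by
    intro i
    rw [← hcτ]
    simp [ty]
  refine ⟨τ, ?_, ?_, hτ.trans ?_⟩
  · by_contra hcon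
    push Not at hcon
    refine rhoLower_clique q G hG y c hcT.1 (fun i => ?_)
    have h1 := hcT.2 i
    rw [mem_union] at h1
    exact h1.resolve_left (fun h2 => hcon i ((hmem i).1 h2))
  · by_contra hcon
    push Not at hcon
    refine rhoLower_clique q G hG x c hcT.1 (fun i => ?_)
    rw [hmem i]
    have := hcon i
    cases h : τ i
    · exact absurd h this
    · rfl
  · have : T.filter (fun c => ty c = τ) ⊆
        ct (r := q + 1) G (fun i => if τ i then nb G x else nb G y) := by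
      intro c hc
      rw [mem_filter, hT, mem_ct] at hc
      obtain ⟨⟨h1, h2⟩, h3⟩ := hc
      rw [mem_ct]
      refine ⟨h1, fun i => ?_⟩
      have h4 := h2 i
      rw [mem_union] at h4
      have h5 : c i ∈ nb G x ↔ τ i = true := by
        rw [← h3]
        simp [ty]
      by_cases h6 : τ i = true
      · rw [if_pos h6]; exact h5.2 h6
      · rw [if_neg h6]; exact h4.resolve_left (fun h7 => h6 (h5.1 h7))
    exact_mod_cast card_le_card this

/-- `dup` without decidability instances -/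
theorem rhoLower_dup {r n : ℕ} (G : SimpleGraph (Fin n)) (A : Fin r → Finset (Fin n)) (X : Type)
    [Fintype X] (col : X → Fin r) (δ : ℝ) (hδ0 : 0 ≤ δ) (hδ1 : δ ≤ 1)
    (h : δ * (n : ℝ) ^ r ≤ (#(ct G A) : ℝ)) :
    ∃ F : Finset (X → Fin n), (∀ f ∈ F, (∀ a, f a ∈ A (col a)) ∧
      ∀ a b, col a ≠ col b → G.Adj (f a) (f b)) ∧
      δ ^ (2 ^ card X) * (n : ℝ) ^ card X ≤ (#F : ℝ) := by
  classical
  refine ⟨_, fun f hf => ?_, dup G A X col δ hδ0 hδ1 h⟩
  rw [mem_filter] at hf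
  exact hf.2

theorem rhoLower_final {κ N m0 m1 m2 t ρ : ℝ} {a0 a1 a2 h : ℕ} (hκ : 0 < κ) (hN : 1 ≤ N)
    (e0 : κ * N ^ a0 ≤ m0) (e1 : κ * N ^ a1 ≤ m1) (e2 : κ * N ^ a2 ≤ m2)
    (hle : m0 * (m1 * m2) ≤ t) (ht : t ≤ ρ) (hh : h ≤ a0 + a1 + a2 + 2) :
    κ ^ 3 * N ^ h ≤ ρ * N ^ 2 := by
  have hN0 : 0 < N := by linarith
  have e3 : (κ * N ^ a0) * ((κ * N ^ a1) * (κ * N ^ a2)) ≤ m0 * (m1 * m2) := by
    have p0 : 0 ≤ κ * N ^ a0 := by positivity
    have p1 : 0 ≤ κ * N ^ a1 := by positivity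
    have p2 : 0 ≤ κ * N ^ a2 := by positivity
    exact mul_le_mul e0 (mul_le_mul e1 e2 p2 (p1.trans e1)) (mul_nonneg p1 p2) (p0.trans e0)
  have e4 : N ^ h ≤ N ^ (a0 + a1 + a2 + 2) := pow_le_pow_right₀ hN hh
  calc κ ^ 3 * N ^ h ≤ κ ^ 3 * N ^ (a0 + a1 + a2 + 2) :=
        mul_le_mul_of_nonneg_left e4 (by positivity)
    _ = (κ * N ^ a0) * ((κ * N ^ a1) * (κ * N ^ a2)) * N ^ 2 := by ring
    _ ≤ ρ * N ^ 2 := mul_le_mul_of_nonneg_right ((e3.trans hle).trans ht) (by positivity)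

open Classical in
theorem rhoLower_main (q : ℕ) (H : SimpleGraph W) (G : SimpleGraph (Fin n)) (x y : Fin n)
    (τ : Fin (q + 1) → Bool) (κ δ : ℝ) (hδ0 : 0 < δ) (hδ1 : δ ≤ 1) (hκ : κ = δ ^ (2 ^ card W))
    (χ : H.Coloring (Fin (q + 1)))
    (hx : δ * (n : ℝ) ^ (q + 1) ≤ EE q G (nb G x))
    (hy : δ * (n : ℝ) ^ (q + 1) ≤ EE q G (nb G y))
    (hτ : δ * (n : ℝ) ^ (q + 1) ≤
      (#(ct (r := q + 1) G (fun i => if τ i then nb G x else nb G y)) : ℝ))
    (a b : W) (P : W → Fin 3) (col : W → Fin (q + 1)) (hab : H.Adj a b)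
    (h1 : ∀ v w, H.Adj v w → v ≠ a → v ≠ b → w ≠ a → w ≠ b → P v = P w)
    (h2 : ∀ v, H.Adj a v → v ≠ b → P v ≠ 2)
    (h3 : ∀ v, H.Adj b v → v ≠ a → P v ≠ 1)
    (h4 : ∀ v w, H.Adj v w → v ≠ a → v ≠ b → w ≠ a → w ≠ b → P v = 0 → col v ≠ col w)
    (h5 : ∀ v, H.Adj a v → v ≠ b → P v = 0 → τ (col v) = true)
    (h6 : ∀ v, H.Adj b v → v ≠ a → P v = 0 → τ (col v) = false) :
    κ ^ 3 * (n : ℝ) ^ card W ≤ rho H G x y * (n : ℝ) ^ 2 := by
  have hn : 0 < n := x.pos
  have hn1 : (1 : ℝ) ≤ n := by exact_mod_cast hn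
  let X : Fin 3 → Type := fun i => {v : W // v ≠ a ∧ v ≠ b ∧ P v = i}
  have hcard : ∀ i, card (X i) ≤ card W := fun i => Fintype.card_subtype_le _
  have hpow : ∀ i, κ ≤ δ ^ (2 ^ card (X i)) := by
    intro i
    rw [hκ]
    exact pow_le_pow_of_le_one hδ0.le hδ1 (Nat.pow_le_pow_right (by norm_num) (hcard i))
  have hκ0 : 0 < κ := by rw [hκ]; positivity
  -- total cardinality
  have htot : card W ≤ card (X 0) + card (X 1) + card (X 2) + 2 := by
    have e : ∀ i, card (X i) = #(univ.filter (fun v => v ≠ a ∧ v ≠ b ∧ P v = i)) :=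
      fun i => Fintype.card_subtype _
    rw [e, e, e, ← Finset.card_univ]
    have hsub : (univ : Finset W) ⊆ ((univ.filter (fun v => v ≠ a ∧ v ≠ b ∧ P v = 0) ∪
        univ.filter (fun v => v ≠ a ∧ v ≠ b ∧ P v = 1)) ∪
        univ.filter (fun v => v ≠ a ∧ v ≠ b ∧ P v = 2)) ∪ {a, b} := by
      intro v _
      simp only [mem_union, mem_filter, mem_univ, true_and, mem_insert, mem_singleton]
      by_cases hva : v = a
      · tauto
      by_cases hvb : v = b
      · tauto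
      have : P v = 0 ∨ P v = 1 ∨ P v = 2 := by
        generalize P v = j
        fin_cases j <;> simp
      tauto
    refine (card_le_card hsub).trans ((card_union_le _ _).trans ?_)
    have e1 := card_union_le (univ.filter (fun v => v ≠ a ∧ v ≠ b ∧ P v = 0) ∪
        univ.filter (fun v => v ≠ a ∧ v ≠ b ∧ P v = 1))
        (univ.filter (fun v => v ≠ a ∧ v ≠ b ∧ P v = 2))
    have e2 := card_union_le (univ.filter (fun v => v ≠ a ∧ v ≠ b ∧ P v = 0))
        (univ.filter (fun v => v ≠ a ∧ v ≠ b ∧ P v = 1))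
    have e3 : #({a, b} : Finset W) ≤ 2 := card_le_two
    omega
  -- colourings
  let χa : W → Fin (q + 1) := fun v => Equiv.swap (χ a) 0 (χ v)
  let χb : W → Fin (q + 1) := fun v => Equiv.swap (χ b) 0 (χ v)
  have hχa : ∀ v w, H.Adj v w → χa v ≠ χa w := fun v w h hh =>
    χ.valid h ((Equiv.swap (χ a) 0).injective hh)
  have hχb : ∀ v w, H.Adj v w → χb v ≠ χb w := fun v w h hh =>
    χ.valid h ((Equiv.swap (χ b) 0).injective hh)
  have hχa0 : χa a = 0 := Equiv.swap_apply_left _ _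
  have hχb0 : χb b = 0 := Equiv.swap_apply_left _ _
  obtain ⟨F0, hF0, d0⟩ := rhoLower_dup G (fun i => if τ i then nb G x else nb G y) (X 0)
    (fun v => col v.1) δ hδ0.le hδ1 hτ
  obtain ⟨F1, hF1, d1⟩ := rhoLower_dup G (fun i => if i = 0 then univ else nb G x) (X 1)
    (fun v => χa v.1) δ hδ0.le hδ1 hx
  obtain ⟨F2, hF2, d2⟩ := rhoLower_dup G (fun i => if i = 0 then univ else nb G y) (X 2)
    (fun v => χb v.1) δ hδ0.le hδ1 hy
  set T := univ.filter (fun f : W → Fin n =>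
      (∀ a' b', H.Adj a' b' → s(a', b') ≠ s(a, b) → G.Adj (f a') (f b')) ∧
        f a = x ∧ f b = y) with hT
  -- combination
  let Φ : ((X 0 → Fin n) × (X 1 → Fin n) × (X 2 → Fin n)) → (W → Fin n) := fun f v =>
    if h : v = a then x else if h' : v = b then y else
      if h0 : P v = 0 then f.1 ⟨v, h, h', h0⟩ else
        if h1 : P v = 1 then f.2.1 ⟨v, h, h', h1⟩ else
          if h2 : P v = 2 then f.2.2 ⟨v, h, h', h2⟩ else x
  have hba : b ≠ a := hab.ne'
  have Φa : ∀ f, Φ f a = x := by intro f; simp [Φ]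
  have Φb : ∀ f, Φ f b = y := by intro f; simp [Φ, hba]
  have Φ0 : ∀ f v (h : v ≠ a) (h' : v ≠ b) (h0 : P v = 0), Φ f v = f.1 ⟨v, h, h', h0⟩ := by
    intro f v h h' h0
    simp [Φ, h, h', h0]
  have Φ1 : ∀ f v (h : v ≠ a) (h' : v ≠ b) (h0 : P v = 1), Φ f v = f.2.1 ⟨v, h, h', h0⟩ := by
    intro f v h h' h0
    simp [Φ, h, h', h0]
  have Φ2 : ∀ f v (h : v ≠ a) (h' : v ≠ b) (h0 : P v = 2), Φ f v = f.2.2 ⟨v, h, h', h0⟩ := by
    intro f v h h' h0
    have e1 : P v ≠ 0 := by rw [h0]; decide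
    have e2 : P v ≠ 1 := by rw [h0]; decide
    simp [Φ, h, h', h0]
  have hP : ∀ v, P v = 0 ∨ P v = 1 ∨ P v = 2 := by
    intro v
    generalize P v = j
    fin_cases j <;> simp
  have hmaps : ∀ f ∈ F0 ×ˢ F1 ×ˢ F2, Φ f ∈ T := by
    intro f hf
    rw [mem_product, mem_product] at hf
    obtain ⟨g0, g1, g2⟩ := hf
    obtain ⟨g0a, g0b⟩ := hF0 _ g0
    obtain ⟨g1a, g1b⟩ := hF1 _ g1
    obtain ⟨g2a, g2b⟩ := hF2 _ g2
    -- neighbours of `a`
    have na : ∀ v, H.Adj a v → v ≠ b → G.Adj x (Φ f v) := by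
      intro v hv hvb
      have hva : v ≠ a := hv.ne'
      rcases hP v with h0 | h0 | h0
      · rw [Φ0 f v hva hvb h0]
        have := g0a ⟨v, hva, hvb, h0⟩
        simp only [h5 v hv hvb h0, if_true] at this
        exact (mem_nb _ _ _).1 this
      · rw [Φ1 f v hva hvb h0]
        have := g1a ⟨v, hva, hvb, h0⟩
        have hne : χa v ≠ 0 := by rw [← hχa0]; exact (hχa a v hv).symm
        simp only [hne, if_false] at this
        exact (mem_nb _ _ _).1 this
      · exact absurd h0 (h2 v hv hvb)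
    have nbb : ∀ v, H.Adj b v → v ≠ a → G.Adj y (Φ f v) := by
      intro v hv hva
      have hvb : v ≠ b := hv.ne'
      rcases hP v with h0 | h0 | h0
      · rw [Φ0 f v hva hvb h0]
        have := g0a ⟨v, hva, hvb, h0⟩
        simp only [h6 v hv hva h0] at this
        exact (mem_nb _ _ _).1 (by simpa using this)
      · exact absurd h0 (h3 v hv hva)
      · rw [Φ2 f v hva hvb h0]
        have := g2a ⟨v, hva, hvb, h0⟩
        have hne : χb v ≠ 0 := by rw [← hχb0]; exact (hχb b v hv).symm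
        simp only [hne, if_false] at this
        exact (mem_nb _ _ _).1 this
    rw [hT, mem_filter]
    refine ⟨mem_univ _, ?_, Φa f, Φb f⟩
    intro v w hvw hs
    by_cases hva : v = a
    · subst hva
      by_cases hwb : w = b
      · subst hwb; exact absurd rfl hs
      · rw [Φa]; exact na w hvw hwb
    by_cases hwa : w = a
    · subst hwa
      by_cases hvb : v = b
      · subst hvb; exact absurd Sym2.eq_swap hs
      · rw [Φa]; exact (na v hvw.symm hvb).symm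
    by_cases hvb : v = b
    · subst hvb
      rw [Φb]; exact nbb w hvw hwa
    by_cases hwb : w = b
    · subst hwb
      rw [Φb]; exact (nbb v hvw.symm hva).symm
    have hPP := h1 v w hvw hva hvb hwa hwb
    rcases hP v with h0 | h0 | h0
    · rw [Φ0 f v hva hvb h0, Φ0 f w hwa hwb (hPP ▸ h0)]
      exact g0b _ _ (h4 v w hvw hva hvb hwa hwb h0)
    · rw [Φ1 f v hva hvb h0, Φ1 f w hwa hwb (hPP ▸ h0)]
      exact g1b _ _ (hχa v w hvw)
    · rw [Φ2 f v hva hvb h0, Φ2 f w hwa hwb (hPP ▸ h0)]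
      exact g2b _ _ (hχb v w hvw)
  have hinj : Set.InjOn Φ (F0 ×ˢ F1 ×ˢ F2 : Finset _) := by
    intro f _ g _ hfg
    refine Prod.ext ?_ (Prod.ext ?_ ?_)
    · funext ⟨v, hv⟩
      rw [← Φ0 f v hv.1 hv.2.1 hv.2.2, ← Φ0 g v hv.1 hv.2.1 hv.2.2, hfg]
    · funext ⟨v, hv⟩
      rw [← Φ1 f v hv.1 hv.2.1 hv.2.2, ← Φ1 g v hv.1 hv.2.1 hv.2.2, hfg]
    · funext ⟨v, hv⟩
      rw [← Φ2 f v hv.1 hv.2.1 hv.2.2, ← Φ2 g v hv.1 hv.2.1 hv.2.2, hfg]
  have hle : #F0 * (#F1 * #F2) ≤ #T := by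
    rw [← card_product, ← card_product]
    exact card_le_card_of_injOn Φ (fun f hf => hmaps f hf) hinj
  have hrho : (#T : ℝ) ≤ rho H G x y := by
    unfold rho
    have hmem : (a, b) ∈ (univ : Finset (W × W)).filter (fun p => H.Adj p.1 p.2) := by
      rw [mem_filter]; exact ⟨mem_univ _, hab⟩
    refine le_trans ?_ (single_le_sum (fun p _ => Nat.cast_nonneg _) hmem)
    apply Nat.cast_le.2
    apply card_le_card
    intro f hf
    rw [hT, mem_filter] at hf
    rw [mem_filter]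
    exact hf
  have hleR : (#F0 : ℝ) * (#F1 * #F2) ≤ #T := by exact_mod_cast hle
  have e0 : κ * (n : ℝ) ^ card (X 0) ≤ #F0 :=
    (mul_le_mul_of_nonneg_right (hpow 0) (by positivity)).trans d0
  have e1 : κ * (n : ℝ) ^ card (X 1) ≤ #F1 :=
    (mul_le_mul_of_nonneg_right (hpow 1) (by positivity)).trans d1
  have e2 : κ * (n : ℝ) ^ card (X 2) ≤ #F2 :=
    (mul_le_mul_of_nonneg_right (hpow 2) (by positivity)).trans d2
  exact rhoLower_final hκ0 hn1 e0 e1 e2 hleR hrho htot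

theorem rho_lower (q : ℕ) (H : SimpleGraph W) (hsep : Sep q H) (δ : ℝ) (hδ : 0 < δ) :
    ∃ c : ℝ, 0 < c ∧ ∀ (n : ℕ) (G : SimpleGraph (Fin n)), G.CliqueFree (q + 2) →
      (∀ x, δ * (n : ℝ) ^ (q + 1) ≤ EE q G (nb G x)) →
      (∀ x y, G.Adj x y → δ * (n : ℝ) ^ (q + 1) ≤ KK q G (nb G x ∪ nb G y)) →
      HighUse H G c := by
  classical
  obtain ⟨⟨χ⟩, hsep⟩ := hsep
  set δ' := min (δ / 2 ^ (q + 1)) 1 with hδ'
  have hδ'0 : 0 < δ' := lt_min (by positivity) one_pos
  have hδ'1 : δ' ≤ 1 := min_le_right _ _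
  have hδ'δ : δ' ≤ δ := by
    refine (min_le_left _ _).trans ?_
    apply div_le_self hδ.le
    exact one_le_pow₀ (by norm_num)
  refine ⟨(δ' ^ (2 ^ card W)) ^ 3, by positivity, fun n G hG hE hK x y hxy => ?_⟩
  obtain ⟨τ, ht1, ht2, ht3⟩ := rhoLower_type q G hG x y δ hδ (hK x y hxy)
  obtain ⟨a, b, P, col, hab, h1, h2, h3, h4, h5, h6⟩ := hsep τ ht1 ht2
  have hE' : ∀ x, δ' * (n : ℝ) ^ (q + 1) ≤ EE q G (nb G x) := fun x =>
    (mul_le_mul_of_nonneg_right hδ'δ (by positivity)).trans (hE x)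
  exact rhoLower_main q H G x y τ _ δ' hδ'0 hδ'1 rfl χ (hE' x) (hE' y)
    ((mul_le_mul_of_nonneg_right (min_le_left _ _) (by positivity)).trans ht3)
    a b P col hab h1 h2 h3 h4 h5 h6

end H78B
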