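import Pool.Agent.H78.Blow.Defs
import Pool.Agent.H67.Blow.Pins

set_option autoImplicit false
set_option linter.unusedSectionVars false

open Finset Fintype

namespace H78B

variable {n : ℕ} {W : Type} [Fintype W]

/-! ## BL-3 : second order condition -/

lemma secondOrder_cliqueFree_comap {V V' : Type*} (G : SimpleGraph V) (φ : V' → V) (m : ℕ)
    (hG : G.CliqueFree m) : (G.comap φ).CliqueFree m := by
  classical
  intro t ht
  have hcl : ∀ x ∈ t, ∀ y ∈ t, x ≠ y → G.Adj (φ x) (φ y) := fun x hx y hy hne =>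
    ht.1 hx hy hne
  refine hG (t.image φ) ⟨?_, ?_⟩
  · rw [SimpleGraph.isClique_iff]
    intro a ha b hb hab
    simp only [coe_image, Set.mem_image, mem_coe] at ha hb
    obtain ⟨x, hx, rfl⟩ := ha
    obtain ⟨y, hy, rfl⟩ := hb
    exact hcl x hx y hy (fun h => hab (by rw [h]))
  · rw [Finset.card_image_of_injOn, ht.2]
    intro x hx y hy hxy
    by_contra hne
    have := hcl x hx y hy hne
    rw [hxy] at this
    exact G.irrefl this

open Classical in
/-- indicator function of homomorphisms. -/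
noncomputable def soI (H : SimpleGraph W) (G : SimpleGraph (Fin n)) (f : W → Fin n) : ℝ :=
  if Hom H G f then 1 else 0

lemma soI_nonneg (H : SimpleGraph W) (G : SimpleGraph (Fin n)) (f : W → Fin n) :
    0 ≤ soI H G f := by
  unfold soI; split_ifs <;> norm_num

lemma soI_le (H : SimpleGraph W) (G : SimpleGraph (Fin n)) (f : W → Fin n) :
    soI H G f ≤ 1 := by
  unfold soI; split_ifs <;> norm_num

open Classical in
lemma so_num (H : SimpleGraph W) (G : SimpleGraph (Fin n)) :
    ∑ f : W → Fin n, (if Function.Injective f then soI H G f else 0) = (H67Blow.num H G : ℝ) := by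
  unfold H67Blow.num H67Blow.injs soI
  rw [Finset.card_filter]
  push_cast
  apply Finset.sum_congr rfl
  intro f _
  unfold Hom
  by_cases h1 : Function.Injective f <;>
    by_cases h2 : ∀ a b, H.Adj a b → G.Adj (f a) (f b) <;> simp [h1, h2]

/-- double update -/
noncomputable def soU (f : W → Fin n) (u : W) (a : Fin n) (v : W) (b : Fin n) : W → Fin n := by
  classical
  exact Function.update (Function.update f u a) v b

lemma soU_fst (f : W → Fin n) (u : W) (a : Fin n) (v : W) (b : Fin n) (h : u ≠ v) :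
    soU f u a v b u = a := by
  classical
  unfold soU
  rw [Function.update_of_ne h, Function.update_self]

lemma soU_snd (f : W → Fin n) (u : W) (a : Fin n) (v : W) (b : Fin n) :
    soU f u a v b v = b := by
  classical
  unfold soU
  rw [Function.update_self]

lemma soU_other (f : W → Fin n) (u : W) (a : Fin n) (v : W) (b : Fin n) (w : W) (h : w ≠ u)
    (h' : w ≠ v) : soU f u a v b w = f w := by
  classical
  unfold soU
  rw [Function.update_of_ne h', Function.update_of_ne h]

lemma soU_eq (f g : W → Fin n) (u : W) (a : Fin n) (v : W) (b : Fin n) (huv : u ≠ v)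
    (h1 : g u = a) (h2 : g v = b) (h3 : ∀ w, w ≠ u → w ≠ v → g w = f w) :
    g = soU f u a v b := by
  funext w
  by_cases h : w = u
  · rw [h, soU_fst _ _ _ _ _ huv, h1]
  · by_cases h' : w = v
    · rw [h', soU_snd, h2]
    · rw [soU_other _ _ _ _ _ _ h h', h3 w h h']

open Classical in
/-- number of homomorphisms with `f u = x`, `f v = y`. -/
noncomputable def soC (H : SimpleGraph W) (G : SimpleGraph (Fin n)) (u v : W) (x y : Fin n) : ℝ :=
  (#(univ.filter (fun f : W → Fin n => Hom H G f ∧ f u = x ∧ f v = y)) : ℝ)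

open Classical in
lemma soC_eq (H : SimpleGraph W) (G : SimpleGraph (Fin n)) (u v : W) (huv : u ≠ v)
    (x y a b : Fin n) :
    ∑ f : W → Fin n, (if f u = x ∧ f v = y then soI H G (soU f u a v b) else 0)
      = soC H G u v a b := by
  unfold soC soI
  have h1 : ∀ f : W → Fin n, (if f u = x ∧ f v = y then
      (if Hom H G (soU f u a v b) then (1 : ℝ) else 0) else 0) =
      if ((f u = x ∧ f v = y) ∧ Hom H G (soU f u a v b)) then 1 else 0 := by
    intro f
    by_cases h : (f u = x ∧ f v = y) <;> simp [h]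
  simp only [h1]
  rw [Finset.sum_boole]
  congr 1
  apply Finset.card_bij' (fun f _ => soU f u a v b) (fun f _ => soU f u x v y)
  · intro f hf
    simp only [mem_filter, mem_univ, true_and] at hf ⊢
    exact ⟨hf.2, soU_fst _ _ _ _ _ huv, soU_snd _ _ _ _ _⟩
  · intro f hf
    simp only [mem_filter, mem_univ, true_and] at hf ⊢
    refine ⟨⟨soU_fst _ _ _ _ _ huv, soU_snd _ _ _ _ _⟩, ?_⟩
    have : f = soU (soU f u x v y) u a v b := by
      apply soU_eq _ _ _ _ _ _ huv hf.2.1 hf.2.2
      intro w h h'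
      rw [soU_other _ _ _ _ _ _ h h']
    rw [← this]
    exact hf.1
  · intro f hf
    simp only [mem_filter, mem_univ, true_and] at hf
    symm
    apply soU_eq _ _ _ _ _ _ huv hf.1.1 hf.1.2
    intro w h h'
    rw [soU_other _ _ _ _ _ _ h h']
  · intro f hf
    simp only [mem_filter, mem_univ, true_and] at hf
    symm
    apply soU_eq _ _ _ _ _ _ huv hf.2.1 hf.2.2
    intro w h h'
    rw [soU_other _ _ _ _ _ _ h h']

open Classical in
lemma so_BB (H : SimpleGraph W) (G : SimpleGraph (Fin n)) (x y : Fin n) :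
    BB H G x y = ∑ k : W × W, if k.1 ≠ k.2 then soC H G k.1 k.2 x y else 0 := by
  unfold BB soC
  rw [Finset.sum_filter]

lemma soC_comm (H : SimpleGraph W) (G : SimpleGraph (Fin n)) (u v : W) (x y : Fin n) :
    soC H G u v x y = soC H G v u y x := by
  classical
  unfold soC
  congr 2
  ext f
  simp only [mem_filter, mem_univ, true_and]
  tauto

lemma so_BB_comm (H : SimpleGraph W) (G : SimpleGraph (Fin n)) (x y : Fin n) :
    BB H G x y = BB H G y x := by
  classical
  rw [so_BB, so_BB]
  apply Fintype.sum_equiv (Equiv.prodComm W W)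
  intro k
  simp only [Equiv.prodComm_apply, Prod.fst_swap, Prod.snd_swap]
  rw [soC_comm H G k.1 k.2 x y]
  by_cases h : k.1 = k.2
  · simp [h]
  · rw [if_pos h, if_pos (Ne.symm h)]

section main
variable {r : ℕ} (p p' : Fin r → Fin n)

open Classical in
/-- the set of special vertices. -/
noncomputable def soQ : Finset (Fin n) := univ.image p ∪ univ.image p'

lemma soQ_card : #(soQ p p') ≤ 2 * r := by
  classical
  unfold soQ
  refine (Finset.card_union_le _ _).trans ?_
  have h1 : #(univ.image p) ≤ r := by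
    refine Finset.card_image_le.trans ?_
    simp
  have h2 : #(univ.image p') ≤ r := by
    refine Finset.card_image_le.trans ?_
    simp
  omega

lemma soQ_left (i : Fin r) : p i ∈ soQ p p' := by
  classical
  unfold soQ; simp

lemma soQ_right (i : Fin r) : p' i ∈ soQ p p' := by
  classical
  unfold soQ; simp

lemma soQ_not (x : Fin n) (h : x ∉ soQ p p') : (∀ i, p i ≠ x) ∧ (∀ i, p' i ≠ x) := by
  classical
  unfold soQ at h
  simp only [mem_union, mem_image, mem_univ, true_and, not_or, not_exists] at h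
  exact h

/-- bad maps. -/
def soBad (Q : Finset (Fin n)) (f : W → Fin n) : Prop :=
  (∃ u v w, u ≠ v ∧ u ≠ w ∧ v ≠ w ∧ f u ∈ Q ∧ f v ∈ Q ∧ f w ∈ Q) ∨
  (∃ u v a b, u ≠ v ∧ a ≠ u ∧ a ≠ v ∧ a ≠ b ∧ f u ∈ Q ∧ f v ∈ Q ∧ f a = f b)

/-- the second difference. -/
noncomputable def soE (H : SimpleGraph W) (G : SimpleGraph (Fin n)) (f : W → Fin n) (u v : W)
    (i j : Fin r) : ℝ :=
  soI H G (soU f u (p i) v (p j)) + soI H G (soU f u (p' i) v (p' j))
    - soI H G (soU f u (p i) v (p' j)) - soI H G (soU f u (p' i) v (p j))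

lemma soE_le (H : SimpleGraph W) (G : SimpleGraph (Fin n)) (f : W → Fin n) (u v : W)
    (i j : Fin r) : soE p p' H G f u v i j ≤ 2 := by
  unfold soE
  have h1 := soI_le H G (soU f u (p i) v (p j))
  have h2 := soI_le H G (soU f u (p' i) v (p' j))
  have h3 := soI_nonneg H G (soU f u (p i) v (p' j))
  have h4 := soI_nonneg H G (soU f u (p' i) v (p j))
  linarith

open Classical in
/-- the sum of the second differences at `f`. -/
noncomputable def soA (H : SimpleGraph W) (G : SimpleGraph (Fin n)) (f : W → Fin n) : ℝ :=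
  ∑ k : (W × W) × (Fin r × Fin r),
    if k.1.1 ≠ k.1.2 ∧ f k.1.1 = p k.2.1 ∧ f k.1.2 = p' k.2.2 then
      soE p p' H G f k.1.1 k.1.2 k.2.1 k.2.2 else 0

lemma soA_le (H : SimpleGraph W) (G : SimpleGraph (Fin n)) (f : W → Fin n) :
    soA p p' H G f ≤ 2 * ((card W : ℝ) ^ 2 * (r : ℝ) ^ 2) := by
  classical
  unfold soA
  calc _ ≤ ∑ k : (W × W) × (Fin r × Fin r), (2 : ℝ) := by
        apply Finset.sum_le_sum
        intro k _
        split_ifs
        · exact soE_le _ _ _ _ _ _ _ _ _
        · norm_num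
    _ = _ := by
        rw [Finset.sum_const, Finset.card_univ, Fintype.card_prod, Fintype.card_prod,
          Fintype.card_prod, Fintype.card_fin, nsmul_eq_mul]
        push_cast
        ring

variable (φ φ' τ : Fin n → Fin n)

/-- second difference of the whole map. -/
noncomputable def soD (H : SimpleGraph W) (G : SimpleGraph (Fin n)) (f : W → Fin n) : ℝ :=
  soI H G (fun a => φ (f a)) + soI H G (fun a => φ' (f a)) - soI H G f
    - soI H G (fun a => τ (f a))

lemma soD_ge (H : SimpleGraph W) (G : SimpleGraph (Fin n)) (f : W → Fin n) :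
    -2 ≤ soD φ φ' τ H G f := by
  unfold soD
  have h1 := soI_nonneg H G (fun a => φ (f a))
  have h2 := soI_nonneg H G (fun a => φ' (f a))
  have h3 := soI_le H G f
  have h4 := soI_le H G (fun a => τ (f a))
  linarith

open Classical in
lemma so_pointwise (H : SimpleGraph W) (G : SimpleGraph (Fin n))
    (hp : Function.Injective p) (hp' : Function.Injective p') (hd : ∀ i j, p i ≠ p' j)
    (hφ1 : ∀ i, φ (p' i) = p i) (hφ2 : ∀ x, (∀ i, p' i ≠ x) → φ x = x)
    (hφ'1 : ∀ i, φ' (p i) = p' i) (hφ'2 : ∀ x, (∀ i, p i ≠ x) → φ' x = x)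
    (hτ1 : ∀ i, τ (p i) = p' i) (hτ2 : ∀ i, τ (p' i) = p i)
    (hτ3 : ∀ x, (∀ i, p i ≠ x) → (∀ i, p' i ≠ x) → τ x = x) (f : W → Fin n) :
    soA p p' H G f ≤ (if Function.Injective f then soD φ φ' τ H G f else 0) +
      (2 * ((card W : ℝ) ^ 2 * (r : ℝ) ^ 2) + 2) * (if soBad (soQ p p') f then 1 else 0) := by
  by_cases hbad : soBad (soQ p p') f
  · rw [if_pos hbad]
    have h1 := soA_le p p' H G f
    have h2 := soD_ge φ φ' τ H G f
    split_ifs <;> linarith
  rw [if_neg hbad, mul_zero, add_zero]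
  by_cases hex : ∃ u v i j, f u = p i ∧ f v = p' j
  · obtain ⟨u, v, i, j, hu, hv⟩ := hex
    have huv : u ≠ v := by
      rintro rfl
      exact hd i j (by rw [← hu, ← hv])
    have hother : ∀ w, w ≠ u → w ≠ v → f w ∉ soQ p p' := by
      intro w hwu hwv hw
      apply hbad
      left
      exact ⟨u, v, w, huv, hwu.symm, hwv.symm, by rw [hu]; exact soQ_left _ _ _,
        by rw [hv]; exact soQ_right _ _ _, hw⟩
    have hinj : Function.Injective f := by
      intro a b hab
      by_contra hne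
      have hfuv : f u ≠ f v := by rw [hu, hv]; exact hd i j
      by_cases ha : a = u
      · by_cases hb : b = v
        · rw [ha, hb] at hab; exact hfuv hab
        · apply hbad
          right
          exact ⟨u, v, b, a, huv, fun h => hne (by rw [ha, h]), hb, Ne.symm hne,
            by rw [hu]; exact soQ_left _ _ _, by rw [hv]; exact soQ_right _ _ _, hab.symm⟩
      · by_cases ha' : a = v
        · by_cases hb : b = u
          · rw [ha', hb] at hab; exact hfuv hab.symm
          · apply hbad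
            right
            exact ⟨u, v, b, a, huv, hb, fun h => hne (by rw [ha', h]), Ne.symm hne,
              by rw [hu]; exact soQ_left _ _ _, by rw [hv]; exact soQ_right _ _ _, hab.symm⟩
        · apply hbad
          right
          exact ⟨u, v, a, b, huv, ha, ha', hne,
            by rw [hu]; exact soQ_left _ _ _, by rw [hv]; exact soQ_right _ _ _, hab⟩
    rw [if_pos hinj]
    apply le_of_eq
    -- the sum has one term
    have h1 : soA p p' H G f = soE p p' H G f u v i j := by
      unfold soA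
      rw [Finset.sum_eq_single ((u, v), (i, j))]
      · rw [if_pos ⟨huv, hu, hv⟩]
      · rintro ⟨⟨u', v'⟩, ⟨i', j'⟩⟩ _ hne
        rw [if_neg]
        rintro ⟨h1, h2, h3⟩
        simp only at h1 h2 h3
        have e1 : u' = u := by
          by_contra hne'
          by_cases h4 : u' = v
          · rw [h4, hv] at h2
            exact hd _ _ h2.symm
          · apply hother u' hne' h4
            rw [h2]; exact soQ_left _ _ _
        have e2 : v' = v := by
          by_contra hne'
          by_cases h4 : v' = u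
          · rw [h4, hu] at h3
            exact hd _ _ h3
          · apply hother v' h4 hne'
            rw [h3]; exact soQ_right _ _ _
        subst e1 e2
        have e3 : i' = i := hp (by rw [← h2, hu])
        have e4 : j' = j := hp' (by rw [← h3, hv])
        subst e3 e4
        exact hne rfl
      · intro h; exact absurd (mem_univ _) h
    rw [h1]
    unfold soE soD
    have k1 : (fun a => φ (f a)) = soU f u (p i) v (p j) := by
      apply soU_eq _ _ _ _ _ _ huv
      · rw [hu]; exact hφ2 _ (fun k h => hd i k h.symm)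
      · rw [hv]; exact hφ1 _
      · intro w hw hw'
        exact hφ2 _ (soQ_not _ _ _ (hother w hw hw')).2
    have k2 : (fun a => φ' (f a)) = soU f u (p' i) v (p' j) := by
      apply soU_eq _ _ _ _ _ _ huv
      · rw [hu]; exact hφ'1 _
      · rw [hv]; exact hφ'2 _ (fun k h => hd k j h)
      · intro w hw hw'
        exact hφ'2 _ (soQ_not _ _ _ (hother w hw hw')).1
    have k3 : f = soU f u (p i) v (p' j) := by
      apply soU_eq _ _ _ _ _ _ huv hu hv
      intro w _ _; rfl
    have k4 : (fun a => τ (f a)) = soU f u (p' i) v (p j) := by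
      apply soU_eq _ _ _ _ _ _ huv
      · rw [hu]; exact hτ1 _
      · rw [hv]; exact hτ2 _
      · intro w hw hw'
        have := soQ_not _ _ _ (hother w hw hw')
        exact hτ3 _ this.1 this.2
    rw [k1, k2, k4, ← k3]
  · -- no pair
    have h1 : soA p p' H G f = 0 := by
      unfold soA
      apply Finset.sum_eq_zero
      rintro ⟨⟨u', v'⟩, ⟨i', j'⟩⟩ _
      rw [if_neg]
      rintro ⟨_, h2, h3⟩
      exact hex ⟨u', v', i', j', h2, h3⟩
    have h2 : soD φ φ' τ H G f = 0 := by
      unfold soD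
      by_cases hR : ∃ v j, f v = p' j
      · obtain ⟨v, j, hv⟩ := hR
        have hL : ∀ u i, p i ≠ f u := by
          intro u i h
          exact hex ⟨u, v, i, j, h.symm, hv⟩
        have k1 : (fun a => φ' (f a)) = f := by
          funext a; exact hφ'2 _ (hL a)
        have k2 : (fun a => τ (f a)) = (fun a => φ (f a)) := by
          funext a
          by_cases h : ∃ k, p' k = f a
          · obtain ⟨k, hk⟩ := h
            rw [← hk, hτ2, hφ1]
          · push Not at h
            rw [hτ3 _ (hL a) h, hφ2 _ h]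
        rw [k1, k2]; ring
      · push Not at hR
        have hR' : ∀ v j, p' j ≠ f v := fun v j => (hR v j).symm
        have k1 : (fun a => φ (f a)) = f := by
          funext a; exact hφ2 _ (hR' a)
        have k2 : (fun a => τ (f a)) = (fun a => φ' (f a)) := by
          funext a
          by_cases h : ∃ k, p k = f a
          · obtain ⟨k, hk⟩ := h
            rw [← hk, hτ1, hφ'1]
          · push Not at h
            rw [hτ3 _ h (hR' a), hφ'2 _ h]
        rw [k1, k2]; ring
    rw [h1, h2]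
    simp

open Classical in
/-- the number of bad maps. -/
lemma so_bad_card (Q : Finset (Fin n)) (hn : 0 < n) (hQ : #Q ≤ 2 * r) :
    (#(univ.filter (fun f : W → Fin n => soBad Q f)) : ℝ) ≤
      ((card W : ℝ) ^ 3 * (2 * r) ^ 3 + (card W : ℝ) ^ 4 * (2 * r) ^ 2) *
        ((n : ℝ) ^ card W / (n : ℝ) ^ 3) := by
  have : Nonempty (Fin n) := ⟨⟨0, hn⟩⟩
  have hn0 : (0 : ℝ) < n := by exact_mod_cast hn
  have hQ' : (#Q : ℝ) ≤ 2 * r := by exact_mod_cast hQ
  have hQ0 : (0 : ℝ) ≤ #Q := by positivity
  let S1 : W × W × W → Finset (W → Fin n) := fun t => univ.filter (fun f =>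
    (t.1 ≠ t.2.1 ∧ t.1 ≠ t.2.2 ∧ t.2.1 ≠ t.2.2) ∧ (f t.1 ∈ Q ∧ f t.2.1 ∈ Q ∧ f t.2.2 ∈ Q))
  let S2 : W × W × W × W → Finset (W → Fin n) := fun t => univ.filter (fun f =>
    (t.1 ≠ t.2.1 ∧ t.2.2.1 ≠ t.1 ∧ t.2.2.1 ≠ t.2.1 ∧ t.2.2.1 ≠ t.2.2.2) ∧
      (f t.1 ∈ Q ∧ f t.2.1 ∈ Q ∧ f t.2.2.1 = f t.2.2.2))
  have hc1 : ∀ t, (#(S1 t) : ℝ) ≤ (2 * r) ^ 3 * ((n : ℝ) ^ card W / (n : ℝ) ^ 3) := by
    intro t
    by_cases ht : t.1 ≠ t.2.1 ∧ t.1 ≠ t.2.2 ∧ t.2.1 ≠ t.2.2
    · have := H67Blow.pin3 t.1 t.2.1 t.2.2 ht.1 ht.2.1 ht.2.2 Q Q Q (S1 t) (by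
        intro f hf
        simp only [S1, mem_filter, mem_univ, true_and] at hf
        exact hf.2)
      rw [Fintype.card_fin] at this
      refine this.trans ?_
      apply mul_le_mul_of_nonneg_right _ (by positivity)
      calc (#Q : ℝ) * #Q * #Q = (#Q : ℝ) ^ 3 := by ring
        _ ≤ _ := pow_le_pow_left₀ hQ0 hQ' 3
    · have : S1 t = ∅ := by
        ext f
        simp only [S1, mem_filter, mem_univ, true_and, notMem_empty, iff_false, not_and]
        intro h; exact absurd h ht
      rw [this, Finset.card_empty]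
      push_cast
      positivity
  have hc2 : ∀ t, (#(S2 t) : ℝ) ≤ (2 * r) ^ 2 * ((n : ℝ) ^ card W / (n : ℝ) ^ 3) := by
    intro t
    by_cases ht : t.1 ≠ t.2.1 ∧ t.2.2.1 ≠ t.1 ∧ t.2.2.1 ≠ t.2.1 ∧ t.2.2.1 ≠ t.2.2.2
    · have h2 := H67Blow.pin_eq (V := Fin n) {t.1, t.2.1} (fun _ => Q) t.2.2.1 t.2.2.2
        (by simp [ht.2.1, ht.2.2.1]) ht.2.2.2
      have h3 := H67Blow.pin2 t.1 t.2.1 ht.1 Q Q (H67Blow.pin {t.1, t.2.1} (fun _ => Q)) (by
        intro f hf
        simp only [H67Blow.pin, mem_filter, mem_univ, true_and, mem_insert, mem_singleton] at hf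
        exact ⟨hf _ (by simp), hf _ (by simp)⟩)
      have h1 : S2 t ⊆ (H67Blow.pin {t.1, t.2.1} (fun _ => Q)).filter
          (fun f => f t.2.2.1 = f t.2.2.2) := by
        intro f hf
        simp only [S2, mem_filter, mem_univ, true_and] at hf
        simp only [H67Blow.pin, mem_filter, mem_univ, true_and, mem_insert, mem_singleton]
        refine ⟨?_, hf.2.2.2⟩
        rintro a (rfl | rfl)
        · exact hf.2.1
        · exact hf.2.2.1
      have h4 : (#(S2 t) : ℝ) ≤ #((H67Blow.pin {t.1, t.2.1} (fun _ => Q)).filter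
          (fun f => f t.2.2.1 = f t.2.2.2)) := by
        exact_mod_cast Finset.card_le_card h1
      have h5 : (card (Fin n) : ℝ) * #((H67Blow.pin {t.1, t.2.1} (fun _ => Q)).filter
          (fun f => f t.2.2.1 = f t.2.2.2)) ≤ #(H67Blow.pin {t.1, t.2.1} (fun _ => Q)) := by
        have h2' : card (Fin n) * #((H67Blow.pin {t.1, t.2.1} (fun _ => Q)).filter
          (fun f => f t.2.2.1 = f t.2.2.2)) ≤ #(H67Blow.pin {t.1, t.2.1} (fun _ => Q)) := by
          convert h2
        exact_mod_cast h2'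
      rw [Fintype.card_fin] at h5 h3
      have h6 : (#(S2 t) : ℝ) * n ≤ (#Q : ℝ) * #Q * ((n : ℝ) ^ (card W) / (n : ℝ) ^ 2) := by
        nlinarith
      rw [← le_div_iff₀ hn0] at h6
      refine h6.trans ?_
      have h7 : (#Q : ℝ) * #Q ≤ (2 * r) ^ 2 := by
        calc (#Q : ℝ) * #Q = (#Q : ℝ) ^ 2 := by ring
          _ ≤ _ := pow_le_pow_left₀ hQ0 hQ' 2
      have h8 : (#Q : ℝ) * #Q * ((n : ℝ) ^ (card W) / (n : ℝ) ^ 2) / n
          = (#Q : ℝ) * #Q * ((n : ℝ) ^ (card W) / (n : ℝ) ^ 3) := by
        field_simp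
      rw [h8]
      exact mul_le_mul_of_nonneg_right h7 (by positivity)
    · have : S2 t = ∅ := by
        ext f
        simp only [S2, mem_filter, mem_univ, true_and, notMem_empty, iff_false, not_and]
        intro h; exact absurd h ht
      rw [this, Finset.card_empty]
      push_cast
      positivity
  have hsub : univ.filter (fun f : W → Fin n => soBad Q f) ⊆
      univ.biUnion S1 ∪ univ.biUnion S2 := by
    intro f hf
    simp only [mem_filter, mem_univ, true_and] at hf
    rw [mem_union, mem_biUnion, mem_biUnion]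
    rcases hf with ⟨u, v, w, h1, h2, h3, h4⟩ | ⟨u, v, a, b, h1, h2, h3, h4, h5⟩
    · left
      exact ⟨(u, v, w), mem_univ _, by simp only [S1, mem_filter, mem_univ, true_and]; exact ⟨⟨h1, h2, h3⟩, h4⟩⟩
    · right
      exact ⟨(u, v, a, b), mem_univ _, by simp only [S2, mem_filter, mem_univ, true_and]; exact ⟨⟨h1, h2, h3, h4⟩, h5⟩⟩
  have hcard : (#(univ.filter (fun f : W → Fin n => soBad Q f)) : ℝ) ≤
      ∑ t, (#(S1 t) : ℝ) + ∑ t, (#(S2 t) : ℝ) := by
    have e1 := (Finset.card_le_card hsub).trans (Finset.card_union_le _ _)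
    have e2 : #((univ : Finset (W × W × W)).biUnion S1) ≤ ∑ t, #(S1 t) := Finset.card_biUnion_le
    have e3 : #((univ : Finset (W × W × W × W)).biUnion S2) ≤ ∑ t, #(S2 t) := Finset.card_biUnion_le
    have e4 := e1.trans (add_le_add e2 e3)
    exact_mod_cast e4
  refine hcard.trans ((add_le_add (Finset.sum_le_sum (fun t _ => hc1 t))
    (Finset.sum_le_sum (fun t _ => hc2 t))).trans (le_of_eq ?_))
  rw [Finset.sum_const, Finset.sum_const, nsmul_eq_mul, nsmul_eq_mul, Finset.card_univ,
    Finset.card_univ, Fintype.card_prod, Fintype.card_prod, Fintype.card_prod, Fintype.card_prod,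
    Fintype.card_prod]
  push_cast
  ring

open Classical in
lemma so_sumA (H : SimpleGraph W) (G : SimpleGraph (Fin n)) :
    ∑ f : W → Fin n, soA p p' H G f =
      ∑ i, ∑ j, BB H G (p i) (p j) + ∑ i, ∑ j, BB H G (p' i) (p' j)
        - 2 * ∑ i, ∑ j, BB H G (p i) (p' j) := by
  have hsym : ∑ i, ∑ j, BB H G (p' i) (p j) = ∑ i, ∑ j, BB H G (p i) (p' j) := by
    rw [Finset.sum_comm]
    apply Finset.sum_congr rfl
    intro i _
    apply Finset.sum_congr rfl
    intro j _
    exact so_BB_comm _ _ _ _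
  have h1 : ∑ f : W → Fin n, soA p p' H G f = ∑ k : (W × W) × (Fin r × Fin r),
      (if k.1.1 ≠ k.1.2 then
        (soC H G k.1.1 k.1.2 (p k.2.1) (p k.2.2) + soC H G k.1.1 k.1.2 (p' k.2.1) (p' k.2.2)
          - soC H G k.1.1 k.1.2 (p k.2.1) (p' k.2.2)
          - soC H G k.1.1 k.1.2 (p' k.2.1) (p k.2.2)) else 0) := by
    unfold soA
    rw [Finset.sum_comm]
    apply Finset.sum_congr rfl
    rintro ⟨⟨u, v⟩, ⟨i, j⟩⟩ _
    simp only
    by_cases huv : u = v
    · simp [huv]
    · rw [if_pos huv]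
      rw [← soC_eq H G u v huv (p i) (p' j) (p i) (p j),
        ← soC_eq H G u v huv (p i) (p' j) (p' i) (p' j),
        ← soC_eq H G u v huv (p i) (p' j) (p i) (p' j),
        ← soC_eq H G u v huv (p i) (p' j) (p' i) (p j)]
      rw [← Finset.sum_add_distrib, ← Finset.sum_sub_distrib, ← Finset.sum_sub_distrib]
      apply Finset.sum_congr rfl
      intro f _
      unfold soE
      by_cases h : f u = p i ∧ f v = p' j
      · rw [if_pos ⟨huv, h.1, h.2⟩, if_pos h, if_pos h, if_pos h, if_pos h]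
      · rw [if_neg (fun h' => h ⟨h'.2.1, h'.2.2⟩), if_neg h, if_neg h, if_neg h, if_neg h]
        ring
  have h2 : ∀ x y : Fin r → Fin n, ∑ i, ∑ j, BB H G (x i) (y j) =
      ∑ k : (W × W) × (Fin r × Fin r),
        (if k.1.1 ≠ k.1.2 then soC H G k.1.1 k.1.2 (x k.2.1) (y k.2.2) else 0) := by
    intro x y
    rw [Fintype.sum_prod_type_right]
    rw [Fintype.sum_prod_type]
    apply Finset.sum_congr rfl
    intro i _
    apply Finset.sum_congr rfl
    intro j _
    rw [so_BB]
  have h3 : ∑ i, ∑ j, BB H G (p i) (p j) + ∑ i, ∑ j, BB H G (p' i) (p' j)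
        - 2 * ∑ i, ∑ j, BB H G (p i) (p' j) =
      ∑ i, ∑ j, BB H G (p i) (p j) + ∑ i, ∑ j, BB H G (p' i) (p' j)
        - ∑ i, ∑ j, BB H G (p i) (p' j) - ∑ i, ∑ j, BB H G (p' i) (p j) := by
    rw [hsym]; ring
  rw [h1, h3, h2 p p, h2 p' p', h2 p p', h2 p' p]
  rw [← Finset.sum_add_distrib, ← Finset.sum_sub_distrib, ← Finset.sum_sub_distrib]
  apply Finset.sum_congr rfl
  intro k _
  by_cases h : k.1.1 = k.1.2
  · simp [h]
  · simp only [ne_eq, h, not_false_eq_true, if_true]

open Classical in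
lemma so_sumD (q : ℕ) (H : SimpleGraph W) (G : SimpleGraph (Fin n)) (hG : Ext q H G)
    (hττ : ∀ x, τ (τ x) = x) :
    ∑ f : W → Fin n, (if Function.Injective f then soD φ φ' τ H G f else 0) ≤ 0 := by
  have e1 := hG.2 _ (secondOrder_cliqueFree_comap G φ _ hG.1)
  have e2 := hG.2 _ (secondOrder_cliqueFree_comap G φ' _ hG.1)
  have e1' : (H67Blow.num H (G.comap φ) : ℝ) ≤ H67Blow.num H G := by exact_mod_cast e1
  have e2' : (H67Blow.num H (G.comap φ') : ℝ) ≤ H67Blow.num H G := by exact_mod_cast e2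
  rw [← so_num, ← so_num] at e1' e2'
  have e3 : ∑ f : W → Fin n, (if Function.Injective f then soI H G (fun a => τ (f a)) else 0) =
      ∑ f : W → Fin n, (if Function.Injective f then soI H G f else 0) := by
    let e : (W → Fin n) ≃ (W → Fin n) :=
      ⟨fun f a => τ (f a), fun f a => τ (f a), fun f => by funext a; exact hττ _,
        fun f => by funext a; exact hττ _⟩
    apply Fintype.sum_equiv e
    intro f
    have hτinj : Function.Injective τ := by
      intro x y h
      rw [← hττ x, ← hττ y, h]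
    have : Function.Injective (e f) ↔ Function.Injective f := by
      constructor
      · intro h a b hab
        apply h
        change τ (f a) = τ (f b)
        rw [hab]
      · intro h a b hab
        exact h (hτinj hab)
    simp only [this]
    rfl
  have e4 : ∑ f : W → Fin n, (if Function.Injective f then soD φ φ' τ H G f else 0) =
      ∑ f : W → Fin n, (if Function.Injective f then soI H (G.comap φ) f else 0) +
      ∑ f : W → Fin n, (if Function.Injective f then soI H (G.comap φ') f else 0) -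
      ∑ f : W → Fin n, (if Function.Injective f then soI H G f else 0) -
      ∑ f : W → Fin n, (if Function.Injective f then soI H G (fun a => τ (f a)) else 0) := by
    rw [← Finset.sum_add_distrib, ← Finset.sum_sub_distrib, ← Finset.sum_sub_distrib]
    apply Finset.sum_congr rfl
    intro f _
    by_cases h : Function.Injective f
    · simp only [h, if_true]
      rfl
    · simp only [h, if_false]
      ring
  rw [e4, e3]
  linarith

end main

theorem second_order (q : ℕ) (H : SimpleGraph W) :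
    ∃ C : ℕ → ℝ, ∀ (n : ℕ) (G : SimpleGraph (Fin n)), Ext q H G → SO H G C := by
  classical
  refine ⟨fun r => (2 * ((card W : ℝ) ^ 2 * (r : ℝ) ^ 2) + 2) *
    ((card W : ℝ) ^ 3 * (2 * r) ^ 3 + (card W : ℝ) ^ 4 * (2 * r) ^ 2), ?_⟩
  intro n G hG r p p' hp hp' hd
  rcases Nat.eq_zero_or_pos n with rfl | hn
  · simp only [CharP.cast_eq_zero, ne_eq, OfNat.ofNat_ne_zero, not_false_eq_true, zero_pow,
      mul_zero]
    positivity
  have hn0 : (0 : ℝ) < n := by exact_mod_cast hn
  let φ : Fin n → Fin n := Function.extend p' p id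
  let φ' : Fin n → Fin n := Function.extend p p' id
  let τ : Fin n → Fin n := Function.extend p p' φ
  have hφ1 : ∀ i, φ (p' i) = p i := fun i => hp'.extend_apply _ _ _
  have hφ2 : ∀ x, (∀ i, p' i ≠ x) → φ x = x := fun x hx =>
    Function.extend_apply' _ _ _ (fun ⟨i, hi⟩ => hx i hi)
  have hφ'1 : ∀ i, φ' (p i) = p' i := fun i => hp.extend_apply _ _ _
  have hφ'2 : ∀ x, (∀ i, p i ≠ x) → φ' x = x := fun x hx =>
    Function.extend_apply' _ _ _ (fun ⟨i, hi⟩ => hx i hi)
  have hτ1 : ∀ i, τ (p i) = p' i := fun i => hp.extend_apply _ _ _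
  have hτ0 : ∀ x, (∀ i, p i ≠ x) → τ x = φ x := fun x hx =>
    Function.extend_apply' _ _ _ (fun ⟨i, hi⟩ => hx i hi)
  have hτ2 : ∀ i, τ (p' i) = p i := fun i => by
    rw [hτ0 _ (fun k => hd k i), hφ1]
  have hτ3 : ∀ x, (∀ i, p i ≠ x) → (∀ i, p' i ≠ x) → τ x = x := fun x hx hx' => by
    rw [hτ0 x hx, hφ2 x hx']
  have hττ : ∀ x, τ (τ x) = x := by
    intro x
    by_cases h : ∃ i, p i = x
    · obtain ⟨i, rfl⟩ := h
      rw [hτ1, hτ2]
    · by_cases h' : ∃ i, p' i = x
      · obtain ⟨i, rfl⟩ := h'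
        rw [hτ2, hτ1]
      · push Not at h h'
        rw [hτ3 x h h', hτ3 x h h']
  have hsum := Finset.sum_le_sum (s := univ) (fun (f : W → Fin n) _ =>
    so_pointwise p p' φ φ' τ H G hp hp' hd hφ1 hφ2 hφ'1 hφ'2 hτ1 hτ2 hτ3 f)
  rw [so_sumA, Finset.sum_add_distrib, ← Finset.mul_sum, Finset.sum_boole] at hsum
  have hD := so_sumD φ φ' τ q H G hG hττ
  have hbad := so_bad_card (W := W) (soQ p p') hn (soQ_card p p')
  have hK : (0 : ℝ) ≤ 2 * ((card W : ℝ) ^ 2 * (r : ℝ) ^ 2) + 2 := by positivity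
  have h1 := mul_le_mul_of_nonneg_left hbad hK
  have h2 : ∑ i, ∑ j, BB H G (p i) (p j) + ∑ i, ∑ j, BB H G (p' i) (p' j)
        - 2 * ∑ i, ∑ j, BB H G (p i) (p' j) ≤ (2 * ((card W : ℝ) ^ 2 * (r : ℝ) ^ 2) + 2) *
      (((card W : ℝ) ^ 3 * (2 * r) ^ 3 + (card W : ℝ) ^ 4 * (2 * r) ^ 2) *
        ((n : ℝ) ^ card W / (n : ℝ) ^ 3)) := by
    refine hsum.trans ?_
    linarith
  have h3 := mul_le_mul_of_nonneg_right h2 (by positivity : (0 : ℝ) ≤ (n : ℝ) ^ 3)
  refine h3.trans (le_of_eq ?_)
  field_simp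

end H78B
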