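import Pool.Agent.H78.Blow.Defs

set_option autoImplicit false

open Finset Fintype

namespace H78B

variable {n : ℕ} {W : Type} [Fintype W]

/-! ## BL-19 : special cases of `Sep` -/

omit [Fintype W] in
/-- common construction of the three cases. -/
theorem sepCases_aux (q : ℕ) (H : SimpleGraph W) (hcol : H.Colorable (q + 1)) (π : W → W)
    (hπ : ∀ v, π (π v) = π v) (a b : W) (hab : H.Adj a b) (hne : π a ≠ π b)
    (τ : Fin (q + 1) → Bool) (t : W → Fin (q + 1))
    (hedge : ∀ v w, H.Adj v w → π v = π w ∨ (π v = v ∧ π w = w ∧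
      (v ≠ a → v ≠ b → w ≠ a → w ≠ b → t v ≠ t w)))
    (ha : ∀ v, H.Adj a v → π v ≠ π a → v ≠ b → τ (t v) = true)
    (hb : ∀ v, H.Adj b v → π v ≠ π b → v ≠ a → τ (t v) = false) :
    ∃ (a b : W) (P : W → Fin 3) (col : W → Fin (q + 1)), H.Adj a b ∧
      (∀ v w, H.Adj v w → v ≠ a → v ≠ b → w ≠ a → w ≠ b → P v = P w) ∧
      (∀ v, H.Adj a v → v ≠ b → P v ≠ 2) ∧
      (∀ v, H.Adj b v → v ≠ a → P v ≠ 1) ∧
      (∀ v w, H.Adj v w → v ≠ a → v ≠ b → w ≠ a → w ≠ b → P v = 0 → col v ≠ col w) ∧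
      (∀ v, H.Adj a v → v ≠ b → P v = 0 → τ (col v) = true) ∧
      (∀ v, H.Adj b v → v ≠ a → P v = 0 → τ (col v) = false) := by
  classical
  obtain ⟨χ⟩ := hcol
  have hfix : π a = a ∧ π b = b := by
    rcases hedge a b hab with h | ⟨h1, h2, -⟩
    · exact absurd h hne
    · exact ⟨h1, h2⟩
  have hab' : a ≠ b := hab.ne
  set P : W → Fin 3 := fun v => if π v = a then 1 else if π v = b then 2 else 0 with hP
  have hP0 : ∀ v, P v = 0 ↔ π v ≠ a ∧ π v ≠ b := by
    intro v
    simp only [hP]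
    split_ifs with h1 h2
    · simp [h1]
    · simp [h2]
    · simp [h1, h2]
  have hP1 : ∀ v, P v = 1 ↔ π v = a := by
    intro v
    simp only [hP]
    split_ifs with h1 h2
    · simp [h1]
    · simp [h1]
    · simp [h1]
  have hP2 : ∀ v, P v = 2 → π v = b := by
    intro v
    simp only [hP]
    split_ifs with h1 h2
    · intro h; exact absurd h (by decide)
    · intro _; exact h2
    · intro h; exact absurd h (by decide)
  set col : W → Fin (q + 1) := fun v => Equiv.swap (χ (π v)) (t (π v)) (χ v) with hcoldef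
  have hcolfix : ∀ v, π v = v → col v = t v := by
    intro v hv
    simp only [hcoldef, hv, Equiv.swap_apply_left]
  have hcolfib : ∀ v w, H.Adj v w → π v = π w → col v ≠ col w := by
    intro v w hvw hπvw h
    simp only [hcoldef, hπvw] at h
    exact χ.valid hvw ((Equiv.swap _ _).injective h)
  refine ⟨a, b, P, col, hab, ?_, ?_, ?_, ?_, ?_, ?_⟩
  · intro v w hvw hva hvb hwa hwb
    rcases hedge v w hvw with h | ⟨h1, h2, -⟩
    · simp only [hP, h]
    · rw [(hP0 v).2 ⟨by rwa [h1], by rwa [h1]⟩, (hP0 w).2 ⟨by rwa [h2], by rwa [h2]⟩]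
  · intro v hav hvb h2
    have hvb' := hP2 v h2
    rcases hedge a v hav with h | ⟨-, h3, -⟩
    · exact hne (by rw [h, hvb', hfix.2])
    · exact hvb (by rw [← h3, hvb'])
  · intro v hbv hva h1
    have hva' := (hP1 v).1 h1
    rcases hedge b v hbv with h | ⟨-, h3, -⟩
    · exact hne (by rw [h, hva', hfix.1])
    · exact hva (by rw [← h3, hva'])
  · intro v w hvw hva hvb hwa hwb _
    rcases hedge v w hvw with h | ⟨h1, h2, h3⟩
    · exact hcolfib v w hvw h
    · rw [hcolfix v h1, hcolfix w h2]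
      exact h3 hva hvb hwa hwb
  · intro v hav hvb h0
    rw [hP0] at h0
    have hne' : π v ≠ π a := by rw [hfix.1]; exact h0.1
    rcases hedge a v hav with h | ⟨-, h3, -⟩
    · exact absurd h.symm hne'
    · rw [hcolfix v h3]
      exact ha v hav hne' hvb
  · intro v hbv hva h0
    rw [hP0] at h0
    have hne' : π v ≠ π b := by rw [hfix.2]; exact h0.2
    rcases hedge b v hbv with h | ⟨-, h3, -⟩
    · exact absurd h.symm hne'
    · rw [hcolfix v h3]
      exact hb v hbv hne' hva

theorem sepCases_perm {q : ℕ} {i j i₀ j₀ : Fin (q + 1)} (h : i ≠ j) (h₀ : i₀ ≠ j₀) :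
    ∃ θ : Equiv.Perm (Fin (q + 1)), θ i = i₀ ∧ θ j = j₀ := by
  have h1 : Equiv.swap i i₀ j ≠ i₀ := by
    intro h2
    apply h
    have := (Equiv.swap i i₀).injective (h2.trans (Equiv.swap_apply_left i i₀).symm)
    exact this.symm
  refine ⟨(Equiv.swap i i₀).trans (Equiv.swap (Equiv.swap i i₀ j) j₀), ?_, ?_⟩
  · rw [Equiv.trans_apply, Equiv.swap_apply_left, Equiv.swap_apply_of_ne_of_ne h1.symm h₀]
  · rw [Equiv.trans_apply, Equiv.swap_apply_left]


/-- `H` arises by gluing graphs at the vertices of a bipartite graph `F` with at least one edge: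
`F` is induced on the fixed points of the retraction `π`, `s` is the 2-colouring of `F`. -/
def BipPart (H : SimpleGraph W) : Prop :=
  ∃ (π : W → W) (s : W → Bool), (∀ v, π (π v) = π v) ∧
    (∀ v w, H.Adj v w → π v = π w ∨ (π v = v ∧ π w = w ∧ s v ≠ s w)) ∧
    ∃ a b, H.Adj a b ∧ π a ≠ π b

theorem sep_of_bipPart (q : ℕ) (hq : 1 ≤ q) (H : SimpleGraph W) (hcol : H.Colorable (q + 1))
    (h : BipPart H) : Sep q H := by
  refine ⟨hcol, ?_⟩
  rintro τ ⟨i₀, hi₀⟩ ⟨j₀, hj₀⟩
  obtain ⟨π, s, hπ, hedge, a, b, hab, hne⟩ := h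
  have hij : i₀ ≠ j₀ := by
    rintro rfl
    rw [hi₀] at hj₀
    exact absurd hj₀ (by decide)
  have hs : s a ≠ s b := by
    rcases hedge a b hab with h | ⟨-, -, h⟩
    · exact absurd h hne
    · exact h
  refine sepCases_aux q H hcol π hπ a b hab hne τ (fun v => if s v = s b then i₀ else j₀) ?_ ?_ ?_
  · intro v w hvw
    rcases hedge v w hvw with h | ⟨h1, h2, h3⟩
    · exact Or.inl h
    · refine Or.inr ⟨h1, h2, fun _ _ _ _ => ?_⟩
      show (if s v = s b then i₀ else j₀) ≠ (if s w = s b then i₀ else j₀)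
      by_cases hv : s v = s b
      · have hw : s w ≠ s b := fun h => h3 (hv.trans h.symm)
        rw [if_pos hv, if_neg hw]
        exact hij
      · have hw : s w = s b := by
          revert hv h3
          cases s v <;> cases s w <;> cases s b <;> simp
        rw [if_neg hv, if_pos hw]
        exact hij.symm
  · intro v hav hπv _
    have h1 : s a ≠ s v := by
      rcases hedge a v hav with h | ⟨-, -, h⟩
      · exact absurd h.symm hπv
      · exact h
    have h2 : s v = s b := by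
      revert h1 hs
      cases s v <;> cases s a <;> cases s b <;> simp
    show τ (if s v = s b then i₀ else j₀) = true
    rw [if_pos h2]
    exact hi₀
  · intro v hbv hπv _
    have h1 : s b ≠ s v := by
      rcases hedge b v hbv with h | ⟨-, -, h⟩
      · exact absurd h.symm hπv
      · exact h
    show τ (if s v = s b then i₀ else j₀) = false
    rw [if_neg h1.symm]
    exact hj₀

/-- `H` arises by gluing graphs at the vertices of a graph `F` (induced on the fixed points of `π`)
which has an edge `ab` and a proper colouring `s` of `F - {a, b}` with `q+1` colours in which the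
neighbours of `a` other than `b` have colour `i` and the neighbours of `b` other than `a` have
colour `j ≠ i`. -/
def FoldEdge (q : ℕ) (H : SimpleGraph W) : Prop :=
  ∃ (π : W → W) (s : W → Fin (q + 1)) (a b : W) (i j : Fin (q + 1)), (∀ v, π (π v) = π v) ∧
    H.Adj a b ∧ π a ≠ π b ∧ i ≠ j ∧
    (∀ v w, H.Adj v w → π v = π w ∨ (π v = v ∧ π w = w ∧
      (v ≠ a → v ≠ b → w ≠ a → w ≠ b → s v ≠ s w))) ∧
    (∀ v, H.Adj a v → π v ≠ π a → v ≠ b → s v = i) ∧
    (∀ v, H.Adj b v → π v ≠ π b → v ≠ a → s v = j)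

theorem sep_of_foldEdge (q : ℕ) (hq : 1 ≤ q) (H : SimpleGraph W) (hcol : H.Colorable (q + 1))
    (h : FoldEdge q H) : Sep q H := by
  refine ⟨hcol, ?_⟩
  rintro τ ⟨i₀, hi₀⟩ ⟨j₀, hj₀⟩
  obtain ⟨π, s, a, b, i, j, hπ, hab, hne, hij, hedge, ha, hb⟩ := h
  have hij₀ : i₀ ≠ j₀ := by
    rintro rfl
    rw [hi₀] at hj₀
    exact absurd hj₀ (by decide)
  obtain ⟨θ, h1, h2⟩ := sepCases_perm hij hij₀
  refine sepCases_aux q H hcol π hπ a b hab hne τ (fun v => θ (s v)) ?_ ?_ ?_
  · intro v w hvw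
    rcases hedge v w hvw with h | ⟨h3, h4, h5⟩
    · exact Or.inl h
    · exact Or.inr ⟨h3, h4, fun c1 c2 c3 c4 h => h5 c1 c2 c3 c4 (θ.injective h)⟩
  · intro v hav hπv hvb
    show τ (θ (s v)) = true
    rw [ha v hav hπv hvb, h1]
    exact hi₀
  · intro v hbv hπv hva
    show τ (θ (s v)) = false
    rw [hb v hbv hπv hva, h2]
    exact hj₀

/-- `H` arises by gluing graphs at the vertices of a graph `F` (induced on the fixed points of `π`)
which has a proper 3-colouring `s` in which the neighbourhood of some non-isolated vertex `a` of `F`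
is monochromatic. -/
def FoldVertex (H : SimpleGraph W) : Prop :=
  ∃ (π : W → W) (s : W → Fin 3) (a b : W), (∀ v, π (π v) = π v) ∧
    (∀ v w, H.Adj v w → π v = π w ∨ (π v = v ∧ π w = w ∧ s v ≠ s w)) ∧
    H.Adj a b ∧ π a ≠ π b ∧ ∀ v, H.Adj a v → π v ≠ π a → s v = s b

theorem sep_of_foldVertex (H : SimpleGraph W) (hcol : H.Colorable 3) (h : FoldVertex H) :
    Sep 2 H := by
  refine ⟨hcol, ?_⟩
  rintro τ ⟨i₀, hi₀⟩ ⟨j₀, hj₀⟩
  obtain ⟨π, s, a, b, hπ, hedge, hab, hne, ha⟩ := h
  have hcase : (∃ k, τ k = true ∧ ∀ l, l ≠ k → τ l = false) ∨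
      (∃ k, τ k = false ∧ ∀ l, l ≠ k → τ l = true) := by
    revert hi₀ hj₀
    generalize τ = f
    revert i₀ j₀ f
    decide
  have hb : ∀ v, H.Adj b v → π v ≠ π b → s v ≠ s b := by
    intro v hbv hπv
    rcases hedge b v hbv with h | ⟨-, -, h⟩
    · exact absurd h.symm hπv
    · exact h.symm
  rcases hcase with ⟨k, hk, hl⟩ | ⟨k, hk, hl⟩
  · set θ : Equiv.Perm (Fin (2 + 1)) := Equiv.swap (s b) k with hθ
    have hθb : θ (s b) = k := Equiv.swap_apply_left _ _
    refine sepCases_aux 2 H hcol π hπ a b hab hne τ (fun v => θ (s v)) ?_ ?_ ?_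
    · intro v w hvw
      rcases hedge v w hvw with h | ⟨h3, h4, h5⟩
      · exact Or.inl h
      · exact Or.inr ⟨h3, h4, fun _ _ _ _ h => h5 (θ.injective h)⟩
    · intro v hav hπv _
      show τ (θ (s v)) = true
      rw [ha v hav hπv, hθb]
      exact hk
    · intro v hbv hπv _
      show τ (θ (s v)) = false
      apply hl
      intro h
      exact hb v hbv hπv (θ.injective (h.trans hθb.symm))
  · set θ : Equiv.Perm (Fin (2 + 1)) := Equiv.swap (s b) k with hθ
    have hθb : θ (s b) = k := Equiv.swap_apply_left _ _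
    refine sepCases_aux 2 H hcol π hπ b a hab.symm hne.symm τ (fun v => θ (s v)) ?_ ?_ ?_
    · intro v w hvw
      rcases hedge v w hvw with h | ⟨h3, h4, h5⟩
      · exact Or.inl h
      · exact Or.inr ⟨h3, h4, fun _ _ _ _ h => h5 (θ.injective h)⟩
    · intro v hbv hπv _
      show τ (θ (s v)) = true
      apply hl
      intro h
      exact hb v hbv hπv (θ.injective (h.trans hθb.symm))
    · intro v hav hπv _
      show τ (θ (s v)) = false
      rw [ha v hav hπv, hθb]
      exact hk

end H78B
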