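import Pool.Agent.H78.Blow.Defs
import Pool.Agent.H78.Blow.HomLower
import Pool.Agent.H78.Blow.AddPrime

set_option autoImplicit false

open Finset Fintype

namespace H78B

variable {n : ℕ} {W : Type} [Fintype W]

open Classical in
/-- greedy: in a `K_(q+2)`-free graph few vertices have almost full degree -/
lemma richAll_greedy (q : ℕ) (G : SimpleGraph (Fin n)) (hG : G.CliqueFree (q + 2)) (γ : ℝ)
    (hγ : 0 ≤ γ) (Z : Finset (Fin n))
    (hZ : ∀ z ∈ Z, (#(univ.filter (fun y => ¬ G.Adj z y)) : ℝ) ≤ γ * n) :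
    (#Z : ℝ) ≤ (q + 1) * γ * n := by
  by_contra hcon
  push Not at hcon
  have key : ∀ j : ℕ, j ≤ q + 2 → ∃ t ⊆ Z, G.IsNClique j t := by
    intro j
    induction j with
    | zero =>
      intro _
      exact ⟨∅, empty_subset _, by simp⟩
    | succ j ih =>
      intro hj
      obtain ⟨t, htZ, ht⟩ := ih (by omega)
      -- a vertex of `Z` adjacent to all of `t`
      obtain ⟨y, hy⟩ : ∃ y ∈ Z, ∀ z ∈ t, G.Adj z y := by
        by_contra hno
        push Not at hno
        have hsub : Z ⊆ t.biUnion (fun z => univ.filter (fun y => ¬ G.Adj z y)) := by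
          intro y hy
          obtain ⟨z, hz, hzy⟩ := hno y hy
          rw [mem_biUnion]
          exact ⟨z, hz, by simpa using hzy⟩
        have h1 := (card_le_card hsub).trans card_biUnion_le
        have h2 : (#Z : ℝ) ≤ ∑ z ∈ t, (#(univ.filter (fun y => ¬ G.Adj z y)) : ℝ) := by
          exact_mod_cast h1
        have h3 : ∑ z ∈ t, (#(univ.filter (fun y => ¬ G.Adj z y)) : ℝ) ≤ ∑ _z ∈ t, γ * n :=
          sum_le_sum (fun z hz => hZ z (htZ hz))
        rw [sum_const, nsmul_eq_mul, ht.card_eq] at h3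
        have h4 : (j : ℝ) * (γ * n) ≤ (q + 1) * (γ * n) := by
          apply mul_le_mul_of_nonneg_right _ (by positivity)
          have : j ≤ q + 1 := by omega
          exact_mod_cast this
        linarith
      refine ⟨insert y t, insert_subset hy.1 htZ, ?_⟩
      exact ht.insert (fun z hz => (hy.2 z hz).symm)
  obtain ⟨t, _, ht⟩ := key (q + 2) le_rfl
  exact hG t ht

open Classical in
lemma richAll_pin (b : W) (Z : Finset (Fin n)) :
    (#(univ.filter (fun f : W → Fin n => f b ∈ Z)) : ℝ) * n = #Z * (n : ℝ) ^ card W := by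
  have h1 : univ.filter (fun f : W → Fin n => f b ∈ Z) =
      Fintype.piFinset (Function.update (fun _ => (univ : Finset (Fin n))) b Z) := by
    ext f
    simp only [mem_filter, mem_univ, true_and, Fintype.mem_piFinset]
    constructor
    · intro h a
      by_cases hab : a = b
      · subst hab; simpa using h
      · rw [Function.update_of_ne hab]; exact mem_univ _
    · intro h
      have := h b
      simpa using this
  rw [h1, Fintype.card_piFinset]
  have h2 : ∏ a : W, #(Function.update (fun _ => (univ : Finset (Fin n))) b Z a) =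
      #Z * ∏ a ∈ (univ : Finset W) \ {b}, n := by
    have h3 : (fun a : W => #(Function.update (fun _ => (univ : Finset (Fin n))) b Z a)) =
        Function.update (fun _ => n) b (#Z) := by
      funext a
      by_cases hab : a = b
      · subst hab; simp
      · rw [Function.update_of_ne hab, Function.update_of_ne hab]; simp
    rw [h3, prod_update_of_mem (mem_univ b)]
  rw [h2, prod_const]
  have h4 : #((univ : Finset W) \ {b}) + 1 = card W := by
    rw [card_sdiff_of_subset (subset_univ _), card_singleton, Finset.card_univ]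
    have : 0 < card W := Fintype.card_pos_iff.mpr ⟨b⟩
    omega
  push_cast
  rw [← h4, pow_succ]
  ring

/-! ## BL-9 : many `(q+1)`-cliques (uses hom_lower, add') -/
theorem rich_all (q : ℕ) (hq : 1 ≤ q) (H : SimpleGraph W) (hcol : H.Colorable (q + 1))
    (hedge : ∃ a b, H.Adj a b) :
    ∃ c : ℝ, 0 < c ∧ ∃ n₀ : ℕ, ∀ n ≥ n₀, ∀ G : SimpleGraph (Fin n), Ext q H G →
      c * (n : ℝ) ^ (q + 1) ≤ KK q G univ := by
  classical
  obtain ⟨u, b, hub⟩ := hedge
  obtain ⟨c2, hc2, n1, h1⟩ := hom_lower q H hcol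
  set γ : ℝ := c2 / (4 * (q + 2)) with hγ
  have hγpos : 0 < γ := by positivity
  have hγq : (q + 1) * γ ≤ c2 / 2 := by
    rw [hγ]
    have : (q + 1) * (c2 / (4 * (q + 2))) = ((q + 1) / (q + 2)) * (c2 / 4) := by
      field_simp
    rw [this]
    have h2 : ((q : ℝ) + 1) / (q + 2) ≤ 1 := by
      rw [div_le_one (by positivity)]; linarith
    nlinarith
  obtain ⟨δ, hδ, n2, h2⟩ := add' q hq H (c2 * γ / 4) (by positivity)
  refine ⟨δ, hδ, max (max n1 n2) 1, fun n hn G hG => ?_⟩
  have hn1 : n1 ≤ n := le_trans (le_trans (le_max_left _ _) (le_max_left _ _)) hn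
  have hn2 : n2 ≤ n := le_trans (le_trans (le_max_right _ _) (le_max_left _ _)) hn
  have hn0 : 1 ≤ n := le_trans (le_max_right _ _) hn
  have hnpos : (0 : ℝ) < n := by exact_mod_cast hn0
  by_contra hcon
  push Not at hcon
  have hU : ∀ x : Fin n, U H G univ ≤ U H G (nb G x) + c2 * γ / 4 * (n : ℝ) ^ card W :=
    fun x => h2 n hn2 G hG x univ hcon.le
  -- the term for the edge `ub`
  set T : Fin n → Finset (W → Fin n) := fun x =>
    univ.filter (fun f : W → Fin n => HomOff H G u f ∧ ¬ G.Adj x (f b)) with hT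
  have hterm : ∀ x, (#(T x) : ℝ) ≤ U H G univ - U H G (nb G x) := by
    intro x
    unfold U
    rw [← sum_sub_distrib]
    set A : W → Finset (W → Fin n) := fun v => univ.filter
      (fun f : W → Fin n => HomOff H G v f ∧ ∀ b, H.Adj v b → f b ∈ (univ : Finset (Fin n))) with hA
    set B : W → Finset (W → Fin n) := fun v => univ.filter
      (fun f : W → Fin n => HomOff H G v f ∧ ∀ b, H.Adj v b → f b ∈ nb G x) with hB
    have hBA : ∀ v, B v ⊆ A v := by
      intro v f hf
      simp only [hA, hB, mem_filter, mem_univ, true_and, implies_true, and_true] at hf ⊢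
      exact hf.1
    have hnn : ∀ v, (0 : ℝ) ≤ (#(A v) : ℝ) - (#(B v) : ℝ) := by
      intro v
      have : (#(B v) : ℝ) ≤ #(A v) := by exact_mod_cast card_le_card (hBA v)
      linarith
    have h3 : (#(A u) : ℝ) - (#(B u) : ℝ) ≤ ∑ v, ((#(A v) : ℝ) - (#(B v) : ℝ)) :=
      single_le_sum (f := fun v => (#(A v) : ℝ) - (#(B v) : ℝ)) (fun v _ => hnn v) (mem_univ u)
    refine le_trans ?_ h3
    have h4 : T x ⊆ A u \ B u := by
      intro f hf
      simp only [hT, hA, hB, mem_sdiff, mem_filter, mem_univ, true_and, implies_true,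
        and_true, not_and, not_forall] at hf ⊢
      exact ⟨hf.1, fun _ => ⟨b, hub, fun h => hf.2 ((mem_nb G x _).mp h)⟩⟩
    have h5 := card_le_card h4
    rw [card_sdiff_of_subset (hBA u)] at h5
    have h6 : (#(T x) : ℝ) ≤ ((#(A u) - #(B u) : ℕ) : ℝ) := by exact_mod_cast h5
    rwa [Nat.cast_sub (card_le_card (hBA u))] at h6
  -- double counting
  set Z : Finset (Fin n) := univ.filter
    (fun z => (#(univ.filter (fun y => ¬ G.Adj z y)) : ℝ) ≤ γ * n) with hZ
  have hZc : (#Z : ℝ) ≤ (q + 1) * γ * n :=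
    richAll_greedy q G hG.1 γ hγpos.le Z (fun z hz => (mem_filter.mp hz).2)
  set F : Finset (W → Fin n) := univ.filter (fun f : W → Fin n => Hom H G f) with hF
  have hFc : c2 * (n : ℝ) ^ card W ≤ (#F : ℝ) := h1 n hn1 G hG
  set F1 := F.filter (fun f => f b ∈ Z) with hF1
  set F2 := F.filter (fun f => ¬ f b ∈ Z) with hF2
  have hsplit : (#F1 : ℝ) + #F2 = #F := by
    have := card_filter_add_card_filter_not (s := F) (fun f => f b ∈ Z)
    exact_mod_cast this
  have hF1c : (#F1 : ℝ) ≤ (q + 1) * γ * (n : ℝ) ^ card W := by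
    have e1 : (#F1 : ℝ) ≤ (#(univ.filter (fun f : W → Fin n => f b ∈ Z)) : ℝ) := by
      have : F1 ⊆ univ.filter (fun f : W → Fin n => f b ∈ Z) := by
        intro f hf
        simp only [hF1, mem_filter, mem_univ, true_and] at hf ⊢
        exact hf.2
      exact_mod_cast card_le_card this
    have e2 := richAll_pin b Z
    have e3 : (#F1 : ℝ) * n ≤ ((q + 1) * γ * (n : ℝ) ^ card W) * n := by
      calc (#F1 : ℝ) * n ≤ (#(univ.filter (fun f : W → Fin n => f b ∈ Z)) : ℝ) * n :=
            mul_le_mul_of_nonneg_right e1 hnpos.le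
        _ = #Z * (n : ℝ) ^ card W := e2
        _ ≤ ((q + 1) * γ * n) * (n : ℝ) ^ card W :=
            mul_le_mul_of_nonneg_right hZc (by positivity)
        _ = _ := by ring
    exact le_of_mul_le_mul_right e3 hnpos
  have hF2c : c2 / 2 * (n : ℝ) ^ card W ≤ (#F2 : ℝ) := by
    have : (q + 1) * γ * (n : ℝ) ^ card W ≤ c2 / 2 * (n : ℝ) ^ card W :=
      mul_le_mul_of_nonneg_right hγq (by positivity)
    linarith
  have hdc : (#F2 : ℝ) * (γ * n) ≤ ∑ x : Fin n, (#(T x) : ℝ) := by
    have e1 : ∑ x : Fin n, #(T x) =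
        ∑ f ∈ univ.filter (fun f : W → Fin n => HomOff H G u f),
          #(univ.filter (fun x : Fin n => ¬ G.Adj x (f b))) := by
      simp only [hT, card_filter]
      rw [sum_comm, sum_filter]
      apply Finset.sum_congr rfl
      intro f _
      by_cases hf : HomOff H G u f
      · simp [hf]
      · simp [hf]
    have e2 : ∑ f ∈ F2, #(univ.filter (fun x : Fin n => ¬ G.Adj x (f b))) ≤
        ∑ f ∈ univ.filter (fun f : W → Fin n => HomOff H G u f),
          #(univ.filter (fun x : Fin n => ¬ G.Adj x (f b))) := by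
      apply sum_le_sum_of_subset
      intro f hf
      simp only [hF2, hF, mem_filter, mem_univ, true_and] at hf ⊢
      intro a c _ _ hac
      exact hf.1 a c hac
    have e3 : (∑ _f ∈ F2, (γ * n) : ℝ) ≤
        ∑ f ∈ F2, (#(univ.filter (fun x : Fin n => ¬ G.Adj x (f b))) : ℝ) := by
      apply sum_le_sum
      intro f hf
      have hfZ : ¬ f b ∈ Z := by
        simp only [hF2, mem_filter] at hf
        exact hf.2
      rw [hZ, mem_filter] at hfZ
      push Not at hfZ
      have := (hfZ (mem_univ _)).le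
      have e4 : univ.filter (fun y : Fin n => ¬ G.Adj (f b) y) =
          univ.filter (fun x : Fin n => ¬ G.Adj x (f b)) := by
        ext y
        simp [G.adj_comm]
      rwa [e4] at this
    rw [sum_const, nsmul_eq_mul] at e3
    have e5 : (∑ f ∈ F2, (#(univ.filter (fun x : Fin n => ¬ G.Adj x (f b))) : ℝ)) ≤
        ∑ x : Fin n, (#(T x) : ℝ) := by
      rw [← e1] at e2
      exact_mod_cast e2
    linarith
  have hall : ∑ x : Fin n, (#(T x) : ℝ) ≤ n * (c2 * γ / 4 * (n : ℝ) ^ card W) := by
    have : ∑ x : Fin n, (#(T x) : ℝ) ≤ ∑ _x : Fin n, c2 * γ / 4 * (n : ℝ) ^ card W := by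
      apply sum_le_sum
      intro x _
      have := hterm x
      have := hU x
      linarith
    simpa using this
  have h7 : c2 / 2 * (n : ℝ) ^ card W * (γ * n) ≤ (#F2 : ℝ) * (γ * n) :=
    mul_le_mul_of_nonneg_right hF2c (by positivity)
  have h8 : 0 < c2 * γ * ((n : ℝ) ^ card W * n) := by positivity
  nlinarith

end H78B
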