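import Pool.Agent.H78.Blow.Defs
import Pool.Agent.H78.Blow.Gain
import Pool.Agent.H78.Blow.AddPrime
import Pool.Agent.H78.Blow.RichAll

set_option autoImplicit false

open Finset Fintype

namespace H78B

variable {n : ℕ} {W : Type} [Fintype W]

/-- independent set -/
def TStarInd (G : SimpleGraph (Fin n)) (I : Finset (Fin n)) : Prop :=
  ∀ x ∈ I, ∀ y ∈ I, ¬ G.Adj x y

/-- unions of `m` independent sets -/
def TStarIU (G : SimpleGraph (Fin n)) : ℕ → Finset (Fin n) → Prop
  | 0, T => T = ∅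
  | (m + 1), T => ∃ T' I, TStarIU G m T' ∧ TStarInd G I ∧ T = T' ∪ I

lemma tstar_U_mono (H : SimpleGraph W) (G : SimpleGraph (Fin n)) {S T : Finset (Fin n)}
    (h : S ⊆ T) : U H G S ≤ U H G T := by
  classical
  unfold U
  apply Finset.sum_le_sum
  intro u _
  have : #(univ.filter (fun f : W → Fin n => HomOff H G u f ∧ ∀ b, H.Adj u b → f b ∈ S)) ≤
      #(univ.filter (fun f : W → Fin n => HomOff H G u f ∧ ∀ b, H.Adj u b → f b ∈ T)) := by
    apply Finset.card_le_card
    intro f hf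
    simp only [mem_filter, mem_univ, true_and] at hf ⊢
    exact ⟨hf.1, fun b hb => h (hf.2 b hb)⟩
  convert (Nat.cast_le (α := ℝ)).mpr this

lemma tstar_KK_union (q : ℕ) (G : SimpleGraph (Fin n)) (S I : Finset (Fin n))
    (hI : TStarInd G I) : KK q G (S ∪ I) ≤ (q + 1 : ℝ) * EE q G S := by
  classical
  unfold KK EE
  set E0 := ct (r := q + 1) G (fun i => if i = 0 then univ else S) with hE0
  have hsub : ct (r := q + 1) G (fun _ => S ∪ I) ⊆
      (univ : Finset (Fin (q + 1))).biUnion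
        (fun i => E0.image (fun c => fun j => c (Equiv.swap 0 i j))) := by
    intro c hc
    rw [mem_ct] at hc
    obtain ⟨hadj, hmem⟩ := hc
    rw [mem_biUnion]
    by_cases hex : ∃ i, c i ∉ S
    · obtain ⟨i, hi⟩ := hex
      have hiI : c i ∈ I := by
        rcases mem_union.mp (hmem i) with h | h
        · exact absurd h hi
        · exact h
      refine ⟨i, mem_univ _, ?_⟩
      rw [mem_image]
      refine ⟨fun j => c (Equiv.swap 0 i j), ?_, ?_⟩
      · rw [hE0, mem_ct]
        refine ⟨fun j k hjk => hadj _ _ (fun h => hjk ((Equiv.swap 0 i).injective h)), ?_⟩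
        intro j
        by_cases hj : j = 0
        · simp [hj]
        · rw [if_neg hj]
          have hne : Equiv.swap 0 i j ≠ i := by
            intro h
            apply hj
            have := congrArg (Equiv.swap 0 i) h
            simpa using this
          rcases mem_union.mp (hmem (Equiv.swap 0 i j)) with h | h
          · exact h
          · exact absurd (hadj _ _ hne) (hI _ h _ hiI)
      · funext j
        simp
    · push Not at hex
      refine ⟨0, mem_univ _, ?_⟩
      rw [mem_image]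
      refine ⟨c, ?_, ?_⟩
      · rw [hE0, mem_ct]
        refine ⟨hadj, fun j => ?_⟩
        by_cases hj : j = 0
        · simp [hj]
        · rw [if_neg hj]; exact hex j
      · funext j
        simp
  have h1 : #(ct (r := q + 1) G (fun _ => S ∪ I)) ≤ (q + 1) * #E0 := by
    refine le_trans (card_le_card hsub) ?_
    refine le_trans card_biUnion_le ?_
    refine le_trans (sum_le_sum (fun i _ => card_image_le)) ?_
    simp
  have h2 : ((#(ct (r := q + 1) G (fun _ => S ∪ I)) : ℕ) : ℝ) ≤ ((q + 1) * #E0 : ℕ) := by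
    exact_mod_cast h1
  refine le_trans h2 ?_
  push_cast
  exact le_rfl

lemma tstar_IU_succ (G : SimpleGraph (Fin n)) (m : ℕ) (T : Finset (Fin n)) (h : TStarIU G m T) :
    TStarIU G (m + 1) T := ⟨T, ∅, h, by intro x hx; simp at hx, by simp⟩

lemma tstar_step (q : ℕ) (hq : 1 ≤ q) (H : SimpleGraph W) (hcol : H.Colorable (q + 1))
    (hedge : ∃ a b, H.Adj a b) (m : ℕ) : ∀ ε : ℝ, 0 < ε →
    ∃ δ κ : ℝ, 0 < δ ∧ 0 < κ ∧ ∃ n₀ : ℕ, ∀ n ≥ n₀, ∀ G : SimpleGraph (Fin n), Ext q H G →
      ∀ (x : Fin n) (S : Finset (Fin n)), U H G (nb G x) - κ * (n : ℝ) ^ card W ≤ U H G S →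
        EE q G S ≤ δ * (n : ℝ) ^ (q + 1) → ∀ T : Finset (Fin n), TStarIU G m T →
          EE q G (S ∪ T) ≤ ε * (n : ℝ) ^ (q + 1) := by
  induction m with
  | zero =>
    intro ε hε
    refine ⟨ε, 1, hε, one_pos, 0, ?_⟩
    intro n _ G _ x S _ hES T hT
    have : T = ∅ := hT
    subst this
    simpa using hES
  | succ m ih =>
    intro ε hε
    obtain ⟨γ, hγ, hgain⟩ := gain q H hcol hedge (ε / 2) (by positivity)
    obtain ⟨δ', hδ', n₁, hadd⟩ := add' q hq H (γ / 4) (by positivity)
    obtain ⟨δ, κ, hδ, hκ, n₂, hih⟩ := ih (δ' / (q + 1)) (by positivity)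
    refine ⟨min δ (ε / 2), min κ (γ / 4), lt_min hδ (by positivity), lt_min hκ (by positivity),
      max (max n₁ n₂) 1, ?_⟩
    intro n hn G hG x S hU hES T' hT'
    obtain ⟨T, I, hT, hI, rfl⟩ := hT'
    have hn₁ : n₁ ≤ n := le_trans (le_trans (le_max_left _ _) (le_max_left _ _)) hn
    have hn₂ : n₂ ≤ n := le_trans (le_trans (le_max_right _ _) (le_max_left _ _)) hn
    have hn1 : 1 ≤ n := le_trans (le_max_right _ _) hn
    have hpos : (0 : ℝ) < (n : ℝ) ^ card W := by positivity
    have hpos' : (0 : ℝ) < (n : ℝ) ^ (q + 1) := by positivity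
    have e1 : EE q G (S ∪ T) ≤ δ' / (q + 1) * (n : ℝ) ^ (q + 1) := by
      apply hih n hn₂ G hG x S _ _ T hT
      · have : min κ (γ / 4) * (n : ℝ) ^ card W ≤ κ * (n : ℝ) ^ card W :=
          mul_le_mul_of_nonneg_right (min_le_left _ _) hpos.le
        linarith
      · exact le_trans hES (mul_le_mul_of_nonneg_right (min_le_left _ _) hpos'.le)
    have e2 : KK q G (S ∪ T ∪ I) ≤ δ' * (n : ℝ) ^ (q + 1) := by
      refine le_trans (tstar_KK_union q G (S ∪ T) I hI) ?_
      have hq1 : (0 : ℝ) < (q : ℝ) + 1 := by positivity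
      calc (q + 1 : ℝ) * EE q G (S ∪ T) ≤ (q + 1) * (δ' / (q + 1) * (n : ℝ) ^ (q + 1)) :=
            mul_le_mul_of_nonneg_left e1 hq1.le
        _ = δ' * (n : ℝ) ^ (q + 1) := by field_simp
    have e3 := hadd n hn₁ G hG x (S ∪ T ∪ I) e2
    have hassoc : S ∪ (T ∪ I) = S ∪ T ∪ I := by rw [union_assoc]
    rw [hassoc]
    by_contra hlt
    push Not at hlt
    have e4 : ε / 2 * (n : ℝ) ^ (q + 1) ≤ EE q G (S ∪ T ∪ I) - EE q G S := by
      have : EE q G S ≤ ε / 2 * (n : ℝ) ^ (q + 1) :=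
        le_trans hES (mul_le_mul_of_nonneg_right (min_le_right _ _) hpos'.le)
      have h5 : ε * (n : ℝ) ^ (q + 1) = ε / 2 * (n : ℝ) ^ (q + 1) + ε / 2 * (n : ℝ) ^ (q + 1) := by
        ring
      linarith
    have hsub : S ⊆ S ∪ T ∪ I := by
      intro z hz; simp [hz]
    have e5 := hgain n G S (S ∪ T ∪ I) hsub e4
    have e6 : min κ (γ / 4) * (n : ℝ) ^ card W ≤ γ / 4 * (n : ℝ) ^ card W :=
      mul_le_mul_of_nonneg_right (min_le_right _ _) hpos.le
    nlinarith

/-- common neighbours of a tuple -/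
noncomputable def TStarCN {q : ℕ} (G : SimpleGraph (Fin n)) (Q : Fin q → Fin n) :
    Finset (Fin n) := by
  classical
  exact univ.filter (fun v => ∀ j, G.Adj (Q j) v)

lemma tstar_mem_CN {q : ℕ} (G : SimpleGraph (Fin n)) (Q : Fin q → Fin n) (v : Fin n) :
    v ∈ TStarCN G Q ↔ ∀ j, G.Adj (Q j) v := by
  simp [TStarCN]

lemma tstar_not_cliqueFree {m : ℕ} (G : SimpleGraph (Fin n)) (c : Fin m → Fin n)
    (h : ∀ i j, i ≠ j → G.Adj (c i) (c j)) : ¬ G.CliqueFree m := by
  classical
  have hinj : Function.Injective c := by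
    intro i j hij
    by_contra hne
    have := h i j hne
    rw [hij] at this
    exact G.irrefl this
  intro hfree
  apply hfree (univ.map ⟨c, hinj⟩)
  rw [SimpleGraph.isNClique_iff]
  constructor
  · intro x hx y hy hxy
    simp only [coe_map, Function.Embedding.coeFn_mk, coe_univ, Set.image_univ, Set.mem_range] at hx hy
    obtain ⟨i, rfl⟩ := hx
    obtain ⟨j, rfl⟩ := hy
    exact h i j (fun e => hxy (by rw [e]))
  · simp

lemma tstar_CN_ind {q : ℕ} (G : SimpleGraph (Fin n)) (hG : G.CliqueFree (q + 2))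
    (Q : Fin q → Fin n) (hQ : ∀ i j, i ≠ j → G.Adj (Q i) (Q j)) : TStarInd G (TStarCN G Q) := by
  intro x hx y hy hxy
  rw [tstar_mem_CN] at hx hy
  apply tstar_not_cliqueFree G (Fin.cons x (Fin.cons y Q) : Fin (q + 2) → Fin n) _ hG
  intro i j
  refine Fin.cases ?_ (fun i => ?_) i
  · refine Fin.cases ?_ (fun j => ?_) j
    · intro h; exact absurd rfl h
    · intro _
      refine Fin.cases ?_ (fun j => ?_) j
      · simpa using hxy
      · simpa using (hx j).symm
  · refine Fin.cases ?_ (fun j => ?_) j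
    · intro _
      refine Fin.cases ?_ (fun i => ?_) i
      · simpa using hxy.symm
      · simpa using hx i
    · intro h
      have h' : i ≠ j := fun e => h (by rw [e])
      revert h'
      refine Fin.cases ?_ (fun i => ?_) i
      · refine Fin.cases ?_ (fun j => ?_) j
        · intro h; exact absurd rfl h
        · intro _
          simpa using (hy j).symm
      · refine Fin.cases ?_ (fun j => ?_) j
        · intro _
          simpa using hy i
        · intro h
          have h'' : i ≠ j := fun e => h (by rw [e])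
          simpa using hQ i j h''

lemma tstar_greedy {q : ℕ} (G : SimpleGraph (Fin n)) (hG : G.CliqueFree (q + 2))
    (S : Finset (Fin n)) (β : ℝ) (m : ℕ) :
    (∃ T, TStarIU G m T ∧ β * n * m ≤ (#(S ∪ T) : ℝ)) ∨
    (∃ T, TStarIU G m T ∧ ∀ Q : Fin q → Fin n, (∀ i j, i ≠ j → G.Adj (Q i) (Q j)) →
      (#(TStarCN G Q \ (S ∪ T)) : ℝ) < β * n) := by
  classical
  induction m with
  | zero =>
    left
    exact ⟨∅, rfl, by simp⟩
  | succ m ih =>
    rcases ih with ⟨T, hT, hcard⟩ | ⟨T, hT, hQ⟩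
    · by_cases hex : ∃ Q : Fin q → Fin n, (∀ i j, i ≠ j → G.Adj (Q i) (Q j)) ∧
        β * n ≤ (#(TStarCN G Q \ (S ∪ T)) : ℝ)
      · obtain ⟨Q, hQ, hlarge⟩ := hex
        left
        refine ⟨T ∪ TStarCN G Q, ⟨T, TStarCN G Q, hT, tstar_CN_ind G hG Q hQ, rfl⟩, ?_⟩
        have h1 : S ∪ (T ∪ TStarCN G Q) = (S ∪ T) ∪ (TStarCN G Q \ (S ∪ T)) := by
          rw [union_sdiff_self_eq_union, union_assoc]
        have h2 : #(S ∪ (T ∪ TStarCN G Q)) = #(S ∪ T) + #(TStarCN G Q \ (S ∪ T)) := by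
          rw [h1, card_union_of_disjoint disjoint_sdiff]
        rw [h2]
        push_cast
        nlinarith
      · push Not at hex
        right
        exact ⟨T, tstar_IU_succ G m T hT, hex⟩
    · right
      exact ⟨T, tstar_IU_succ G m T hT, hQ⟩

lemma tstar_count (q : ℕ) (G : SimpleGraph (Fin n)) (S : Finset (Fin n)) (β : ℝ) (hβ : 0 ≤ β)
    (h : ∀ Q : Fin q → Fin n, (∀ i j, i ≠ j → G.Adj (Q i) (Q j)) →
      (#(TStarCN G Q \ S) : ℝ) < β * n) :
    KK q G univ ≤ EE q G S + (q + 1) * β * (n : ℝ) ^ (q + 1) := by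
  classical
  unfold KK EE
  set A := ct (r := q + 1) G (fun _ => (univ : Finset (Fin n))) with hA
  set E0 := ct (r := q + 1) G (fun i => if i = 0 then univ else S) with hE0
  have hsub : A ⊆ E0 ∪ (univ : Finset (Fin (q + 1))).biUnion (fun i => A.filter (fun c => c i ∉ S)) := by
    intro c hc
    rw [mem_union, mem_biUnion]
    by_cases hex : ∃ i, c i ∉ S
    · obtain ⟨i, hi⟩ := hex
      right
      exact ⟨i, mem_univ _, by rw [mem_filter]; exact ⟨hc, hi⟩⟩
    · push Not at hex
      left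
      rw [hE0, mem_ct]
      rw [hA, mem_ct] at hc
      refine ⟨hc.1, fun i => ?_⟩
      by_cases hi : i = 0
      · simp [hi]
      · rw [if_neg hi]; exact hex i
  have hcount : ∀ i : Fin (q + 1), (#(A.filter (fun c => c i ∉ S)) : ℝ) ≤ β * (n : ℝ) ^ (q + 1) := by
    intro i
    set B : Finset (Σ _ : Fin q → Fin n, Fin n) :=
      (univ.filter (fun Q : Fin q → Fin n => ∀ i j, i ≠ j → G.Adj (Q i) (Q j))).sigma
        (fun Q => TStarCN G Q \ S) with hB
    have hle : #(A.filter (fun c => c i ∉ S)) ≤ #B := by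
      apply card_le_card_of_injOn (fun c => (⟨fun j => c (i.succAbove j), c i⟩ : Σ _ : Fin q → Fin n, Fin n))
      · intro c hc
        rw [mem_coe, mem_filter, hA, mem_ct] at hc
        rw [mem_coe, hB, mem_sigma, mem_filter, mem_sdiff, tstar_mem_CN]
        refine ⟨⟨mem_univ _, fun j k hjk => hc.1.1 _ _ (fun e => hjk (Fin.succAbove_right_injective e))⟩, ?_, hc.2⟩
        intro j
        exact hc.1.1 _ _ (Fin.succAbove_ne i j)
      · intro c _ c' _ hcc
        simp only [Sigma.mk.injEq, heq_eq_eq] at hcc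
        funext k
        rcases Fin.eq_self_or_eq_succAbove i k with hk | ⟨j, hk⟩
        · rw [hk]; exact hcc.2
        · rw [hk]; exact congrFun hcc.1 j
    have hBcard : (#B : ℝ) ≤ (n : ℝ) ^ q * (β * n) := by
      rw [hB, card_sigma]
      push_cast
      calc ∑ Q ∈ univ.filter (fun Q : Fin q → Fin n => ∀ i j, i ≠ j → G.Adj (Q i) (Q j)),
            (#(TStarCN G Q \ S) : ℝ)
          ≤ ∑ _Q ∈ univ.filter (fun Q : Fin q → Fin n => ∀ i j, i ≠ j → G.Adj (Q i) (Q j)),
            (β * n) := by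
            apply sum_le_sum
            intro Q hQ
            rw [mem_filter] at hQ
            exact (h Q hQ.2).le
        _ = (#(univ.filter (fun Q : Fin q → Fin n => ∀ i j, i ≠ j → G.Adj (Q i) (Q j))) : ℝ)
            * (β * n) := by rw [sum_const, nsmul_eq_mul]
        _ ≤ (n : ℝ) ^ q * (β * n) := by
            apply mul_le_mul_of_nonneg_right _ (by positivity)
            have : #(univ.filter (fun Q : Fin q → Fin n => ∀ i j, i ≠ j → G.Adj (Q i) (Q j))) ≤
                n ^ q := by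
              refine le_trans (card_le_univ _) ?_
              simp
            exact_mod_cast this
    have h3 : (#(A.filter (fun c => c i ∉ S)) : ℝ) ≤ (#B : ℝ) := by exact_mod_cast hle
    refine le_trans h3 (le_trans hBcard ?_)
    rw [pow_succ]
    nlinarith [le_refl ((n : ℝ) ^ q * (β * n))]
  have h1 : (#A : ℝ) ≤ (#E0 : ℝ) + ∑ i : Fin (q + 1), (#(A.filter (fun c => c i ∉ S)) : ℝ) := by
    have : #A ≤ #E0 + ∑ i : Fin (q + 1), #(A.filter (fun c => c i ∉ S)) := by
      refine le_trans (card_le_card hsub) ?_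
      refine le_trans (card_union_le _ _) ?_
      exact Nat.add_le_add_left card_biUnion_le _
    exact_mod_cast this
  have h2 : ∑ i : Fin (q + 1), (#(A.filter (fun c => c i ∉ S)) : ℝ) ≤
      ∑ _i : Fin (q + 1), β * (n : ℝ) ^ (q + 1) := sum_le_sum (fun i _ => hcount i)
  rw [sum_const, card_univ, Fintype.card_fin, nsmul_eq_mul] at h2
  push_cast at h2
  linarith

/-! ## BL-10 : sets with almost optimal usage are rich (uses gain, add', rich_all) -/
theorem tstar (q : ℕ) (hq : 1 ≤ q) (H : SimpleGraph W) (hcol : H.Colorable (q + 1))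
    (hedge : ∃ a b, H.Adj a b) :
    ∃ δ κ : ℝ, 0 < δ ∧ 0 < κ ∧ ∃ n₀ : ℕ, ∀ n ≥ n₀, ∀ G : SimpleGraph (Fin n), Ext q H G →
      ∀ (x : Fin n) (S : Finset (Fin n)), U H G (nb G x) - κ * (n : ℝ) ^ card W ≤ U H G S →
        δ * (n : ℝ) ^ (q + 1) ≤ EE q G S := by
  obtain ⟨c, hc, n₁, hrich⟩ := rich_all q hq H hcol hedge
  set β : ℝ := c / (2 * (q + 1)) with hβ
  have hβpos : 0 < β := by rw [hβ]; positivity
  obtain ⟨m, hm⟩ := exists_nat_gt (1 / β)
  obtain ⟨δ, κ, hδ, hκ, n₂, hstep⟩ := tstar_step q hq H hcol hedge m (c / 4) (by positivity)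
  refine ⟨δ, κ, hδ, hκ, max (max n₁ n₂) 1, ?_⟩
  intro n hn G hG x S hU
  have hn₁ : n₁ ≤ n := le_trans (le_trans (le_max_left _ _) (le_max_left _ _)) hn
  have hn₂ : n₂ ≤ n := le_trans (le_trans (le_max_right _ _) (le_max_left _ _)) hn
  have hn1 : 1 ≤ n := le_trans (le_max_right _ _) hn
  have hnpos : (0 : ℝ) < n := by exact_mod_cast hn1
  have hpos' : (0 : ℝ) < (n : ℝ) ^ (q + 1) := by positivity
  by_contra hlt
  push Not at hlt
  have hs := hstep n hn₂ G hG x S hU hlt.le
  rcases tstar_greedy G hG.1 S β m with ⟨T, hT, hcard⟩ | ⟨T, hT, hQ⟩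
  · have h1 : (#(S ∪ T) : ℝ) ≤ n := by
      have : #(S ∪ T) ≤ n := by
        refine le_trans (card_le_univ _) ?_
        simp
      exact_mod_cast this
    have h2 : 1 < β * m := by
      have := (div_lt_iff₀ hβpos).mp hm
      linarith
    nlinarith
  · have h1 := tstar_count q G (S ∪ T) β hβpos.le hQ
    have h2 := hs T hT
    have h3 := hrich n hn₁ G hG
    have h4 : ((q : ℝ) + 1) * β = c / 2 := by
      rw [hβ]; field_simp
    rw [h4] at h1
    nlinarith

end H78B
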