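import Pool.Agent.H78.Blow.Defs
import Pool.Agent.H78.Blow.UClose
import Pool.Agent.H78.Blow.AddPrime
import Pool.Agent.H78.Blow.TStar

set_option autoImplicit false

open Finset Fintype

namespace H78B

variable {n : ℕ} {W : Type} [Fintype W]

lemma unionRich_supermod (H : SimpleGraph W) (G : SimpleGraph (Fin n)) (S T : Finset (Fin n)) :
    U H G S + U H G T ≤ U H G (S ∪ T) + U H G (S ∩ T) := by
  classical
  unfold U
  rw [← sum_add_distrib, ← sum_add_distrib]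
  apply sum_le_sum
  intro u _
  set A : Finset (Fin n) → Finset (W → Fin n) := fun S =>
    univ.filter (fun f : W → Fin n => HomOff H G u f ∧ ∀ b, H.Adj u b → f b ∈ S) with hA
  have hmem : ∀ S f, f ∈ A S ↔ HomOff H G u f ∧ ∀ b, H.Adj u b → f b ∈ S := by
    intro S f; simp [hA]
  have h1 : #(A S ∪ A T) ≤ #(A (S ∪ T)) := by
    apply card_le_card
    intro f hf
    rw [mem_union, hmem, hmem] at hf
    rw [hmem]
    rcases hf with hf | hf
    · exact ⟨hf.1, fun b hb => mem_union_left _ (hf.2 b hb)⟩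
    · exact ⟨hf.1, fun b hb => mem_union_right _ (hf.2 b hb)⟩
  have h2 : #(A S ∩ A T) ≤ #(A (S ∩ T)) := by
    apply card_le_card
    intro f hf
    rw [mem_inter, hmem, hmem] at hf
    rw [hmem]
    exact ⟨hf.1.1, fun b hb => mem_inter.mpr ⟨hf.1.2 b hb, hf.2.2 b hb⟩⟩
  have h3 := card_union_add_card_inter (A S) (A T)
  have h4 : #(A S) + #(A T) ≤ #(A (S ∪ T)) + #(A (S ∩ T)) := by omega
  have h5 : ((#(A S) : ℝ) + (#(A T) : ℝ)) ≤ (#(A (S ∪ T)) : ℝ) + (#(A (S ∩ T)) : ℝ) := by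
    exact_mod_cast h4
  convert h5

/-! ## BL-11 : edges (uses tstar, add', U_close) -/
theorem union_rich (q : ℕ) (hq : 1 ≤ q) (H : SimpleGraph W) (hcol : H.Colorable (q + 1))
    (hedge : ∃ a b, H.Adj a b) :
    ∃ δ : ℝ, 0 < δ ∧ ∃ n₀ : ℕ, ∀ n ≥ n₀, ∀ G : SimpleGraph (Fin n), Ext q H G →
      ∀ x y : Fin n, G.Adj x y → δ * (n : ℝ) ^ (q + 1) ≤ KK q G (nb G x ∪ nb G y) := by
  classical
  obtain ⟨δ₀, κ, hδ₀, hκ, n₁, htstar⟩ := tstar q hq H hcol hedge
  obtain ⟨δ, hδ, n₂, hadd⟩ := add' q hq H (κ / 4) (by positivity)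
  obtain ⟨C, hC, hclose⟩ := U_close q H
  obtain ⟨n₃, hn₃⟩ := exists_nat_gt (4 * C / κ)
  refine ⟨δ, hδ, max (max n₁ n₂) (max n₃ 1), ?_⟩
  intro n hn G hG x y hxy
  have hn₁ : n₁ ≤ n := le_trans (le_trans (le_max_left _ _) (le_max_left _ _)) hn
  have hn₂ : n₂ ≤ n := le_trans (le_trans (le_max_right _ _) (le_max_left _ _)) hn
  have hn₃' : n₃ ≤ n := le_trans (le_trans (le_max_left _ _) (le_max_right _ _)) hn
  have hn1 : 1 ≤ n := le_trans (le_trans (le_max_right _ _) (le_max_right _ _)) hn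
  have hnpos : (0 : ℝ) < n := by exact_mod_cast hn1
  have hpos : (0 : ℝ) < (n : ℝ) ^ card W := by positivity
  have hpos' : (0 : ℝ) < (n : ℝ) ^ (q + 1) := by positivity
  by_contra hlt
  push Not at hlt
  have e1 := hadd n hn₂ G hG x (nb G x ∪ nb G y) hlt.le
  have e2 := unionRich_supermod H G (nb G x) (nb G y)
  have e3 := hclose n G hG x y
  have e4 : C / n ≤ κ / 4 := by
    have h1 : 4 * C / κ < n := lt_of_lt_of_le hn₃ (by exact_mod_cast hn₃')
    rw [div_lt_iff₀ hκ] at h1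
    rw [div_le_iff₀ hnpos]
    nlinarith
  have e5 : C / n * (n : ℝ) ^ card W ≤ κ / 4 * (n : ℝ) ^ card W :=
    mul_le_mul_of_nonneg_right e4 hpos.le
  have e6 : U H G (nb G x) - κ * (n : ℝ) ^ card W ≤ U H G (nb G x ∩ nb G y) := by
    nlinarith
  have e7 := htstar n hn₁ G hG x _ e6
  have e8 : 0 < EE q G (nb G x ∩ nb G y) := lt_of_lt_of_le (by positivity) e7
  unfold EE at e8
  have e9 : 0 < #(ct (r := q + 1) G (fun i => if i = 0 then univ else nb G x ∩ nb G y)) := by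
    exact_mod_cast e8
  obtain ⟨c, hc⟩ := card_pos.mp e9
  rw [mem_ct] at hc
  obtain ⟨hadj, hmem⟩ := hc
  have hQ : ∀ i j : Fin q, i ≠ j → G.Adj (c i.succ) (c j.succ) := by
    intro i j hij
    exact hadj _ _ (fun h => hij (Fin.succ_injective _ h))
  have hin : ∀ i : Fin q, G.Adj x (c i.succ) ∧ G.Adj y (c i.succ) := by
    intro i
    have := hmem i.succ
    rw [if_neg (Fin.succ_ne_zero i), mem_inter, mem_nb, mem_nb] at this
    exact this
  have hind := tstar_CN_ind G hG.1 (fun i : Fin q => c i.succ) hQ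
  apply hind x _ y _ hxy
  · rw [tstar_mem_CN]
    exact fun j => (hin j).1.symm
  · rw [tstar_mem_CN]
    exact fun j => (hin j).2.symm

end H78B
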