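import Pool.Agent.H78.Blow.Defs

set_option autoImplicit false

open Finset Fintype

namespace H78B

variable {n : ℕ} {W : Type} [Fintype W]

/-! ## BL-18 : from few neighbourhoods to blow-ups of a fixed graph (helper29) -/

/-- existence of an extremal graph -/
lemma universal_exists_ext (q : ℕ) (H : SimpleGraph W) (n : ℕ) :
    ∃ G : SimpleGraph (Fin n), Ext q H G := by
  classical
  have hne : Nonempty {G : SimpleGraph (Fin n) // G.CliqueFree (q + 2)} :=
    ⟨⟨⊥, SimpleGraph.cliqueFree_bot (by omega)⟩⟩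
  obtain ⟨⟨G, hG⟩, hmax⟩ := Finite.exists_max
    (fun G : {G : SimpleGraph (Fin n) // G.CliqueFree (q + 2)} => H67Blow.num H G.1)
  exact ⟨G, hG, fun G' hG' => hmax ⟨G', hG'⟩⟩

/-- a graph with at most `M` neighbourhoods is a blow-up of a graph on `Fin M` -/
lemma universal_reduce (G : SimpleGraph (Fin n)) (M : ℕ) (hM : #(univ.image (nb G)) ≤ M) :
    ∃ (R : SimpleGraph (Fin M)) (φ : Fin n → Fin M), G = R.comap φ := by
  classical
  let I := univ.image (nb G)
  have hI : ∀ x, nb G x ∈ I := fun x => mem_image_of_mem _ (mem_univ x)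
  let φ : Fin n → Fin M := fun x => Fin.castLE hM (I.equivFin ⟨nb G x, hI x⟩)
  have hφ : ∀ x y, φ x = φ y → nb G x = nb G y := by
    intro x y h
    have h1 := (Fin.castLE_injective hM) h
    have h2 := I.equivFin.injective h1
    exact congrArg Subtype.val h2
  have key : ∀ x y x' y', φ x' = φ x → φ y' = φ y → G.Adj x' y' → G.Adj x y := by
    intro x y x' y' hx hy h
    have h1 : y' ∈ nb G x := by rw [← hφ _ _ hx, mem_nb]; exact h
    rw [mem_nb] at h1
    have h2 : x ∈ nb G y := by rw [← hφ _ _ hy, mem_nb]; exact h1.symm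
    rw [mem_nb] at h2
    exact h2.symm
  let R : SimpleGraph (Fin M) :=
    { Adj := fun i j => ∃ x y, φ x = i ∧ φ y = j ∧ G.Adj x y
      symm := ⟨by
        rintro i j ⟨x, y, hx, hy, h⟩
        exact ⟨y, x, hy, hx, h.symm⟩⟩
      loopless := ⟨by
        rintro i ⟨x, y, hx, hy, h⟩
        exact G.irrefl (key x x x y rfl (hy.trans hx.symm) h)⟩ }
  refine ⟨R, φ, ?_⟩
  ext x y
  rw [SimpleGraph.comap_adj]
  exact ⟨fun h => ⟨x, y, rfl, rfl, h⟩, fun ⟨x', y', hx, hy, h⟩ => key x y x' y' hx hy h⟩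

theorem universal (q : ℕ) (H : SimpleGraph W) (M n₀ : ℕ)
    (h : ∀ n ≥ n₀, ∀ G : SimpleGraph (Fin n), Ext q H G → #(univ.image (nb G)) ≤ M) :
    ∃ (m : ℕ) (G₀ : SimpleGraph (Fin m)), ∀ n ≥ n₀, ∃ φ : Fin n → Fin m,
      Ext q H (G₀.comap φ) := by
  classical
  let X := (SimpleGraph (Fin M)) × Fin M
  let V : SimpleGraph X :=
    { Adj := fun p q => p.1 = q.1 ∧ p.1.Adj p.2 q.2
      symm := ⟨by rintro ⟨R, i⟩ ⟨R', j⟩ ⟨h1, h2⟩; subst h1; exact ⟨rfl, h2.symm⟩⟩
      loopless := ⟨by rintro ⟨R, i⟩ ⟨_, h⟩; exact R.irrefl h⟩ }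
  have : Fintype X := Fintype.ofFinite X
  let e : X ≃ Fin (card X) := Fintype.equivFin X
  refine ⟨card X, V.comap e.symm, ?_⟩
  intro n hn
  obtain ⟨G, hG⟩ := universal_exists_ext q H n
  obtain ⟨R, φ, hR⟩ := universal_reduce G M (h n hn G hG)
  refine ⟨fun x => e (R, φ x), ?_⟩
  have : (V.comap e.symm).comap (fun x => e (R, φ x)) = G := by
    rw [hR]
    ext x y
    simp [V]
  rw [this]
  exact hG

end H78B
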