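import Pool.Agent.H78.Blow.Defs
import Pool.Agent.H78.Blow.SecondOrder
import Pool.Agent.H78.Blow.TStar
import Pool.Agent.H78.Blow.UnionRich
import Pool.Agent.H78.Blow.RhoLower
import Pool.Agent.H78.Blow.NoShatter
import Pool.Agent.H78.Blow.FewNb
import Pool.Agent.H78.Blow.Universal
import Pool.Agent.H78.Blow.SepCases

set_option autoImplicit false

open Finset Fintype

namespace H78B

variable {n : ℕ} {W : Type} [Fintype W]

/-! ## Final assembly (helper78) -/
theorem main (q : ℕ) (hq : 1 ≤ q) (H : SimpleGraph W) (hsep : Sep q H) :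
    ∃ (m : ℕ) (G₀ : SimpleGraph (Fin m)) (n₀ : ℕ), ∀ n ≥ n₀, ∃ φ : Fin n → Fin m,
      Ext q H (G₀.comap φ) := by
  have hcol := hsep.1
  have hedge : ∃ a b, H.Adj a b := by
    obtain ⟨a, b, _, _, hab, _⟩ := hsep.2 (fun i => decide (i = 0)) ⟨0, by simp⟩
      ⟨Fin.last q, by
        have : Fin.last q ≠ 0 := by
          intro h
          have := congrArg Fin.val h
          simp at this
          omega
        simp [this]⟩
    exact ⟨a, b, hab⟩
  obtain ⟨C, hC⟩ := second_order q H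
  obtain ⟨δ₁, κ, hδ₁, hκ, n₁, h₁⟩ := tstar q hq H hcol hedge
  obtain ⟨δ₂, hδ₂, n₂, h₂⟩ := union_rich q hq H hcol hedge
  obtain ⟨c, hc, h₃⟩ := rho_lower q H hsep (min δ₁ δ₂) (lt_min hδ₁ hδ₂)
  obtain ⟨d, n₄, h₄⟩ := no_shatter H C c hc
  obtain ⟨M, n₅, h₅⟩ := few_nb q hq H C c δ₁ hc hδ₁ d
  obtain ⟨m, G₀, h₆⟩ := universal q H M (max (max n₁ n₂) (max n₄ n₅)) (by
    intro n hn G hG
    have hn₁ : n₁ ≤ n := le_trans (le_trans (le_max_left _ _) (le_max_left _ _)) hn
    have hn₂ : n₂ ≤ n := le_trans (le_trans (le_max_right _ _) (le_max_left _ _)) hn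
    have hn₄ : n₄ ≤ n := le_trans (le_trans (le_max_left _ _) (le_max_right _ _)) hn
    have hn₅ : n₅ ≤ n := le_trans (le_trans (le_max_right _ _) (le_max_right _ _)) hn
    have e1 : ∀ x, δ₁ * (n : ℝ) ^ (q + 1) ≤ EE q G (nb G x) := by
      intro x
      apply h₁ n hn₁ G hG x
      have : 0 ≤ κ * (n : ℝ) ^ card W := by positivity
      linarith
    have e2 := h₂ n hn₂ G hG
    have e3 : HighUse H G c := by
      apply h₃ n G hG.1
      · intro x
        refine le_trans ?_ (e1 x)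
        exact mul_le_mul_of_nonneg_right (min_le_left _ _) (by positivity)
      · intro x y hxy
        refine le_trans ?_ (e2 x y hxy)
        exact mul_le_mul_of_nonneg_right (min_le_right _ _) (by positivity)
    exact h₅ n hn₅ G hG.1 (hC n G hG) e3 e1 (h₄ n hn₄ G (hC n G hG) e3))
  exact ⟨m, G₀, _, h₆⟩

end H78B
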