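import Pool.Agent.H78.Blow.Defs
import Pool.Agent.H78.Blow.Dup
import Pool.Agent.H78.Blow.Gain
import Pool.Agent.H78.Blow.AddPrime
import Pool.Agent.H78.Blow.TStar
import Pool.Agent.H78.Blow.UnionRich
import Pool.Agent.H78.Blow.RhoLower

set_option autoImplicit false

/-!
For every edge `xy` of an extremal graph there are many `(q+1)`-cliques with one vertex in `N(x)`
and `q` vertices in `N(y)`.
-/

open Finset Fintype

namespace H78B

variable {n : ℕ} {W : Type} [Fintype W]

/-- the classes of type `(p | q+1-p)` -/
noncomputable def oneRichA {q : ℕ} (G : SimpleGraph (Fin n)) (x y : Fin n) (p : ℕ) :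
    Fin (q + 1) → Finset (Fin n) :=
  fun i => if i.val < p then nb G x else nb G y

/-- number of cliques of type `(p | q+1-p)` -/
noncomputable def oneRichK (q : ℕ) (G : SimpleGraph (Fin n)) (x y : Fin n) (p : ℕ) : ℕ :=
  #(ct (r := q + 1) G (oneRichA G x y p))

lemma oneRich_perm {r : ℕ} (G : SimpleGraph (Fin n)) (A : Fin r → Finset (Fin n))
    (σ : Equiv.Perm (Fin r)) : #(ct G (fun i => A (σ i))) = #(ct G A) := by
  apply card_bij (fun c _ => fun i => c (σ.symm i))
  · intro c hc
    rw [mem_ct] at hc ⊢
    refine ⟨fun i j hij => hc.1 _ _ (fun h => hij (σ.symm.injective h)), fun i => ?_⟩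
    have := hc.2 (σ.symm i)
    simpa using this
  · intro c _ c' _ h
    funext i
    have := congrFun h (σ i)
    simpa using this
  · intro c hc
    rw [mem_ct] at hc
    refine ⟨fun i => c (σ i), ?_, ?_⟩
    · rw [mem_ct]
      exact ⟨fun i j hij => hc.1 _ _ (fun h => hij (σ.injective h)), fun i => hc.2 (σ i)⟩
    · funext i
      change c (σ (σ.symm i)) = c i
      rw [Equiv.apply_symm_apply]

/-- a permutation mapping an initial segment to a given set -/
lemma oneRich_exists_perm {r : ℕ} (I : Finset (Fin r)) :
    ∃ σ : Equiv.Perm (Fin r), ∀ i, σ i ∈ I ↔ i.val < #I := by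
  classical
  have hcard : #(univ.filter (fun i : Fin r => i.val < #I)) = #I := by
    have hle : #I ≤ r := by simpa using card_le_univ I
    rw [← Fintype.card_subtype]
    have : Fintype.card {i : Fin r // i.val < #I} = #I := by
      rw [Fintype.card_subtype]
      have h1 : (univ.filter (fun i : Fin r => i.val < #I)) =
          univ.map (Fin.castLEEmb hle) := by
        ext i
        simp only [mem_filter, mem_univ, true_and, mem_map, Fin.castLEEmb_apply]
        constructor
        · intro h
          exact ⟨⟨i.val, h⟩, by ext; simp⟩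
        · rintro ⟨j, rfl⟩
          simp
      rw [h1, card_map, card_univ, Fintype.card_fin]
    exact this
  have e : {i : Fin r // i.val < #I} ≃ {i : Fin r // i ∈ I} := by
    apply Fintype.equivOfCardEq
    rw [Fintype.card_subtype, hcard, Fintype.card_coe]
  refine ⟨e.extendSubtype, ?_⟩
  intro i
  by_cases hi : i.val < #I
  · exact ⟨fun _ => hi, fun _ => e.extendSubtype_mem i hi⟩
  · exact ⟨fun h => absurd h (e.extendSubtype_not_mem i hi), fun h => absurd h hi⟩

/-- cliques with a prescribed set of vertices outside `N(y)` -/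
lemma oneRich_sub (q : ℕ) (G : SimpleGraph (Fin n)) (x y : Fin n) (I : Finset (Fin (q + 1))) :
    #(ct (r := q + 1) G (fun i => if i ∈ I then nb G x else nb G y)) = oneRichK q G x y #I := by
  classical
  obtain ⟨σ, hσ⟩ := oneRich_exists_perm I
  unfold oneRichK
  rw [← oneRich_perm G (fun i => if i ∈ I then nb G x else nb G y) σ]
  congr 2
  funext i
  unfold oneRichA
  by_cases hi : i.val < #I
  · rw [if_pos hi, if_pos ((hσ i).mpr hi)]
  · rw [if_neg hi, if_neg (fun h => hi ((hσ i).mp h))]

lemma oneRich_step (q : ℕ) (hq : 1 ≤ q) (H : SimpleGraph W) (hcol : H.Colorable (q + 1))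
    (hedge : ∃ a b, H.Adj a b) (p : ℕ) (hp : 2 ≤ p) (hpq : p ≤ q) (δ : ℝ) (hδ : 0 < δ) :
    ∃ δ' : ℝ, 0 < δ' ∧ ∃ n₀ : ℕ, ∀ n ≥ n₀, ∀ G : SimpleGraph (Fin n), Ext q H G →
      ∀ x y : Fin n, δ * (n : ℝ) ^ (q + 1) ≤ oneRichK q G x y p →
        ∃ p', 1 ≤ p' ∧ p' < p ∧ δ' * (n : ℝ) ^ (q + 1) ≤ oneRichK q G x y p' := by
  classical
  set δ₀ : ℝ := min δ 1 with hδ₀
  have hδ₀pos : 0 < δ₀ := lt_min hδ one_pos
  have hδ₀1 : δ₀ ≤ 1 := min_le_right _ _
  set δ₁ : ℝ := δ₀ ^ (2 ^ (2 * (q + 1))) with hδ₁
  have hδ₁pos : 0 < δ₁ := by positivity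
  obtain ⟨γ, hγ, hgain⟩ := gain q H hcol hedge (δ₁ / 2) (by positivity)
  obtain ⟨δ₂, hδ₂, n₁, hadd⟩ := add' q hq H (γ / 2) (by positivity)
  refine ⟨min (δ₂ / 2 ^ (q + 1)) (δ₁ / 2), lt_min (by positivity) (by positivity), max n₁ 1, ?_⟩
  intro n hn G hG x y hK
  have hn₁ : n₁ ≤ n := le_trans (le_max_left _ _) hn
  have hn1 : 1 ≤ n := le_trans (le_max_right _ _) hn
  have hnpos : (0 : ℝ) < n := by exact_mod_cast hn1
  have hpos : (0 : ℝ) < (n : ℝ) ^ card W := by positivity
  have hpos' : (0 : ℝ) < (n : ℝ) ^ (q + 1) := by positivity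
  by_contra hcon
  push Not at hcon
  -- choice of `Q`
  let X := Fin (q + 1) × Bool
  have hX : card X = 2 * (q + 1) := by
    simp [X, mul_comm]
  obtain ⟨F, hF, hFc⟩ := rhoLower_dup G (oneRichA (q := q) G x y p) X (fun z => z.1) δ₀
    hδ₀pos.le hδ₀1 (by
      refine le_trans ?_ hK
      exact mul_le_mul_of_nonneg_right (min_le_left _ _) hpos'.le)
  rw [hX, ← hδ₁] at hFc
  -- averaging over the first copy
  obtain ⟨Q, hQ⟩ : ∃ Q : Fin (q + 1) → Fin n, δ₁ * (n : ℝ) ^ (q + 1) ≤
      (#(F.filter (fun f => (fun i => f (i, false)) = Q)) : ℝ) := by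
    by_contra hc
    push Not at hc
    have h1 : #F = ∑ Q : Fin (q + 1) → Fin n, #(F.filter (fun f => (fun i => f (i, false)) = Q)) :=
      card_eq_sum_card_fiberwise (fun c _ => mem_coe.2 (mem_univ _))
    have : Nonempty (Fin (q + 1) → Fin n) := ⟨fun _ => x⟩
    have h2 : (#F : ℝ) < δ₁ * (n : ℝ) ^ (2 * (q + 1)) := by
      rw [h1]
      push_cast
      calc ∑ Q : Fin (q + 1) → Fin n, (#(F.filter (fun f => (fun i => f (i, false)) = Q)) : ℝ)
          < ∑ _Q : Fin (q + 1) → Fin n, δ₁ * (n : ℝ) ^ (q + 1) :=
            sum_lt_sum_of_nonempty univ_nonempty (fun Q _ => hc Q)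
        _ = δ₁ * (n : ℝ) ^ (2 * (q + 1)) := by
            rw [sum_const, Finset.card_univ, Fintype.card_fun, Fintype.card_fin, Fintype.card_fin,
              nsmul_eq_mul]
            push_cast
            rw [two_mul, pow_add]
            ring
    linarith
  set FQ := F.filter (fun f => (fun i => f (i, false)) = Q) with hFQ
  -- the sets `C_i` and `Z`
  let C : Fin (q + 1) → Finset (Fin n) := fun i =>
    univ.filter (fun v => G.Adj x v ∧ ∀ j, j ≠ i → G.Adj (Q j) v)
  let J : Finset (Fin (q + 1)) := univ.filter (fun i => i ≠ 0 ∧ i.val < p)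
  let Z : Finset (Fin n) := J.biUnion C
  have hFQne : FQ.Nonempty := by
    rw [← Finset.card_pos]
    have : (0 : ℝ) < (#FQ : ℝ) := lt_of_lt_of_le (by positivity) hQ
    exact_mod_cast this
  have hQadj : ∀ i j, i ≠ j → G.Adj (Q i) (Q j) := by
    obtain ⟨f, hf⟩ := hFQne
    rw [hFQ, mem_filter] at hf
    intro i j hij
    have h1 := (hF f hf.1).2 (i, false) (j, false) hij
    have h2 := congrFun hf.2 i
    have h3 := congrFun hf.2 j
    rwa [h2, h3] at h1
  have hCind : ∀ i, TStarInd G (C i) := by
    intro i u hu v hv huv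
    have hu' : ∀ j, j ≠ i → G.Adj (Q j) u := (mem_filter.mp hu).2.2
    have hv' : ∀ j, j ≠ i → G.Adj (Q j) v := (mem_filter.mp hv).2.2
    refine tstar_CN_ind (q := q) G hG.1 (fun j => Q (i.succAbove j)) ?_ u ?_ v ?_ huv
    · intro j k hjk
      exact hQadj _ _ (fun h => hjk (Fin.succAbove_right_injective h))
    · rw [tstar_mem_CN]
      exact fun j => hu' _ (Fin.succAbove_ne i j)
    · rw [tstar_mem_CN]
      exact fun j => hv' _ (Fin.succAbove_ne i j)
  have hZx : Z ⊆ nb G x := by
    intro v hv
    obtain ⟨i, _, hi⟩ := mem_biUnion.mp hv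
    rw [mem_nb]
    exact (mem_filter.mp hi).2.1
  have hJcard : #J = p - 1 := by
    have h1 : J = (univ.filter (fun i : Fin (q + 1) => i.val < p)).erase 0 := by
      ext i
      simp [J]
    have h2 : #(univ.filter (fun i : Fin (q + 1) => i.val < p)) = p := by
      have h3 : (univ.filter (fun i : Fin (q + 1) => i.val < p)) =
          univ.map (Fin.castLEEmb (by omega : p ≤ q + 1)) := by
        ext i
        simp only [mem_filter, mem_univ, true_and, mem_map, Fin.castLEEmb_apply]
        constructor
        · intro h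
          exact ⟨⟨i.val, h⟩, by ext; simp⟩
        · rintro ⟨j, rfl⟩
          simp
      rw [h3, card_map, card_univ, Fintype.card_fin]
    rw [h1, card_erase_of_mem (by simp; omega), h2]
  -- few cliques in `N(y) ∪ Z`
  have hKK : KK q G (nb G y ∪ Z) ≤ δ₂ * (n : ℝ) ^ (q + 1) := by
    unfold KK
    set T := ct (r := q + 1) G (fun _ => nb G y ∪ Z) with hT
    let ty : (Fin (q + 1) → Fin n) → Finset (Fin (q + 1)) := fun c =>
      univ.filter (fun i => c i ∉ nb G y)
    have hsum : #T = ∑ I : Finset (Fin (q + 1)), #(T.filter (fun c => ty c = I)) :=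
      card_eq_sum_card_fiberwise (fun c _ => mem_coe.2 (mem_univ _))
    have hbound : ∀ I : Finset (Fin (q + 1)), (#(T.filter (fun c => ty c = I)) : ℝ) ≤
        δ₂ / 2 ^ (q + 1) * (n : ℝ) ^ (q + 1) := by
      intro I
      by_cases hempty : (T.filter (fun c => ty c = I)) = ∅
      · rw [hempty]
        simp
        positivity
      · obtain ⟨c, hc⟩ := nonempty_iff_ne_empty.mpr hempty
        rw [mem_filter, hT, mem_ct] at hc
        obtain ⟨⟨hadj, hmem⟩, hty⟩ := hc
        have hI1 : 1 ≤ #I := by
          by_contra h0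
          have h0' : I = ∅ := by
            rw [← Finset.card_eq_zero]; omega
          refine rhoLower_clique q G hG.1 y c hadj (fun i => ?_)
          by_contra hi
          have : i ∈ ty c := by simp only [ty, mem_filter, mem_univ, true_and]; exact hi
          rw [hty, h0'] at this
          simp at this
        have hIp : #I < p := by
          -- the vertices outside `N(y)` are in different `C_j`
          have hch : ∀ i ∈ I, ∃ j ∈ J, c i ∈ C j := by
            intro i hi
            rw [← hty] at hi
            have hi' : c i ∉ nb G y := (mem_filter.mp hi).2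
            rcases mem_union.mp (hmem i) with h | h
            · exact absurd h hi'
            · exact mem_biUnion.mp h
          choose! g hg1 hg2 using hch
          have hle : #I ≤ #J := by
            apply card_le_card_of_injOn g
            · intro i hi
              exact hg1 i hi
            · intro i hi i' hi' hgg
              by_contra hne
              have h1 := hg2 i hi
              have h2 := hg2 i' hi'
              rw [← hgg] at h2
              exact hCind _ _ h1 _ h2 (hadj i i' hne)
          omega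
        have h1 := hcon #I hI1 hIp
        have h2 : #(T.filter (fun c => ty c = I)) ≤ oneRichK q G x y #I := by
          rw [← oneRich_sub]
          apply card_le_card
          intro c hc
          rw [mem_filter, hT, mem_ct] at hc
          obtain ⟨⟨hadj, hmem⟩, hty⟩ := hc
          rw [mem_ct]
          refine ⟨hadj, fun i => ?_⟩
          by_cases hi : i ∈ I
          · rw [if_pos hi]
            rw [← hty] at hi
            have hi' : c i ∉ nb G y := (mem_filter.mp hi).2
            rcases mem_union.mp (hmem i) with h | h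
            · exact absurd h hi'
            · exact hZx h
          · rw [if_neg hi]
            by_contra hh
            apply hi
            rw [← hty]
            simp only [ty, mem_filter, mem_univ, true_and]
            exact hh
        have h3 : (#(T.filter (fun c => ty c = I)) : ℝ) ≤ oneRichK q G x y #I := by
          exact_mod_cast h2
        have h4 : min (δ₂ / 2 ^ (q + 1)) (δ₁ / 2) * (n : ℝ) ^ (q + 1) ≤
            δ₂ / 2 ^ (q + 1) * (n : ℝ) ^ (q + 1) :=
          mul_le_mul_of_nonneg_right (min_le_left _ _) hpos'.le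
        linarith
    rw [hsum]
    push_cast
    refine le_trans (sum_le_sum (fun I _ => hbound I)) ?_
    rw [sum_const, Finset.card_univ, Fintype.card_finset, Fintype.card_fin, nsmul_eq_mul]
    push_cast
    apply le_of_eq
    field_simp
  -- gain
  have hgainE : δ₁ / 2 * (n : ℝ) ^ (q + 1) ≤ EE q G (nb G y ∪ Z) - EE q G (nb G y) := by
    unfold EE
    set E1 := ct (r := q + 1) G (fun i => if i = 0 then univ else nb G y ∪ Z) with hE1
    set E0 := ct (r := q + 1) G (fun i => if i = 0 then univ else nb G y) with hE0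
    have hsub : E0 ⊆ E1 := by
      intro c hc
      rw [hE0, mem_ct] at hc
      rw [hE1, mem_ct]
      refine ⟨hc.1, fun i => ?_⟩
      have := hc.2 i
      by_cases hi : i = 0
      · simp [hi]
      · rw [if_neg hi] at this ⊢
        exact mem_union_left _ this
    have hinjF : #FQ ≤ #(E1 \ E0) + oneRichK q G x y 1 := by
      have hmap : #FQ ≤ #((E1 \ E0) ∪ ct (r := q + 1) G (oneRichA G x y 1)) := by
        apply card_le_card_of_injOn (fun f => fun i => f (i, true))
        · intro f hf
          rw [mem_coe, hFQ, mem_filter] at hf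
          obtain ⟨hfF, hfQ⟩ := hf
          have hf1 := (hF f hfF).1
          have hf2 := (hF f hfF).2
          have hQf : ∀ i, f (i, false) = Q i := fun i => congrFun hfQ i
          have hadj : ∀ i j, i ≠ j → G.Adj (f (i, true)) (f (j, true)) := fun i j hij =>
            hf2 (i, true) (j, true) hij
          have hE1mem : (fun i => f (i, true)) ∈ E1 := by
            rw [hE1, mem_ct]
            refine ⟨hadj, fun i => ?_⟩
            by_cases hi : i = 0
            · simp [hi]
            · rw [if_neg hi]
              by_cases hip : i.val < p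
              · apply mem_union_right
                apply mem_biUnion.mpr
                refine ⟨i, ?_, ?_⟩
                · simp only [J, mem_filter, mem_univ, true_and]
                  exact ⟨hi, hip⟩
                · simp only [C, mem_filter, mem_univ, true_and]
                  constructor
                  · have := hf1 (i, true)
                    simp only [oneRichA, hip, if_true, mem_nb] at this
                    exact this
                  · intro j hj
                    have := hf2 (j, false) (i, true) hj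
                    rwa [hQf] at this
              · apply mem_union_left
                have := hf1 (i, true)
                simp only [oneRichA, hip, if_false] at this
                exact this
          rw [mem_coe, mem_union]
          by_cases hE0mem : (fun i => f (i, true)) ∈ E0
          · right
            rw [hE0, mem_ct] at hE0mem
            rw [mem_ct]
            refine ⟨hadj, fun i => ?_⟩
            unfold oneRichA
            by_cases hi : i = 0
            · have h1 : i.val < 1 := by rw [hi]; simp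
              rw [if_pos h1]
              have := hf1 (i, true)
              have h2 : i.val < p := by omega
              simp only [oneRichA, h2, if_true] at this
              exact this
            · have h1 : ¬ i.val < 1 := by
                intro h
                apply hi
                apply Fin.ext
                rw [Fin.val_zero]
                omega
              rw [if_neg h1]
              have := hE0mem.2 i
              rw [if_neg hi] at this
              exact this
          · left
            rw [mem_sdiff]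
            exact ⟨hE1mem, hE0mem⟩
        · intro f hf g hg hfg
          rw [mem_coe, hFQ, mem_filter] at hf hg
          funext z
          obtain ⟨i, b⟩ := z
          cases b
          · have h1 := congrFun hf.2 i
            have h2 := congrFun hg.2 i
            exact h1.trans h2.symm
          · exact congrFun hfg i
      refine le_trans hmap (le_trans (card_union_le _ _) ?_)
      unfold oneRichK
      exact le_rfl
    have h1 := hcon 1 le_rfl (by omega)
    have h2 : min (δ₂ / 2 ^ (q + 1)) (δ₁ / 2) * (n : ℝ) ^ (q + 1) ≤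
        δ₁ / 2 * (n : ℝ) ^ (q + 1) :=
      mul_le_mul_of_nonneg_right (min_le_right _ _) hpos'.le
    have h3 : (#FQ : ℝ) ≤ #(E1 \ E0) + oneRichK q G x y 1 := by exact_mod_cast hinjF
    have h4 : (#E1 : ℝ) - #E0 = #(E1 \ E0) := by
      rw [card_sdiff_of_subset hsub]
      rw [Nat.cast_sub (card_le_card hsub)]
    have h5 : δ₁ * (n : ℝ) ^ (q + 1) = δ₁ / 2 * (n : ℝ) ^ (q + 1) + δ₁ / 2 * (n : ℝ) ^ (q + 1) := by
      ring
    rw [h4]
    linarith
  have e1 := hgain n G (nb G y) (nb G y ∪ Z) subset_union_left hgainE
  have e2 := hadd n hn₁ G hG y (nb G y ∪ Z) hKK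
  have e3 : γ * (n : ℝ) ^ card W = γ / 2 * (n : ℝ) ^ card W + γ / 2 * (n : ℝ) ^ card W := by ring
  have e4 : 0 < γ / 2 * (n : ℝ) ^ card W := by positivity
  linarith

lemma oneRich_all (q : ℕ) (hq : 1 ≤ q) (H : SimpleGraph W) (hcol : H.Colorable (q + 1))
    (hedge : ∃ a b, H.Adj a b) (p : ℕ) : 1 ≤ p → p ≤ q → ∀ δ : ℝ, 0 < δ →
    ∃ δ' : ℝ, 0 < δ' ∧ ∃ n₀ : ℕ, ∀ n ≥ n₀, ∀ G : SimpleGraph (Fin n), Ext q H G →
      ∀ x y : Fin n, δ * (n : ℝ) ^ (q + 1) ≤ oneRichK q G x y p →
        δ' * (n : ℝ) ^ (q + 1) ≤ oneRichK q G x y 1 := by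
  classical
  induction p using Nat.strong_induction_on with
  | _ p ih =>
    intro hp1 hpq δ hδ
    by_cases hp : p = 1
    · subst hp
      exact ⟨δ, hδ, 0, fun n _ G _ x y h => h⟩
    · obtain ⟨δ', hδ', n₀, hstep⟩ := oneRich_step q hq H hcol hedge p (by omega) hpq δ hδ
      have hih : ∀ p' : ℕ, ∃ d : ℝ, 0 < d ∧ ∃ m₀ : ℕ, (1 ≤ p' → p' < p → ∀ n ≥ m₀,
          ∀ G : SimpleGraph (Fin n), Ext q H G → ∀ x y : Fin n,
          δ' * (n : ℝ) ^ (q + 1) ≤ oneRichK q G x y p' →
          d * (n : ℝ) ^ (q + 1) ≤ oneRichK q G x y 1) := by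
        intro p'
        by_cases h : 1 ≤ p' ∧ p' < p
        · obtain ⟨d, hd, m₀, hm⟩ := ih p' h.2 h.1 (by omega) δ' hδ'
          exact ⟨d, hd, m₀, fun _ _ => hm⟩
        · exact ⟨1, one_pos, 0, fun h1 h2 => absurd ⟨h1, h2⟩ h⟩
      choose d hd m₀ hm using hih
      have hne : (range (p + 1)).Nonempty := ⟨0, by simp⟩
      refine ⟨(range (p + 1)).inf' hne d, ?_, max n₀ ((range (p + 1)).sup m₀), ?_⟩
      · rw [Finset.lt_inf'_iff]
        exact fun i _ => hd i
      · intro n hn G hG x y hK
        obtain ⟨p', h1, h2, h3⟩ := hstep n (le_trans (le_max_left _ _) hn) G hG x y hK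
        have hmem : p' ∈ range (p + 1) := by rw [mem_range]; omega
        have h4 : m₀ p' ≤ n := le_trans (Finset.le_sup (f := m₀) hmem) (le_trans (le_max_right _ _) hn)
        refine le_trans ?_ (hm p' h1 h2 n h4 G hG x y h3)
        exact mul_le_mul_of_nonneg_right (Finset.inf'_le d hmem) (by positivity)

/-- For every edge `xy` of an extremal graph there are many `(q+1)`-cliques with the first vertex in
`N(x)` and the other vertices in `N(y)`. -/
theorem one_rich (q : ℕ) (hq : 1 ≤ q) (H : SimpleGraph W) (hcol : H.Colorable (q + 1))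
    (hedge : ∃ a b, H.Adj a b) :
    ∃ δ : ℝ, 0 < δ ∧ ∃ n₀ : ℕ, ∀ n ≥ n₀, ∀ G : SimpleGraph (Fin n), Ext q H G →
      ∀ x y : Fin n, G.Adj x y → δ * (n : ℝ) ^ (q + 1) ≤
        (#(ct (r := q + 1) G (fun i => if i = 0 then nb G x else nb G y)) : ℝ) := by
  classical
  obtain ⟨δ, hδ, n₀, hun⟩ := union_rich q hq H hcol hedge
  have hall : ∀ p : ℕ, ∃ d : ℝ, 0 < d ∧ ∃ m₀ : ℕ, (1 ≤ p → p ≤ q → ∀ n ≥ m₀,
      ∀ G : SimpleGraph (Fin n), Ext q H G → ∀ x y : Fin n,
      δ / 2 ^ (q + 1) * (n : ℝ) ^ (q + 1) ≤ oneRichK q G x y p →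
      d * (n : ℝ) ^ (q + 1) ≤ oneRichK q G x y 1) := by
    intro p
    by_cases h : 1 ≤ p ∧ p ≤ q
    · obtain ⟨d, hd, m₀, hm⟩ := oneRich_all q hq H hcol hedge p h.1 h.2 (δ / 2 ^ (q + 1))
        (by positivity)
      exact ⟨d, hd, m₀, fun _ _ => hm⟩
    · exact ⟨1, one_pos, 0, fun h1 h2 => absurd ⟨h1, h2⟩ h⟩
  choose d hd m₀ hm using hall
  have hne : (range (q + 1)).Nonempty := ⟨0, by simp⟩
  refine ⟨(range (q + 1)).inf' hne d, ?_, max n₀ ((range (q + 1)).sup m₀), ?_⟩
  · rw [Finset.lt_inf'_iff]
    exact fun i _ => hd i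
  · intro n hn G hG x y hxy
    have h1 := hun n (le_trans (le_max_left _ _) hn) G hG x y hxy
    obtain ⟨τ, ht1, ht2, ht3⟩ := rhoLower_type q G hG.1 x y δ hδ h1
    set I : Finset (Fin (q + 1)) := univ.filter (fun i => τ i = true) with hI
    have h2 : (fun i => if τ i = true then nb G x else nb G y) =
        (fun i => if i ∈ I then nb G x else nb G y) := by
      funext i
      simp [hI]
    have h3 : δ / 2 ^ (q + 1) * (n : ℝ) ^ (q + 1) ≤ oneRichK q G x y #I := by
      rw [← oneRich_sub, ← h2]
      exact ht3
    have hI1 : 1 ≤ #I := by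
      obtain ⟨i, hi⟩ := ht1
      exact card_pos.mpr ⟨i, by simp [hI, hi]⟩
    have hIq : #I ≤ q := by
      obtain ⟨i, hi⟩ := ht2
      have : I ⊂ univ := by
        rw [ssubset_univ_iff]
        intro h
        have : i ∈ I := by rw [h]; exact mem_univ _
        simp [hI, hi] at this
      have := card_lt_card this
      rw [card_univ, Fintype.card_fin] at this
      omega
    have hmem : #I ∈ range (q + 1) := by rw [mem_range]; omega
    have h4 : m₀ #I ≤ n := le_trans (Finset.le_sup (f := m₀) hmem) (le_trans (le_max_right _ _) hn)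
    have h5 := hm #I hI1 hIq n h4 G hG x y h3
    have h6 : (oneRichK q G x y 1 : ℝ) =
        (#(ct (r := q + 1) G (fun i => if i = 0 then nb G x else nb G y)) : ℝ) := by
      unfold oneRichK
      congr 3
      funext i
      unfold oneRichA
      by_cases hi : i = 0
      · subst hi; simp
      · have : ¬ i.val < 1 := by
          intro h
          apply hi
          apply Fin.ext
          rw [Fin.val_zero]
          omega
        rw [if_neg this, if_neg hi]
    rw [← h6]
    refine le_trans ?_ h5
    exact mul_le_mul_of_nonneg_right (Finset.inf'_le d hmem) (by positivity)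

end H78B
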