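import Pool.Agent.H78.Blow.Defs
import Pool.Agent.H78.Blow.Dup
import Pool.Agent.H78.Blow.RhoLower

set_option autoImplicit false

open Finset Fintype

namespace H78B

variable {n : ℕ} {W : Type} [Fintype W]

/-- `H` has a separable edge `ab` (with respect to `q+1` colours): the vertices other than `a`, `b`
are split in two parts with no edges between them and there is a proper colouring `col` of
`H - {a, b}` such that, among the neighbours of `a`, colour `0` is used exactly in part `true`, and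
among the neighbours of `b` it is used exactly in part `false`. -/
def SepStar (q : ℕ) (H : SimpleGraph W) : Prop :=
  ∃ (a b : W) (P : W → Bool) (col : W → Fin (q + 1)), H.Adj a b ∧
    (∀ v w, H.Adj v w → v ≠ a → v ≠ b → w ≠ a → w ≠ b → P v = P w ∧ col v ≠ col w) ∧
    (∀ v, H.Adj a v → v ≠ b → (col v = 0 ↔ P v = true)) ∧
    (∀ v, H.Adj b v → v ≠ a → (col v = 0 ↔ P v = false))

omit [Fintype W] in
theorem SepStar.colorable {q : ℕ} (hq : 1 ≤ q) {H : SimpleGraph W} (h : SepStar q H) :
    H.Colorable (q + 1) := by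
  classical
  obtain ⟨a, b, P, col, hab, h1, h2, h3⟩ := h
  have h01 : (0 : Fin (q + 1)) ≠ Fin.last q := by
    intro h
    have := congrArg Fin.val h
    simp at this
    omega
  set σ : Equiv.Perm (Fin (q + 1)) := Equiv.swap 0 (Fin.last q) with hσ
  have hσ0 : σ 0 = Fin.last q := Equiv.swap_apply_left _ _
  let c : W → Fin (q + 1) := fun v =>
    if v = a then Fin.last q else if v = b then 0 else
      if P v = true then col v else σ (col v)
  have hne : a ≠ b := hab.ne
  have ca : c a = Fin.last q := by simp [c]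
  have cb : c b = 0 := by simp [c, hne.symm]
  have co : ∀ v, v ≠ a → v ≠ b → c v = if P v = true then col v else σ (col v) := by
    intro v hva hvb
    simp [c, hva, hvb]
  have key_a : ∀ v, H.Adj a v → c v ≠ Fin.last q := by
    intro v hv
    have hva : v ≠ a := hv.ne'
    by_cases hvb : v = b
    · rw [hvb, cb]; exact h01
    · rw [co v hva hvb]
      by_cases hP : P v = true
      · rw [if_pos hP, (h2 v hv hvb).mpr hP]; exact h01
      · rw [if_neg hP, ← hσ0]
        intro h
        exact hP ((h2 v hv hvb).mp (σ.injective h))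
  have key_b : ∀ v, H.Adj b v → c v ≠ 0 := by
    intro v hv
    have hvb : v ≠ b := hv.ne'
    by_cases hva : v = a
    · rw [hva, ca]; exact h01.symm
    · rw [co v hva hvb]
      by_cases hP : P v = true
      · rw [if_pos hP]
        intro h
        have := (h3 v hv hva).mp h
        rw [hP] at this
        exact absurd this (by decide)
      · rw [if_neg hP]
        have hP' : P v = false := by
          cases h : P v
          · rfl
          · exact absurd h hP
        rw [(h3 v hv hva).mpr hP', hσ0]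
        exact h01.symm
  refine ⟨SimpleGraph.Coloring.mk c ?_⟩
  intro v w hvw
  by_cases hva : v = a
  · subst hva; rw [ca]; exact (key_a w hvw).symm
  by_cases hwa : w = a
  · subst hwa; rw [ca]; exact key_a v hvw.symm
  by_cases hvb : v = b
  · subst hvb; rw [cb]; exact (key_b w hvw).symm
  by_cases hwb : w = b
  · subst hwb; rw [cb]; exact key_b v hvw.symm
  obtain ⟨e1, e2⟩ := h1 v w hvw hva hvb hwa hwb
  rw [co v hva hvb, co w hwa hwb, e1]
  by_cases hP : P w = true
  · rw [if_pos hP, if_pos hP]; exact e2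
  · rw [if_neg hP, if_neg hP]; exact fun h => e2 (σ.injective h)

theorem rhoStar_final {κ N m0 m1 t ρ : ℝ} {a0 a1 h : ℕ} (hκ : 0 < κ) (hN : 1 ≤ N)
    (e0 : κ * N ^ a0 ≤ m0) (e1 : κ * N ^ a1 ≤ m1)
    (hle : m0 * m1 ≤ t) (ht : t ≤ ρ) (hh : h ≤ a0 + a1 + 2) :
    κ ^ 2 * N ^ h ≤ ρ * N ^ 2 := by
  have hN0 : 0 < N := by linarith
  have e3 : (κ * N ^ a0) * (κ * N ^ a1) ≤ m0 * m1 := by
    have p0 : 0 ≤ κ * N ^ a0 := by positivity
    have p1 : 0 ≤ κ * N ^ a1 := by positivity
    exact mul_le_mul e0 e1 p1 (p0.trans e0)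
  have e4 : N ^ h ≤ N ^ (a0 + a1 + 2) := pow_le_pow_right₀ hN hh
  calc κ ^ 2 * N ^ h ≤ κ ^ 2 * N ^ (a0 + a1 + 2) :=
        mul_le_mul_of_nonneg_left e4 (by positivity)
    _ = (κ * N ^ a0) * (κ * N ^ a1) * N ^ 2 := by ring
    _ ≤ ρ * N ^ 2 := mul_le_mul_of_nonneg_right ((e3.trans hle).trans ht) (by positivity)

open Classical in
theorem rhoStar_main (q : ℕ) (H : SimpleGraph W) (G : SimpleGraph (Fin n)) (x y : Fin n)
    (κ δ : ℝ) (hδ0 : 0 < δ) (hδ1 : δ ≤ 1) (hκ : κ = δ ^ (2 ^ card W))
    (hx : δ * (n : ℝ) ^ (q + 1) ≤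
      (#(ct (r := q + 1) G (fun i => if i = 0 then nb G x else nb G y)) : ℝ))
    (hy : δ * (n : ℝ) ^ (q + 1) ≤
      (#(ct (r := q + 1) G (fun i => if i = 0 then nb G y else nb G x)) : ℝ))
    (a b : W) (P : W → Bool) (col : W → Fin (q + 1)) (hab : H.Adj a b)
    (h1 : ∀ v w, H.Adj v w → v ≠ a → v ≠ b → w ≠ a → w ≠ b → P v = P w ∧ col v ≠ col w)
    (h2 : ∀ v, H.Adj a v → v ≠ b → (col v = 0 ↔ P v = true))
    (h3 : ∀ v, H.Adj b v → v ≠ a → (col v = 0 ↔ P v = false)) :
    κ ^ 2 * (n : ℝ) ^ card W ≤ rho H G x y * (n : ℝ) ^ 2 := by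
  have hn : 0 < n := x.pos
  have hn1 : (1 : ℝ) ≤ n := by exact_mod_cast hn
  let X : Bool → Type := fun i => {v : W // v ≠ a ∧ v ≠ b ∧ P v = i}
  have hcard : ∀ i, card (X i) ≤ card W := fun i => Fintype.card_subtype_le _
  have hpow : ∀ i, κ ≤ δ ^ (2 ^ card (X i)) := by
    intro i
    rw [hκ]
    exact pow_le_pow_of_le_one hδ0.le hδ1 (Nat.pow_le_pow_right (by norm_num) (hcard i))
  have hκ0 : 0 < κ := by rw [hκ]; positivity
  have htot : card W ≤ card (X true) + card (X false) + 2 := by
    have e : ∀ i, card (X i) = #(univ.filter (fun v => v ≠ a ∧ v ≠ b ∧ P v = i)) :=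
      fun i => Fintype.card_subtype _
    rw [e, e, ← Finset.card_univ]
    have hsub : (univ : Finset W) ⊆ (univ.filter (fun v => v ≠ a ∧ v ≠ b ∧ P v = true) ∪
        univ.filter (fun v => v ≠ a ∧ v ≠ b ∧ P v = false)) ∪ {a, b} := by
      intro v _
      simp only [mem_union, mem_filter, mem_univ, true_and, mem_insert, mem_singleton]
      by_cases hva : v = a
      · tauto
      by_cases hvb : v = b
      · tauto
      have : P v = true ∨ P v = false := by
        cases P v <;> simp
      tauto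
    refine (card_le_card hsub).trans ((card_union_le _ _).trans ?_)
    have e2 := card_union_le (univ.filter (fun v => v ≠ a ∧ v ≠ b ∧ P v = true))
        (univ.filter (fun v => v ≠ a ∧ v ≠ b ∧ P v = false))
    have e3 : #({a, b} : Finset W) ≤ 2 := card_le_two
    omega
  obtain ⟨F0, hF0, d0⟩ := rhoLower_dup G (fun i => if i = 0 then nb G x else nb G y) (X true)
    (fun v => col v.1) δ hδ0.le hδ1 hx
  obtain ⟨F1, hF1, d1⟩ := rhoLower_dup G (fun i => if i = 0 then nb G y else nb G x) (X false)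
    (fun v => col v.1) δ hδ0.le hδ1 hy
  set T := univ.filter (fun f : W → Fin n =>
      (∀ a' b', H.Adj a' b' → s(a', b') ≠ s(a, b) → G.Adj (f a') (f b')) ∧
        f a = x ∧ f b = y) with hT
  let Φ : ((X true → Fin n) × (X false → Fin n)) → (W → Fin n) := fun f v =>
    if h : v = a then x else if h' : v = b then y else
      if h0 : P v = true then f.1 ⟨v, h, h', h0⟩ else
        if h1 : P v = false then f.2 ⟨v, h, h', h1⟩ else x
  have hba : b ≠ a := hab.ne'
  have Φa : ∀ f, Φ f a = x := by intro f; simp [Φ]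
  have Φb : ∀ f, Φ f b = y := by intro f; simp [Φ, hba]
  have Φ0 : ∀ f v (h : v ≠ a) (h' : v ≠ b) (h0 : P v = true), Φ f v = f.1 ⟨v, h, h', h0⟩ := by
    intro f v h h' h0
    simp [Φ, h, h', h0]
  have Φ1 : ∀ f v (h : v ≠ a) (h' : v ≠ b) (h0 : P v = false), Φ f v = f.2 ⟨v, h, h', h0⟩ := by
    intro f v h h' h0
    simp [Φ, h, h', h0]
  have hP : ∀ v, P v = true ∨ P v = false := by
    intro v
    cases P v <;> simp
  have hmaps : ∀ f ∈ F0 ×ˢ F1, Φ f ∈ T := by
    intro f hf
    rw [mem_product] at hf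
    obtain ⟨g0, g1⟩ := hf
    obtain ⟨g0a, g0b⟩ := hF0 _ g0
    obtain ⟨g1a, g1b⟩ := hF1 _ g1
    have na : ∀ v, H.Adj a v → v ≠ b → G.Adj x (Φ f v) := by
      intro v hv hvb
      have hva : v ≠ a := hv.ne'
      have h2' := h2 v hv hvb
      rcases hP v with h0 | h0
      · rw [Φ0 f v hva hvb h0]
        have := g0a ⟨v, hva, hvb, h0⟩
        simp only [h2'.mpr h0, if_true] at this
        exact (mem_nb _ _ _).1 this
      · rw [Φ1 f v hva hvb h0]
        have := g1a ⟨v, hva, hvb, h0⟩
        have hne : col v ≠ 0 := fun h => by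
          have := h2'.mp h
          rw [h0] at this
          exact absurd this (by decide)
        simp only [hne, if_false] at this
        exact (mem_nb _ _ _).1 this
    have nbb : ∀ v, H.Adj b v → v ≠ a → G.Adj y (Φ f v) := by
      intro v hv hva
      have hvb : v ≠ b := hv.ne'
      have h3' := h3 v hv hva
      rcases hP v with h0 | h0
      · rw [Φ0 f v hva hvb h0]
        have := g0a ⟨v, hva, hvb, h0⟩
        have hne : col v ≠ 0 := fun h => by
          have := h3'.mp h
          rw [h0] at this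
          exact absurd this (by decide)
        simp only [hne, if_false] at this
        exact (mem_nb _ _ _).1 this
      · rw [Φ1 f v hva hvb h0]
        have := g1a ⟨v, hva, hvb, h0⟩
        simp only [h3'.mpr h0, if_true] at this
        exact (mem_nb _ _ _).1 this
    rw [hT, mem_filter]
    refine ⟨mem_univ _, ?_, Φa f, Φb f⟩
    intro v w hvw hs
    by_cases hva : v = a
    · subst hva
      by_cases hwb : w = b
      · subst hwb; exact absurd rfl hs
      · rw [Φa]; exact na w hvw hwb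
    by_cases hwa : w = a
    · subst hwa
      by_cases hvb : v = b
      · subst hvb; exact absurd Sym2.eq_swap hs
      · rw [Φa]; exact (na v hvw.symm hvb).symm
    by_cases hvb : v = b
    · subst hvb
      rw [Φb]; exact nbb w hvw hwa
    by_cases hwb : w = b
    · subst hwb
      rw [Φb]; exact (nbb v hvw.symm hva).symm
    obtain ⟨hPP, hcc⟩ := h1 v w hvw hva hvb hwa hwb
    rcases hP v with h0 | h0
    · rw [Φ0 f v hva hvb h0, Φ0 f w hwa hwb (hPP ▸ h0)]
      exact g0b _ _ hcc
    · rw [Φ1 f v hva hvb h0, Φ1 f w hwa hwb (hPP ▸ h0)]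
      exact g1b _ _ hcc
  have hinj : Set.InjOn Φ (F0 ×ˢ F1 : Finset _) := by
    intro f _ g _ hfg
    refine Prod.ext ?_ ?_
    · funext ⟨v, hv⟩
      rw [← Φ0 f v hv.1 hv.2.1 hv.2.2, ← Φ0 g v hv.1 hv.2.1 hv.2.2, hfg]
    · funext ⟨v, hv⟩
      rw [← Φ1 f v hv.1 hv.2.1 hv.2.2, ← Φ1 g v hv.1 hv.2.1 hv.2.2, hfg]
  have hle : #F0 * #F1 ≤ #T := by
    rw [← card_product]
    exact card_le_card_of_injOn Φ (fun f hf => hmaps f hf) hinj
  have hrho : (#T : ℝ) ≤ rho H G x y := by
    unfold rho
    have hmem : (a, b) ∈ (univ : Finset (W × W)).filter (fun p => H.Adj p.1 p.2) := by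
      rw [mem_filter]; exact ⟨mem_univ _, hab⟩
    refine le_trans ?_ (single_le_sum (fun p _ => Nat.cast_nonneg _) hmem)
    apply Nat.cast_le.2
    apply card_le_card
    intro f hf
    rw [hT, mem_filter] at hf
    rw [mem_filter]
    exact hf
  have hleR : (#F0 : ℝ) * #F1 ≤ #T := by exact_mod_cast hle
  have e0 : κ * (n : ℝ) ^ card (X true) ≤ #F0 :=
    (mul_le_mul_of_nonneg_right (hpow true) (by positivity)).trans d0
  have e1 : κ * (n : ℝ) ^ card (X false) ≤ #F1 :=
    (mul_le_mul_of_nonneg_right (hpow false) (by positivity)).trans d1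
  exact rhoStar_final hκ0 hn1 e0 e1 hleR hrho htot

theorem rho_lower_star (q : ℕ) (H : SimpleGraph W) (hsep : SepStar q H) (δ : ℝ) (hδ : 0 < δ) :
    ∃ c : ℝ, 0 < c ∧ ∀ (n : ℕ) (G : SimpleGraph (Fin n)),
      (∀ x y, G.Adj x y → δ * (n : ℝ) ^ (q + 1) ≤
        (#(ct (r := q + 1) G (fun i => if i = 0 then nb G x else nb G y)) : ℝ)) →
      HighUse H G c := by
  classical
  obtain ⟨a, b, P, col, hab, h1, h2, h3⟩ := hsep
  set δ' := min δ 1 with hδ'
  have hδ'0 : 0 < δ' := lt_min hδ one_pos
  have hδ'1 : δ' ≤ 1 := min_le_right _ _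
  have hδ'δ : δ' ≤ δ := min_le_left _ _
  refine ⟨(δ' ^ (2 ^ card W)) ^ 2, by positivity, fun n G hK x y hxy => ?_⟩
  exact rhoStar_main q H G x y _ δ' hδ'0 hδ'1 rfl
    ((mul_le_mul_of_nonneg_right hδ'δ (by positivity)).trans (hK x y hxy))
    ((mul_le_mul_of_nonneg_right hδ'δ (by positivity)).trans (hK y x hxy.symm))
    a b P col hab h1 h2 h3

end H78B
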