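import Pool.Agent.H78.Blow.Defs
import Pool.Agent.H78.Blow.SecondOrder
import Pool.Agent.H78.Blow.TStar
import Pool.Agent.H78.Blow.OneRich
import Pool.Agent.H78.Blow.RhoLowerStar
import Pool.Agent.H78.Blow.NoShatter
import Pool.Agent.H78.Blow.FewNb
import Pool.Agent.H78.Blow.Universal

set_option autoImplicit false

open Finset Fintype

namespace H78B

variable {n : ℕ} {W : Type} [Fintype W]

/-- If every edge of every large extremal graph has high usage, then the extremal number is attained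
by blow-ups of a fixed graph. -/
theorem main_of_highUse (q : ℕ) (hq : 1 ≤ q) (H : SimpleGraph W) (hcol : H.Colorable (q + 1))
    (hedge : ∃ a b, H.Adj a b) (c : ℝ) (hc : 0 < c) (n₃ : ℕ)
    (h₃ : ∀ n ≥ n₃, ∀ G : SimpleGraph (Fin n), Ext q H G → HighUse H G c) :
    ∃ (m : ℕ) (G₀ : SimpleGraph (Fin m)) (n₀ : ℕ), ∀ n ≥ n₀, ∃ φ : Fin n → Fin m,
      Ext q H (G₀.comap φ) := by
  obtain ⟨C, hC⟩ := second_order q H
  obtain ⟨δ₁, κ, hδ₁, hκ, n₁, h₁⟩ := tstar q hq H hcol hedge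
  obtain ⟨d, n₄, h₄⟩ := no_shatter H C c hc
  obtain ⟨M, n₅, h₅⟩ := few_nb q hq H C c δ₁ hc hδ₁ d
  obtain ⟨m, G₀, h₆⟩ := universal q H M (max (max n₁ n₃) (max n₄ n₅)) (by
    intro n hn G hG
    have hn₁ : n₁ ≤ n := le_trans (le_trans (le_max_left _ _) (le_max_left _ _)) hn
    have hn₃ : n₃ ≤ n := le_trans (le_trans (le_max_right _ _) (le_max_left _ _)) hn
    have hn₄ : n₄ ≤ n := le_trans (le_trans (le_max_left _ _) (le_max_right _ _)) hn
    have hn₅ : n₅ ≤ n := le_trans (le_trans (le_max_right _ _) (le_max_right _ _)) hn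
    have e1 : ∀ x, δ₁ * (n : ℝ) ^ (q + 1) ≤ EE q G (nb G x) := by
      intro x
      apply h₁ n hn₁ G hG x
      have : 0 ≤ κ * (n : ℝ) ^ card W := by positivity
      linarith
    have e3 : HighUse H G c := h₃ n hn₃ G hG
    exact h₅ n hn₅ G hG.1 (hC n G hG) e3 e1 (h₄ n hn₄ G (hC n G hG) e3))
  exact ⟨m, G₀, _, h₆⟩

theorem main_star (q : ℕ) (hq : 1 ≤ q) (H : SimpleGraph W) (hsep : SepStar q H) :
    ∃ (m : ℕ) (G₀ : SimpleGraph (Fin m)) (n₀ : ℕ), ∀ n ≥ n₀, ∃ φ : Fin n → Fin m,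
      Ext q H (G₀.comap φ) := by
  have hcol := hsep.colorable hq
  have hedge : ∃ a b, H.Adj a b := by
    obtain ⟨a, b, _, _, hab, _⟩ := hsep
    exact ⟨a, b, hab⟩
  obtain ⟨δ, hδ, n₂, h₂⟩ := one_rich q hq H hcol hedge
  obtain ⟨c, hc, h₃⟩ := rho_lower_star q H hsep δ hδ
  exact main_of_highUse q hq H hcol hedge c hc n₂ (fun n hn G hG => h₃ n G (h₂ n hn G hG))

end H78B
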