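import Pool.Agent.H78.Blow.PinFold

set_option autoImplicit false

open Finset Fintype

namespace H78B

variable {W : Type}

theorem PinFold.symm {q : ℕ} {H : SimpleGraph W} {u v : W} (h : PinFold q H v u) :
    PinFold q H u v := by
  obtain ⟨a, b, P, col, ψ, hab, h1, h2, h3, h4⟩ := h
  set σ : Equiv.Perm (Fin 3) := Equiv.swap 0 1 with hσ
  have s0 : ∀ j : Fin 3, σ j = 0 ↔ j = 1 := by decide
  have s1 : ∀ j : Fin 3, σ j = 1 ↔ j = 0 := by decide
  have s2 : ∀ j : Fin 3, σ j = 2 ↔ j = 2 := by decide
  refine ⟨b, a, fun w => σ (P w), col, ψ, hab.symm, ?_, ?_, ?_, ?_⟩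
  · intro w w' hww' hwb hwa hwb' hwa'
    obtain ⟨e1, e2, e3⟩ := h1 w w' hww' hwa hwb hwa' hwb'
    beta_reduce
    refine ⟨by rw [e1], fun h => e2 (fun h' => h ((s2 _).2 h')), fun h => e3 ((s2 _).1 h)⟩
  · intro w hw hwa
    obtain ⟨e1, e2, e3⟩ := h3 w hw hwa
    exact ⟨fun h => e2 ((s0 _).1 h), fun h => e1 ((s1 _).1 h), fun h => e3 ((s2 _).1 h)⟩
  · intro w hw hwb
    obtain ⟨e1, e2, e3⟩ := h2 w hw hwb
    exact ⟨fun h => e2 ((s0 _).1 h), fun h => e1 ((s1 _).1 h), fun h => e3 ((s2 _).1 h)⟩
  · intro w hwb hwa h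
    obtain ⟨e1, e2⟩ := h4 w hwa hwb ((s2 _).1 h)
    exact ⟨e2, e1⟩

/-- `SepStar` gives `PinFold` for all pairs. -/
theorem pinFold_of_sepStar {q : ℕ} {H : SimpleGraph W} (h : SepStar q H) (u v : W) :
    PinFold q H u v := by
  obtain ⟨a, b, P, col, hab, h1, h2, h3⟩ := h
  refine ⟨a, b, fun w => if P w = true then 0 else 1, col, id, hab, ?_, ?_, ?_, ?_⟩
  · intro w w' hww' hwa hwb hwa' hwb'
    obtain ⟨e1, e2⟩ := h1 w w' hww' hwa hwb hwa' hwb'
    beta_reduce
    refine ⟨by rw [e1], fun _ => e2, fun h => ?_⟩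
    exfalso
    revert h
    split_ifs <;> decide
  · intro w hw hwb
    have := h2 w hw hwb
    by_cases hP : P w = true
    · simp only [hP, if_true]
      exact ⟨fun _ => this.2 hP, fun h => absurd h (by decide), fun h => absurd h (by decide)⟩
    · simp only [hP]
      refine ⟨fun h => absurd h (by decide), fun _ h => hP (this.1 h), fun h => absurd h (by decide)⟩
  · intro w hw hwa
    have := h3 w hw hwa
    by_cases hP : P w = true
    · simp only [hP, if_true]
      refine ⟨fun _ h => ?_, fun h => absurd h (by decide), fun h => absurd h (by decide)⟩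
      have := this.1 h
      rw [hP] at this
      exact absurd this (by decide)
    · have hP' : P w = false := by
        cases h : P w
        · rfl
        · exact absurd h hP
      simp only [hP']
      refine ⟨fun h => absurd h (by decide), fun _ => this.2 hP', fun h => absurd h (by decide)⟩
  · intro w _ _ h
    exfalso
    revert h
    show (if P w = true then (0 : Fin 3) else 1) = 2 → False
    split_ifs <;> decide

/-- a permutation with prescribed values at two points -/
theorem pinCases_perm {q : ℕ} {i j i₀ j₀ : Fin (q + 1)} (h : i ≠ j) (h₀ : i₀ ≠ j₀) :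
    ∃ θ : Equiv.Perm (Fin (q + 1)), θ i = i₀ ∧ θ j = j₀ := by
  have h1 : Equiv.swap i i₀ j ≠ i₀ := by
    intro h2
    apply h
    have := (Equiv.swap i i₀).injective (h2.trans (Equiv.swap_apply_left i i₀).symm)
    exact this.symm
  refine ⟨(Equiv.swap i i₀).trans (Equiv.swap (Equiv.swap i i₀ j) j₀), ?_, ?_⟩
  · rw [Equiv.trans_apply, Equiv.swap_apply_left, Equiv.swap_apply_of_ne_of_ne h1.symm h₀]
  · rw [Equiv.trans_apply, Equiv.swap_apply_left]

/-- `u` and `v` are attached to a common `(q+1)`-clique `g`: `u` is adjacent to all of its vertices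
except `g i`, and `v` is adjacent to all of them except `g j`, `j ≠ i`. -/
def CliqueLink (q : ℕ) (H : SimpleGraph W) (u v : W) : Prop :=
  ∃ (g : Fin (q + 1) → W) (i j : Fin (q + 1)), i ≠ j ∧ (∀ l m, l ≠ m → H.Adj (g l) (g m)) ∧
    (∀ l, l ≠ i → H.Adj u (g l)) ∧ (∀ l, l ≠ j → H.Adj v (g l))

theorem pinFold_of_cliqueLink {q : ℕ} {H : SimpleGraph W} (hcol : H.Colorable (q + 1))
    (hedge : ∃ a b, H.Adj a b) {u v : W} (huv : ¬ H.Adj u v) (h : CliqueLink q H u v) :
    PinFold q H u v := by
  classical
  obtain ⟨χ⟩ := hcol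
  obtain ⟨a, b, hab⟩ := hedge
  obtain ⟨g, i, j, hij, hg, hu, hv⟩ := h
  obtain ⟨θ, hθi, hθj⟩ := pinCases_perm (χ.valid hab) hij
  have hval : ∀ w w', H.Adj w w' → θ (χ w) ≠ θ (χ w') := fun w w' h h' =>
    χ.valid h (θ.injective h')
  refine ⟨a, b, fun _ => 2, fun _ => 0, fun w => g (θ (χ w)), hab, ?_, ?_, ?_, ?_⟩
  · intro w w' hww' _ _ _ _
    exact ⟨rfl, fun h => absurd rfl h, fun _ => hg _ _ (hval w w' hww')⟩
  · intro w hw _
    beta_reduce
    refine ⟨fun h => absurd h (by decide), fun h => absurd h (by decide), fun _ => hu _ ?_⟩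
    rw [← hθi]
    exact (hval a w hw).symm
  · intro w hw _
    beta_reduce
    refine ⟨fun h => absurd h (by decide), fun h => absurd h (by decide), fun _ => hv _ ?_⟩
    rw [← hθj]
    exact (hval b w hw).symm
  · intro w _ _ _
    beta_reduce
    constructor
    · intro h
      by_cases hl : θ (χ w) = i
      · have := hv (θ (χ w)) (by rw [hl]; exact hij)
        rw [h] at this
        exact huv this.symm
      · have := hu _ hl
        rw [h] at this
        exact H.irrefl this
    · intro h
      by_cases hl : θ (χ w) = j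
      · have := hu (θ (χ w)) (by rw [hl]; exact hij.symm)
        rw [h] at this
        exact huv this
      · have := hv _ hl
        rw [h] at this
        exact H.irrefl this

/-- `v = g j` lies in a `(q+1)`-clique `g` and `u` is adjacent to all vertices of the clique except
`g i` and `v`. -/
def ApexLink (q : ℕ) (H : SimpleGraph W) (u v : W) : Prop :=
  ∃ (g : Fin (q + 1) → W) (i j : Fin (q + 1)), i ≠ j ∧ (∀ l m, l ≠ m → H.Adj (g l) (g m)) ∧
    g j = v ∧ (∀ l, l ≠ i → l ≠ j → H.Adj u (g l))

/-- `H` has a non-isolated vertex `b` such that `H - b` is `q`-colourable (formulated as a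
`(q+1)`-colouring in which the colour of `b` occurs only once). -/
def HasApex (q : ℕ) (H : SimpleGraph W) : Prop :=
  ∃ (χ : H.Coloring (Fin (q + 1))) (a b : W), H.Adj a b ∧ ∀ w, χ w = χ b → w = b

theorem pinFold_of_apexLink {q : ℕ} {H : SimpleGraph W} (hapex : HasApex q H)
    {u v : W} (huv : ¬ H.Adj u v) (h : ApexLink q H u v) :
    PinFold q H u v := by
  classical
  obtain ⟨χ, a, b, hab, hb⟩ := hapex
  obtain ⟨g, i, j, hij, hg, hv, hu⟩ := h
  obtain ⟨θ, hθi, hθj⟩ := pinCases_perm (χ.valid hab) hij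
  have hval : ∀ w w', H.Adj w w' → θ (χ w) ≠ θ (χ w') := fun w w' h h' =>
    χ.valid h (θ.injective h')
  have hbj : ∀ w, w ≠ b → θ (χ w) ≠ j := by
    intro w hw h
    rw [← hθj] at h
    exact hw (hb w (θ.injective h))
  refine ⟨a, b, fun _ => 2, fun _ => 0, fun w => g (θ (χ w)), hab, ?_, ?_, ?_, ?_⟩
  · intro w w' hww' _ _ _ _
    exact ⟨rfl, fun h => absurd rfl h, fun _ => hg _ _ (hval w w' hww')⟩
  · intro w hw hwb
    beta_reduce
    refine ⟨fun h => absurd h (by decide), fun h => absurd h (by decide), fun _ => hu _ ?_ ?_⟩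
    · rw [← hθi]
      exact (hval a w hw).symm
    · exact hbj w hwb
  · intro w hw _
    beta_reduce
    refine ⟨fun h => absurd h (by decide), fun h => absurd h (by decide), fun _ => ?_⟩
    rw [← hv]
    exact hg _ _ (hbj w hw.ne').symm
  · intro w _ hwb _
    beta_reduce
    constructor
    · intro h
      by_cases hl : θ (χ w) = i
      · have := hg (θ (χ w)) j (hbj w hwb)
        rw [h, hv] at this
        exact huv this
      · have := hu _ hl (hbj w hwb)
        rw [h] at this
        exact H.irrefl this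
    · intro h
      have := hg (θ (χ w)) j (hbj w hwb)
      rw [h, hv] at this
      exact H.irrefl this

/-- nonadjacent pairs `u, v` such that `H + uv` is `K_(q+2)`-free are linked -/
def Linked (q : ℕ) (H : SimpleGraph W) : Prop :=
  ∀ u v : W, u ≠ v → ¬ H.Adj u v → (H ⊔ SimpleGraph.edge u v).CliqueFree (q + 2) →
    CliqueLink q H u v ∨ (HasApex q H ∧ (ApexLink q H u v ∨ ApexLink q H v u))

theorem pinFolds_of_linked {q : ℕ} {H : SimpleGraph W} (hcol : H.Colorable (q + 1))
    (hedge : ∃ a b, H.Adj a b) (h : Linked q H) : PinFolds q H := by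
  intro u v huv hnadj hfree
  rcases h u v huv hnadj hfree with h | ⟨hap, h | h⟩
  · exact pinFold_of_cliqueLink hcol hedge hnadj h
  · exact pinFold_of_apexLink hap hnadj h
  · exact (pinFold_of_apexLink hap (fun h' => hnadj h'.symm) h).symm

/-- `H` is the join of a clique `d` on `p` vertices and a bipartite graph without isolated vertices
(`s` is its 2-colouring). -/
def CliqueJoin (p : ℕ) (H : SimpleGraph W) : Prop :=
  ∃ (d : Fin p → W) (s : W → Bool), Function.Injective d ∧
    (∀ i w, w ≠ d i → H.Adj (d i) w) ∧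
    (∀ w w', (∀ i, w ≠ d i) → (∀ i, w' ≠ d i) → H.Adj w w' → s w ≠ s w') ∧
    (∀ w, (∀ i, w ≠ d i) → ∃ w', (∀ i, w' ≠ d i) ∧ H.Adj w w')

open Classical in
/-- the `(p+2)`-colouring of a join -/
noncomputable def joinCol {p : ℕ} (d : Fin p → W) (s : W → Bool) (w : W) : Fin (p + 2) :=
  if h : ∃ i, d i = w then (h.choose).succ.succ else if s w = true then 0 else 1

lemma joinCol_d {p : ℕ} (d : Fin p → W) (hd : Function.Injective d) (s : W → Bool) (i : Fin p) :
    joinCol d s (d i) = i.succ.succ := by
  have h : ∃ j, d j = d i := ⟨i, rfl⟩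
  unfold joinCol
  rw [dif_pos h]
  have := hd h.choose_spec
  rw [this]

lemma joinCol_not {p : ℕ} (d : Fin p → W) (s : W → Bool) (w : W) (hw : ∀ i, w ≠ d i) :
    joinCol d s w = if s w = true then 0 else 1 := by
  have h : ¬ ∃ j, d j = w := by
    rintro ⟨j, hj⟩
    exact hw j hj.symm
  unfold joinCol
  rw [dif_neg h]

lemma joinCol_not_ne {p : ℕ} (d : Fin p → W) (s : W → Bool) (w : W) (hw : ∀ i, w ≠ d i)
    (i : Fin p) : joinCol d s w ≠ i.succ.succ := by
  rw [joinCol_not d s w hw]
  split_ifs
  · exact (Fin.succ_ne_zero _).symm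
  · intro h
    have := congrArg Fin.val h
    simp at this

theorem join_valid {p : ℕ} {H : SimpleGraph W} (d : Fin p → W) (s : W → Bool)
    (hd : Function.Injective d)
    (h2 : ∀ w w', (∀ i, w ≠ d i) → (∀ i, w' ≠ d i) → H.Adj w w' → s w ≠ s w') (w w' : W)
    (hww' : H.Adj w w') : joinCol d s w ≠ joinCol d s w' := by
  by_cases hw : ∀ i, w ≠ d i
  · by_cases hw' : ∀ i, w' ≠ d i
    · have := h2 w w' hw hw' hww'
      rw [joinCol_not d s w hw, joinCol_not d s w' hw']
      revert this
      cases s w <;> cases s w' <;> simp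
    · push Not at hw'
      obtain ⟨i, rfl⟩ := hw'
      rw [joinCol_d d hd]
      exact joinCol_not_ne d s w hw i
  · push Not at hw
    obtain ⟨i, rfl⟩ := hw
    by_cases hw' : ∀ i, w' ≠ d i
    · rw [joinCol_d d hd]
      exact (joinCol_not_ne d s w' hw' i).symm
    · push Not at hw'
      obtain ⟨j, rfl⟩ := hw'
      rw [joinCol_d d hd, joinCol_d d hd]
      intro h
      have : i = j := Fin.succ_injective _ (Fin.succ_injective _ h)
      rw [this] at hww'
      exact H.irrefl hww'

theorem join_colorable {p : ℕ} {H : SimpleGraph W} (h : CliqueJoin p H) : H.Colorable (p + 2) := by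
  obtain ⟨d, s, hd, h1, h2, h3⟩ := h
  exact ⟨SimpleGraph.Coloring.mk (joinCol d s) (fun {w w'} h => join_valid d s hd h2 w w' h)⟩

lemma cons_clique {m : ℕ} {H : SimpleGraph W} (x : W) (f : Fin m → W)
    (hx : ∀ i, H.Adj x (f i)) (hf : ∀ l m', l ≠ m' → H.Adj (f l) (f m')) (l m' : Fin (m + 1))
    (hlm : l ≠ m') :
    H.Adj ((Fin.cons x f : Fin (m + 1) → W) l) ((Fin.cons x f : Fin (m + 1) → W) m') := by
  induction l using Fin.cases with
  | zero =>
    induction m' using Fin.cases with
    | zero => exact absurd rfl hlm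
    | succ j => simpa using hx j
  | succ i =>
    induction m' using Fin.cases with
    | zero => simpa using (hx i).symm
    | succ j =>
      have : i ≠ j := by
        rintro rfl
        exact hlm rfl
      simpa using hf i j this

theorem linked_of_join {p : ℕ} (hp : 1 ≤ p) {H : SimpleGraph W} (h : CliqueJoin p H) :
    Linked (p + 1) H := by
  obtain ⟨d, s, hd, h1, h2, h3⟩ := h
  intro u v huv hnadj _
  have hu : ∀ i, u ≠ d i := by
    rintro i rfl
    exact hnadj (h1 i v huv.symm)
  have hv : ∀ i, v ≠ d i := by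
    rintro i rfl
    exact hnadj (h1 i u huv).symm
  obtain ⟨v', hv', hvv'⟩ := h3 v hv
  refine Or.inr ⟨?_, Or.inl ?_⟩
  · -- the apex
    let b : W := d ⟨0, hp⟩
    refine ⟨SimpleGraph.Coloring.mk (joinCol d s) (fun {w w'} h => join_valid d s hd h2 w w' h), u,
      b, (h1 _ u (hu _)).symm, ?_⟩
    intro w hw
    have hw' : joinCol d s w = joinCol d s b := hw
    rw [joinCol_d d hd] at hw'
    by_cases hwd : ∀ i, w ≠ d i
    · exact absurd hw' (joinCol_not_ne d s w hwd _)
    · push Not at hwd
      obtain ⟨i, rfl⟩ := hwd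
      rw [joinCol_d d hd] at hw'
      have : i = ⟨0, hp⟩ := Fin.succ_injective _ (Fin.succ_injective _ hw')
      rw [this]
  · refine ⟨Fin.cons v' (Fin.cons v d), 0, 1, ?_, ?_, ?_, ?_⟩
    · intro h
      have := congrArg Fin.val h
      simp at this
    · apply cons_clique
      · intro i
        induction i using Fin.cases with
        | zero => simpa using hvv'.symm
        | succ i => simpa using (h1 i v' (hv' i)).symm
      · apply cons_clique
        · intro i
          exact (h1 i v (hv i)).symm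
        · intro l m hlm
          exact h1 l (d m) (fun h => hlm (hd h.symm))
    · rfl
    · intro l hl0 hl1
      induction l using Fin.cases with
      | zero => exact absurd rfl hl0
      | succ l =>
        induction l using Fin.cases with
        | zero => exact absurd rfl hl1
        | succ l => simpa using (h1 l u (hu l)).symm

end H78B
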