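import Pool.Agent.H78.Blow.PinLower
import Pool.Agent.H78.Blow.MainStar

set_option autoImplicit false

open Finset Fintype

namespace H78B

variable {n : ℕ} {W : Type} [Fintype W]

/-- `H` folds onto `H + uv` with an edge `ab` over `uv` (with respect to `q + 1` colours): the
vertices other than `a`, `b` are split in three parts without edges between them; parts `0` and `1`
are coloured as in `SepStar`, and part `2` is mapped by `ψ` to `H - {u, v}` such that edges are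
preserved, neighbours of `a` go to neighbours of `u` and neighbours of `b` go to neighbours of `v`. -/
def PinFold (q : ℕ) (H : SimpleGraph W) (u v : W) : Prop :=
  ∃ (a b : W) (P : W → Fin 3) (col : W → Fin (q + 1)) (ψ : W → W), H.Adj a b ∧
    (∀ w w', H.Adj w w' → w ≠ a → w ≠ b → w' ≠ a → w' ≠ b → P w = P w' ∧
      (P w ≠ 2 → col w ≠ col w') ∧ (P w = 2 → H.Adj (ψ w) (ψ w'))) ∧
    (∀ w, H.Adj a w → w ≠ b →
      (P w = 0 → col w = 0) ∧ (P w = 1 → col w ≠ 0) ∧ (P w = 2 → H.Adj u (ψ w))) ∧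
    (∀ w, H.Adj b w → w ≠ a →
      (P w = 0 → col w ≠ 0) ∧ (P w = 1 → col w = 0) ∧ (P w = 2 → H.Adj v (ψ w))) ∧
    (∀ w, w ≠ a → w ≠ b → P w = 2 → ψ w ≠ u ∧ ψ w ≠ v)

open Classical in
/-- the classes of the pinned pattern -/
noncomputable def pinA (H : SimpleGraph W) (G : SimpleGraph (Fin n)) (x y : Fin n) (u v : W) :
    {w : W // w ≠ u ∧ w ≠ v} → Finset (Fin n) :=
  fun w => univ.filter (fun z => (H.Adj u w.1 → G.Adj x z) ∧ (H.Adj v w.1 → G.Adj y z))

omit [Fintype W] in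
lemma mem_pinA (H : SimpleGraph W) (G : SimpleGraph (Fin n)) (x y : Fin n) (u v : W)
    (w : {w : W // w ≠ u ∧ w ≠ v}) (z : Fin n) :
    z ∈ pinA H G x y u v w ↔ (H.Adj u w.1 → G.Adj x z) ∧ (H.Adj v w.1 → G.Adj y z) := by
  simp [pinA]

open Classical in
theorem pin_main (q : ℕ) (H : SimpleGraph W) (G : SimpleGraph (Fin n)) (x y : Fin n)
    (κ δ : ℝ) (hδ0 : 0 < δ) (hδ1 : δ ≤ 1) (hκ : κ = δ ^ (2 ^ card W)) (u v : W)
    (hx : δ * (n : ℝ) ^ (q + 1) ≤
      (#(ct (r := q + 1) G (fun i => if i = 0 then nb G x else nb G y)) : ℝ))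
    (hy : δ * (n : ℝ) ^ (q + 1) ≤
      (#(ct (r := q + 1) G (fun i => if i = 0 then nb G y else nb G x)) : ℝ))
    (hpin : δ * (n : ℝ) ^ card {w : W // w ≠ u ∧ w ≠ v} ≤
      (#(DupH_Gd G (fun s t : {w : W // w ≠ u ∧ w ≠ v} => H.Adj s.1 t.1) (pinA H G x y u v)
        {w : W // w ≠ u ∧ w ≠ v} id) : ℝ))
    (hfold : PinFold q H u v) :
    κ ^ 3 * (n : ℝ) ^ card W ≤ rho H G x y * (n : ℝ) ^ 2 := by
  obtain ⟨a, b, P, col, ψ, hab, h1, h2, h3, h4⟩ := hfold
  have hn : 0 < n := x.pos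
  have hn1 : (1 : ℝ) ≤ n := by exact_mod_cast hn
  let X : Fin 3 → Type := fun i => {v : W // v ≠ a ∧ v ≠ b ∧ P v = i}
  have hcard : ∀ i, card (X i) ≤ card W := fun i => Fintype.card_subtype_le _
  have hpow : ∀ i, κ ≤ δ ^ (2 ^ card (X i)) := by
    intro i
    rw [hκ]
    exact pow_le_pow_of_le_one hδ0.le hδ1 (Nat.pow_le_pow_right (by norm_num) (hcard i))
  have hκ0 : 0 < κ := by rw [hκ]; positivity
  have hP : ∀ v, P v = 0 ∨ P v = 1 ∨ P v = 2 := by
    intro v
    generalize P v = j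
    fin_cases j <;> simp
  have htot : card W ≤ card (X 0) + card (X 1) + card (X 2) + 2 := by
    have e : ∀ i, card (X i) = #(univ.filter (fun v => v ≠ a ∧ v ≠ b ∧ P v = i)) :=
      fun i => Fintype.card_subtype _
    rw [e, e, e, ← Finset.card_univ]
    have hsub : (univ : Finset W) ⊆ ((univ.filter (fun v => v ≠ a ∧ v ≠ b ∧ P v = 0) ∪
        univ.filter (fun v => v ≠ a ∧ v ≠ b ∧ P v = 1)) ∪
        univ.filter (fun v => v ≠ a ∧ v ≠ b ∧ P v = 2)) ∪ {a, b} := by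
      intro v _
      simp only [mem_union, mem_filter, mem_univ, true_and, mem_insert, mem_singleton]
      by_cases hva : v = a
      · tauto
      by_cases hvb : v = b
      · tauto
      have := hP v
      tauto
    refine (card_le_card hsub).trans ((card_union_le _ _).trans ?_)
    have e1 := card_union_le (univ.filter (fun v => v ≠ a ∧ v ≠ b ∧ P v = 0) ∪
        univ.filter (fun v => v ≠ a ∧ v ≠ b ∧ P v = 1))
        (univ.filter (fun v => v ≠ a ∧ v ≠ b ∧ P v = 2))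
    have e2 := card_union_le (univ.filter (fun v => v ≠ a ∧ v ≠ b ∧ P v = 0))
        (univ.filter (fun v => v ≠ a ∧ v ≠ b ∧ P v = 1))
    have e3 : #({a, b} : Finset W) ≤ 2 := card_le_two
    omega
  obtain ⟨F0, hF0, d0⟩ := rhoLower_dup G (fun i => if i = 0 then nb G x else nb G y) (X 0)
    (fun v => col v.1) δ hδ0.le hδ1 hx
  obtain ⟨F1, hF1, d1⟩ := rhoLower_dup G (fun i => if i = 0 then nb G y else nb G x) (X 1)
    (fun v => col v.1) δ hδ0.le hδ1 hy
  let ψ' : X 2 → {w : W // w ≠ u ∧ w ≠ v} := fun w => ⟨ψ w.1, h4 w.1 w.2.1 w.2.2.1 w.2.2.2⟩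
  have d2 := dupH G (fun s t : {w : W // w ≠ u ∧ w ≠ v} => H.Adj s.1 t.1)
    (fun s => H.irrefl) (pinA H G x y u v) (X 2) ψ' δ hδ0.le hδ1 hpin
  set F2 := DupH_Gd G (fun s t : {w : W // w ≠ u ∧ w ≠ v} => H.Adj s.1 t.1)
    (pinA H G x y u v) (X 2) ψ' with hF2def
  have hF2 : ∀ f ∈ F2, (∀ s, f s ∈ pinA H G x y u v (ψ' s)) ∧
      ∀ s t, H.Adj (ψ' s).1 (ψ' t).1 → G.Adj (f s) (f t) := by
    intro f hf
    rw [hF2def, DupH_mem] at hf
    exact hf
  set T := univ.filter (fun f : W → Fin n =>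
      (∀ a' b', H.Adj a' b' → s(a', b') ≠ s(a, b) → G.Adj (f a') (f b')) ∧
        f a = x ∧ f b = y) with hT
  let Φ : ((X 0 → Fin n) × (X 1 → Fin n) × (X 2 → Fin n)) → (W → Fin n) := fun f v =>
    if h : v = a then x else if h' : v = b then y else
      if h0 : P v = 0 then f.1 ⟨v, h, h', h0⟩ else
        if h1 : P v = 1 then f.2.1 ⟨v, h, h', h1⟩ else
          if h2 : P v = 2 then f.2.2 ⟨v, h, h', h2⟩ else x
  have hba : b ≠ a := hab.ne'
  have Φa : ∀ f, Φ f a = x := by intro f; simp [Φ]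
  have Φb : ∀ f, Φ f b = y := by intro f; simp [Φ, hba]
  have Φ0 : ∀ f v (h : v ≠ a) (h' : v ≠ b) (h0 : P v = 0), Φ f v = f.1 ⟨v, h, h', h0⟩ := by
    intro f v h h' h0
    simp [Φ, h, h', h0]
  have Φ1 : ∀ f v (h : v ≠ a) (h' : v ≠ b) (h0 : P v = 1), Φ f v = f.2.1 ⟨v, h, h', h0⟩ := by
    intro f v h h' h0
    simp [Φ, h, h', h0]
  have Φ2 : ∀ f v (h : v ≠ a) (h' : v ≠ b) (h0 : P v = 2), Φ f v = f.2.2 ⟨v, h, h', h0⟩ := by
    intro f v h h' h0
    have e1 : P v ≠ 0 := by rw [h0]; decide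
    have e2 : P v ≠ 1 := by rw [h0]; decide
    simp [Φ, h, h', h0]
  have hmaps : ∀ f ∈ F0 ×ˢ F1 ×ˢ F2, Φ f ∈ T := by
    intro f hf
    rw [mem_product, mem_product] at hf
    obtain ⟨g0, g1, g2⟩ := hf
    obtain ⟨g0a, g0b⟩ := hF0 _ g0
    obtain ⟨g1a, g1b⟩ := hF1 _ g1
    obtain ⟨g2a, g2b⟩ := hF2 _ g2
    -- neighbours of `a`
    have na : ∀ v, H.Adj a v → v ≠ b → G.Adj x (Φ f v) := by
      intro w hw hwb
      have hwa : w ≠ a := hw.ne'
      obtain ⟨c0, c1, c2⟩ := h2 w hw hwb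
      rcases hP w with h0 | h0 | h0
      · rw [Φ0 f w hwa hwb h0]
        have := g0a ⟨w, hwa, hwb, h0⟩
        simp only [c0 h0, if_true] at this
        exact (mem_nb _ _ _).1 this
      · rw [Φ1 f w hwa hwb h0]
        have := g1a ⟨w, hwa, hwb, h0⟩
        simp only [c1 h0, if_false] at this
        exact (mem_nb _ _ _).1 this
      · rw [Φ2 f w hwa hwb h0]
        have := g2a ⟨w, hwa, hwb, h0⟩
        rw [mem_pinA] at this
        exact this.1 (c2 h0)
    have nbb : ∀ v, H.Adj b v → v ≠ a → G.Adj y (Φ f v) := by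
      intro w hw hwa
      have hwb : w ≠ b := hw.ne'
      obtain ⟨c0, c1, c2⟩ := h3 w hw hwa
      rcases hP w with h0 | h0 | h0
      · rw [Φ0 f w hwa hwb h0]
        have := g0a ⟨w, hwa, hwb, h0⟩
        simp only [c0 h0, if_false] at this
        exact (mem_nb _ _ _).1 this
      · rw [Φ1 f w hwa hwb h0]
        have := g1a ⟨w, hwa, hwb, h0⟩
        simp only [c1 h0, if_true] at this
        exact (mem_nb _ _ _).1 this
      · rw [Φ2 f w hwa hwb h0]
        have := g2a ⟨w, hwa, hwb, h0⟩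
        rw [mem_pinA] at this
        exact this.2 (c2 h0)
    rw [hT, mem_filter]
    refine ⟨mem_univ _, ?_, Φa f, Φb f⟩
    intro v w hvw hs
    by_cases hva : v = a
    · subst hva
      by_cases hwb : w = b
      · subst hwb; exact absurd rfl hs
      · rw [Φa]; exact na w hvw hwb
    by_cases hwa : w = a
    · subst hwa
      by_cases hvb : v = b
      · subst hvb; exact absurd Sym2.eq_swap hs
      · rw [Φa]; exact (na v hvw.symm hvb).symm
    by_cases hvb : v = b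
    · subst hvb
      rw [Φb]; exact nbb w hvw hwa
    by_cases hwb : w = b
    · subst hwb
      rw [Φb]; exact (nbb v hvw.symm hva).symm
    obtain ⟨hPP, hcc, hψψ⟩ := h1 v w hvw hva hvb hwa hwb
    rcases hP v with h0 | h0 | h0
    · rw [Φ0 f v hva hvb h0, Φ0 f w hwa hwb (hPP ▸ h0)]
      exact g0b _ _ (hcc (by rw [h0]; decide))
    · rw [Φ1 f v hva hvb h0, Φ1 f w hwa hwb (hPP ▸ h0)]
      exact g1b _ _ (hcc (by rw [h0]; decide))
    · rw [Φ2 f v hva hvb h0, Φ2 f w hwa hwb (hPP ▸ h0)]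
      exact g2b _ _ (hψψ h0)
  have hinj : Set.InjOn Φ (F0 ×ˢ F1 ×ˢ F2 : Finset _) := by
    intro f _ g _ hfg
    refine Prod.ext ?_ (Prod.ext ?_ ?_)
    · funext ⟨v, hv⟩
      rw [← Φ0 f v hv.1 hv.2.1 hv.2.2, ← Φ0 g v hv.1 hv.2.1 hv.2.2, hfg]
    · funext ⟨v, hv⟩
      rw [← Φ1 f v hv.1 hv.2.1 hv.2.2, ← Φ1 g v hv.1 hv.2.1 hv.2.2, hfg]
    · funext ⟨v, hv⟩
      rw [← Φ2 f v hv.1 hv.2.1 hv.2.2, ← Φ2 g v hv.1 hv.2.1 hv.2.2, hfg]
  have hle : #F0 * (#F1 * #F2) ≤ #T := by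
    rw [← card_product, ← card_product]
    exact card_le_card_of_injOn Φ (fun f hf => hmaps f hf) hinj
  have hrho : (#T : ℝ) ≤ rho H G x y := by
    unfold rho
    have hmem : (a, b) ∈ (univ : Finset (W × W)).filter (fun p => H.Adj p.1 p.2) := by
      rw [mem_filter]; exact ⟨mem_univ _, hab⟩
    refine le_trans ?_ (single_le_sum (fun p _ => Nat.cast_nonneg _) hmem)
    apply Nat.cast_le.2
    apply card_le_card
    intro f hf
    rw [hT, mem_filter] at hf
    rw [mem_filter]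
    exact hf
  have hleR : (#F0 : ℝ) * (#F1 * #F2) ≤ #T := by exact_mod_cast hle
  have e0 : κ * (n : ℝ) ^ card (X 0) ≤ #F0 :=
    (mul_le_mul_of_nonneg_right (hpow 0) (by positivity)).trans d0
  have e1 : κ * (n : ℝ) ^ card (X 1) ≤ #F1 :=
    (mul_le_mul_of_nonneg_right (hpow 1) (by positivity)).trans d1
  have e2 : κ * (n : ℝ) ^ card (X 2) ≤ #F2 :=
    (mul_le_mul_of_nonneg_right (hpow 2) (by positivity)).trans d2
  exact rhoLower_final hκ0 hn1 e0 e1 e2 hleR hrho htot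

open Classical in
/-- copies with `u → x`, `v → y` give pinned patterns -/
lemma pin_pattern (H : SimpleGraph W) (G : SimpleGraph (Fin n)) (x y : Fin n) (u v : W)
    (huv : u ≠ v) (c : ℝ)
    (h : c * (n : ℝ) ^ card W ≤
      (#(univ.filter (fun f : W → Fin n => Hom H G f ∧ f u = x ∧ f v = y)) : ℝ) * (n : ℝ) ^ 2) :
    c * (n : ℝ) ^ card {w : W // w ≠ u ∧ w ≠ v} ≤
      (#(DupH_Gd G (fun s t : {w : W // w ≠ u ∧ w ≠ v} => H.Adj s.1 t.1) (pinA H G x y u v)
        {w : W // w ≠ u ∧ w ≠ v} id) : ℝ) := by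
  have hn : 0 < n := x.pos
  have hn0 : (0 : ℝ) < n := by exact_mod_cast hn
  have hcard : card W = card {w : W // w ≠ u ∧ w ≠ v} + 2 := by
    have e : card {w : W // w ≠ u ∧ w ≠ v} = #(univ.filter (fun w : W => w ≠ u ∧ w ≠ v)) :=
      Fintype.card_subtype _
    have e2 : (univ.filter (fun w : W => w ≠ u ∧ w ≠ v)) = ((univ : Finset W).erase v).erase u := by
      ext w
      simp
    rw [e, e2, card_erase_of_mem (by simp [huv]), card_erase_of_mem (by simp), Finset.card_univ]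
    have : 2 ≤ card W := by
      have h1 : #({u, v} : Finset W) ≤ card W := card_le_univ _
      rwa [card_pair huv] at h1
    omega
  have hle : #(univ.filter (fun f : W → Fin n => Hom H G f ∧ f u = x ∧ f v = y)) ≤
      #(DupH_Gd G (fun s t : {w : W // w ≠ u ∧ w ≠ v} => H.Adj s.1 t.1) (pinA H G x y u v)
        {w : W // w ≠ u ∧ w ≠ v} id) := by
    apply card_le_card_of_injOn (fun f => fun w : {w : W // w ≠ u ∧ w ≠ v} => f w.1)
    · intro f hf
      rw [mem_coe, mem_filter] at hf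
      obtain ⟨-, hf, hu, hv⟩ := hf
      rw [mem_coe, DupH_mem]
      refine ⟨fun s => ?_, fun s t hst => hf _ _ hst⟩
      rw [mem_pinA]
      refine ⟨fun hs => ?_, fun hs => ?_⟩
      · rw [← hu]; exact hf _ _ hs
      · rw [← hv]; exact hf _ _ hs
    · intro f hf g hg hfg
      rw [mem_coe, mem_filter] at hf hg
      funext w
      by_cases hwu : w = u
      · rw [hwu, hf.2.2.1, hg.2.2.1]
      by_cases hwv : w = v
      · rw [hwv, hf.2.2.2, hg.2.2.2]
      exact congrFun hfg ⟨w, hwu, hwv⟩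
  have hle' : (#(univ.filter (fun f : W → Fin n => Hom H G f ∧ f u = x ∧ f v = y)) : ℝ) ≤
      #(DupH_Gd G (fun s t : {w : W // w ≠ u ∧ w ≠ v} => H.Adj s.1 t.1) (pinA H G x y u v)
        {w : W // w ≠ u ∧ w ≠ v} id) := by exact_mod_cast hle
  refine le_trans ?_ hle'
  rw [hcard, pow_add, ← mul_assoc] at h
  exact le_of_mul_le_mul_right h (by positivity)

/-- the hypothesis of the second theorem -/
def PinFolds (q : ℕ) (H : SimpleGraph W) : Prop :=
  ∀ u v : W, u ≠ v → ¬ H.Adj u v → (H ⊔ SimpleGraph.edge u v).CliqueFree (q + 2) → PinFold q H u v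

theorem highUse_of_pinFolds (q : ℕ) (hq : 1 ≤ q) (H : SimpleGraph W) (hcol : H.Colorable (q + 1))
    (hedge : ∃ a b, H.Adj a b) (hna : ∃ u v, u ≠ v ∧ ¬ H.Adj u v) (hfold : PinFolds q H) :
    ∃ c : ℝ, 0 < c ∧ ∃ n₀ : ℕ, ∀ n ≥ n₀, ∀ G : SimpleGraph (Fin n), Ext q H G →
      HighUse H G c := by
  classical
  obtain ⟨δ₁, hδ₁, n₁, h₁⟩ := one_rich q hq H hcol hedge
  obtain ⟨c₁, hc₁, n₂, h₂⟩ := bb_pair q hq H hcol hedge hna
  have hW : (0 : ℝ) < (card W : ℝ) ^ 2 := by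
    obtain ⟨a, _, _⟩ := hedge
    have : 0 < card W := Fintype.card_pos_iff.2 ⟨a⟩
    positivity
  set δ := min (min δ₁ (c₁ / 2 / (card W : ℝ) ^ 2)) 1 with hδ
  have hδ0 : 0 < δ := lt_min (lt_min hδ₁ (by positivity)) one_pos
  have hδ1 : δ ≤ 1 := min_le_right _ _
  have hδδ₁ : δ ≤ δ₁ := (min_le_left _ _).trans (min_le_left _ _)
  have hδc : δ ≤ c₁ / 2 / (card W : ℝ) ^ 2 := (min_le_left _ _).trans (min_le_right _ _)
  set κ := δ ^ (2 ^ card W) with hκ
  have hκ0 : 0 < κ := by positivity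
  refine ⟨min (c₁ / 2) (κ ^ 3), lt_min (by positivity) (by positivity), max n₁ n₂, ?_⟩
  intro n hn G hG x y hxy
  have hn₁ : n₁ ≤ n := le_trans (le_max_left _ _) hn
  have hn₂ : n₂ ≤ n := le_trans (le_max_right _ _) hn
  have hn0 : (0 : ℝ) < n := by
    have : 0 < n := x.pos
    exact_mod_cast this
  have hP : (0 : ℝ) < (n : ℝ) ^ card W := by positivity
  by_cases hr : c₁ / 2 * (n : ℝ) ^ card W ≤ rho H G x y * (n : ℝ) ^ 2
  · refine le_trans ?_ hr
    exact mul_le_mul_of_nonneg_right (min_le_left _ _) hP.le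
  · push Not at hr
    have hB := h₂ n hn₂ G hG x y hxy.ne
    rw [BB_eq, if_pos hxy, add_mul] at hB
    have hB0 : c₁ / 2 * (n : ℝ) ^ card W ≤ B0 H G x y * (n : ℝ) ^ 2 := by
      have e : c₁ * (n : ℝ) ^ card W = c₁ / 2 * (n : ℝ) ^ card W + c₁ / 2 * (n : ℝ) ^ card W := by
        ring
      rw [e] at hB
      linarith
    -- a good pair `(u, v)`
    obtain ⟨u, v, huv, hnadj, hcount⟩ : ∃ u v, u ≠ v ∧ ¬ H.Adj u v ∧
        c₁ / 2 / (card W : ℝ) ^ 2 * (n : ℝ) ^ card W ≤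
        (#(univ.filter (fun f : W → Fin n => Hom H G f ∧ f u = x ∧ f v = y)) : ℝ) *
          (n : ℝ) ^ 2 := by
      by_contra hcon
      push Not at hcon
      set PP := (univ : Finset (W × W)).filter (fun p => p.1 ≠ p.2 ∧ ¬ H.Adj p.1 p.2) with hPP
      have h3 : B0 H G x y * (n : ℝ) ^ 2 ≤ ∑ p ∈ PP,
          (c₁ / 2 / (card W : ℝ) ^ 2 * (n : ℝ) ^ card W) := by
        unfold B0
        rw [sum_mul]
        apply sum_le_sum
        intro p hp
        have hp' := (mem_filter.mp hp).2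
        exact (hcon p.1 p.2 hp'.1 hp'.2).le
      have hne : PP.Nonempty := by
        by_contra hempty
        rw [not_nonempty_iff_eq_empty] at hempty
        rw [hempty, Finset.sum_empty] at h3
        have : 0 < c₁ / 2 * (n : ℝ) ^ card W := by positivity
        linarith
      have h3' : B0 H G x y * (n : ℝ) ^ 2 < ∑ p ∈ PP,
          (c₁ / 2 / (card W : ℝ) ^ 2 * (n : ℝ) ^ card W) := by
        unfold B0
        rw [sum_mul]
        apply sum_lt_sum_of_nonempty hne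
        intro p hp
        have hp' := (mem_filter.mp hp).2
        exact hcon p.1 p.2 hp'.1 hp'.2
      have h4 : ∑ p ∈ PP, (c₁ / 2 / (card W : ℝ) ^ 2 * (n : ℝ) ^ card W) ≤
          c₁ / 2 * (n : ℝ) ^ card W := by
        rw [sum_const, nsmul_eq_mul]
        have h5 : (#PP : ℝ) ≤ (card W : ℝ) ^ 2 := Basics_card_pairs PP
        calc (#PP : ℝ) * (c₁ / 2 / (card W : ℝ) ^ 2 * (n : ℝ) ^ card W)
            ≤ (card W : ℝ) ^ 2 * (c₁ / 2 / (card W : ℝ) ^ 2 * (n : ℝ) ^ card W) :=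
              mul_le_mul_of_nonneg_right h5 (by positivity)
          _ = c₁ / 2 * (n : ℝ) ^ card W := by
            rw [← mul_assoc, mul_div_cancel₀ _ hW.ne']
      linarith
    -- `H + uv` is clique free
    have hfree : (H ⊔ SimpleGraph.edge u v).CliqueFree (q + 2) := by
      have hpos : 0 < #(univ.filter (fun f : W → Fin n => Hom H G f ∧ f u = x ∧ f v = y)) := by
        by_contra h0
        have h0' : #(univ.filter (fun f : W → Fin n => Hom H G f ∧ f u = x ∧ f v = y)) = 0 := by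
          omega
        rw [h0'] at hcount
        have : 0 < c₁ / 2 / (card W : ℝ) ^ 2 * (n : ℝ) ^ card W := by positivity
        simp at hcount
        linarith
      obtain ⟨f, hf⟩ := card_pos.mp hpos
      rw [mem_filter] at hf
      obtain ⟨-, hf, hu, hv⟩ := hf
      have hle : H ⊔ SimpleGraph.edge u v ≤ G.comap f := by
        intro s t hst
        rw [SimpleGraph.comap_adj]
        rcases hst with h | h
        · exact hf s t h
        · rw [SimpleGraph.edge_adj] at h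
          rcases h.1 with ⟨rfl, rfl⟩ | ⟨rfl, rfl⟩
          · rw [hu, hv]; exact hxy
          · rw [hu, hv]; exact hxy.symm
      exact (secondOrder_cliqueFree_comap G f (q + 2) hG.1).anti hle
    have hpin := pin_pattern H G x y u v huv (c₁ / 2 / (card W : ℝ) ^ 2) hcount
    have hpin' : δ * (n : ℝ) ^ card {w : W // w ≠ u ∧ w ≠ v} ≤
      (#(DupH_Gd G (fun s t : {w : W // w ≠ u ∧ w ≠ v} => H.Adj s.1 t.1) (pinA H G x y u v)
        {w : W // w ≠ u ∧ w ≠ v} id) : ℝ) :=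
      (mul_le_mul_of_nonneg_right hδc (by positivity)).trans hpin
    have hfin := pin_main q H G x y κ δ hδ0 hδ1 hκ u v
      ((mul_le_mul_of_nonneg_right hδδ₁ (by positivity)).trans (h₁ n hn₁ G hG x y hxy))
      ((mul_le_mul_of_nonneg_right hδδ₁ (by positivity)).trans (h₁ n hn₁ G hG y x hxy.symm))
      hpin' (hfold u v huv hnadj hfree)
    refine le_trans ?_ hfin
    exact mul_le_mul_of_nonneg_right (min_le_right _ _) hP.le

theorem main_pinFolds (q : ℕ) (hq : 1 ≤ q) (H : SimpleGraph W) (hcol : H.Colorable (q + 1))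
    (hedge : ∃ a b, H.Adj a b) (hna : ∃ u v, u ≠ v ∧ ¬ H.Adj u v) (hfold : PinFolds q H) :
    ∃ (m : ℕ) (G₀ : SimpleGraph (Fin m)) (n₀ : ℕ), ∀ n ≥ n₀, ∃ φ : Fin n → Fin m,
      Ext q H (G₀.comap φ) := by
  obtain ⟨c, hc, n₀, h⟩ := highUse_of_pinFolds q hq H hcol hedge hna hfold
  exact main_of_highUse q hq H hcol hedge c hc n₀ h

end H78B
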