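import Pool.Agent.H78.Blow.Defs
import Pool.Agent.H78.Blow.Dup
import Pool.Agent.H78.Blow.DupH
import Pool.Agent.H78.Blow.Basics
import Pool.Agent.H78.Blow.SecondOrder
import Pool.Agent.H78.Blow.TStar
import Pool.Agent.H78.Blow.RhoLower
import Pool.Agent.H78.Blow.OneRich
import Pool.Agent.H78.Blow.RhoLowerStar

set_option autoImplicit false

/-!
Every pair of vertices of an extremal graph lies in many copies of `H`; for an edge `xy` of low
usage the pair is covered by copies in which `x`, `y` are the images of a nonadjacent pair `u`, `v`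
(pinned patterns).
-/

open Finset Fintype

namespace H78B

variable {n : ℕ} {W : Type} [Fintype W]

omit [Fintype W] in
/-- if `H` is `(q+1)`-colourable and not complete then some `(q+1)`-colouring is not injective. -/
theorem pin_coloring [Finite W] (q : ℕ) (H : SimpleGraph W) (hcol : H.Colorable (q + 1))
    (hna : ∃ u v, u ≠ v ∧ ¬ H.Adj u v) :
    ∃ (χ : H.Coloring (Fin (q + 1))) (u v : W), u ≠ v ∧ χ u = χ v := by
  classical
  have := Fintype.ofFinite W
  by_cases hc : q + 1 < card W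
  · obtain ⟨χ⟩ := hcol
    obtain ⟨u, v, huv, h⟩ := Fintype.exists_ne_map_eq_of_card_lt χ (by simpa using hc)
    exact ⟨χ, u, v, huv, h⟩
  · obtain ⟨u, v, huv, hn⟩ := hna
    have hle : card W ≤ card (Fin (q + 1)) := by simpa using not_lt.mp hc
    obtain ⟨e⟩ := Function.Embedding.nonempty_of_card_le hle
    refine ⟨SimpleGraph.Coloring.mk (fun w => e (if w = v then u else w)) ?_, u, v, huv, ?_⟩
    · intro a b hab h
      have h1 := e.injective h
      by_cases ha : a = v
      · by_cases hb : b = v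
        · rw [ha, hb] at hab; exact H.irrefl hab
        · rw [if_pos ha, if_neg hb] at h1
          rw [ha, ← h1] at hab
          exact hn hab.symm
      · by_cases hb : b = v
        · rw [if_neg ha, if_pos hb] at h1
          rw [hb, h1] at hab
          exact hn hab
        · rw [if_neg ha, if_neg hb] at h1
          rw [h1] at hab
          exact H.irrefl hab
    · show e (if u = v then u else u) = e (if v = v then u else v)
      simp

open Classical in
/-- the pair `(x, x)` is covered by many copies. -/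
theorem bb_self (q : ℕ) (H : SimpleGraph W) (G : SimpleGraph (Fin n)) (x : Fin n)
    (δ : ℝ) (hδ0 : 0 < δ) (hδ1 : δ ≤ 1) (χ : H.Coloring (Fin (q + 1))) (u v : W) (huv : u ≠ v)
    (hχ : χ u = χ v) (hx : δ * (n : ℝ) ^ (q + 1) ≤ EE q G (nb G x)) :
    δ ^ (2 ^ card W) * (n : ℝ) ^ card W ≤ BB H G x x * (n : ℝ) ^ 2 := by
  have hn : 0 < n := x.pos
  have hn0 : (0 : ℝ) < n := by exact_mod_cast hn
  have hn1 : (1 : ℝ) ≤ n := by exact_mod_cast hn
  let X : Type := {w : W // w ≠ u ∧ w ≠ v}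
  have hcard : card X ≤ card W := Fintype.card_subtype_le _
  have hpow : δ ^ (2 ^ card W) ≤ δ ^ (2 ^ card X) :=
    pow_le_pow_of_le_one hδ0.le hδ1 (Nat.pow_le_pow_right (by norm_num) hcard)
  have htot : card W ≤ card X + 2 := by
    have e : card X = #(univ.filter (fun w => w ≠ u ∧ w ≠ v)) := Fintype.card_subtype _
    rw [e, ← Finset.card_univ]
    have hsub : (univ : Finset W) ⊆ univ.filter (fun w => w ≠ u ∧ w ≠ v) ∪ {u, v} := by
      intro w _
      simp only [mem_union, mem_filter, mem_univ, true_and, mem_insert, mem_singleton]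
      tauto
    refine (card_le_card hsub).trans ((card_union_le _ _).trans ?_)
    have e3 : #({u, v} : Finset W) ≤ 2 := card_le_two
    omega
  let χ' : W → Fin (q + 1) := fun w => Equiv.swap (χ u) 0 (χ w)
  have hχ' : ∀ a b, H.Adj a b → χ' a ≠ χ' b := fun a b h hh =>
    χ.valid h ((Equiv.swap (χ u) 0).injective hh)
  have hu0 : χ' u = 0 := Equiv.swap_apply_left _ _
  have hv0 : χ' v = 0 := by show Equiv.swap (χ u) 0 (χ v) = 0; rw [← hχ]; exact hu0
  obtain ⟨F, hF, dF⟩ := rhoLower_dup G (fun i => if i = 0 then univ else nb G x) X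
    (fun w => χ' w.1) δ hδ0.le hδ1 hx
  set T := univ.filter (fun f : W → Fin n => Hom H G f ∧ f u = x ∧ f v = x) with hT
  let Φ : (X → Fin n) → (W → Fin n) := fun f w =>
    if h : w ≠ u ∧ w ≠ v then f ⟨w, h⟩ else x
  have Φu : ∀ f, Φ f u = x := by intro f; simp [Φ]
  have Φv : ∀ f, Φ f v = x := by intro f; simp [Φ]
  have Φo : ∀ f w (h : w ≠ u ∧ w ≠ v), Φ f w = f ⟨w, h⟩ := by
    intro f w h
    simp only [Φ]
    rw [dif_pos h]
  have hadj : ∀ f ∈ F, ∀ w, H.Adj u w ∨ H.Adj v w → G.Adj x (Φ f w) := by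
    intro f hf w hw
    have hne : w ≠ u ∧ w ≠ v := by
      constructor
      · rintro rfl
        rcases hw with h | h
        · exact H.irrefl h
        · exact hχ' _ _ h (by rw [hu0, hv0])
      · rintro rfl
        rcases hw with h | h
        · exact hχ' _ _ h (by rw [hu0, hv0])
        · exact H.irrefl h
    rw [Φo f w hne]
    have h1 := (hF f hf).1 ⟨w, hne⟩
    have h2 : χ' w ≠ 0 := by
      rcases hw with h | h
      · rw [← hu0]; exact (hχ' _ _ h).symm
      · rw [← hv0]; exact (hχ' _ _ h).symm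
    simp only [h2, if_false] at h1
    exact (mem_nb _ _ _).1 h1
  have hmaps : ∀ f ∈ F, Φ f ∈ T := by
    intro f hf
    rw [hT, mem_filter]
    refine ⟨mem_univ _, ?_, Φu f, Φv f⟩
    intro a b hab
    by_cases ha : a = u
    · rw [ha, Φu]; rw [ha] at hab; exact hadj f hf b (Or.inl hab)
    by_cases ha' : a = v
    · rw [ha', Φv]; rw [ha'] at hab; exact hadj f hf b (Or.inr hab)
    by_cases hb : b = u
    · rw [hb, Φu]; rw [hb] at hab; exact (hadj f hf a (Or.inl hab.symm)).symm
    by_cases hb' : b = v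
    · rw [hb', Φv]; rw [hb'] at hab; exact (hadj f hf a (Or.inr hab.symm)).symm
    rw [Φo f a ⟨ha, ha'⟩, Φo f b ⟨hb, hb'⟩]
    exact (hF f hf).2 _ _ (hχ' a b hab)
  have hinj : Set.InjOn Φ (F : Set _) := by
    intro f _ g _ hfg
    funext ⟨w, hw⟩
    rw [← Φo f w hw, ← Φo g w hw, hfg]
  have hle : #F ≤ #T := card_le_card_of_injOn Φ (fun f hf => hmaps f hf) hinj
  have hB : (#T : ℝ) ≤ BB H G x x := by
    unfold BB
    have hmem : (u, v) ∈ (univ : Finset (W × W)).filter (fun p => p.1 ≠ p.2) := by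
      rw [mem_filter]; exact ⟨mem_univ _, huv⟩
    refine le_trans ?_ (single_le_sum (fun p _ => Nat.cast_nonneg _) hmem)
    apply Nat.cast_le.2
    apply card_le_card
    intro f hf
    rw [hT, mem_filter] at hf
    rw [mem_filter]
    exact hf
  have h1 : δ ^ (2 ^ card W) * (n : ℝ) ^ card X ≤ #F :=
    (mul_le_mul_of_nonneg_right hpow (by positivity)).trans dF
  have h2 : (#F : ℝ) ≤ #T := by exact_mod_cast hle
  have h3 : (n : ℝ) ^ card W ≤ (n : ℝ) ^ (card X + 2) := pow_le_pow_right₀ hn1 htot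
  calc δ ^ (2 ^ card W) * (n : ℝ) ^ card W
      ≤ δ ^ (2 ^ card W) * (n : ℝ) ^ (card X + 2) := mul_le_mul_of_nonneg_left h3 (by positivity)
    _ = (δ ^ (2 ^ card W) * (n : ℝ) ^ card X) * (n : ℝ) ^ 2 := by ring
    _ ≤ BB H G x x * (n : ℝ) ^ 2 :=
        mul_le_mul_of_nonneg_right ((h1.trans h2).trans hB) (by positivity)

/-- every pair is covered by many copies. -/
theorem bb_pair (q : ℕ) (hq : 1 ≤ q) (H : SimpleGraph W) (hcol : H.Colorable (q + 1))
    (hedge : ∃ a b, H.Adj a b) (hna : ∃ u v, u ≠ v ∧ ¬ H.Adj u v) :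
    ∃ c : ℝ, 0 < c ∧ ∃ n₀ : ℕ, ∀ n ≥ n₀, ∀ G : SimpleGraph (Fin n), Ext q H G →
      ∀ x y : Fin n, x ≠ y → c * (n : ℝ) ^ card W ≤ BB H G x y * (n : ℝ) ^ 2 := by
  classical
  obtain ⟨C, hC⟩ := second_order q H
  obtain ⟨δ₁, κ, hδ₁, hκ, n₁, h₁⟩ := tstar q hq H hcol hedge
  obtain ⟨χ, u, v, huv, hχ⟩ := pin_coloring q H hcol hna
  set δ := min δ₁ 1 with hδ
  have hδ0 : 0 < δ := lt_min hδ₁ one_pos
  have hδ1 : δ ≤ 1 := min_le_right _ _
  set c := δ ^ (2 ^ card W) with hc
  have hc0 : 0 < c := by positivity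
  obtain ⟨m, hm⟩ := exists_nat_gt (|C 1| / c)
  refine ⟨c / 2, by positivity, max n₁ (max m 1), ?_⟩
  intro n hn G hG x y hxy
  have hn₁ : n₁ ≤ n := le_trans (le_max_left _ _) hn
  have hnm : m ≤ n := le_trans (le_trans (le_max_left _ _) (le_max_right _ _)) hn
  have hn1 : 1 ≤ n := le_trans (le_trans (le_max_right _ _) (le_max_right _ _)) hn
  have hn0 : (0 : ℝ) < n := by exact_mod_cast hn1
  have hEE : ∀ z, δ * (n : ℝ) ^ (q + 1) ≤ EE q G (nb G z) := by
    intro z
    refine le_trans ?_ (h₁ n hn₁ G hG z (nb G z) ?_)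
    · exact mul_le_mul_of_nonneg_right (min_le_left _ _) (by positivity)
    · have : 0 ≤ κ * (n : ℝ) ^ card W := by positivity
      linarith
  have hself : ∀ z, c * (n : ℝ) ^ card W ≤ BB H G z z * (n : ℝ) ^ 2 := fun z =>
    bb_self q H G z δ hδ0 hδ1 χ u v huv hχ (hEE z)
  have hSO := hC n G hG 1 (fun _ => x) (fun _ => y) (fun i j _ => Subsingleton.elim i j)
    (fun i j _ => Subsingleton.elim i j) (fun _ _ => hxy)
  simp only [univ_unique, sum_const, card_singleton, one_smul] at hSO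
  have hX := hself x
  have hY := hself y
  have hCn : |C 1| ≤ c * n := by
    have h1 : |C 1| / c < n := lt_of_lt_of_le hm (by exact_mod_cast hnm)
    rw [div_lt_iff₀ hc0] at h1
    linarith
  have hP : (0 : ℝ) < (n : ℝ) ^ card W := by positivity
  have h2 : C 1 * (n : ℝ) ^ card W ≤ c * n * (n : ℝ) ^ card W :=
    mul_le_mul_of_nonneg_right ((le_abs_self _).trans hCn) hP.le
  have h3 : (c * (n : ℝ) ^ card W) * n ≤ (BB H G x x * (n : ℝ) ^ 2) * n :=
    mul_le_mul_of_nonneg_right hX hn0.le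
  have h4 : (c * (n : ℝ) ^ card W) * n ≤ (BB H G y y * (n : ℝ) ^ 2) * n :=
    mul_le_mul_of_nonneg_right hY hn0.le
  have h5 : (c / 2 * (n : ℝ) ^ card W) * n ≤ (BB H G x y * (n : ℝ) ^ 2) * n := by
    have e1 : (BB H G x x + BB H G y y - 2 * BB H G x y) * (n : ℝ) ^ 3 =
        (BB H G x x * (n : ℝ) ^ 2) * n + (BB H G y y * (n : ℝ) ^ 2) * n
          - 2 * ((BB H G x y * (n : ℝ) ^ 2) * n) := by ring
    rw [e1] at hSO
    have e2 : c * n * (n : ℝ) ^ card W = (c * (n : ℝ) ^ card W) * n := by ring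
    rw [e2] at h2
    have e3 : (c / 2 * (n : ℝ) ^ card W) * n = (c * (n : ℝ) ^ card W) * n / 2 := by ring
    rw [e3]
    linarith
  exact le_of_mul_le_mul_right h5 hn0

end H78B
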