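import Pool.Agent.H78.Blow.RhoLowerStar

set_option autoImplicit false

open Finset Fintype

namespace H78B

variable {W : Type}

/-- `H` arises by gluing graphs at the vertices of a graph `F` (induced on the fixed points of `π`)
which has a proper `(q+1)`-colouring `s` in which the neighbourhood of some non-isolated vertex `a`
of `F` is monochromatic. -/
def FoldVertexStar (q : ℕ) (H : SimpleGraph W) : Prop :=
  ∃ (π : W → W) (s : W → Fin (q + 1)) (a b : W), (∀ v, π (π v) = π v) ∧
    (∀ v w, H.Adj v w → π v = π w ∨ (π v = v ∧ π w = w ∧ s v ≠ s w)) ∧
    H.Adj a b ∧ π a ≠ π b ∧ ∀ v, H.Adj a v → π v ≠ π a → s v = s b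

theorem sepStar_of_foldVertex (q : ℕ) (H : SimpleGraph W) (hcol : H.Colorable (q + 1))
    (h : FoldVertexStar q H) : SepStar q H := by
  classical
  obtain ⟨χ⟩ := hcol
  obtain ⟨π, s, a, b, hπ, hedge, hab, hne, ha⟩ := h
  have hfix : π a = a ∧ π b = b := by
    rcases hedge a b hab with h | ⟨h1, h2, -⟩
    · exact absurd h hne
    · exact ⟨h1, h2⟩
  set θ : Equiv.Perm (Fin (q + 1)) := Equiv.swap (s b) 0 with hθ
  have hθb : θ (s b) = 0 := Equiv.swap_apply_left _ _
  set t : W → Fin (q + 1) := fun v => θ (s v) with ht
  -- the part: `false` on the graph glued at `a`, `true` elsewhere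
  set P : W → Bool := fun v => decide (π v ≠ a) with hP
  -- the colouring
  set r : W → Fin (q + 1) := fun v => if π v = a ∨ π v = b then 0 else t (π v) with hr
  set col : W → Fin (q + 1) := fun v => Equiv.swap (χ (π v)) (r v) (χ v) with hcoldef
  have hrπ : ∀ v w, π v = π w → r v = r w := by
    intro v w h
    simp only [hr, h]
  have hcolfix : ∀ v, π v = v → col v = r v := by
    intro v hv
    simp only [hcoldef, hv, Equiv.swap_apply_left]
  have hcolfib : ∀ v w, H.Adj v w → π v = π w → col v ≠ col w := by
    intro v w hvw hπvw h
    have h1 := hrπ v w hπvw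
    simp only [hcoldef, hπvw, h1] at h
    exact χ.valid hvw ((Equiv.swap _ _).injective h)
  refine ⟨a, b, P, col, hab, ?_, ?_, ?_⟩
  · intro v w hvw hva hvb hwa hwb
    rcases hedge v w hvw with h | ⟨h1, h2, h3⟩
    · refine ⟨?_, hcolfib v w hvw h⟩
      simp only [hP, h]
    · constructor
      · simp only [hP, h1, h2]
        rw [decide_eq_true (by simpa using hva), decide_eq_true (by simpa using hwa)]
      · rw [hcolfix v h1, hcolfix w h2]
        have e1 : r v = t v := by
          simp only [hr, h1]
          rw [if_neg (by rintro (h | h); exacts [hva h, hvb h])]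
        have e2 : r w = t w := by
          simp only [hr, h2]
          rw [if_neg (by rintro (h | h); exacts [hwa h, hwb h])]
        rw [e1, e2]
        exact fun h => h3 (θ.injective h)
  · intro v hav hvb
    by_cases hv : π v = a
    · have h1 : P v = false := by simp [hP, hv]
      have h2 : col v ≠ 0 := by
        have hca : col a = 0 := by
          rw [hcolfix a hfix.1]
          simp [hr, hfix.1]
        rw [← hca]
        exact (hcolfib a v hav (by rw [hfix.1, hv])).symm
      rw [h1]
      exact ⟨fun h => absurd h h2, fun h => absurd h (by decide)⟩
    · have h1 : P v = true := by simp [hP, hv]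
      rw [h1]
      refine ⟨fun _ => rfl, fun _ => ?_⟩
      rcases hedge a v hav with h | ⟨-, h3, -⟩
      · exact absurd (h.symm.trans hfix.1) hv
      · rw [hcolfix v h3]
        have hπv : π v ≠ π a := by rw [hfix.1]; exact hv
        have e1 : r v = t v := by
          simp only [hr, h3]
          rw [if_neg]
          rintro (h | h)
          · exact hv (by rw [h3, h])
          · exact hvb h
        rw [e1]
        simp only [ht, ha v hav hπv, hθb]
  · intro v hbv hva
    by_cases hv : π v = b
    · have h1 : P v = true := by
        simp only [hP, hv]
        exact decide_eq_true (by simpa using hab.ne')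
      have h2 : col v ≠ 0 := by
        have hcb : col b = 0 := by
          rw [hcolfix b hfix.2]
          simp [hr, hfix.2]
        rw [← hcb]
        exact (hcolfib b v hbv (by rw [hfix.2, hv])).symm
      rw [h1]
      exact ⟨fun h => absurd h h2, fun h => absurd h (by decide)⟩
    · rcases hedge b v hbv with h | ⟨-, h3, h4⟩
      · exact absurd (h.symm.trans hfix.2) hv
      · have h1 : P v = true := by
          simp only [hP, h3]
          exact decide_eq_true (by simpa using hva)
        have h2 : col v ≠ 0 := by
          rw [hcolfix v h3]
          have e1 : r v = t v := by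
            simp only [hr, h3]
            rw [if_neg]
            rintro (h | h)
            · exact hva h
            · exact hv (by rw [h3, h])
          rw [e1]
          intro h
          apply h4
          apply θ.injective
          rw [hθb]
          exact h.symm
        rw [h1]
        exact ⟨fun h => absurd h h2, fun h => absurd h (by decide)⟩

end H78B
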